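import Pool.Agent.H405.Stm

set_option autoImplicit false

/-! Project H405: (7.5) from the other pieces. -/

namespace Pool.Agent.H405

open Set Topology Filter Metric
open Pool.Agent.R638.DD

theorem isDen_unit : IsDen Unit where
  compact := inferInstance
  metrizable := inferInstance
  connected := inferInstance
  locConn := inferInstance
  third := fun u v h => (h (Subsingleton.elim u v)).elim

theorem Tile.mono {Y L : Type} [MetricSpace Y] {T : Set (Y × L)} {R R' : Set Y}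
    (h : Tile T R) (hR : R ⊆ R') : Tile T R' := by
  obtain ⟨ι, hι, P, iP, x, h, h1, h2, h3, h4, h5, h6, h7⟩ := h
  exact ⟨ι, hι, P, iP, x, h, h1, h2, fun i => hR (h3 i), h4, h5, h6, h7⟩

/-- `m` copies of `M` with root `a`. -/
theorem tile_copies {Y : Type} [MetricSpace Y] (m : ℕ) (M : Set Y) (a : Y) (hM : IsDen ↥M)
    (ha : a ∈ M) : Tile ((M \ {a}) ×ˢ (univ : Set (Fin m))) {a} := by
  refine ⟨Fin m, inferInstance, fun _ => ↥M, fun _ => inferInstance, fun _ => ⟨a, ha⟩,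
    fun i p => (p.1, i), fun _ => hM, fun _ => continuous_subtype_val, fun _ => rfl, ?_, ?_, ?_,
    fun ε _ => Set.toFinite _⟩
  · intro i p _ q _ h
    exact Subtype.ext (congrArg Prod.fst h)
  · intro i j hij p q _ _ h
    exact hij (congrArg Prod.snd h)
  · ext ⟨y, i⟩
    simp only [mem_iUnion, mem_image, mem_compl_iff, mem_singleton_iff, mem_prod, mem_univ,
      and_true, Set.mem_sdiff, Prod.mk.injEq]
    constructor
    · rintro ⟨j, p, hp, rfl, rfl⟩
      exact ⟨p.2, fun h => hp (Subtype.ext h)⟩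
    · rintro ⟨h1, h2⟩
      exact ⟨i, ⟨y, h1⟩, fun h => h2 (congrArg Subtype.val h), rfl, rfl⟩

theorem TP.mono {Y : Type} [MetricSpace Y] {S S' : Set Y} (h : TP S) (hS : S' ⊆ S) : TP S' := by
  intro u hu v hv huv
  obtain ⟨A, B, hA, hB, huA, hvB, h1, h2⟩ := h u (hS hu) v (hS hv) huv
  refine ⟨A, B, hA, hB, huA, hvB, ?_, ?_⟩
  · rw [← subset_empty_iff, ← h1]
    exact inter_subset_inter_right _ hS
  · exact h2.anti (Set.sdiff_subset_sdiff_left hS)

theorem LTP.mono {Y : Type} [MetricSpace Y] {S S' : Set Y} {p : Y} (h : LTP S p) (hS : S' ⊆ S) :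
    LTP S' p := by
  obtain ⟨r, hr, h⟩ := h
  exact ⟨r, hr, h.mono (inter_subset_inter_left _ hS)⟩

theorem Red.mono {Y : Type} [MetricSpace Y] {m : ℕ} {A A' U U' : Set Y} (h : Red m A A' U)
    (hU : U ⊆ U') : Red m A A' U' := by
  obtain ⟨ρ, h1, h2, h3, h4⟩ := h.retr
  exact ⟨h.sub, h.closed, h.rem.trans hU, h.tile.mono (inter_subset_inter_right _ hU),
    ρ, h1, h2, h3, fun x hx => hU (h4 x hx)⟩

theorem t75 (h31 : Stm31) (h32 : Stm32) (h35 : Stm35) (h71 : Stm71) (h72 : Stm72)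
    (h73 : Stm73) (h74 : Stm74) : Stm75 := by
  intro X Y _ _ _ f k hX hf hk hfib m hm
  have hcX := hX.compact
  have hconX := hX.connected
  have hmX := hX.metrizable
  have hSTP : STP Y := h71 X Y f k hX hf (by omega) hfib
  have hsurj : range f = univ := by
    rw [eq_univ_iff_forall]
    intro y
    have : (f ⁻¹' {y}).Nonempty := by
      rw [← ncard_pos (Set.finite_of_ncard_pos (by rw [hfib]; omega)), hfib]; omega
    obtain ⟨x, hx⟩ := this
    exact ⟨x, hx⟩
  have hPP : PP (univ : Set Y) := ⟨X, inferInstance, f, hX, hf, hsurj⟩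
  have hnTP : ¬ TP (univ : Set Y) := h72 X Y f k hf hk hfib
  obtain ⟨e, a, b, heo, hab, hae, hbe, hcl, hden, hLTP, ρ, hρ, hρr⟩ := h73 Y hSTP hPP hnTP
  have hPP1 : PP eᶜ := by
    refine ⟨X, inferInstance, ρ ∘ f, hX, hρ.comp hf, ?_⟩
    rw [range_comp, hsurj, image_univ, hρr]
  obtain ⟨M, hM1, haM, hMden, hMt⟩ := h74 Y m hm hSTP eᶜ a hPP1 hae (hLTP.mono (subset_univ _))
  -- tile `eᶜ \ {a}`
  have t1 : Tile ((M \ {a}) ×ˢ (univ : Set (Fin m))) {a} := tile_copies m M a hMden haM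
  have t2 : Tile ((eᶜ \ {a}) ×ˢ (univ : Set (Fin m))) {a} := by
    have h := h32 Y (Fin m) ((eᶜ \ M) ×ˢ univ) ((M \ {a}) ×ˢ univ) {a} ?_ t1 ?_
    · have e1 : (eᶜ \ M) ×ˢ (univ : Set (Fin m)) ∪ (M \ {a}) ×ˢ univ = (eᶜ \ {a}) ×ˢ univ := by
        rw [← union_prod]
        congr 1
        ext y
        simp only [mem_union, Set.mem_sdiff, mem_compl_iff, mem_singleton_iff]
        constructor
        · rintro (⟨h, h'⟩ | ⟨h, h'⟩)
          · exact ⟨h, fun hh => h' (hh ▸ haM)⟩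
          · exact ⟨hM1 h, h'⟩
        · rintro ⟨h, h'⟩
          by_cases hy : y ∈ M
          · exact Or.inr ⟨hy, h'⟩
          · exact Or.inl ⟨h, hy⟩
      rw [e1] at h
      exact h
    · rw [Set.disjoint_left]
      rintro ⟨y, i⟩ ⟨⟨_, h⟩, _⟩ ⟨⟨h', _⟩, _⟩
      exact h h'
    · refine hMt.mono ?_
      intro y hy
      by_cases h : y = a
      · exact Or.inl h
      · have i : Fin m := ⟨0, by omega⟩
        exact Or.inr ⟨(y, i), ⟨⟨hy, h⟩, trivial⟩, rfl⟩
  let i0 : Fin m := ⟨0, by omega⟩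
  have haD : a ∈ closure e := by rw [hcl]; simp
  have hbD : b ∈ closure e := by rw [hcl]; simp
  have t3 := h35 Y m hm (closure e) a b hden haD hbD hab i0
  have eD : closure e \ {a, b} = e := by
    rw [hcl]
    ext y
    simp only [Set.mem_sdiff, mem_union, mem_insert_iff, mem_singleton_iff, not_or]
    constructor
    · rintro ⟨h | h, h1, h2⟩
      · exact h
      · exact (h.elim h1 h2).elim
    · intro h
      exact ⟨Or.inl h, fun h' => hae (h' ▸ h), fun h' => hbe (h' ▸ h)⟩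
  rw [eD] at t3
  have t4 : Tile (e ×ˢ (univ : Set (Fin m)) ∪ {a} ×ˢ {i | i ≠ i0} ∪
      (eᶜ \ {a}) ×ˢ (univ : Set (Fin m))) {a} := by
    refine h32 Y (Fin m) _ _ {a} ?_ t2 ?_
    · rw [Set.disjoint_left]
      rintro ⟨y, i⟩ (⟨h, _⟩ | ⟨h, _⟩) ⟨⟨h', h''⟩, _⟩
      · exact h' h
      · exact h'' h
    · refine t3.mono ?_
      rintro y (h | h)
      · exact Or.inl h
      · refine Or.inr ⟨(y, i0), ⟨⟨?_, ?_⟩, trivial⟩, rfl⟩
        · rw [mem_singleton_iff] at h
          rw [h]; exact hbe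
        · rw [mem_singleton_iff] at h
          rw [h]; exact fun h => hab (by rw [mem_singleton_iff] at h; exact h.symm)
  obtain ⟨X', iX', g, hX', hg1, hg2, hg3⟩ := h31 Y (Fin m) Unit (fun _ => (a, i0)) _ {a}
    isDen_unit continuous_const (fun _ _ _ => Subsingleton.elim _ _) (by
      rw [Set.disjoint_left]
      rintro _ ⟨_, rfl⟩ ((⟨h, _⟩ | ⟨_, h⟩) | ⟨⟨_, h⟩, _⟩)
      · exact hae h
      · exact h rfl
      · exact h rfl) (by
      rintro y rfl
      exact ⟨(_, i0), ⟨(), rfl⟩, rfl⟩) t4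
  refine ⟨X', iX', g, hX', hg1, hg2, ?_⟩
  rw [← range_eq_univ, hg3, eq_univ_iff_forall]
  rintro ⟨y, i⟩
  by_cases hy : y ∈ e
  · exact Or.inr (Or.inl (Or.inl ⟨hy, trivial⟩))
  · by_cases hya : y = a
    · by_cases hi : i = i0
      · exact Or.inl ⟨(), by rw [hya, hi]⟩
      · exact Or.inr (Or.inl (Or.inr ⟨hya, hi⟩))
    · exact Or.inr (Or.inr ⟨⟨hy, hya⟩, trivial⟩)

end Pool.Agent.H405
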