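import Pool.Agent.H405.Asm7

set_option autoImplicit false

/-! Project H405: (7.4) from the other pieces. -/

namespace Pool.Agent.H405

open Set Topology Filter Metric
open Pool.Agent.R638.DD

theorem LTP.open' {Y : Type} [MetricSpace Y] {S : Set Y} {p : Y} (h : LTP S p) :
    ∃ r : ℝ, 0 < r ∧ ∀ q ∈ ball p r, LTP S q := by
  obtain ⟨r, hr, h⟩ := h
  refine ⟨r / 2, by linarith, fun q hq => ⟨r / 2, by linarith, h.mono ?_⟩⟩
  rintro x ⟨hx, hxq⟩
  refine ⟨hx, ?_⟩
  rw [mem_closedBall] at hxq ⊢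
  rw [mem_ball] at hq
  have := dist_triangle x q p
  linarith

theorem Fam.sUnion_disj {Y : Type} [MetricSpace Y] {B F : Set Y} {E : Set (Set Y)}
    (h : Fam B F E) : Disjoint (⋃₀ E) F := by
  rw [Set.disjoint_left]
  rintro x ⟨e, he, hx⟩ hF
  obtain ⟨a, b, hs⟩ := h.slab e he
  exact Set.disjoint_left.1 hs.clF (subset_closure hx) hF

theorem t74 (h41 : Stm41) (h43 : Stm43) (h57 : Stm57) (h59 : Stm59) (h66 : Stm66) : Stm74 := by
  intro Y _ _ m hm hSTP Y1 a hPP ha hLTP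
  obtain ⟨r, hr, hr'⟩ := hLTP.open'
  have hG := h66 Y m hm hSTP
  obtain ⟨A', hA', hA'2⟩ := hG Y1 hPP (ball a r)ᶜ {a}ᶜ (isClosed_compl_iff.2 isOpen_ball).isCompact
    isOpen_compl_singleton (by
      intro x hx h
      rw [mem_singleton_iff] at h
      exact hx (by rw [h]; exact mem_ball_self hr)) (subset_univ _)
  have haA : a ∈ A' := by
    by_contra h
    exact hA'.rem ⟨ha, h⟩ rfl
  have hPPA : PP A' := h43.1 Y m Y1 A' _ hPP hA'
  have hctx : Ctx A' {a} := by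
    refine ⟨h43.2 Y A' hPPA, isClosed_singleton, by simpa using haA, ?_⟩
    rintro p ⟨hp, -⟩
    by_cases hpr : p ∈ ball a r
    · exact (hr' p hpr).mono hA'.sub
    · exact hA'2 p ⟨hpr, hp⟩
  have hTPa : TP ({a} : Set Y) := by
    intro u hu v hv huv
    rw [mem_singleton_iff] at hu hv
    exact (huv (hu.trans hv.symm)).elim
  obtain ⟨E, hE, hTP, hden⟩ := h57 Y A' {a} hctx hTPa
  have hred := h59 Y m hm A' {a} E hctx hE hden A' hA'.closed Subset.rfl univ isOpen_univ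
    (subset_univ _) E Subset.rfl (fun e _ => ⟨univ, isOpen_univ, subset_univ _, by simp⟩)
  have hred2 := h41 Y m Y1 A' (A' \ ⋃₀ E) univ (hA'.mono (subset_univ _)) hred
  refine ⟨A' \ ⋃₀ E, hred2.sub, ⟨haA, fun h => ?_⟩, hden, ?_⟩
  · exact Set.disjoint_left.1 hE.sUnion_disj h rfl
  · simpa using hred2.tile

end Pool.Agent.H405
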