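import Pool.Agent.H405.Asm7
import Pool.Agent.R638.DD.ASM
import Pool.Agent.R638.DD.COMP
import Pool.Agent.R638.DD.NOC
import Pool.Agent.R638.DD.Path
import Pool.Agent.R638.DD.PArc
import Pool.Agent.R638.DD.Third

set_option autoImplicit false

/-! Project H405: the frozen form of the theorem from (7.5). -/

namespace Pool.Agent.H405

open Set Topology Filter Metric
open Pool.Agent.R638.DD

theorem fin0_ncard {Y X' : Type} {m : ℕ} (g : X' → Y × Fin m) (hg : Function.Bijective g)
    (y : Y) : ((fun p => (g p).1) ⁻¹' {y}).ncard = m := by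
  have h1 : g '' ((fun p => (g p).1) ⁻¹' {y}) = (fun i => (y, i)) '' (univ : Set (Fin m)) := by
    ext ⟨z, i⟩
    constructor
    · rintro ⟨p, hp, hp'⟩
      refine ⟨i, trivial, ?_⟩
      have : (g p).1 = y := hp
      rw [hp'] at this
      exact Prod.ext this.symm rfl
    · rintro ⟨j, -, hj⟩
      obtain ⟨p, hp⟩ := hg.2 (z, i)
      refine ⟨p, ?_, hp⟩
      show (g p).1 = y
      rw [hp]
      exact (congrArg Prod.fst hj).symm
  rw [← ncard_image_of_injective _ hg.1, h1, ncard_image_of_injective _ (fun i j h =>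
    congrArg Prod.snd h), ncard_univ, Nat.card_eq_fintype_card, Fintype.card_fin]

theorem fin0 (h75 : Stm75) :
    ¬ (∃ (Y : Type) (_ : MetricSpace Y) (_ : CompactSpace Y) (_ : ConnectedSpace Y) (k m : ℕ),
      1 < k ∧ 1 < m ∧
      (∃ (X : Type) (_ : MetricSpace X) (_ : CompactSpace X) (_ : ConnectedSpace X)
          (_ : LocallyConnectedSpace X),
          (∀ g : Circle → X, Continuous g → ¬ Function.Injective g) ∧
          ∃ f : X → Y, Continuous f ∧ ∀ y : Y, Set.ncard (f ⁻¹' {y}) = k) ∧
      ¬ (∃ (X : Type) (_ : MetricSpace X) (_ : CompactSpace X) (_ : ConnectedSpace X)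
          (_ : LocallyConnectedSpace X),
          (∀ g : Circle → X, Continuous g → ¬ Function.Injective g) ∧
          ∃ f : X → Y, Continuous f ∧ ∀ y : Y, Set.ncard (f ⁻¹' {y}) = m)) := by
  rintro ⟨Y, _, _, _, k, m, hk, hm, ⟨X, _, _, _, _, hno, f, hf, hfib⟩, hnot⟩
  apply hnot
  have hden : IsDen X := isDen_of (t_Third t_Path t_PArc t_Comp)
    ⟨⟨inferInstance, inferInstance, inferInstance, inferInstance⟩, hno⟩
  obtain ⟨X', iX', g, hX', hg, hbij⟩ := h75 X Y f k hden hf hk hfib m hm
  have := hX'.metrizable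
  letI := TopologicalSpace.metrizableSpaceMetric X'
  exact ⟨X', inferInstance, hX'.compact, hX'.connected, hX'.locConn, t_Noc X' hX'.third,
    fun p => (g p).1, hg, fun y => fin0_ncard g hbij y⟩

end Pool.Agent.H405
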