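import Pool.Agent.R638.DD.Stm

set_option autoImplicit false

/-! Project H405 (MP_32448b_gt, S12988): the class of k-to-1 images of dendrites does not depend
on k. Definitions and statements of the pieces; numbering as in paper.md. -/

namespace Pool.Agent.H405

open Set Topology Filter Metric
open Pool.Agent.R638.DD

/-! ### Section 0: definitions -/

section Defs

variable {Y : Type} [MetricSpace Y]

/-- Two distinct points of `S` are separated in `S`, up to at most one point of `S`. -/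
def TP (S : Set Y) : Prop :=
  ∀ u ∈ S, ∀ v ∈ S, u ≠ v → ∃ A B : Set Y, IsOpen A ∧ IsOpen B ∧ u ∈ A ∧ v ∈ B ∧
    A ∩ B ∩ S = ∅ ∧ (S \ (A ∪ B)).Subsingleton

/-- `A` has the property `TP` near `p`. -/
def LTP (A : Set Y) (p : Y) : Prop := ∃ r : ℝ, 0 < r ∧ TP (A ∩ closedBall p r)

/-- connected im kleinen -/
def Cik (S : Set Y) (x : Y) : Prop :=
  ∀ U : Set Y, IsOpen U → x ∈ U → ∃ C : Set Y, C ⊆ S ∩ U ∧ IsPreconnected C ∧
    ∃ O : Set Y, IsOpen O ∧ x ∈ O ∧ O ∩ S ⊆ C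

/-- Tiling of `T ⊆ Y × L` by countably many pointed dendrites with roots over `R`. -/
def Tile {L : Type} (T : Set (Y × L)) (R : Set Y) : Prop :=
  ∃ (ι : Type) (_ : Countable ι) (P : ι → Type) (_ : ∀ i, TopologicalSpace (P i))
    (x : ∀ i, P i) (h : ∀ i, P i → Y × L),
    (∀ i, IsDen (P i)) ∧ (∀ i, Continuous (fun p => (h i p).1)) ∧ (∀ i, (h i (x i)).1 ∈ R) ∧
    (∀ i, InjOn (h i) {x i}ᶜ) ∧
    (∀ i j, i ≠ j → ∀ p q, p ≠ x i → q ≠ x j → h i p ≠ h j q) ∧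
    (⋃ i, h i '' {x i}ᶜ) = T ∧
    (∀ ε : ℝ, 0 < ε → {i | ∃ p : P i, ε ≤ dist (h i p).1 (h i (x i)).1}.Finite)

/-- `A'` is obtained from `A` by a tame reduction inside the open set `U`. -/
structure Red (m : ℕ) (A A' U : Set Y) : Prop where
  sub : A' ⊆ A
  closed : IsClosed A'
  rem : A \ A' ⊆ U
  tile : Tile ((A \ A') ×ˢ (univ : Set (Fin m))) (A' ∩ U)
  retr : ∃ ρ : Y → Y, ContinuousOn ρ A ∧ MapsTo ρ A A' ∧ (∀ x ∈ A', ρ x = x) ∧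
    (∀ x ∈ A \ A', ρ x ∈ U)

/-- `A` is the image of a dendrite. -/
def PP (A : Set Y) : Prop :=
  ∃ (X : Type) (_ : TopologicalSpace X) (g : X → Y), IsDen X ∧ Continuous g ∧ range g = A

/-- Context of Section 5. -/
structure Ctx (B F : Set Y) : Prop where
  peano : IsPeano ↥B
  closed : IsClosed F
  sub : F ⊆ B
  ltp : ∀ p ∈ B \ F, LTP B p

/-- A slab `e` of `B` with ends `a`, `b`, with closure disjoint from `F`. -/
structure Slab (B F e : Set Y) (a b : Y) : Prop where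
  rel : ∃ O : Set Y, IsOpen O ∧ e = B ∩ O
  ne : e.Nonempty
  conn : IsPreconnected e
  hab : a ≠ b
  ha : a ∉ e
  hb : b ∉ e
  cl : closure e = e ∪ {a, b}
  clF : Disjoint (closure e) F
  tp : TP (closure e)

/-- A family of pairwise disjoint slabs. -/
structure Fam (B F : Set Y) (E : Set (Set Y)) : Prop where
  slab : ∀ e ∈ E, ∃ a b, Slab B F e a b
  disj : E.PairwiseDisjoint id

/-- A slab around `z` which `z` cuts in two connected parts. -/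
structure NSlab (B F e α β : Set Y) (a b z : Y) : Prop where
  slab : Slab B F e a b
  eq : e = α ∪ {z} ∪ β
  disj : Disjoint α β
  zα : z ∉ α
  zβ : z ∉ β
  αo : ∃ O : Set Y, IsOpen O ∧ α = B ∩ O
  βo : ∃ O : Set Y, IsOpen O ∧ β = B ∩ O
  αc : IsPreconnected α
  βc : IsPreconnected β
  clα : closure α = α ∪ {a, z}
  clβ : closure β = β ∪ {b, z}

/-- Nice points: there are arbitrarily small slabs around `z` which `z` cuts in two parts. -/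
def Nice (B F : Set Y) (z : Y) : Prop :=
  ∀ U : Set Y, IsOpen U → z ∈ U → ∃ (e α β : Set Y) (a b : Y),
    NSlab B F e α β a b z ∧ closure e ⊆ U

/-- Hypotheses on the cut `(c, FA, FB)` of `F`. -/
structure FCut (F : Set Y) (c : Y) (FA FB : Set Y) : Prop where
  mem : c ∈ F
  eq : F = FA ∪ FB ∪ {c}
  disj : Disjoint FA FB
  cA : c ∉ FA
  cB : c ∉ FB
  clA : IsClosed (FA ∪ {c})
  clB : IsClosed (FB ∪ {c})

/-- Good open sets. -/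
def Good (m : ℕ) (V : Set Y) : Prop :=
  ∀ A : Set Y, PP A → ∀ K W : Set Y, IsCompact K → IsOpen W → K ⊆ W → W ⊆ V →
    ∃ A' : Set Y, Red m A A' W ∧ ∀ p ∈ K ∩ A', LTP A' p

/-- null family of sets -/
def NullFam {J : Type} (U : J → Set Y) : Prop :=
  ∀ ε : ℝ, 0 < ε → {j | ∃ u ∈ U j, ∃ v ∈ U j, ε ≤ dist u v}.Finite

end Defs

/-- `Y` is a countable union of closed sets with the property `TP`. -/
def STP (Y : Type) [MetricSpace Y] : Prop :=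
  ∃ T : ℕ → Set Y, (∀ n, IsClosed (T n) ∧ TP (T n)) ∧ ⋃ n, T n = univ

section DenDefs

variable {X : Type} [TopologicalSpace X]

/-- component of `x` in the complement of `c` -/
abbrev Dc (c x : X) : Set X := connectedComponentIn {c}ᶜ x

/-- the part of the complement of `a` away from `r` -/
def far (a r : X) : Set X := (Dc a r ∪ {a})ᶜ

/-- `c` separates `u` from `v` -/
def Sep (c u v : X) : Prop := c ≠ u ∧ c ≠ v ∧ v ∉ Dc c u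

/-- the complement of `a` has exactly two components -/
def Simple (a : X) : Prop := ∃ u v, Sep a u v ∧ ∀ w, w ≠ a → w ∈ Dc a u ∨ w ∈ Dc a v

/-- the region between `a` and `b` -/
def slab (a b : X) : Set X := Dc a b ∩ Dc b a

end DenDefs

/-! ### Section 1 -/

/-- (1.1) -/
def Stm11 : Prop :=
  ∀ (Y : Type) [MetricSpace Y] (S : Set Y), IsCompact S → IsPreconnected S → S.Nonempty →
    TP S → IsDen ↥S

/-- (1.2) boundary bumping -/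
def Stm12 : Prop :=
  ∀ (Y : Type) [MetricSpace Y] (S : Set Y), IsCompact S → IsPreconnected S →
    ∀ (c x : Y) (r : ℝ), x ∈ S → dist x c ≤ r → (∃ y ∈ S, r ≤ dist y c) →
    ∃ y ∈ connectedComponentIn (S ∩ closedBall c r) x, dist y c = r

/-- (1.3) -/
def Stm13 : Prop :=
  ∀ (Y : Type) [MetricSpace Y] (S : Set Y), IsCompact S → TP S → ∀ ε : ℝ, 0 < ε →
    ∀ C : ℕ → Set Y, (∀ n, C n ⊆ S) → (∀ n, IsPreconnected (C n)) →
    (∀ n, ∃ u ∈ C n, ∃ v ∈ C n, ε ≤ dist u v) → Pairwise (fun i j => Disjoint (C i) (C j)) →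
    False

/-- (1.4) -/
def Stm14 : Prop :=
  ∀ (Y : Type) [MetricSpace Y] [CompactSpace Y] (S : Set Y), TP S →
    ∃ A B : ℕ → Set Y, (∀ n, IsOpen (A n) ∧ IsOpen (B n) ∧ A n ∩ B n ∩ S = ∅ ∧
      (S \ (A n ∪ B n)).Subsingleton) ∧
      ∀ u ∈ S, ∀ v ∈ S, u ≠ v → ∃ n, u ∈ A n ∧ v ∈ B n

/-- (1.5) -/
def Stm15 : Prop :=
  ∀ (Y : Type) [MetricSpace Y] (S : Set Y), IsCompact S → IsPreconnected S → ∀ c ∈ S,
    (∀ x ∈ S, x ≠ c → Cik S x) → Cik S c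

/-- connected im kleinen everywhere iff locally connected -/
def Stm15b : Prop :=
  ∀ (Y : Type) [MetricSpace Y] (S : Set Y),
    (IsCompact S → IsPreconnected S → S.Nonempty → (∀ x ∈ S, Cik S x) → IsPeano ↥S) ∧
    (IsPeano ↥S → IsCompact S ∧ IsPreconnected S ∧ S.Nonempty ∧ ∀ x ∈ S, Cik S x)

/-- (1.6) -/
def Stm16 : Prop :=
  (∀ (X Y : Type) [TopologicalSpace X] [MetricSpace Y] (f : X → Y), IsPeano X → Continuous f →
    IsPeano ↥(range f)) ∧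
  (∀ (Y : Type) [MetricSpace Y] (S : Set Y) (f : Y → Y), IsPeano ↥S → ContinuousOn f S →
    IsPeano ↥(f '' S)) ∧
  (∀ (Y : Type) [MetricSpace Y] (P Q : Set Y), IsPeano ↥P → IsPeano ↥Q → (P ∩ Q).Nonempty →
    IsPeano ↥(P ∪ Q))

/-- (1.7) -/
def Stm17 : Prop :=
  ∀ (Y J : Type) [MetricSpace Y] (A : Set Y) (e : J → Set Y) (ρ : J → Y → Y), IsClosed A →
    (∀ j, ∃ O : Set Y, IsOpen O ∧ e j = A ∩ O) → Pairwise (fun i j => Disjoint (e i) (e j)) →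
    (∀ j, ContinuousOn (ρ j) (closure (e j))) → (∀ j, ∀ x ∈ closure (e j) \ e j, ρ j x = x) →
    (∀ ε : ℝ, 0 < ε → {j | ∃ x ∈ e j, ε ≤ dist (ρ j x) x}.Finite) →
    ∃ σ : Y → Y, ContinuousOn σ A ∧ (∀ j, ∀ x ∈ e j, σ x = ρ j x) ∧
      (∀ x ∈ A \ ⋃ j, e j, σ x = x)

/-! ### Section 2 (dendrites) -/

/-- (2.1) -/
def Stm21 : Prop :=
  ∀ (X : Type) [TopologicalSpace X], IsDen X → ∀ u v : X, u ≠ v →
    {a : X | Sep a u v ∧ ¬ Simple a}.Countable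

/-- (2.1') uncountably many simple points separate `u` and `v` -/
def Stm21b : Prop :=
  ∀ (X : Type) [TopologicalSpace X], IsDen X → ∀ u v : X, u ≠ v → ∀ S : Set X, S.Countable →
    ∃ a, Sep a u v ∧ Simple a ∧ a ∉ S

/-- (2.2) -/
def Stm22 : Prop :=
  ∀ (X : Type) [TopologicalSpace X], IsDen X → ∀ r w : X, w ≠ r → ∀ K : Set X, IsCompact K →
    K.Nonempty → K ⊆ Dc r w → ∀ S : Set X, S.Countable →
    ∃ a ∈ Dc r w, a ∉ K ∧ a ∉ S ∧ Simple a ∧ K ⊆ far a r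

/-- (2.3) -/
def Stm23 : Prop :=
  ∀ (X : Type) [TopologicalSpace X], IsDen X → ∀ (x : X) (U : Set X), IsOpen U → x ∈ U →
    ∀ S : Set X, S.Countable →
    ∃ O : Set X, IsOpen O ∧ x ∈ O ∧ closure O ⊆ U ∧ (closure O \ O).Finite ∧
      ∀ z ∈ closure O \ O, Simple z ∧ z ∉ S

/-- (2.4) -/
def Stm24 : Prop :=
  ∀ (X : Type) [TopologicalSpace X], IsDen X → ∀ a b : X, a ≠ b →
    IsOpen (slab a b) ∧ IsPreconnected (slab a b) ∧ (slab a b).Nonempty ∧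
      closure (slab a b) = slab a b ∪ {a, b} ∧ a ∉ slab a b ∧ b ∉ slab a b

/-- (2.5) -/
def Stm25 : Prop :=
  ∀ (X : Type) [TopologicalSpace X], IsDen X → ∀ a b r : X, Simple r → Sep r a b →
    r ∈ slab a b ∧ slab a b \ {r} = slab a r ∪ slab r b ∧ Disjoint (slab a r) (slab r b)

/-- (2.6) -/
def Stm26 : Prop :=
  ∀ (X : Type) [TopologicalSpace X], IsDen X → ∀ r : X, Simple r → ∀ U ∈ 𝓝 r,
    ∃ a b : X, Sep r a b ∧ slab a b ∪ {a, b} ⊆ U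

/-- (2.7) the gadget -/
def Stm27 : Prop :=
  ∀ (X : Type) [MetricSpace X], IsDen X → ∀ a b : X, a ≠ b →
    ∃ (Pa Pb : Set X) (S : ℕ → Set X) (s : ℕ → X),
      IsClosed Pa ∧ IsPreconnected Pa ∧ a ∈ Pa ∧ IsClosed Pb ∧ IsPreconnected Pb ∧ b ∈ Pb ∧
      (∀ n, IsClosed (S n) ∧ IsPreconnected (S n) ∧ s n ∈ S n) ∧
      Disjoint Pa Pb ∧ (∀ n, Disjoint (Pa ∪ Pb) (S n \ {s n})) ∧
      Pairwise (fun i j => Disjoint (S i \ {s i}) (S j \ {s j})) ∧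
      Pa ∪ Pb ∪ (⋃ n, S n \ {s n}) = univ ∧
      (∀ ε : ℝ, 0 < ε → {n | ∃ x ∈ S n, ε ≤ dist x (s n)}.Finite)

/-! ### Section 3 (tilings) -/

/-- (3.1) -/
def Stm31 : Prop :=
  ∀ (Y L X0 : Type) [MetricSpace Y] [TopologicalSpace X0] (g0 : X0 → Y × L) (T : Set (Y × L))
    (R : Set Y), IsDen X0 → Continuous (fun p => (g0 p).1) → Function.Injective g0 →
    Disjoint (range g0) T → R ⊆ Prod.fst '' range g0 → Tile T R →
    ∃ (X' : Type) (_ : TopologicalSpace X') (g : X' → Y × L), IsDen X' ∧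
      Continuous (fun p => (g p).1) ∧ Function.Injective g ∧ range g = range g0 ∪ T

/-- (3.2) -/
def Stm32 : Prop :=
  ∀ (Y L : Type) [MetricSpace Y] (T1 T2 : Set (Y × L)) (R : Set Y), Disjoint T1 T2 →
    Tile T2 R → Tile T1 (R ∪ Prod.fst '' T2) → Tile (T1 ∪ T2) R

/-- (3.3) -/
def Stm33 : Prop :=
  ∀ (Y L J : Type) [MetricSpace Y] [Countable J] (T : J → Set (Y × L)) (R : J → Set Y)
    (R0 : Set Y), Pairwise (fun i j => Disjoint (T i) (T j)) → (∀ j, Tile (T j) (R j)) →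
    (∀ j, R j ⊆ R0) → NullFam (fun j => Prod.fst '' T j ∪ R j) → Tile (⋃ j, T j) R0

/-- (3.4) -/
def Stm34 : Prop :=
  ∀ (Y : Type) [MetricSpace Y] (m : ℕ), 2 ≤ m → ∀ (D : Set Y) (a b : Y), IsDen ↥D → a ∈ D →
    b ∈ D → a ≠ b → Tile ((D \ {a, b}) ×ˢ (univ : Set (Fin m))) {a, b}

/-- (3.5) -/
def Stm35 : Prop :=
  ∀ (Y : Type) [MetricSpace Y] (m : ℕ), 2 ≤ m → ∀ (D : Set Y) (a b : Y), IsDen ↥D → a ∈ D →
    b ∈ D → a ≠ b → ∀ i0 : Fin m,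
    Tile ((D \ {a, b}) ×ˢ (univ : Set (Fin m)) ∪ {a} ×ˢ {i | i ≠ i0}) {a, b}

/-! ### Section 4 (reductions) -/

/-- (4.1) -/
def Stm41 : Prop :=
  ∀ (Y : Type) [MetricSpace Y] (m : ℕ) (A A' A'' U : Set Y), Red m A A' U → Red m A' A'' U →
    Red m A A'' U

/-- (4.2) -/
def Stm42 : Prop :=
  ∀ (Y J : Type) [MetricSpace Y] [Countable J] (m : ℕ) (A : Set Y) (A' U : J → Set Y),
    IsClosed A → (∀ j, IsOpen (U j)) → Pairwise (fun i j => Disjoint (U i) (U j)) →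
    NullFam U → (∀ j, Red m A (A' j) (U j)) → Red m A (A ∩ ⋂ j, A' j) (⋃ j, U j)

/-- (4.3) -/
def Stm43 : Prop :=
  (∀ (Y : Type) [MetricSpace Y] (m : ℕ) (A A' U : Set Y), PP A → Red m A A' U → PP A') ∧
  (∀ (Y : Type) [MetricSpace Y] (A : Set Y), PP A → IsPeano ↥A)

/-- (4.4) -/
def Stm44 : Prop :=
  ∀ (Y : Type) [MetricSpace Y] (A : Set Y), PP A → ∀ p ∈ A, ∀ W : Set Y, IsOpen W → p ∈ W →
    ∃ B O : Set Y, IsPeano ↥B ∧ B ⊆ A ∩ W ∧ IsOpen O ∧ p ∈ O ∧ O ∩ A ⊆ B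

/-! ### Section 5 (slabs) -/

/-- (5.0) small dendrite neighbourhoods -/
def Stm50 : Prop :=
  ∀ (Y : Type) [MetricSpace Y] (B F : Set Y), Ctx B F → ∀ p ∈ B \ F, ∀ U : Set Y, IsOpen U →
    p ∈ U → ∃ T : Set Y, T ⊆ B ∩ U ∧ Disjoint T F ∧ IsCompact T ∧ IsPreconnected T ∧ TP T ∧
      p ∈ T ∧ ∃ O : Set Y, IsOpen O ∧ p ∈ O ∧ O ∩ B ⊆ T

/-- (5.1) -/
def Stm51 : Prop :=
  ∀ (Y : Type) [MetricSpace Y] (B F : Set Y) (E : Set (Set Y)), Ctx B F → Fam B F E →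
    (∀ ε : ℝ, 0 < ε → {e ∈ E | ∃ u ∈ e, ∃ v ∈ e, ε ≤ dist u v}.Finite) ∧ E.Countable

/-- (5.2) -/
def Stm52 : Prop :=
  ∀ (Y : Type) [MetricSpace Y] (B F : Set Y) (E : Set (Set Y)), Ctx B F → Fam B F E →
    IsPreconnected (B \ ⋃₀ E) → ∀ p ∈ B \ F, ∃ O : Set Y, IsOpen O ∧ p ∈ O ∧
      {e ∈ E | (e ∩ O).Nonempty}.Finite

/-- (5.3) -/
def Stm53 : Prop :=
  ∀ (Y : Type) [MetricSpace Y] (B F : Set Y), Ctx B F → ∀ T : Set Y, T ⊆ B → Disjoint T F →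
    IsCompact T → IsPreconnected T → TP T → ∀ (z : Y) (hz : z ∈ T),
    (∃ O : Set Y, IsOpen O ∧ z ∈ O ∧ O ∩ B ⊆ T) → Simple (⟨z, hz⟩ : ↥T) → Nice B F z

/-- (5.4) -/
def Stm54 : Prop :=
  ∀ (Y : Type) [MetricSpace Y] (B F : Set Y), Ctx B F → ∀ x ∈ B \ F, ∀ U : Set Y, IsOpen U →
    x ∈ U → ∀ S : Set Y, S.Countable → ∃ O G : Set Y, IsOpen G ∧ O = B ∩ G ∧ x ∈ O ∧
      closure O ⊆ U ∧ Disjoint (closure O) F ∧ (closure O \ O).Finite ∧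
      ∀ z ∈ closure O \ O, Nice B F z ∧ z ∉ S

/-- (5.4') -/
def Stm54b : Prop :=
  ∀ (Y : Type) [MetricSpace Y] (B F : Set Y), Ctx B F → ∀ K : Set Y, IsCompact K →
    IsPreconnected K → K.Nontrivial → K ⊆ B \ F → ∀ S : Set Y, S.Countable →
    ∃ z ∈ K, Nice B F z ∧ z ∉ S

/-- (5.5) -/
def Stm55 : Prop :=
  ∀ (Y : Type) [MetricSpace Y] (B F : Set Y) (E : Set (Set Y)), Ctx B F → Fam B F E →
    IsPreconnected (B \ ⋃₀ E) → ∀ (c : Y) (FA FB : Set Y), FCut F c FA FB →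
    ∃ OA OB : Set Y, IsOpen OA ∧ IsOpen OB ∧ c ∉ OA ∧ c ∉ OB ∧
      OA ∩ OB ∩ (B \ ⋃₀ E) = ∅ ∧ FA ⊆ OA ∧ FB ⊆ OB ∧
      ∀ z ∈ (B \ ⋃₀ E) \ (OA ∪ OB ∪ {c}), z ∉ F ∧ z ∉ closure (⋃₀ E) ∧ Nice B F z ∧
        ∃ O : Set Y, IsOpen O ∧ O ∩ ((B \ ⋃₀ E) \ (OA ∪ OB ∪ {c})) = {z}

/-- (5.6) -/
def Stm56 : Prop :=
  ∀ (Y : Type) [MetricSpace Y] (B F : Set Y) (E : Set (Set Y)), Ctx B F → Fam B F E →
    IsPeano ↥(B \ ⋃₀ E) → ∀ (c : Y) (FA FB : Set Y), FCut F c FA FB →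
    ∃ E' : Set (Set Y), E ⊆ E' ∧ Fam B F E' ∧ IsPeano ↥(B \ ⋃₀ E') ∧
      ∃ P Q : Set Y, IsClosed P ∧ IsClosed Q ∧ P ∪ Q = B \ ⋃₀ E' ∧ P ∩ Q = {c} ∧
        connectedComponentIn F c ∩ FA ⊆ P ∧ connectedComponentIn F c ∩ FB ⊆ Q

/-- (5.7) -/
def Stm57 : Prop :=
  ∀ (Y : Type) [MetricSpace Y] [CompactSpace Y] (B F : Set Y), Ctx B F → TP F →
    ∃ E : Set (Set Y), Fam B F E ∧ TP (B \ ⋃₀ E) ∧ IsDen ↥(B \ ⋃₀ E)

/-- (5.8) -/
def Stm58 : Prop :=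
  ∀ (Y : Type) [MetricSpace Y] (B F : Set Y) (E : Set (Set Y)), Ctx B F → Fam B F E →
    IsDen ↥(B \ ⋃₀ E) →
    ∃ r : Y → Y, ContinuousOn r B ∧ MapsTo r B (B \ ⋃₀ E) ∧ ∀ x ∈ B \ ⋃₀ E, r x = x

/-- (5.9) -/
def Stm59 : Prop :=
  ∀ (Y : Type) [MetricSpace Y] (m : ℕ), 2 ≤ m → ∀ (B F : Set Y) (E : Set (Set Y)), Ctx B F →
    Fam B F E → IsDen ↥(B \ ⋃₀ E) → ∀ A : Set Y, IsClosed A → B ⊆ A → ∀ U : Set Y, IsOpen U →
    B ⊆ U → ∀ J : Set (Set Y), J ⊆ E →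
    (∀ e ∈ J, ∃ O : Set Y, IsOpen O ∧ closure e ⊆ O ∧ O ∩ A ⊆ B) → Red m A (A \ ⋃₀ J) U

/-- (5.10) -/
def Stm510 : Prop :=
  ∀ (Y : Type) [MetricSpace Y] [CompactSpace Y] (m : ℕ), 2 ≤ m →
    ∀ A W Fs B O K : Set Y, IsClosed A → IsOpen W → IsClosed Fs →
    (∀ p ∈ (A ∩ W) \ Fs, LTP A p) → IsPeano ↥B → B ⊆ A ∩ W → TP (Fs ∩ B) → IsOpen O →
    O ∩ A ⊆ B → IsCompact K → K ⊆ O → ∃ A' : Set Y, Red m A A' W ∧ ∀ p ∈ K ∩ A', LTP A' p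

/-! ### Section 6 (good open sets) -/

/-- (6.1) -/
def Stm61 : Prop :=
  ∀ (Y : Type) [MetricSpace Y] (m : ℕ) (𝒱 : Set (Set Y)), (∀ V ∈ 𝒱, IsOpen V ∧ Good m V) →
    Good m (⋃₀ 𝒱)

/-- (6.2) -/
def Stm62 : Prop :=
  ∀ (Y : Type) [MetricSpace Y] [CompactSpace Y], STP Y → ∃ S : Set Y, S.Countable ∧
    ∀ K : Set Y, IsCompact K → IsPreconnected K → K.Nontrivial → (K ∩ S).Nonempty

/-- (6.3) -/
def Stm63 : Prop :=
  ∀ (Y : Type) [MetricSpace Y] [CompactSpace Y] (S : Set Y), S.Countable →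
    (∀ K : Set Y, IsCompact K → IsPreconnected K → K.Nontrivial → (K ∩ S).Nonempty) →
    ∀ V : Set Y, IsOpen V → ∃ C H U : ℕ → Set Y,
      (∀ j, IsOpen (C j) ∧ closure (C j) ⊆ V) ∧ Pairwise (fun i j => Disjoint (C i) (C j)) ∧
      NullFam C ∧ V \ (⋃ j, C j) = ⋃ i, H i ∧
      (∀ i, IsCompact (H i) ∧ H i ⊆ U i ∧ IsOpen (U i) ∧ U i ⊆ V) ∧
      Pairwise (fun i j => Disjoint (U i) (U j)) ∧ NullFam U

/-- (6.4) -/
def Stm64 : Prop :=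
  ∀ (Y : Type) [MetricSpace Y] [CompactSpace Y] (m : ℕ), STP Y → ∀ V : Set Y, IsOpen V →
    Good m V → ∀ A : Set Y, PP A → ∃ A' : Set Y, Red m A A' V ∧ ∀ p ∈ V, LTP A' p

/-- (6.5) -/
def Stm65 : Prop :=
  ∀ (Y : Type) [MetricSpace Y] [CompactSpace Y] (m : ℕ), 2 ≤ m → STP Y →
    ∀ U V T : Set Y, IsOpen U → Good m U → IsOpen V → TP T → V \ U ⊆ T → Good m V

/-- (6.6) -/
def Stm66 : Prop :=
  ∀ (Y : Type) [MetricSpace Y] [CompactSpace Y] (m : ℕ), 2 ≤ m → STP Y →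
    Good m (univ : Set Y)

/-! ### Section 7 (the theorem) -/

/-- (7.1) -/
def Stm71 : Prop :=
  ∀ (X Y : Type) [TopologicalSpace X] [MetricSpace Y] (f : X → Y) (k : ℕ), IsDen X →
    Continuous f → 1 ≤ k → (∀ y, (f ⁻¹' {y}).ncard = k) → STP Y

/-- (7.2) -/
def Stm72 : Prop :=
  ∀ (X Y : Type) [TopologicalSpace X] [CompactSpace X] [T2Space X] [ConnectedSpace X]
    [MetricSpace Y] (f : X → Y) (k : ℕ), Continuous f → 2 ≤ k →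
    (∀ y, (f ⁻¹' {y}).ncard = k) → ¬ TP (univ : Set Y)

/-- (7.3) -/
def Stm73 : Prop :=
  ∀ (Y : Type) [MetricSpace Y] [CompactSpace Y], STP Y → PP (univ : Set Y) →
    ¬ TP (univ : Set Y) → ∃ (e : Set Y) (a b : Y), IsOpen e ∧ a ≠ b ∧ a ∉ e ∧ b ∉ e ∧
      closure e = e ∪ {a, b} ∧ IsDen ↥(closure e) ∧ LTP (univ : Set Y) a ∧
      ∃ ρ : Y → Y, Continuous ρ ∧ range ρ = eᶜ

/-- (7.4) -/
def Stm74 : Prop :=
  ∀ (Y : Type) [MetricSpace Y] [CompactSpace Y] (m : ℕ), 2 ≤ m → STP Y →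
    ∀ (Y1 : Set Y) (a : Y), PP Y1 → a ∈ Y1 → LTP Y1 a →
    ∃ M : Set Y, M ⊆ Y1 ∧ a ∈ M ∧ IsDen ↥M ∧ Tile ((Y1 \ M) ×ˢ (univ : Set (Fin m))) M

/-- (7.5) -/
def Stm75 : Prop :=
  ∀ (X Y : Type) [TopologicalSpace X] [MetricSpace Y] [CompactSpace Y] (f : X → Y) (k : ℕ),
    IsDen X → Continuous f → 2 ≤ k → (∀ y, (f ⁻¹' {y}).ncard = k) → ∀ m : ℕ, 2 ≤ m →
    ∃ (X' : Type) (_ : TopologicalSpace X') (g : X' → Y × Fin m), IsDen X' ∧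
      Continuous (fun p => (g p).1) ∧ Function.Bijective g

end Pool.Agent.H405
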