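import Pool.Agent.H405.T13
import Pool.Agent.R638.DD.CUT

set_option autoImplicit false

/-! Project H405: (1.1). -/

namespace Pool.Agent.H405

open Set Topology Filter Metric
open Pool.Agent.R638.DD

theorem t11_den {X : Type} [TopologicalSpace X] [CompactSpace X]
    [TopologicalSpace.MetrizableSpace X] [ConnectedSpace X] (h : ThirdPoint X) : IsDen X := by
  classical
  refine ⟨⟨inferInstance, inferInstance, inferInstance, ?_⟩, h⟩
  rw [locallyConnectedSpace_iff_connected_subsets]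
  intro x U hU
  obtain ⟨U', hU'U, hU', hxU'⟩ := mem_nhds_iff.1 hU
  have hK : IsCompact U'ᶜ := hU'.isClosed_compl.isCompact
  have hI : ∀ y : X, y ∈ U'ᶜ → ∃ (r : X) (A B : Set X), IsOpen A ∧ IsOpen B ∧ Disjoint A B ∧
      A ∪ B = {r}ᶜ ∧ x ∈ A ∧ y ∈ B := by
    intro y hy
    exact h x y (fun hxy => hy (hxy ▸ hxU'))
  choose! r A B hA hB hd hAB hxA hyB using hI
  obtain ⟨t, htc⟩ := hK.elim_nhds_subcover' (fun y _ => B y)
    (fun y hy => (hB y hy).mem_nhds (hyB y hy))
  have key : ∀ s : Finset ↥(U'ᶜ), IsPreconnected (⋂ y ∈ s, (B y.1)ᶜ) ∧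
      (⋂ y ∈ s, (B y.1)ᶜ) ∈ 𝓝 x := by
    intro s
    induction s using Finset.induction_on with
    | empty => simp [isPreconnected_univ]
    | insert y s hys ih =>
      rw [Finset.set_biInter_insert]
      refine ⟨?_, inter_mem ?_ ih.2⟩
      · rw [inter_comm]
        refine cut_preconnected_aux (c := r y.1) (B := (A y.1)ᶜ) (hB _ y.2).isClosed_compl
          (hA _ y.2).isClosed_compl ?_ ih.1 ?_
        · intro z hz
          by_contra hzr
          have : z ∈ A y.1 ∪ B y.1 := by rw [hAB _ y.2]; exact hzr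
          exact this.elim hz.2 hz.1
        · intro z _
          by_cases hzB : z ∈ B y.1
          · exact Or.inr fun hzA => Set.disjoint_left.1 (hd _ y.2) hzA hzB
          · exact Or.inl hzB
      · exact mem_of_superset ((hA _ y.2).mem_nhds (hxA _ y.2))
          (fun z hzA hzB => Set.disjoint_left.1 (hd _ y.2) hzA hzB)
  refine ⟨⋂ y ∈ t, (B y.1)ᶜ, (key t).2, (key t).1, fun z hz => hU'U ?_⟩
  by_contra hzU
  obtain ⟨y, hy, hzy⟩ := mem_iUnion₂.1 (htc hzU)
  exact (mem_iInter₂.1 hz y hy) hzy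

theorem t11 : Stm11 := by
  intro Y _ S hS hSc hSne hTP
  have h1 : CompactSpace ↥S := isCompact_iff_compactSpace.1 hS
  have h2 : ConnectedSpace ↥S := isConnected_iff_connectedSpace.1 ⟨hSne, hSc⟩
  refine t11_den ?_
  intro u v huv
  obtain ⟨A, B, hA, hB, huA, hvB, h3, h4⟩ := hTP u.1 u.2 v.1 v.2 (fun h => huv (Subtype.ext h))
  obtain ⟨c, hcS, hc⟩ := TP.exc_mem hA hB h3 hSc Subset.rfl u.2 v.2 huA hvB
  refine ⟨⟨c, hcS⟩, Subtype.val ⁻¹' A, Subtype.val ⁻¹' B, hA.preimage continuous_subtype_val,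
    hB.preimage continuous_subtype_val, ?_, ?_, huA, hvB⟩
  · rw [Set.disjoint_left]
    intro z hzA hzB
    have : z.1 ∈ A ∩ B ∩ S := ⟨⟨hzA, hzB⟩, z.2⟩
    rw [h3] at this
    exact this
  · ext z
    constructor
    · intro hz hzc
      have : z.1 = c := congrArg Subtype.val hzc
      rcases hz with hz | hz
      · exact hc.2 (Or.inl (this ▸ hz))
      · exact hc.2 (Or.inr (this ▸ hz))
    · intro hz
      by_contra hz'
      exact hz (Subtype.ext (h4 ⟨z.2, hz'⟩ hc))

end Pool.Agent.H405
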