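import Pool.Agent.H405.Stm

set_option autoImplicit false

/-! Project H405: clopen neighbourhoods of components; (1.2) boundary bumping. -/

namespace Pool.Agent.H405

open Set Topology Filter Metric
open Pool.Agent.R638.DD

/-- components of compact sets have small relatively clopen neighbourhoods -/
theorem exists_clopen_set {Y : Type} [TopologicalSpace Y] [T2Space Y] {K : Set Y}
    (hK : IsCompact K) {x : Y} (hx : x ∈ K) {U : Set Y} (hU : IsOpen U)
    (h : connectedComponentIn K x ⊆ U) :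
    ∃ Z : Set Y, Z ⊆ K ∩ U ∧ x ∈ Z ∧ IsClosed Z ∧ ∃ O : Set Y, IsOpen O ∧ Z = K ∩ O := by
  have hc : CompactSpace ↥K := isCompact_iff_compactSpace.1 hK
  let U' : Set ↥K := Subtype.val ⁻¹' U
  have hU' : IsOpen U' := hU.preimage continuous_subtype_val
  have h1 : connectedComponent (⟨x, hx⟩ : ↥K) ⊆ U' := by
    intro z hz
    apply h
    rw [connectedComponentIn_eq_image hx]
    exact ⟨z, hz, rfl⟩
  rw [connectedComponent_eq_iInter_isClopen] at h1
  have hne : Nonempty { s : Set ↥K // IsClopen s ∧ (⟨x, hx⟩ : ↥K) ∈ s } :=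
    ⟨⟨univ, isClopen_univ, mem_univ _⟩⟩
  obtain ⟨⟨Z, hZc, hxZ⟩, hZU⟩ := exists_subset_nhds_of_compactSpace
    (V := fun s : { s : Set ↥K // IsClopen s ∧ (⟨x, hx⟩ : ↥K) ∈ s } => s.1) (by
      rintro ⟨s, hs, hxs⟩ ⟨t, ht, hxt⟩
      exact ⟨⟨s ∩ t, hs.inter ht, hxs, hxt⟩, inter_subset_left, inter_subset_right⟩)
    (fun s => s.2.1.isClosed) (fun z hz => hU'.mem_nhds (h1 hz))
  refine ⟨Subtype.val '' Z, ?_, ⟨_, hxZ, rfl⟩, (hZc.isClosed.isCompact.image
    continuous_subtype_val).isClosed, ?_⟩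
  · rintro _ ⟨z, hz, rfl⟩
    exact ⟨z.2, hZU hz⟩
  · obtain ⟨O, hO, hO'⟩ := isOpen_induced_iff.1 hZc.isOpen
    refine ⟨O, hO, ?_⟩
    rw [← hO']
    ext z
    constructor
    · rintro ⟨z, hz, rfl⟩
      exact ⟨z.2, hz⟩
    · rintro ⟨h1, h2⟩
      exact ⟨⟨z, h1⟩, h2, rfl⟩

theorem t12 : Stm12 := by
  intro Y _ S hS hSc c x r hx hxr hy
  obtain ⟨y, hyS, hyr⟩ := hy
  by_contra hcon
  push Not at hcon
  have hK : IsCompact (S ∩ closedBall c r) := hS.inter_right isClosed_closedBall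
  have hxK : x ∈ S ∩ closedBall c r := ⟨hx, hxr⟩
  obtain ⟨Z, hZ, hxZ, hZc, O, hO, hZO⟩ := exists_clopen_set hK hxK (U := ball c r) isOpen_ball (by
    intro z hz
    have h1 := (connectedComponentIn_subset _ _ hz).2
    rw [mem_closedBall] at h1
    rw [mem_ball]
    exact lt_of_le_of_ne h1 (hcon z hz))
  obtain ⟨z, hzS, ⟨hz1, hz2⟩, hz3⟩ := hSc (O ∩ ball c r) Zᶜ (hO.inter isOpen_ball)
    hZc.isOpen_compl (by
      intro z hz
      by_cases h : z ∈ Z
      · exact Or.inl ⟨(hZO ▸ h : z ∈ S ∩ closedBall c r ∩ O).2, (hZ h).2⟩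
      · exact Or.inr h) ⟨x, hx, (hZO ▸ hxZ : x ∈ S ∩ closedBall c r ∩ O).2, (hZ hxZ).2⟩
    ⟨y, hyS, fun h => by
      have := (hZ h).2
      rw [mem_ball] at this
      linarith⟩
  apply hz3
  rw [hZO]
  exact ⟨⟨hzS, ball_subset_closedBall hz2⟩, hz1⟩

end Pool.Agent.H405
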