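import Pool.Agent.H405.Stm

set_option autoImplicit false

/-! Project H405: (1.1), (1.3), (1.4). -/

namespace Pool.Agent.H405

open Set Topology Filter Metric
open Pool.Agent.R638.DD

/-- a preconnected subset meeting both sides of a `TP` separation contains the exceptional
point -/
theorem TP.exc_mem {Y : Type} [TopologicalSpace Y] {S A B C : Set Y} (hA : IsOpen A)
    (hB : IsOpen B) (hAB : A ∩ B ∩ S = ∅) (hC : IsPreconnected C) (hCS : C ⊆ S) {u v : Y}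
    (hu : u ∈ C) (hv : v ∈ C) (huA : u ∈ A) (hvB : v ∈ B) : ∃ c ∈ C, c ∈ S \ (A ∪ B) := by
  by_contra hcon
  push Not at hcon
  obtain ⟨z, hz, hzA, hzB⟩ := hC A B hA hB (by
    intro z hz
    by_contra h
    exact hcon z hz ⟨hCS hz, h⟩) ⟨u, hu, huA⟩ ⟨v, hv, hvB⟩
  have : z ∈ A ∩ B ∩ S := ⟨⟨hzA, hzB⟩, hCS hz⟩
  rw [hAB] at this
  exact this

theorem t13 : Stm13 := by
  intro Y _ S hS hTP ε hε C hCS hCc hC hd
  choose u hu v hv huv using hC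
  obtain ⟨u0, hu0, φ, hφ, hφu⟩ := hS.tendsto_subseq (fun n => hCS n (hu n))
  obtain ⟨v0, hv0, ψ, hψ, hψv⟩ := hS.tendsto_subseq (fun n => hCS (φ n) (hv (φ n)))
  have hu' : Tendsto (fun n => u (φ (ψ n))) atTop (𝓝 u0) := hφu.comp hψ.tendsto_atTop
  have hv' : Tendsto (fun n => v (φ (ψ n))) atTop (𝓝 v0) := hψv
  have hne : u0 ≠ v0 := by
    rintro rfl
    have h := (hu'.dist hv')
    rw [dist_self] at h
    have h2 : ε ≤ 0 := ge_of_tendsto h (Eventually.of_forall fun n => huv _)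
    linarith
  obtain ⟨A, B, hA, hB, huA, hvB, h1, h2⟩ := hTP u0 hu0 v0 hv0 hne
  have he1 := hu'.eventually (hA.mem_nhds huA)
  have he2 := hv'.eventually (hB.mem_nhds hvB)
  obtain ⟨N, hN⟩ := eventually_atTop.1 (he1.and he2)
  have key : ∀ n, N ≤ n → ∃ c ∈ C (φ (ψ n)), c ∈ S \ (A ∪ B) := fun n hn =>
    TP.exc_mem hA hB h1 (hCc _) (hCS _) (hu _) (hv _) (hN n hn).1 (hN n hn).2
  obtain ⟨c, hc, hc'⟩ := key N le_rfl
  obtain ⟨d, hd1, hd2⟩ := key (N + 1) (Nat.le_succ N)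
  have hcd : c = d := h2 hc' hd2
  subst hcd
  have hne2 : φ (ψ N) ≠ φ (ψ (N + 1)) :=
    (hφ.comp hψ).injective.ne (Nat.succ_ne_self N).symm
  exact Set.disjoint_left.1 (hd hne2) hc hd1

theorem t14 : Stm14 := by
  intro Y _ _ S hTP
  by_cases hne : ∃ u ∈ S, ∃ v ∈ S, u ≠ v
  · -- the separations as sets in the product
    let I : Type := {p : Y × Y // p.1 ∈ S ∧ p.2 ∈ S ∧ p.1 ≠ p.2}
    have hI : ∀ p : I, ∃ A B : Set Y, IsOpen A ∧ IsOpen B ∧ p.1.1 ∈ A ∧ p.1.2 ∈ B ∧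
        A ∩ B ∩ S = ∅ ∧ (S \ (A ∪ B)).Subsingleton := fun p => hTP p.1.1 p.2.1 p.1.2 p.2.2.1 p.2.2.2
    choose A B hA hB huA hvB h1 h2 using hI
    obtain ⟨T, hT, hTu⟩ := TopologicalSpace.isOpen_iUnion_countable
      (fun p : I => A p ×ˢ B p) (fun p => (hA p).prod (hB p))
    obtain ⟨u0, hu0, v0, hv0, huv0⟩ := hne
    have hTne : T.Nonempty := by
      have : (u0, v0) ∈ ⋃ p : I, A p ×ˢ B p :=
        mem_iUnion.2 ⟨⟨(u0, v0), hu0, hv0, huv0⟩, huA _, hvB _⟩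
      rw [← hTu] at this
      obtain ⟨p, hp, -⟩ := mem_iUnion₂.1 this
      exact ⟨p, hp⟩
    obtain ⟨f, hf⟩ := hT.exists_eq_range hTne
    refine ⟨fun n => A (f n), fun n => B (f n), fun n => ⟨hA _, hB _, h1 _, h2 _⟩, ?_⟩
    intro u hu v hv huv
    have : (u, v) ∈ ⋃ p : I, A p ×ˢ B p :=
      mem_iUnion.2 ⟨⟨(u, v), hu, hv, huv⟩, huA _, hvB _⟩
    rw [← hTu] at this
    obtain ⟨p, hp, hp'⟩ := mem_iUnion₂.1 this
    rw [hf] at hp
    obtain ⟨n, rfl⟩ := hp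
    exact ⟨n, hp'.1, hp'.2⟩
  · push Not at hne
    refine ⟨fun _ => univ, fun _ => ∅, fun _ => ⟨isOpen_univ, isOpen_empty, by simp, by simp⟩, ?_⟩
    intro u hu v hv huv
    exact absurd (hne u hu v hv) huv

end Pool.Agent.H405
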