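import Pool.Agent.H405.Stm

set_option autoImplicit false

namespace Pool.Agent.H405

open Set Topology Filter Metric
open Pool.Agent.R638.DD

/-- (1.5) -/
theorem t15 (h12 : Stm12) : Stm15 := by
  intro Y _ S hS hSp c hc hcik U hU hcU
  obtain ⟨ε, hε, hεU⟩ := Metric.nhds_basis_closedBall.mem_iff.1 (hU.mem_nhds hcU)
  have hcK : c ∈ S ∩ closedBall c ε := ⟨hc, mem_closedBall_self hε.le⟩
  refine ⟨connectedComponentIn (S ∩ closedBall c ε) c, ?_, isPreconnected_connectedComponentIn, ?_⟩
  · intro y hy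
    have := connectedComponentIn_subset _ _ hy
    exact ⟨this.1, hεU this.2⟩
  by_contra hcon
  push Not at hcon
  set K := connectedComponentIn (S ∩ closedBall c ε) c with hK
  have hsub : ∀ D : Set Y, IsPreconnected D → c ∈ D → D ⊆ S ∩ closedBall c ε → D ⊆ K :=
    fun D hD hcD hDs => hD.subset_connectedComponentIn hcD hDs
  -- points outside of `K` converging to `c`
  have hx : ∀ n : ℕ, ∃ x : Y, x ∈ S ∧ x ∉ K ∧ dist x c < min (1 / ((n : ℝ) + 1)) (ε / 2) := by
    intro n
    have hr : 0 < min (1 / ((n : ℝ) + 1)) (ε / 2) := lt_min (by positivity) (by positivity)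
    have h1 := hcon (ball c (min (1 / ((n : ℝ) + 1)) (ε / 2))) isOpen_ball (mem_ball_self hr)
    obtain ⟨x, hx1, hx2⟩ := not_subset.1 h1
    exact ⟨x, hx1.2, hx2, hx1.1⟩
  choose x hxS hxK hxd using hx
  -- the whole continuum is not near `c`
  have hfar : ∃ y ∈ S, ε / 2 ≤ dist y c := by
    by_contra hno
    push Not at hno
    have h1 : S ⊆ K := hsub S hSp hc fun y hy => ⟨hy, by
      rw [mem_closedBall]
      have := hno y hy
      linarith⟩
    exact hxK 0 (h1 (hxS 0))
  have hy : ∀ n, ∃ y ∈ connectedComponentIn (S ∩ closedBall c (ε / 2)) (x n), dist y c = ε / 2 := by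
    intro n
    refine h12 Y S hS hSp c (x n) (ε / 2) (hxS n) ?_ hfar
    exact (lt_of_lt_of_le (hxd n) (min_le_right _ _)).le
  choose y hyK hyd using hy
  have hyS : ∀ n, y n ∈ S := fun n => (connectedComponentIn_subset _ _ (hyK n)).1
  obtain ⟨z, hzS, φ, hφ, hlim⟩ := hS.tendsto_subseq hyS
  have hzd : dist z c = ε / 2 := by
    have h1 : Tendsto (fun n => dist (y (φ n)) c) atTop (𝓝 (dist z c)) :=
      hlim.dist tendsto_const_nhds
    have h2 : (fun n => dist (y (φ n)) c) = fun _ => ε / 2 := by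
      funext n
      exact hyd _
    rw [h2] at h1
    exact tendsto_nhds_unique h1 tendsto_const_nhds |>.symm ▸ rfl
  have hzc : z ≠ c := by
    intro h
    rw [h, dist_self] at hzd
    linarith
  obtain ⟨C, hC, hCc, O, hO, hzO, hOC⟩ := hcik z hzS hzc (ball z (ε / 4)) isOpen_ball
    (mem_ball_self (by positivity))
  obtain ⟨N, hN⟩ := eventually_atTop.1 (hlim.eventually (hO.mem_nhds hzO))
  -- the connected set
  have hyC : ∀ n, N ≤ n → y (φ n) ∈ C := fun n hn => hOC ⟨hN n hn, hyS _⟩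
  let Kn : ℕ → Set Y := fun n => connectedComponentIn (S ∩ closedBall c (ε / 2)) (x (φ n))
  have hxn : ∀ n, x n ∈ S ∩ closedBall c (ε / 2) := fun n => ⟨hxS n, by
    rw [mem_closedBall]
    exact (lt_of_lt_of_le (hxd n) (min_le_right _ _)).le⟩
  have hxKn : ∀ n, x (φ n) ∈ Kn n := fun n => mem_connectedComponentIn (hxn _)
  have hKnc : ∀ n, IsPreconnected (Kn n) := fun n => isPreconnected_connectedComponentIn
  have hzC : z ∈ C := hOC ⟨hzO, hzS⟩
  let D : Set Y := ⋃ n : {n : ℕ // N ≤ n}, (C ∪ Kn n.1)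
  have hD : IsPreconnected D := by
    refine isPreconnected_iUnion ⟨z, mem_iInter.2 fun n => Or.inl hzC⟩ fun n => ?_
    exact hCc.union (y (φ n.1)) (hyC n.1 n.2) (hyK _) (hKnc n.1)
  have hDs : D ⊆ S ∩ closedBall c ε := by
    intro w hw
    obtain ⟨n, hn⟩ := mem_iUnion.1 hw
    rcases hn with hn | hn
    · refine ⟨(hC hn).1, ?_⟩
      have h1 : dist w z < ε / 4 := (hC hn).2
      rw [mem_closedBall]
      have h2 := dist_triangle w z c
      linarith
    · have h1 := connectedComponentIn_subset _ _ hn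
      refine ⟨h1.1, ?_⟩
      have h2 : dist w c ≤ ε / 2 := h1.2
      rw [mem_closedBall]
      linarith
  have hxD : ∀ n, N ≤ n → x (φ n) ∈ D := fun n hn => mem_iUnion.2 ⟨⟨n, hn⟩, Or.inr (hxKn n)⟩
  have hxlim : Tendsto (fun n => x (φ n)) atTop (𝓝 c) := by
    have h1 : Tendsto x atTop (𝓝 c) := by
      rw [tendsto_iff_dist_tendsto_zero]
      refine squeeze_zero (fun n => dist_nonneg) (fun n => ?_)
        (tendsto_one_div_add_atTop_nhds_zero_nat (𝕜 := ℝ))
      exact (lt_of_lt_of_le (hxd n) (min_le_left _ _)).le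
    exact h1.comp hφ.tendsto_atTop
  have hcD : c ∈ closure D := mem_closure_of_tendsto hxlim
    (eventually_atTop.2 ⟨N, fun n hn => hxD n hn⟩)
  have hD' : IsPreconnected (insert c D) :=
    hD.subset_closure (subset_insert _ _) (insert_subset hcD subset_closure)
  have h1 : insert c D ⊆ K := hsub _ hD' (mem_insert _ _) (insert_subset hcK hDs)
  exact hxK (φ N) (h1 (Or.inr (hxD N le_rfl)))

end Pool.Agent.H405
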