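import Pool.Agent.H405.Stm

set_option autoImplicit false

namespace Pool.Agent.H405

open Set Topology Filter Metric
open Pool.Agent.R638.DD

theorem t15b_lc {Y : Type} [MetricSpace Y] (S : Set Y) :
    LocallyConnectedSpace ↥S ↔ ∀ x ∈ S, Cik S x := by
  rw [locallyConnectedSpace_iff_connected_subsets]
  constructor
  · intro h x hx U hU hxU
    obtain ⟨V, hV, hVc, hVU⟩ := h ⟨x, hx⟩ (Subtype.val ⁻¹' U)
      ((hU.preimage continuous_subtype_val).mem_nhds hxU)
    refine ⟨Subtype.val '' V, ?_, hVc.image _ continuous_subtype_val.continuousOn, ?_⟩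
    · rintro _ ⟨y, hy, rfl⟩
      exact ⟨y.2, hVU hy⟩
    · rw [_root_.mem_nhds_iff] at hV
      obtain ⟨W, hWV, hWo, hxW⟩ := hV
      obtain ⟨O, hO, rfl⟩ := isOpen_induced_iff.1 hWo
      refine ⟨O, hO, hxW, ?_⟩
      rintro y ⟨hyO, hyS⟩
      exact ⟨⟨y, hyS⟩, hWV hyO, rfl⟩
  · intro h x U hU
    rw [_root_.mem_nhds_iff] at hU
    obtain ⟨W, hWU, hWo, hxW⟩ := hU
    obtain ⟨O, hO, rfl⟩ := isOpen_induced_iff.1 hWo
    obtain ⟨C, hC, hCc, O', hO', hxO', hOC⟩ := h x.1 x.2 O hO hxW
    refine ⟨Subtype.val ⁻¹' C, ?_, ?_, ?_⟩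
    · refine _root_.mem_nhds_iff.2 ⟨Subtype.val ⁻¹' O', ?_, hO'.preimage continuous_subtype_val, hxO'⟩
      intro y hy
      exact hOC ⟨hy, y.2⟩
    · rw [← Topology.IsInducing.subtypeVal.isPreconnected_image, Subtype.image_preimage_coe]
      have : S ∩ C = C := inter_eq_right.2 fun y hy => (hC hy).1
      rw [this]
      exact hCc
    · intro y hy
      exact hWU (hC hy).2

/-- connected im kleinen everywhere iff locally connected -/
theorem t15b : Stm15b := by
  intro Y _ S
  constructor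
  · intro hc hp hne hcik
    exact ⟨isCompact_iff_compactSpace.1 hc, inferInstance,
      Subtype.connectedSpace ⟨hne, hp⟩, (t15b_lc S).2 hcik⟩
  · intro h
    have h1 := h.compact
    have h3 := h.connected
    have h5 : IsConnected S := isConnected_iff_connectedSpace.2 h3
    exact ⟨isCompact_iff_compactSpace.2 h1, h5.isPreconnected, h5.nonempty,
      (t15b_lc S).1 h.locConn⟩

end Pool.Agent.H405
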