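import Pool.Agent.H405.Stm

set_option autoImplicit false

namespace Pool.Agent.H405

open Set Topology Filter Metric
open Pool.Agent.R638.DD

theorem t16_range {X Y : Type} [TopologicalSpace X] [MetricSpace Y] (f : X → Y) (hX : IsPeano X)
    (hf : Continuous f) : IsPeano ↥(range f) := by
  have h1 := hX.compact
  have h2 := hX.connected
  have h3 := hX.locConn
  have hg : Continuous (rangeFactorization f) := hf.rangeFactorization
  have hs : Function.Surjective (rangeFactorization f) := rangeFactorization_surjective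
  have hq : Topology.IsQuotientMap (rangeFactorization f) :=
    hg.isClosedMap.isQuotientMap hg hs
  refine ⟨?_, inferInstance, ?_, hq.isCoinducing.locallyConnectedSpace⟩
  · exact isCompact_iff_compactSpace.1 (isCompact_range hf)
  · exact isConnected_iff_connectedSpace.1 (isConnected_range hf)

/-- (1.6) -/
theorem t16 (h15b : Stm15b) : Stm16 := by
  refine ⟨fun X Y _ _ f hX hf => t16_range f hX hf, ?_, ?_⟩
  · intro Y _ S f hS hf
    have h1 := t16_range (S.domRestrict f) hS (continuousOn_iff_continuous_domRestrict.1 hf)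
    rw [Set.range_domRestrict] at h1
    exact h1
  · intro Y _ P Q hP hQ hPQ
    obtain ⟨cP, pP, nP, kP⟩ := (h15b Y P).2 hP
    obtain ⟨cQ, pQ, nQ, kQ⟩ := (h15b Y Q).2 hQ
    obtain ⟨z, hzP, hzQ⟩ := hPQ
    refine (h15b Y (P ∪ Q)).1 (cP.union cQ) (pP.union z hzP hzQ pQ) ⟨z, Or.inl hzP⟩ ?_
    intro x hx U hU hxU
    by_cases hxP : x ∈ P
    · by_cases hxQ : x ∈ Q
      · obtain ⟨C, hC, hCc, O, hO, hxO, hOC⟩ := kP x hxP U hU hxU
        obtain ⟨C', hC', hCc', O', hO', hxO', hOC'⟩ := kQ x hxQ U hU hxU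
        refine ⟨C ∪ C', ?_, hCc.union x (hOC ⟨hxO, hxP⟩) (hOC' ⟨hxO', hxQ⟩) hCc', O ∩ O',
          hO.inter hO', ⟨hxO, hxO'⟩, ?_⟩
        · rintro y (hy | hy)
          · exact ⟨Or.inl (hC hy).1, (hC hy).2⟩
          · exact ⟨Or.inr (hC' hy).1, (hC' hy).2⟩
        · rintro y ⟨⟨hy1, hy2⟩, hy | hy⟩
          · exact Or.inl (hOC ⟨hy1, hy⟩)
          · exact Or.inr (hOC' ⟨hy2, hy⟩)
      · obtain ⟨C, hC, hCc, O, hO, hxO, hOC⟩ := kP x hxP U hU hxU
        refine ⟨C, fun y hy => ⟨Or.inl (hC hy).1, (hC hy).2⟩, hCc, O ∩ Qᶜ,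
          hO.inter cQ.isClosed.isOpen_compl, ⟨hxO, hxQ⟩, ?_⟩
        rintro y ⟨⟨hy1, hy2⟩, hy | hy⟩
        · exact hOC ⟨hy1, hy⟩
        · exact absurd hy hy2
    · have hxQ : x ∈ Q := by
        rcases hx with hx | hx
        · exact absurd hx hxP
        · exact hx
      obtain ⟨C, hC, hCc, O, hO, hxO, hOC⟩ := kQ x hxQ U hU hxU
      refine ⟨C, fun y hy => ⟨Or.inr (hC hy).1, (hC hy).2⟩, hCc, O ∩ Pᶜ,
        hO.inter cP.isClosed.isOpen_compl, ⟨hxO, hxP⟩, ?_⟩
      rintro y ⟨⟨hy1, hy2⟩, hy | hy⟩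
      · exact absurd hy hy2
      · exact hOC ⟨hy1, hy⟩

end Pool.Agent.H405
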