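import Pool.Agent.H405.Stm

set_option autoImplicit false

namespace Pool.Agent.H405

open Set Topology Filter Metric
open Pool.Agent.R638.DD

open Classical in
/-- (1.7) -/
theorem t17 : Stm17 := by
  intro Y J _ A e ρ hA he hdisj hρ hid hfin
  let σ : Y → Y := fun x => if h : ∃ j, x ∈ e j then ρ h.choose x else x
  have hσ1 : ∀ j, ∀ x ∈ e j, σ x = ρ j x := by
    intro j x hx
    have hex : ∃ j, x ∈ e j := ⟨j, hx⟩
    have h1 : hex.choose = j := by
      by_contra hne
      exact Set.disjoint_left.1 (hdisj hne) hex.choose_spec hx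
    show (if h : ∃ j, x ∈ e j then ρ h.choose x else x) = ρ j x
    rw [dif_pos hex, h1]
  have hσ2 : ∀ x, x ∉ ⋃ j, e j → σ x = x := by
    intro x hx
    have hex : ¬ ∃ j, x ∈ e j := fun h => hx (mem_iUnion.2 h)
    show (if h : ∃ j, x ∈ e j then ρ h.choose x else x) = x
    rw [dif_neg hex]
  refine ⟨σ, ?_, hσ1, fun x hx => hσ2 x hx.2⟩
  intro x hx
  by_cases hxe : ∃ j, x ∈ e j
  · obtain ⟨j, hj⟩ := hxe
    obtain ⟨O, hO, heO⟩ := he j
    have h1 : ContinuousWithinAt (ρ j) (e j) x :=
      ((hρ j) x (subset_closure hj)).mono subset_closure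
    have h2 : ContinuousWithinAt σ (e j) x :=
      h1.congr (fun y hy => hσ1 j y hy) (hσ1 j x hj)
    have hxO : x ∈ O := by
      rw [heO] at hj
      exact hj.2
    rw [heO] at h2
    exact (continuousWithinAt_inter (hO.mem_nhds hxO)).1 h2
  · have hxn : x ∉ ⋃ j, e j := fun h => hxe (mem_iUnion.1 h)
    have hσx := hσ2 x hxn
    unfold ContinuousWithinAt
    rw [hσx, Metric.tendsto_nhds]
    intro ε hε
    have hF := hfin (ε / 2) (half_pos hε)
    have h1 : ∀ᶠ y in 𝓝 x, ∀ j ∈ {j | ∃ x ∈ e j, ε / 2 ≤ dist (ρ j x) x},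
        y ∈ e j → dist (ρ j y) x < ε := by
      rw [Filter.eventually_all_finite hF]
      intro j _
      by_cases hc : x ∈ closure (e j)
      · have hj : x ∉ e j := fun h => hxe ⟨j, h⟩
        have h2 := hid j x ⟨hc, hj⟩
        have h3 := (hρ j) x hc
        unfold ContinuousWithinAt at h3
        rw [h2, Metric.tendsto_nhds] at h3
        have h4 := eventually_nhdsWithin_iff.1 (h3 ε hε)
        filter_upwards [h4] with y hy hyj
        exact hy (subset_closure hyj)
      · have h2 : (closure (e j))ᶜ ∈ 𝓝 x := isClosed_closure.isOpen_compl.mem_nhds hc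
        filter_upwards [h2] with y hy hyj
        exact absurd (subset_closure hyj) hy
    have h2 : ∀ᶠ y in 𝓝 x, dist y x < ε / 2 := Metric.ball_mem_nhds x (half_pos hε)
    apply Filter.Eventually.filter_mono nhdsWithin_le_nhds
    filter_upwards [h1, h2] with y hy1 hy2
    by_cases hye : ∃ j, y ∈ e j
    · obtain ⟨j, hj⟩ := hye
      rw [hσ1 j y hj]
      by_cases hjF : ∃ x ∈ e j, ε / 2 ≤ dist (ρ j x) x
      · exact hy1 j hjF hj
      · push Not at hjF
        have h3 := hjF y hj
        calc dist (ρ j y) x ≤ dist (ρ j y) y + dist y x := dist_triangle _ _ _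
          _ < ε / 2 + ε / 2 := add_lt_add h3 hy2
          _ = ε := by ring
    · rw [hσ2 y (fun h => hye (mem_iUnion.1 h))]
      linarith

end Pool.Agent.H405
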