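import Pool.Agent.H405.Stm
import Pool.Agent.R638.DD.COMP
import Pool.Agent.R638.DD.Unc
import Pool.Agent.R638.DD.Shr

set_option autoImplicit false

/-! Project H405: piece 21 (cut points of dendrites), with basic lemmas on `Dc`. -/

namespace Pool.Agent.H405

open Set Topology Filter Metric
open Pool.Agent.R638.DD

section Basics

variable {X : Type} [TopologicalSpace X]

theorem t21_dc_not (c x : X) : c ∉ Dc c x := fun h => connectedComponentIn_subset _ _ h rfl

theorem t21_dc_mem {c x : X} (h : x ≠ c) : x ∈ Dc c x := mem_connectedComponentIn h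

theorem t21_dc_conn (c x : X) : IsPreconnected (Dc c x) := isPreconnected_connectedComponentIn

theorem t21_dc_eq {c x y : X} (h : y ∈ Dc c x) : Dc c y = Dc c x :=
  (connectedComponentIn_eq h).symm

theorem t21_dc_ne {c x y : X} (h : y ∈ Dc c x) : y ≠ c := fun e => by
  subst e; exact t21_dc_not _ _ h

theorem t21_dc_symm {c x y : X} (hx : x ≠ c) (h : y ∈ Dc c x) : x ∈ Dc c y := by
  rw [t21_dc_eq h]; exact t21_dc_mem hx

/-- a connected set which misses `c` and meets a component lies in it -/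
theorem t21_sub_dc {c x y : X} {C : Set X} (hC : IsPreconnected C) (hc : c ∉ C) (hy : y ∈ C)
    (h : y ∈ Dc c x) : C ⊆ Dc c x := by
  rw [← t21_dc_eq h]
  refine hC.subset_connectedComponentIn hy ?_
  intro z hz e
  rw [mem_singleton_iff] at e
  exact hc (e ▸ hz)

theorem t21_sep_btw {c u v : X} (h : Sep c u v) : c ∈ Btw u v := by
  intro C hC hu hv
  by_contra hc
  exact h.2.2 (t21_sub_dc hC hc hu (t21_dc_mem (Ne.symm h.1)) hv)

theorem t21_btw_sep {c u v : X} (h : c ∈ Btw u v) (hu : c ≠ u) (hv : c ≠ v) : Sep c u v :=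
  ⟨hu, hv, fun h1 => t21_dc_not c u (h _ (t21_dc_conn c u) (t21_dc_mem (Ne.symm hu)) h1)⟩

theorem t21_sep_symm {c u v : X} (h : Sep c u v) : Sep c v u :=
  ⟨h.2.1, h.1, fun h1 => h.2.2 (t21_dc_symm (Ne.symm h.2.1) h1)⟩

theorem t21_dc_open (hX : IsPeano X) {c x : X} (h : x ≠ c) : IsOpen (Dc c x) :=
  (t_Comp X hX c x h).1

theorem t21_dc_union (hX : IsPeano X) {c x : X} (h : x ≠ c) : IsPreconnected (Dc c x ∪ {c}) :=
  (t_Comp X hX c x h).2.2.2

theorem t21_dc_closed (hX : IsPeano X) {c x : X} (h : x ≠ c) : IsClosed (Dc c x ∪ {c}) :=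
  (t_Comp X hX c x h).2.1.clB

theorem t21_dc_compl (hX : IsPeano X) {c x : X} (h : x ≠ c) : IsPreconnected (Dc c x)ᶜ :=
  (t_Comp X hX c x h).2.2.1

end Basics

theorem t21 : Stm21 := by
  intro X _ hD u v huv
  have hX : IsPeano X := hD.toIsPeano
  have := hX.compact
  have := hX.metrizable
  have := hX.connected
  have := hX.locConn
  set A : Set X := {a : X | Sep a u v ∧ ¬ Simple a} with hA
  -- a third component
  have hw : ∀ a : X, ∃ w : X, a ∈ A → w ≠ a ∧ w ∉ Dc a u ∧ w ∉ Dc a v := by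
    intro a
    by_cases ha : a ∈ A
    · have h1 : ¬ ∀ w, w ≠ a → w ∈ Dc a u ∨ w ∈ Dc a v := by
        intro h
        exact ha.2 ⟨u, v, ha.1, h⟩
      push Not at h1
      obtain ⟨w, hw1, hw2, hw3⟩ := h1
      exact ⟨w, fun _ => ⟨hw1, hw2, hw3⟩⟩
    · exact ⟨a, fun h => absurd h ha⟩
  choose w hw using hw
  have hnot : ∀ a ∈ A, ∀ a' ∈ A, a ≠ a' → a' ∉ Dc a (w a) := by
    intro a ha a' ha' hne hmem
    obtain ⟨h1, h2, h3⟩ := hw a ha
    have hu : u ≠ a := Ne.symm ha.1.1
    have hv : v ≠ a := Ne.symm ha.1.2.1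
    have hconn : IsPreconnected ((Dc a u ∪ {a}) ∪ (Dc a v ∪ {a})) :=
      IsPreconnected.union a (Or.inr rfl) (Or.inr rfl) (t21_dc_union hX hu) (t21_dc_union hX hv)
    have ha'' := t21_sep_btw ha'.1 _ hconn (Or.inl (Or.inl (t21_dc_mem hu)))
      (Or.inr (Or.inl (t21_dc_mem hv)))
    have key : ∀ z, a' ∈ Dc a z → w a ∈ Dc a z := by
      intro z hz
      have e1 := t21_dc_eq hz
      have e2 := t21_dc_eq hmem
      rw [← e1, e2]
      exact t21_dc_mem h1
    rcases ha'' with (h | h) | (h | h)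
    · exact h2 (key u h)
    · exact hne h.symm
    · exact h3 (key v h)
    · exact hne h.symm
  have hdisj : A.PairwiseDisjoint (fun a => Dc a (w a)) := by
    intro a ha a' ha' hne
    rw [Function.onFun, Set.disjoint_left]
    intro z hz hz'
    have h1 := hnot a ha a' ha' hne
    have h2 := hnot a' ha' a ha (Ne.symm hne)
    have h3 : IsPreconnected (Dc a (w a) ∪ {a}) := t21_dc_union hX (hw a ha).1
    have h4 : a' ∉ Dc a (w a) ∪ {a} := by
      rintro (h | h)
      · exact h1 h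
      · exact hne h.symm
    exact h2 (t21_sub_dc h3 h4 (Or.inl hz) hz' (Or.inr rfl))
  exact hdisj.countable_of_isOpen (fun a ha => t21_dc_open hX (hw a ha).1)
    (fun a ha => ⟨w a, t21_dc_mem (hw a ha).1⟩)

end Pool.Agent.H405
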