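import Pool.Agent.H405.T21

set_option autoImplicit false

/-! Project H405: piece 21b (uncountably many simple points separate two points). -/

namespace Pool.Agent.H405

open Set Topology Filter Metric
open Pool.Agent.R638.DD

theorem t21b : Stm21b := by
  intro X _ hD u v huv S hS
  have hUnc : StmUnc := t_Unc t_Comp t_Shr
  have hcount : (S ∪ ({u, v} ∪ {a : X | Sep a u v ∧ ¬ Simple a})).Countable :=
    hS.union ((Set.toFinite _).countable.union (t21 X hD u v huv))
  obtain ⟨c, hc, hcn⟩ := hUnc X hD u v huv _ hcount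
  simp only [mem_union, mem_insert_iff, mem_singleton_iff, mem_ofPred_eq, not_or, not_and,
    not_not] at hcn
  obtain ⟨h1, ⟨h2, h3⟩, h4⟩ := hcn
  have hsep := t21_btw_sep hc h2 h3
  exact ⟨c, hsep, h4 hsep, h1⟩

end Pool.Agent.H405
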