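import Pool.Agent.H405.T21b

set_option autoImplicit false

/-! Project H405: piece 22 (simple points separating a point from a compact set). -/

namespace Pool.Agent.H405

open Set Topology Filter Metric
open Pool.Agent.R638.DD

theorem t22_far_open {X : Type} [TopologicalSpace X] (hX : IsPeano X) {a r : X} (h : r ≠ a) :
    IsOpen (far a r) := (t21_dc_closed hX h).isOpen_compl

theorem t22_mem_far {X : Type} [TopologicalSpace X] {a r y : X} (h : Sep a r y) : y ∈ far a r := by
  rintro (h1 | h1)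
  · exact h.2.2 h1
  · exact h.2.1 h1.symm

theorem t22_far_sep {X : Type} [TopologicalSpace X] {a r y : X} (h : r ≠ a) (hy : y ∈ far a r) :
    Sep a r y :=
  ⟨Ne.symm h, fun e => hy (Or.inr e.symm), fun e => hy (Or.inl e)⟩

/-- A closed connected set in the complement of `r` is inside some `far a r`. -/
theorem t22_key {X : Type} [TopologicalSpace X] (hD : IsDen X) (r : X) (K : Set X)
    (hKc : IsCompact K) (hKp : IsPreconnected K) (hKn : K.Nonempty) (hrK : r ∉ K) :
    ∃ a, a ≠ r ∧ a ∉ K ∧ K ⊆ far a r := by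
  have hX : IsPeano X := hD.toIsPeano
  have := hX.compact
  have := hX.metrizable
  have := hX.connected
  have := hX.locConn
  -- separating points
  have hex : ∀ y : X, ∃ a : X, y ∈ K → Sep a r y := by
    intro y
    by_cases hy : y ∈ K
    · have hry : r ≠ y := fun e => hrK (e ▸ hy)
      obtain ⟨a, ha, -, -⟩ := t21b X hD r y hry ∅ countable_empty
      exact ⟨a, fun _ => ha⟩
    · exact ⟨r, fun h => absurd h hy⟩
  choose a ha using hex
  obtain ⟨t, htc⟩ := hKc.elim_nhds_subcover' (fun y _ => far (a y) r) (by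
    intro y hy
    exact (t22_far_open hX (Ne.symm (ha y hy).1)).mem_nhds (t22_mem_far (ha y hy)))
  have hcov : K ⊆ ⋃ y ∈ t, far (a y) r := by
    intro z hz
    have := htc hz
    simpa using this
  have htn : t.Nonempty := by
    obtain ⟨z, hz⟩ := hKn
    have := hcov hz
    simp only [mem_iUnion] at this
    obtain ⟨y, hy, -⟩ := this
    exact ⟨y, hy⟩
  obtain ⟨y0, hy0⟩ := Finset.exists_maximalFor (fun y : ↥K => far (a (y : X)) r) t htn
  have hy0t : y0 ∈ t := hy0.1
  have hs0 : Sep (a y0) r y0 := ha y0 y0.2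
  have hne0 : r ≠ a y0 := Ne.symm hs0.1
  have hbK : a y0 ∉ K := by
    intro hb
    have h1 := hcov hb
    simp only [mem_iUnion] at h1
    obtain ⟨y1, hy1, h1⟩ := h1
    have hs1 : Sep (a y1) r y1 := ha y1 y1.2
    have hne1 : r ≠ a y1 := Ne.symm hs1.1
    have hsep : Sep (a y1) r (a y0) := t22_far_sep hne1 h1
    by_cases h2 : a y1 ∈ (Dc (a y0) r)ᶜ
    · -- `a y1` in the far side of `a y0`
      have h3 : IsPreconnected (Dc (a y0) r ∪ {a y0}) := t21_dc_union hX hne0
      have h4 := t21_sep_btw hsep _ h3 (Or.inl (t21_dc_mem hne0)) (Or.inr rfl)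
      rcases h4 with h4 | h4
      · exact h2 h4
      · exact hsep.2.1 h4
    · -- `a y1` on the side of `r`
      have h3 : IsPreconnected (Dc (a y0) r)ᶜ := t21_dc_compl hX hne0
      have h4 : a y0 ∈ (Dc (a y0) r)ᶜ := t21_dc_not _ _
      have hsub : (Dc (a y0) r)ᶜ ⊆ far (a y1) r := by
        have h5 : (Dc (a y0) r)ᶜ ⊆ Dc (a y1) (a y0) :=
          t21_sub_dc h3 h2 h4 (t21_dc_mem (Ne.symm hsep.2.1))
        intro z hz
        have hz1 := h5 hz
        rintro (h6 | h6)
        · -- then `a y0` is in the component of `r`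
          have e1 := t21_dc_eq h6
          have e2 := t21_dc_eq hz1
          apply hsep.2.2
          rw [← e1, e2]
          exact t21_dc_mem (Ne.symm hsep.2.1)
        · rw [mem_singleton_iff] at h6
          rw [h6] at hz1
          exact t21_dc_not _ _ hz1
      have hle : far (a y0) r ≤ far (a y1) r := fun z hz => hsub (fun h => hz (Or.inl h))
      have hge := hy0.2 hy1 hle
      exact (hge h1) (Or.inr rfl)
  refine ⟨a y0, Ne.symm hne0, hbK, ?_⟩
  intro z hz
  rintro (h1 | h1)
  · -- then `K` is inside the component of `r`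
    have h2 := t21_sub_dc hKp hbK hz h1
    exact hs0.2.2 (h2 y0.2)
  · exact hbK (by rw [mem_singleton_iff] at h1; exact h1 ▸ hz)

theorem t22 : Stm22 := by
  intro X _ hD r w hwr K hK hKn hKW S hS
  have hX : IsPeano X := hD.toIsPeano
  have := hX.compact
  have := hX.metrizable
  have := hX.connected
  have := hX.locConn
  obtain ⟨K', hK'W, hK'c, hK'p, hKK'⟩ := t_Shr X hX (Dc r w) (t21_dc_open hX hwr)
    (t21_dc_conn r w) K hKW hK
  obtain ⟨y, hy⟩ := hKn
  have hyK' : y ∈ K' := hKK' hy
  have hrK' : r ∉ K' := fun h => t21_dc_not r w (hK'W h)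
  obtain ⟨a, har, haK', hfar⟩ := t22_key hD r K' hK'c.isCompact hK'p ⟨y, hyK'⟩ hrK'
  obtain ⟨c, hc, hcs, hcS⟩ := t21b X hD r a (Ne.symm har) S hS
  have hra : r ≠ a := Ne.symm har
  -- every connected set which contains `r` and a point of `K'` contains `a` and `c`
  have hall : ∀ z ∈ K', ∀ C : Set X, IsPreconnected C → r ∈ C → z ∈ C → a ∈ C ∧ c ∈ C := by
    intro z hz C hC h1 h2
    have h3 : a ∈ C := t21_sep_btw (t22_far_sep hra (hfar hz)) C hC h1 h2
    exact ⟨h3, t21_sep_btw hc C hC h1 h3⟩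
  have hcK' : c ∉ K' := by
    intro h
    have h1 := hfar h
    apply h1
    exact t21_sep_btw hc _ (t21_dc_union hX hra) (Or.inl (t21_dc_mem hra)) (Or.inr rfl)
  refine ⟨c, ?_, fun h => hcK' (hKK' h), hcS, hcs, ?_⟩
  · have h1 := (hall y hyK' (Dc r w ∪ {r}) (t21_dc_union hX hwr) (Or.inr rfl)
      (Or.inl (hK'W hyK'))).2
    rcases h1 with h1 | h1
    · exact h1
    · exact absurd h1 hc.1
  · intro z hz
    have hzK' := hKK' hz
    rintro (h1 | h1)
    · have h2 := (hall z hzK' (Dc c r) (t21_dc_conn c r) (t21_dc_mem (Ne.symm hc.1)) h1).2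
      exact t21_dc_not c r h2
    · rw [mem_singleton_iff] at h1
      exact hcK' (h1 ▸ hzK')

end Pool.Agent.H405
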