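import Pool.Agent.H405.T24

set_option autoImplicit false

/-! Project H405: (2.3) neighbourhoods with finite boundaries consisting of simple points. -/

namespace Pool.Agent.H405

open Set Topology Filter Metric
open Pool.Agent.R638.DD

section

variable {X : Type} [TopologicalSpace X]

theorem t23_far_open (hX : IsPeano X) {a r : X} (h : r ≠ a) : IsOpen (far a r) :=
  (t24_closedU hX h).isOpen_compl

theorem t23_compact (hX : IsPeano X) {r w : X} (h : w ≠ r) {U : Set X} (hU : IsOpen U)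
    (hr : r ∈ U) : IsCompact (Dc r w \ U) := by
  haveI := hX.compact
  have e : Dc r w \ U = (Dc r w ∪ {r}) \ U := by
    ext z
    constructor
    · rintro ⟨h1, h2⟩
      exact ⟨Or.inl h1, h2⟩
    · rintro ⟨h1 | h1, h2⟩
      · exact ⟨h1, h2⟩
      · rw [mem_singleton_iff] at h1
        exact absurd (h1 ▸ hr) h2
  rw [e]
  exact ((t24_closedU hX h).sdiff hU).isCompact

end

theorem t23 (h22 : Stm22) : Stm23 := by
  intro X _ hX x U hU hxU S hS
  have hP := hX.toIsPeano
  haveI := hP.compact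
  have hex : ∀ y : X, y ∉ U → ∃ a, a ∈ U ∧ a ≠ x ∧ a ∉ S ∧ Simple a ∧ y ∈ far a x := by
    intro y hy
    have hyx : y ≠ x := fun h => hy (h ▸ hxU)
    obtain ⟨a, ha, haK, haS, hsa, hKa⟩ := h22 X hX x y hyx (Dc x y \ U)
      (t23_compact hP hyx hU hxU) ⟨y, t24_mem hyx, hy⟩ sdiff_subset S hS
    refine ⟨a, ?_, t24_ne ha, haS, hsa, hKa ⟨t24_mem hyx, hy⟩⟩
    by_contra h
    exact haK ⟨ha, h⟩
  choose! f hf using hex
  obtain ⟨t, ht, htc⟩ := (hU.isClosed_compl.isCompact).elim_nhds_subcover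
    (fun y => far (f y) x) (fun y hy => (t23_far_open hP (hf y hy).2.1.symm).mem_nhds
      (hf y hy).2.2.2.2)
  have hne : ∀ y ∈ t, x ≠ f y := fun y hy => (hf y (ht y hy)).2.1.symm
  set O : Set X := ⋂ y ∈ t, Dc (f y) x with hO
  set O' : Set X := ⋂ y ∈ t, (Dc (f y) x ∪ {f y}) with hO'
  have hclO : closure O ⊆ O' := by
    refine closure_minimal ?_ ?_
    · intro z hz
      rw [hO', mem_iInter₂]
      intro y hy
      rw [hO, mem_iInter₂] at hz
      exact Or.inl (hz y hy)
    · exact isClosed_biInter fun y hy => t24_closedU hP (hne y hy)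
  have hb : closure O \ O ⊆ f '' (t : Set X) := by
    rintro z ⟨hz, hz'⟩
    rw [hO, mem_iInter₂] at hz'
    push Not at hz'
    obtain ⟨y, hy, hzy⟩ := hz'
    have h1 := hclO hz
    rw [hO', mem_iInter₂] at h1
    rcases h1 y hy with h2 | h2
    · exact absurd h2 hzy
    · exact ⟨y, hy, h2.symm⟩
  refine ⟨O, ?_, ?_, ?_, (t.finite_toSet.image f).subset hb, ?_⟩
  · exact isOpen_biInter_finset fun y hy => t24_open hP (hne y hy)
  · rw [hO, mem_iInter₂]
    exact fun y hy => t24_mem (hne y hy)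
  · intro z hz
    by_contra hzU
    have h1 := htc hzU
    rw [mem_iUnion₂] at h1
    obtain ⟨y, hy, hzy⟩ := h1
    have h2 := hclO hz
    rw [hO', mem_iInter₂] at h2
    exact hzy (h2 y hy)
  · intro z hz
    obtain ⟨y, hy, rfl⟩ := hb hz
    exact ⟨(hf y (ht y hy)).2.2.2.1, (hf y (ht y hy)).2.2.1⟩

end Pool.Agent.H405
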