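import Pool.Agent.H405.Stm
import Pool.Agent.R638.DD.COMP
import Pool.Agent.R638.DD.CUT

set_option autoImplicit false

/-! Project H405: (2.4) the region between two points of a dendrite. -/

namespace Pool.Agent.H405

open Set Topology Filter Metric
open Pool.Agent.R638.DD

section

variable {X : Type} [TopologicalSpace X]

theorem t24_open (hX : IsPeano X) {c x : X} (h : x ≠ c) : IsOpen (Dc c x) :=
  (t_Comp X hX c x h).1

theorem t24_cut (hX : IsPeano X) {c x : X} (h : x ≠ c) : Cut (Dc c x)ᶜ (Dc c x ∪ {c}) c :=
  (t_Comp X hX c x h).2.1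

theorem t24_preC (hX : IsPeano X) {c x : X} (h : x ≠ c) : IsPreconnected (Dc c x)ᶜ :=
  (t_Comp X hX c x h).2.2.1

theorem t24_preU (hX : IsPeano X) {c x : X} (h : x ≠ c) : IsPreconnected (Dc c x ∪ {c}) :=
  (t_Comp X hX c x h).2.2.2

theorem t24_closedU (hX : IsPeano X) {c x : X} (h : x ≠ c) : IsClosed (Dc c x ∪ {c}) :=
  (t24_cut hX h).clB

theorem t24_pre (c x : X) : IsPreconnected (Dc c x) := isPreconnected_connectedComponentIn

theorem t24_notmem (c x : X) : c ∉ Dc c x := fun h => connectedComponentIn_subset _ _ h rfl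

theorem t24_mem {c x : X} (h : x ≠ c) : x ∈ Dc c x := mem_connectedComponentIn h

theorem t24_ne {c x y : X} (h : y ∈ Dc c x) : y ≠ c := fun e => t24_notmem c x (e ▸ h)

theorem t24_sub {c x : X} {C : Set X} (hC : IsPreconnected C) (hcC : c ∉ C) (hx : x ∈ C) :
    C ⊆ Dc c x :=
  hC.subset_connectedComponentIn hx (fun z hz h => hcC (by
    rw [mem_singleton_iff] at h
    exact h ▸ hz))

theorem t24_eq {c x y : X} (h : y ∈ Dc c x) : Dc c y = Dc c x :=
  (connectedComponentIn_eq h).symm

theorem t24_sub' {c x y : X} {C : Set X} (hC : IsPreconnected C) (hcC : c ∉ C) (hy : y ∈ C)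
    (hyx : y ∈ Dc c x) : C ⊆ Dc c x := by
  rw [← t24_eq hyx]
  exact t24_sub hC hcC hy

theorem t24_closure (hX : IsPeano X) {c x : X} (h : x ≠ c) : closure (Dc c x) ⊆ Dc c x ∪ {c} :=
  closure_minimal subset_union_left (t24_closedU hX h)

theorem t24_mem_closure (hX : IsPeano X) {c x : X} (h : x ≠ c) : c ∈ closure (Dc c x) := by
  haveI := hX.connected
  by_contra hc
  have h1 : IsClosed (Dc c x) := by
    refine isClosed_of_closure_subset fun y hy => ?_
    rcases t24_closure hX h hy with h2 | h2
    · exact h2
    · rw [mem_singleton_iff] at h2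
      exact absurd (h2 ▸ hy) hc
  rcases isClopen_iff.1 (⟨h1, t24_open hX h⟩ : IsClopen (Dc c x)) with h3 | h3
  · have := t24_mem h
    rw [h3] at this
    exact this
  · exact t24_notmem c x (h3 ▸ mem_univ c)

theorem t24_compl_sub (hX : IsPeano X) {a b : X} (h : a ≠ b) : (Dc b a)ᶜ ⊆ Dc a b :=
  t24_sub (t24_preC hX h) (fun h' => h' (t24_mem h)) (t24_notmem b a)

/-- a point which separates `a` and `b` lies on every connected set containing `a` and `b` -/
theorem t24_third {a b : X} {r : X} {A B : Set X} (hA : IsOpen A) (hB : IsOpen B)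
    (hd : Disjoint A B) (hAB : A ∪ B = {r}ᶜ) (ha : a ∈ A) (hb : b ∈ B) {C : Set X}
    (hC : IsPreconnected C) (haC : a ∈ C) (hbC : b ∈ C) : r ∈ C := by
  by_contra hr
  have hsub : C ⊆ A ∪ B := by
    intro z hz
    rw [hAB]
    intro h
    rw [mem_singleton_iff] at h
    exact hr (h ▸ hz)
  obtain ⟨z, _, h1, h2⟩ := hC A B hA hB hsub ⟨a, haC, ha⟩ ⟨b, hbC, hb⟩
  exact disjoint_left.1 hd h1 h2

/-- half of the closure statement -/
theorem t24_end (hX : IsPeano X) {a b : X} (h : a ≠ b) : a ∈ closure (slab a b) := by
  by_contra ha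
  have hW : Dc a b = slab a b ∪ (Dc b a)ᶜ := by
    ext z
    constructor
    · intro hz
      by_cases h1 : z ∈ Dc b a
      · exact Or.inl ⟨hz, h1⟩
      · exact Or.inr h1
    · rintro (h1 | h1)
      · exact h1.1
      · exact t24_compl_sub hX h h1
  have hcl : IsClosed (Dc a b) := by
    refine isClosed_of_closure_subset ?_
    have e1 : closure (Dc a b) = closure (slab a b) ∪ (Dc b a)ᶜ := by
      conv_lhs => rw [hW]
      rw [closure_union, (t24_open hX h).isClosed_compl.closure_eq]
    rw [e1]
    rintro z (hz | hz)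
    · have h1 : z ∈ Dc a b ∪ {a} := t24_closure hX h.symm (closure_mono inter_subset_left hz)
      rcases h1 with h1 | h1
      · exact h1
      · rw [mem_singleton_iff] at h1
        exact absurd (h1 ▸ hz) ha
    · exact t24_compl_sub hX h hz
  exact t24_notmem a b (hcl.closure_eq ▸ t24_mem_closure hX h.symm)

theorem t24_slab_comm (a b : X) : slab a b = slab b a := inter_comm _ _

theorem t24_cl (hX : IsPeano X) {a b : X} (h : a ≠ b) :
    closure (slab a b) = slab a b ∪ {a, b} := by
  apply Subset.antisymm
  · intro z hz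
    have h1 : z ∈ Dc a b ∪ {a} := t24_closure hX h.symm (closure_mono inter_subset_left hz)
    have h2 : z ∈ Dc b a ∪ {b} := t24_closure hX h (closure_mono inter_subset_right hz)
    rcases h1 with h1 | h1
    · rcases h2 with h2 | h2
      · exact Or.inl ⟨h1, h2⟩
      · exact Or.inr (Or.inr h2)
    · exact Or.inr (Or.inl h1)
  · rintro z (hz | hz | hz)
    · exact subset_closure hz
    · rw [hz]
      exact t24_end hX h
    · rw [mem_singleton_iff] at hz
      rw [hz, t24_slab_comm]
      exact t24_end hX h.symm

end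

theorem t24 : Stm24 := by
  intro X _ hX a b hab
  have hP := hX.toIsPeano
  haveI := hP.locConn
  have hopen : IsOpen (slab a b) := (t24_open hP hab.symm).inter (t24_open hP hab)
  have ha : a ∉ slab a b := fun h => t24_notmem a b h.1
  have hb : b ∉ slab a b := fun h => t24_notmem b a h.2
  have hcl := t24_cl hP hab
  obtain ⟨r, A, B, hA, hB, hd, hAB, haA, hbB⟩ := hX.third a b hab
  have key : ∀ C : Set X, IsPreconnected C → a ∈ C → b ∈ C → r ∈ C := fun C hC h1 h2 =>
    t24_third hA hB hd hAB haA hbB hC h1 h2
  have hra : r ≠ a := by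
    rintro rfl
    have : r ∈ ({r}ᶜ : Set X) := hAB ▸ Or.inl haA
    exact this rfl
  have hrb : r ≠ b := by
    rintro rfl
    have : r ∈ ({r}ᶜ : Set X) := hAB ▸ Or.inr hbB
    exact this rfl
  have hr : r ∈ slab a b := by
    constructor
    · rcases key _ (t24_preU hP hab.symm) (Or.inr rfl) (Or.inl (t24_mem hab.symm)) with h | h
      · exact h
      · exact absurd h hra
    · rcases key _ (t24_preU hP hab) (Or.inl (t24_mem hab)) (Or.inr rfl) with h | h
      · exact h
      · exact absurd h hrb
  have hmem : ∀ x ∈ slab a b, r ∈ connectedComponentIn (slab a b) x := by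
    intro x hx
    set H := connectedComponentIn (slab a b) x with hH
    have hHo : IsOpen H := hopen.connectedComponentIn
    have hHs : H ⊆ slab a b := connectedComponentIn_subset _ _
    have hxH : x ∈ H := mem_connectedComponentIn hx
    have hHc : IsPreconnected H := isPreconnected_connectedComponentIn
    have hcs : ∀ y ∈ closure H, y ∈ slab a b → y ∈ H := by
      intro y hy hys
      have ho : IsOpen (connectedComponentIn (slab a b) y) := hopen.connectedComponentIn
      obtain ⟨z, hz', hz⟩ := mem_closure_iff.1 hy _ ho (mem_connectedComponentIn hys)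
      have e1 := connectedComponentIn_eq hz
      have e2 := connectedComponentIn_eq hz'
      rw [hH, e1, ← e2]
      exact mem_connectedComponentIn hys
    have hclH : closure H ⊆ slab a b ∪ {a, b} := by
      rw [← hcl]
      exact closure_mono hHs
    have haH : a ∈ closure H := by
      by_contra hn
      have h1 : Dc b a ⊆ H := by
        refine (t24_pre b a).subset_of_closure_inter_subset hHo ⟨x, hx.2, hxH⟩ ?_
        rintro y ⟨hy, hyb⟩
        rcases hclH hy with h | h | h
        · exact hcs y hy h
        · exact absurd (h ▸ hy) hn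
        · rw [mem_singleton_iff] at h
          exact absurd (h ▸ hyb) (t24_notmem b a)
      exact ha (hHs (h1 (t24_mem hab)))
    have hbH : b ∈ closure H := by
      by_contra hn
      have h1 : Dc a b ⊆ H := by
        refine (t24_pre a b).subset_of_closure_inter_subset hHo ⟨x, hx.1, hxH⟩ ?_
        rintro y ⟨hy, hya⟩
        rcases hclH hy with h | h | h
        · exact hcs y hy h
        · exact absurd (h ▸ hya) (t24_notmem a b)
        · rw [mem_singleton_iff] at h
          exact absurd (h ▸ hy) hn
      exact hb (hHs (h1 (t24_mem hab.symm)))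
    exact hcs r (key _ hHc.closure haH hbH) hr
  refine ⟨hopen, ?_, ⟨r, hr⟩, hcl, ha, hb⟩
  have e : slab a b = connectedComponentIn (slab a b) r := by
    apply Subset.antisymm
    · intro x hx
      rw [← connectedComponentIn_eq (hmem x hx)]
      exact mem_connectedComponentIn hx
    · exact connectedComponentIn_subset _ _
  rw [e]
  exact isPreconnected_connectedComponentIn

end Pool.Agent.H405
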