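import Pool.Agent.H405.T24

set_option autoImplicit false

/-! Project H405: (2.5) a simple point cuts the region between two points. -/

namespace Pool.Agent.H405

open Set Topology Filter Metric
open Pool.Agent.R638.DD

section

variable {X : Type} [TopologicalSpace X]

theorem t25_sep_mem {r a b : X} (h : Sep r a b) {C : Set X} (hC : IsPreconnected C)
    (ha : a ∈ C) (hb : b ∈ C) : r ∈ C := by
  by_contra hr
  exact h.2.2 (t24_sub hC hr ha hb)

theorem t25_disj {r a b : X} (h : Sep r a b) : Disjoint (Dc r a) (Dc r b) := by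
  rw [Set.disjoint_left]
  intro z h1 h2
  apply h.2.2
  rw [← t24_eq h1, t24_eq h2]
  exact t24_mem h.2.1.symm

theorem t25_symm {r a b : X} (h : Sep r a b) : Sep r b a :=
  ⟨h.2.1, h.1, fun h' => disjoint_left.1 (t25_disj h) (t24_mem h.1.symm) h'⟩

theorem t25_simple {r a b : X} (hr : Simple r) (h : Sep r a b) {w : X} (hw : w ≠ r) :
    w ∈ Dc r a ∨ w ∈ Dc r b := by
  obtain ⟨u, v, _, huv⟩ := hr
  have h1 := huv a h.1.symm
  have h2 := huv b h.2.1.symm
  have h3 := huv w hw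
  have hd := t25_disj h
  rcases h1 with h1 | h1
  · rcases h2 with h2 | h2
    · exact absurd (t24_eq h1 ▸ h2) h.2.2
    · rw [t24_eq h1, t24_eq h2]
      exact h3
  · rcases h2 with h2 | h2
    · rw [t24_eq h1, t24_eq h2]
      exact h3.symm
    · exact absurd (t24_eq h1 ▸ h2) h.2.2

theorem t25_ne {r a b : X} (h : Sep r a b) : a ≠ b := by
  rintro rfl
  exact h.2.2 (t24_mem h.1.symm)

theorem t25_mem_Dc (hX : IsPeano X) {r a b : X} (h : Sep r a b) : r ∈ Dc a b := by
  have hab := t25_ne h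
  rcases t25_sep_mem h (t24_preU hX hab.symm) (Or.inr rfl) (Or.inl (t24_mem hab.symm)) with h' | h'
  · exact h'
  · exact absurd h' h.1

theorem t25_mem (hX : IsPeano X) {r a b : X} (h : Sep r a b) : r ∈ slab a b :=
  ⟨t25_mem_Dc hX h, t25_mem_Dc hX (t25_symm h)⟩

end

theorem t25 : Stm25 := by
  intro X _ hX a b r hr h
  have hP := hX.toIsPeano
  have hab := t25_ne h
  have h1 : r ∈ Dc a b := t25_mem_Dc hP h
  have h2 : r ∈ Dc b a := t25_mem_Dc hP (t25_symm h)
  have e1 : Dc a r = Dc a b := t24_eq h1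
  have e2 : Dc b r = Dc b a := t24_eq h2
  have s1 : Dc r a ⊆ Dc b a := t24_sub (t24_pre r a) h.2.2 (t24_mem h.1.symm)
  have s2 : Dc r b ⊆ Dc a b := t24_sub (t24_pre r b) (t25_symm h).2.2 (t24_mem h.2.1.symm)
  refine ⟨⟨h1, h2⟩, ?_, ?_⟩
  · unfold slab
    rw [e1, e2]
    ext x
    constructor
    · rintro ⟨⟨hxa, hxb⟩, hxr⟩
      rcases t25_simple hr h hxr with h3 | h3
      · exact Or.inl ⟨hxa, h3⟩
      · exact Or.inr ⟨h3, hxb⟩
    · rintro (⟨h3, h4⟩ | ⟨h3, h4⟩)
      · exact ⟨⟨h3, s1 h4⟩, t24_ne h4⟩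
      · exact ⟨⟨s2 h3, h4⟩, t24_ne h3⟩
  · exact (t25_disj h).mono inter_subset_right inter_subset_left

end Pool.Agent.H405
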