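import Pool.Agent.H405.T25
import Pool.Agent.H405.T23

set_option autoImplicit false

/-! Project H405: (2.6) small regions around a simple point. -/

namespace Pool.Agent.H405

open Set Topology Filter Metric
open Pool.Agent.R638.DD

theorem t26 (h22 : Stm22) : Stm26 := by
  intro X _ hX r hr U0 hU0
  have hP := hX.toIsPeano
  obtain ⟨U, hUU, hU, hrU⟩ := mem_nhds_iff.1 hU0
  -- a point of the component of `w`, close to `r`
  have hex : ∀ w : X, w ≠ r → ∃ a ∈ Dc r w, a ∈ U ∧ ∀ z ∈ Dc r w, z ∉ U → z ∈ far a r := by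
    intro w hw
    by_cases hK : (Dc r w \ U).Nonempty
    · obtain ⟨a, ha, haK, _, _, hKa⟩ := h22 X hX r w hw (Dc r w \ U)
        (t23_compact hP hw hU hrU) hK sdiff_subset ∅ countable_empty
      refine ⟨a, ha, ?_, fun z hz hzU => hKa ⟨hz, hzU⟩⟩
      by_contra h
      exact haK ⟨ha, h⟩
    · have hsub : Dc r w ⊆ U := by
        intro z hz
        by_contra h
        exact hK ⟨z, hz, h⟩
      exact ⟨w, t24_mem hw, hsub (t24_mem hw), fun z hz hzU => absurd (hsub hz) hzU⟩
  obtain ⟨u, v, huv, _⟩ := id hr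
  obtain ⟨a, ha, haU, hfa⟩ := hex u huv.1.symm
  obtain ⟨b, hb, hbU, hfb⟩ := hex v huv.2.1.symm
  have ea : Dc r a = Dc r u := t24_eq ha
  have eb : Dc r b = Dc r v := t24_eq hb
  have hab : Sep r a b := by
    refine ⟨(t24_ne ha).symm, (t24_ne hb).symm, ?_⟩
    rw [ea]
    exact fun h => disjoint_left.1 (t25_disj huv) h hb
  have hra : Dc a r = Dc a b := t24_eq (t25_mem_Dc hP hab)
  have hrb : Dc b r = Dc b a := t24_eq (t25_mem_Dc hP (t25_symm hab))
  refine ⟨a, b, hab, ?_⟩
  rintro x (hx | hx | hx)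
  · apply hUU
    by_contra hxU
    have hxr : x ≠ r := fun h => hxU (h ▸ hrU)
    rcases t25_simple hr hab hxr with h1 | h1
    · rw [ea] at h1
      apply hfa x h1 hxU
      rw [hra]
      exact Or.inl hx.1
    · rw [eb] at h1
      apply hfb x h1 hxU
      rw [hrb]
      exact Or.inl hx.2
  · exact hUU (hx ▸ haU)
  · rw [mem_singleton_iff] at hx
    exact hUU (hx ▸ hbU)

end Pool.Agent.H405
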