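import Pool.Agent.H405.T21
import Pool.Agent.R638.DD.CUT

set_option autoImplicit false

/-! Project H405: piece 27 (the gadget: a dendrite as a disjoint union of two connected closed
sets and a null sequence of pointed closed connected sets without their points). -/

namespace Pool.Agent.H405

open Set Topology Filter Metric
open Pool.Agent.R638.DD

theorem t27_compl_sub {X : Type} [TopologicalSpace X] (hX : IsPeano X) {a b : X} (h : a ≠ b) :
    (Dc b a)ᶜ ⊆ Dc a b :=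
  t21_sub_dc (t21_dc_compl hX h) (fun h' => h' (t21_dc_mem h)) (t21_dc_not b a)
    (t21_dc_mem (Ne.symm h))

theorem t27_step (h22 : Stm22) {X : Type} [MetricSpace X] (hD : IsDen X) {c b : X} (hcb : b ≠ c)
    (w : X) (hw : w ∈ Dc c b) (ε : ℝ) :
    ∃ w' ∈ Dc c b, (Dc w c)ᶜ ⊆ (Dc w' c)ᶜ \ {w'} ∧ (0 < ε → Dc c b \ ball c ε ⊆ (Dc w' c)ᶜ \ {w'}) := by
  have hX : IsPeano X := hD.toIsPeano
  have := hX.compact
  have hwc : w ≠ c := t21_dc_ne hw
  have hW : Dc c w = Dc c b := t21_dc_eq hw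
  have hfar : ∀ w' : X, far w' c ⊆ (Dc w' c)ᶜ \ {w'} := by
    intro w' z hz
    exact ⟨fun h => hz (Or.inl h), fun h => hz (Or.inr h)⟩
  have h1 : (Dc w c)ᶜ ⊆ Dc c b := by
    rw [← hW]; exact t27_compl_sub hX hwc.symm
  have h1c : IsClosed (Dc w c)ᶜ := (t21_dc_open hX hwc.symm).isClosed_compl
  by_cases hε : 0 < ε
  · have h2c : IsClosed (Dc c b \ ball c ε) := by
      have e : Dc c b \ ball c ε = (Dc c b ∪ {c}) ∩ (ball c ε)ᶜ := by
        ext z
        simp only [Set.mem_sdiff, mem_inter_iff, mem_union, mem_singleton_iff, mem_compl_iff]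
        constructor
        · rintro ⟨h, h'⟩
          exact ⟨Or.inl h, h'⟩
        · rintro ⟨h | h, h'⟩
          · exact ⟨h, h'⟩
          · exact (h' (by rw [h]; exact mem_ball_self hε)).elim
      rw [e]
      exact (t21_dc_closed hX hcb).inter isOpen_ball.isClosed_compl
    obtain ⟨w', hw', -, -, -, hK⟩ := h22 X hD c b hcb ((Dc w c)ᶜ ∪ (Dc c b \ ball c ε))
      (h1c.union h2c).isCompact ⟨w, Or.inl (t21_dc_not w c)⟩
      (union_subset h1 sdiff_subset) ∅ countable_empty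
    exact ⟨w', hw', fun z hz => hfar w' (hK (Or.inl hz)), fun _ z hz => hfar w' (hK (Or.inr hz))⟩
  · obtain ⟨w', hw', -, -, -, hK⟩ := h22 X hD c b hcb (Dc w c)ᶜ
      h1c.isCompact ⟨w, t21_dc_not w c⟩ h1 ∅ countable_empty
    exact ⟨w', hw', fun z hz => hfar w' (hK hz), fun h => absurd h hε⟩

theorem t27 (h22 : Stm22) : Stm27 := by
  intro X _ hD a b hab
  have hX : IsPeano X := hD.toIsPeano
  have := hX.compact
  -- a point separating `a` from `b`
  obtain ⟨c, A, B, hA, hB, hAB, hun, haA, hbB⟩ := hD.third a b hab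
  have hac : a ≠ c := fun h => by
    have : a ∈ A ∪ B := Or.inl haA
    rw [hun] at this
    exact this h
  have hbc : b ≠ c := fun h => by
    have : b ∈ A ∪ B := Or.inr hbB
    rw [hun] at this
    exact this h
  have haW : a ∉ Dc c b := by
    intro h
    have hc := t21_dc_conn c b
    have hsub : Dc c b ⊆ A ∪ B := by
      rw [hun]; exact connectedComponentIn_subset _ _
    obtain ⟨z, -, hz1, hz2⟩ := hc A B hA hB hsub ⟨a, h, haA⟩ ⟨b, t21_dc_mem hbc, hbB⟩
    exact Set.disjoint_left.1 hAB hz1 hz2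
  -- the sequence
  let step : ℕ → ↥(Dc c b) → ↥(Dc c b) := fun n w =>
    ⟨(t27_step h22 hD hbc w.1 w.2 (1 / ((n : ℝ) + 1))).choose,
      (t27_step h22 hD hbc w.1 w.2 (1 / ((n : ℝ) + 1))).choose_spec.1⟩
  let sq : ℕ → ↥(Dc c b) := fun n =>
    Nat.rec (motive := fun _ => ↥(Dc c b)) ⟨b, t21_dc_mem hbc⟩ step n
  let s : ℕ → X := fun n => (sq n).1
  have hs0 : s 0 = b := rfl
  have hsW : ∀ n, s n ∈ Dc c b := fun n => (sq n).2
  have hs1 : ∀ n, (Dc (s n) c)ᶜ ⊆ (Dc (s (n + 1)) c)ᶜ \ {s (n + 1)} := fun n =>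
    (t27_step h22 hD hbc (sq n).1 (sq n).2 (1 / ((n : ℝ) + 1))).choose_spec.2.1
  have hs2 : ∀ n : ℕ, Dc c b \ ball c (1 / ((n : ℝ) + 1)) ⊆ (Dc (s (n + 1)) c)ᶜ \ {s (n + 1)} :=
    fun n => (t27_step h22 hD hbc (sq n).1 (sq n).2 (1 / ((n : ℝ) + 1))).choose_spec.2.2
      (by positivity)
  have hsc : ∀ n, s n ≠ c := fun n => t21_dc_ne (hsW n)
  clear_value s
  have hBW : ∀ n, (Dc (s n) c)ᶜ ⊆ Dc c b := by
    intro n
    rw [← t21_dc_eq (hsW n)]
    exact t27_compl_sub hX (hsc n).symm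
  have hmono : Monotone (fun n => (Dc (s n) c)ᶜ) :=
    monotone_nat_of_le_succ fun n => (hs1 n).trans sdiff_subset
  have hsB : ∀ n, s n ∈ (Dc (s n) c)ᶜ := fun n => t21_dc_not _ _
  have hdiff : ∀ n, ((Dc (s (n + 1)) c)ᶜ ∩ (Dc (s n) c ∪ {s n})) \ {s n} =
      (Dc (s (n + 1)) c)ᶜ \ (Dc (s n) c)ᶜ := by
    intro n
    ext z
    simp only [Set.mem_sdiff, mem_inter_iff, mem_union, mem_singleton_iff, mem_compl_iff,
      not_not]
    constructor
    · rintro ⟨⟨h1, h2 | h2⟩, h3⟩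
      · exact ⟨h1, h2⟩
      · exact (h3 h2).elim
    · rintro ⟨h1, h2⟩
      exact ⟨⟨h1, Or.inl h2⟩, fun h => t21_dc_not (s n) c (h ▸ h2)⟩
  refine ⟨(Dc c b)ᶜ, (Dc (s 0) c)ᶜ, fun n => (Dc (s (n + 1)) c)ᶜ ∩ (Dc (s n) c ∪ {s n}), s,
    (t21_dc_open hX hbc).isClosed_compl, t21_dc_compl hX hbc, haW,
    (t21_dc_open hX (hsc 0).symm).isClosed_compl, t21_dc_compl hX (hsc 0).symm, ?_, ?_, ?_, ?_,
    ?_, ?_, ?_⟩
  · rw [hs0]; exact t21_dc_not _ _
  · intro n
    refine ⟨(t21_dc_open hX (hsc (n + 1)).symm).isClosed_compl.inter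
      (t21_dc_closed hX (hsc n).symm), ?_, ?_⟩
    · have hcut := (t_Comp X hX (s n) c (hsc n).symm).2.1
      refine t_Meet X (Dc (s n) c ∪ {s n}) (Dc (s n) c)ᶜ (s n) ?_ _
        (t21_dc_compl hX (hsc (n + 1)).symm)
      exact ⟨hcut.clB, hcut.clA, by rw [union_comm]; exact hcut.un,
        by rw [inter_comm]; exact hcut.inter⟩
    · exact ⟨((hs1 n) (hsB n)).1, Or.inr rfl⟩
  · rw [Set.disjoint_left]
    intro z hz hz'
    exact hz (hBW 0 hz')
  · intro n
    rw [hdiff n, Set.disjoint_left]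
    rintro z (hz | hz) ⟨h1, h2⟩
    · exact hz (hBW _ h1)
    · exact h2 (hmono (Nat.zero_le n) hz)
  · have key : ∀ i j, i < j →
        Disjoint (((Dc (s (i + 1)) c)ᶜ ∩ (Dc (s i) c ∪ {s i})) \ {s i})
          (((Dc (s (j + 1)) c)ᶜ ∩ (Dc (s j) c ∪ {s j})) \ {s j}) := by
      intro i j hij
      rw [hdiff i, hdiff j, Set.disjoint_left]
      rintro z ⟨h1, -⟩ ⟨-, h4⟩
      exact h4 (hmono (Nat.succ_le_of_lt hij) h1)
    intro i j hij
    rcases lt_or_gt_of_ne hij with h | h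
    · exact key i j h
    · exact (key j i h).symm
  · rw [eq_univ_iff_forall]
    intro z
    by_cases hz : z ∈ Dc c b
    · have hzc : 0 < dist z c := dist_pos.2 (t21_dc_ne hz)
      obtain ⟨n, hn⟩ := exists_nat_one_div_lt hzc
      have hzn : z ∈ (Dc (s (n + 1)) c)ᶜ := by
        refine (hs2 n ⟨hz, ?_⟩).1
        rw [mem_ball, not_lt]
        exact hn.le
      have hex : ∃ n, z ∈ (Dc (s n) c)ᶜ := ⟨_, hzn⟩
      classical
      rcases Nat.eq_zero_or_pos (Nat.find hex) with h | h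
      · exact Or.inl (Or.inr (h ▸ Nat.find_spec hex))
      · refine Or.inr (mem_iUnion.2 ⟨Nat.find hex - 1, ?_⟩)
        rw [hdiff]
        refine ⟨?_, Nat.find_min hex (by omega)⟩
        have e : Nat.find hex - 1 + 1 = Nat.find hex := by omega
        rw [e]
        exact Nat.find_spec hex
    · exact Or.inl (Or.inl hz)
  · intro ε hε
    -- `S n` is in the ball of radius `1 / n`
    have hball : ∀ n : ℕ, ∀ x ∈ (Dc (s (n + 1 + 1)) c)ᶜ ∩ (Dc (s (n + 1)) c ∪ {s (n + 1)}),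
        x ∈ ball c (1 / ((n : ℝ) + 1)) := by
      rintro n x ⟨h1, h2⟩
      by_contra h3
      obtain ⟨h4, h5⟩ := hs2 n ⟨hBW _ h1, h3⟩
      rcases h2 with h2 | h2
      · exact h4 h2
      · exact h5 h2
    obtain ⟨N, hN⟩ := exists_nat_one_div_lt (half_pos hε)
    refine (Set.finite_Iic (N + 1)).subset ?_
    rintro n ⟨x, hx, hd⟩
    by_contra hn
    rw [mem_Iic, not_le] at hn
    obtain ⟨k, rfl⟩ : ∃ k, n = k + 1 := ⟨n - 1, by omega⟩
    have h1 := hball k x hx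
    have h2 := hball k (s (k + 1)) ⟨((hs1 (k + 1)) (hsB (k + 1))).1, Or.inr rfl⟩
    rw [mem_ball] at h1 h2
    have h3 : 1 / ((k : ℝ) + 1) ≤ 1 / ((N : ℝ) + 1) := by
      apply one_div_le_one_div_of_le (by positivity)
      have : (N : ℝ) ≤ k := by exact_mod_cast (by omega : N ≤ k)
      linarith
    have h4 := dist_triangle_right x (s (k + 1)) c
    linarith

end Pool.Agent.H405
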