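import Pool.Agent.H405.Stm
import Pool.Agent.R638.DD.COMP
import Pool.Agent.R638.DD.Shr
import Pool.Agent.R638.DD.Unc
import Pool.Agent.R638.DD.GLUE
import Pool.Agent.R638.DD.GMap
import Pool.Agent.R638.DD.GPSI
import Pool.Agent.R638.DD.SURG

set_option autoImplicit false

namespace Pool.Agent.H405

open Set Topology Filter Metric
open Pool.Agent.R638.DD

theorem t31_glue : StmGlue := t_Glue (t_Unc t_Comp t_Shr) t_Comp

/-- continuity of the first coordinate of a glued map -/
theorem t31_cont {ι Q Y L : Type} {P : ι → Type} [TopologicalSpace Q]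
    [∀ i, TopologicalSpace (P i)] [MetricSpace Y] (x : ∀ i, P i) (e : ι → Q)
    (hP : ∀ i, IsDen (P i)) (g : Q → Y × L) (h : ∀ i, P i → Y × L)
    (hg : Continuous (fun q => (g q).1)) (hh : ∀ i, Continuous (fun p => (h i p).1))
    (he : ∀ i, (h i (x i)).1 = (g (e i)).1)
    (hn : ∀ ε : ℝ, 0 < ε → {i | ∃ p : P i, ε ≤ dist (h i p).1 (h i (x i)).1}.Finite) :
    Continuous (fun t => (glueMap x e g h t).1) := by
  have : ∀ i, TopologicalSpace.MetrizableSpace (P i) := fun i => (hP i).metrizable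
  have h1 := t_GMap ι Q Y P x e (fun q => (g q).1) (fun i p => (h i p).1) hg hh he hn
  have h2 : (fun t => (glueMap x e g h t).1) =
      glueMap x e (fun q => (g q).1) (fun i p => (h i p).1) := by
    have := comp_glueMap x e g h (Prod.fst : Y × L → Y)
    exact this
  rw [h2]
  exact h1

theorem t31 : Stm31 := by
  intro Y L X0 _ _ g0 T R hX0 hg0 hinj hdisj hR hT
  obtain ⟨ι, hι, P, hPt, x, h, hP, hc, hr, hi, hd, hU, hn⟩ := hT
  have he : ∀ i, ∃ q : X0, (g0 q).1 = (h i (x i)).1 := by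
    intro i
    obtain ⟨_, ⟨q, rfl⟩, hq⟩ := hR (hr i)
    exact ⟨q, hq⟩
  choose e he using he
  have hsub : ∀ i, ∀ p, p ≠ x i → h i p ∈ T := by
    intro i p hp
    rw [← hU]
    exact mem_iUnion.2 ⟨i, p, hp, rfl⟩
  refine ⟨Glue x e, inferInstance, glueMap x e g0 h, t31_glue ι X0 P x e hX0 hP,
    t31_cont x e hP g0 h hg0 hc (fun i => (he i).symm) hn, ?_⟩
  have h3 := t_GPsi ι X0 (Y × L) P x e g0 h hinj hi
    (fun i p hp hmem => (disjoint_left.1 hdisj) hmem (hsub i p hp)) hd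
  rw [hU] at h3
  exact h3

end Pool.Agent.H405
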