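import Pool.Agent.H405.Stm

set_option autoImplicit false

namespace Pool.Agent.H405

open Set Topology Filter Metric
open Pool.Agent.R638.DD

theorem t33 : Stm33 := by
  intro Y L J _ _ T R R0 hdis hT hR hnull
  choose ι hι P hPt x h hP hc hr hi hd hU hn using hT
  have hsub : ∀ j i p, p ≠ x j i → h j i p ∈ T j := by
    intro j i p hp
    rw [← hU j]
    exact mem_iUnion.2 ⟨i, p, hp, rfl⟩
  refine ⟨(j : J) × ι j, inferInstance, fun s => P s.1 s.2, fun s => hPt s.1 s.2,
    fun s => x s.1 s.2, fun s => h s.1 s.2, fun s => hP s.1 s.2, fun s => hc s.1 s.2,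
    fun s => hR s.1 (hr s.1 s.2), fun s => hi s.1 s.2, ?_, ?_, ?_⟩
  · rintro ⟨j, i⟩ ⟨j', i'⟩ hne p q hp hq
    by_cases hj : j = j'
    · subst hj
      have hi' : i ≠ i' := by
        rintro rfl
        exact hne rfl
      exact hd j i i' hi' p q hp hq
    · intro heq
      have h1 : h j i p ∈ T j := hsub j i p hp
      have h2 : h j' i' q ∈ T j' := hsub j' i' q hq
      have heq' : h j i p = h j' i' q := heq
      rw [← heq'] at h2
      exact disjoint_left.1 (hdis hj) h1 h2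
  · ext z
    constructor
    · intro hz
      obtain ⟨⟨j, i⟩, p, hp, rfl⟩ := mem_iUnion.1 hz
      exact mem_iUnion.2 ⟨j, hsub j i p hp⟩
    · intro hz
      obtain ⟨j, hj⟩ := mem_iUnion.1 hz
      rw [← hU j] at hj
      obtain ⟨i, p, hp, rfl⟩ := mem_iUnion.1 hj
      exact mem_iUnion.2 ⟨⟨j, i⟩, p, hp, rfl⟩
  · intro ε hε
    have hfin := hnull ε hε
    refine (hfin.biUnion (t := fun j => (Sigma.mk j) ''
      {i | ∃ p : P j i, ε ≤ dist (h j i p).1 (h j i (x j i)).1})
      (fun j _ => (hn j ε hε).image _)).subset ?_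
    rintro ⟨j, i⟩ ⟨p, hp⟩
    have hp' : ε ≤ dist (h j i p).1 (h j i (x j i)).1 := hp
    have hpx : p ≠ x j i := by
      intro hcon
      rw [hcon, dist_self] at hp'
      linarith
    refine mem_iUnion₂.2 ⟨j, ?_, ⟨i, ⟨p, hp'⟩, rfl⟩⟩
    exact ⟨(h j i p).1, Or.inl ⟨_, hsub j i p hpx, rfl⟩, (h j i (x j i)).1, Or.inr (hr j i), hp'⟩

end Pool.Agent.H405
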