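import Pool.Agent.H405.T31
import Pool.Agent.H405.T33

set_option autoImplicit false

namespace Pool.Agent.H405

open Set Topology Filter Metric
open Pool.Agent.R638.DD

/-- union of two tilings with the same roots -/
theorem t32_union {Y L : Type} [MetricSpace Y] {Ta Tb : Set (Y × L)} {R : Set Y}
    (hd : Disjoint Ta Tb) (ha : Tile Ta R) (hb : Tile Tb R) : Tile (Ta ∪ Tb) R := by
  have h := t33 Y L Bool (fun b => cond b Ta Tb) (fun _ => R) R
    (by
      intro i j hij
      cases i <;> cases j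
      · exact absurd rfl hij
      · exact hd.symm
      · exact hd
      · exact absurd rfl hij)
    (by
      intro j
      cases j
      · exact hb
      · exact ha)
    (fun _ => Subset.rfl) (fun ε _ => Set.toFinite _)
  have e : (⋃ j : Bool, cond j Ta Tb) = Ta ∪ Tb := by
    ext z
    simp only [mem_iUnion, Bool.exists_bool, cond_false, cond_true, mem_union]
    exact or_comm
  have h' : Tile (⋃ j : Bool, cond j Ta Tb) R := h
  rw [e] at h'
  exact h'

theorem t32_glue {ι Q Y L : Type} {P : ι → Type} (x : ∀ i, P i) (e : ι → Q) (x0 : Q)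
    (g : Q → Y × L) (h : ∀ i, P i → Y × L)
    (hgi : InjOn g {x0}ᶜ) (hi : ∀ i, InjOn (h i) {x i}ᶜ)
    (hd : ∀ i j, i ≠ j → ∀ p q, p ≠ x i → q ≠ x j → h i p ≠ h j q)
    (hgd : ∀ i p q, p ≠ x i → q ≠ x0 → h i p ≠ g q) :
    ∃ t0 : Glue x e, glueMap x e g h t0 = g x0 ∧ InjOn (glueMap x e g h) {t0}ᶜ ∧
      glueMap x e g h '' {t0}ᶜ = g '' {x0}ᶜ ∪ ⋃ i, h i '' {x i}ᶜ := by
  classical
  have hm : ((x0, x) : Q × (∀ i, P i)) ∈ GlueSet x e :=
    ⟨fun i => Or.inl rfl, fun i j _ => Or.inl rfl⟩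
  have hne : ∀ t : Glue x e, t ∈ ({⟨(x0, x), hm⟩}ᶜ : Set (Glue x e)) → (∀ i, t.1.2 i = x i) →
      t.1.1 ≠ x0 := by
    intro t ht hall hcon
    apply ht
    apply Subtype.ext
    apply Prod.ext
    · exact hcon
    · funext i
      exact hall i
  refine ⟨⟨(x0, x), hm⟩, ?_, ?_, ?_⟩
  · rw [GPSI.val0 x e g h _ (fun i => rfl)]
  · intro t ht t' ht' he
    by_cases H : ∃ i, t.1.2 i ≠ x i
    · obtain ⟨i, hi'⟩ := H
      rw [GPSI.val1 x e g h t i hi'] at he
      by_cases H' : ∃ j, t'.1.2 j ≠ x j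
      · obtain ⟨j, hj⟩ := H'
        rw [GPSI.val1 x e g h t' j hj] at he
        by_cases hij : i = j
        · subst hij
          have h1 := hi i (show t.1.2 i ∈ ({x i}ᶜ : Set (P i)) from hi')
            (show t'.1.2 i ∈ ({x i}ᶜ : Set (P i)) from hj) he
          apply Subtype.ext
          apply Prod.ext
          · rw [GPSI.base x e t i hi', GPSI.base x e t' i hj]
          · funext k
            by_cases hk : k = i
            · subst hk
              exact h1
            · rw [GPSI.other x e t i hi' k hk, GPSI.other x e t' i hj k hk]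
        · exact absurd he (hd i j hij _ _ hi' hj)
      · push Not at H'
        rw [GPSI.val0 x e g h t' H'] at he
        exact absurd he (hgd i _ _ hi' (hne t' ht' H'))
    · push Not at H
      rw [GPSI.val0 x e g h t H] at he
      by_cases H' : ∃ j, t'.1.2 j ≠ x j
      · obtain ⟨j, hj⟩ := H'
        rw [GPSI.val1 x e g h t' j hj] at he
        exact absurd he.symm (hgd j _ _ hj (hne t ht H))
      · push Not at H'
        rw [GPSI.val0 x e g h t' H'] at he
        have h1 := hgi (hne t ht H) (hne t' ht' H') he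
        apply Subtype.ext
        apply Prod.ext
        · exact h1
        · funext k
          rw [H k, H' k]
  · ext y
    constructor
    · rintro ⟨t, ht, rfl⟩
      by_cases H : ∃ i, t.1.2 i ≠ x i
      · obtain ⟨i, hi'⟩ := H
        right
        rw [GPSI.val1 x e g h t i hi']
        exact mem_iUnion.2 ⟨i, t.1.2 i, hi', rfl⟩
      · push Not at H
        left
        rw [GPSI.val0 x e g h t H]
        exact ⟨_, hne t ht H, rfl⟩
    · rintro (⟨q, hq, rfl⟩ | hy)
      · refine ⟨⟨(q, x), fun i => Or.inl rfl, fun i j _ => Or.inl rfl⟩, ?_, ?_⟩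
        · intro hcon
          exact hq (congrArg (fun t : Glue x e => t.1.1) hcon)
        · rw [GPSI.val0 x e g h _ (fun i => rfl)]
      · obtain ⟨i, p, hp, rfl⟩ := mem_iUnion.1 hy
        have hp' : p ≠ x i := hp
        refine ⟨⟨(e i, Function.update x i p), fun k => ?_, fun k l hkl => ?_⟩, ?_, ?_⟩
        · by_cases hk : k = i
          · subst hk
            right
            rfl
          · left
            simp [Function.update_of_ne hk]
        · by_cases hk : k = i
          · subst hk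
            right
            simp [Function.update_of_ne hkl.symm]
          · left
            simp [Function.update_of_ne hk]
        · intro hcon
          have h2 : Function.update x i p i = x i :=
            congrArg (fun t : Glue x e => t.1.2 i) hcon
          rw [Function.update_self] at h2
          exact hp' h2
        · rw [GPSI.val1 x e g h _ i (by simpa using hp')]
          simp

theorem t32 : Stm32 := by
  classical
  intro Y L _ T1 T2 R hdis hT2 hT1
  obtain ⟨ι1, hι1, P1, hPt1, x1, h1, hP1, hc1, hr1, hi1, hd1, hU1, hn1⟩ := hT1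
  obtain ⟨ι2, hι2, P2, hPt2, x2, h2, hP2, hc2, hr2, hi2, hd2, hU2, hn2⟩ := hT2
  have hs1 : ∀ i p, p ≠ x1 i → h1 i p ∈ T1 := by
    intro i p hp
    rw [← hU1]
    exact mem_iUnion.2 ⟨i, p, hp, rfl⟩
  have hs2 : ∀ i p, p ≠ x2 i → h2 i p ∈ T2 := by
    intro i p hp
    rw [← hU2]
    exact mem_iUnion.2 ⟨i, p, hp, rfl⟩
  have hs : ∀ i, (h1 i (x1 i)).1 ∉ R →
      ∃ s : (j : ι2) × P2 j, s.2 ≠ x2 s.1 ∧ (h2 s.1 s.2).1 = (h1 i (x1 i)).1 := by
    intro i hi
    rcases hr1 i with h | ⟨z, hz, hz'⟩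
    · exact absurd h hi
    · rw [← hU2] at hz
      obtain ⟨j, p, hp, rfl⟩ := mem_iUnion.1 hz
      exact ⟨⟨j, p⟩, hp, hz'⟩
  choose s hs0 hs1' using hs
  -- pieces of `T1` with root in `R`
  have hTa : Tile (⋃ i : {i : ι1 // (h1 i (x1 i)).1 ∈ R}, h1 i.1 '' {x1 i.1}ᶜ) R := by
    refine ⟨{i : ι1 // (h1 i (x1 i)).1 ∈ R}, inferInstance, fun i => P1 i.1, fun i => hPt1 i.1,
      fun i => x1 i.1, fun i => h1 i.1, fun i => hP1 i.1, fun i => hc1 i.1, fun i => i.2,
      fun i => hi1 i.1, ?_, rfl, ?_⟩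
    · intro i j hij
      exact hd1 i.1 j.1 (fun h => hij (Subtype.ext h))
    · intro ε hε
      exact (hn1 ε hε).preimage (Subtype.val_injective.injOn)
  -- pieces of `T2` with the other pieces of `T1` attached
  let K : ι2 → Type := fun j =>
    {k : {i : ι1 // (h1 i (x1 i)).1 ∉ R} × P2 j // s k.1.1 k.1.2 = ⟨j, k.2⟩}
  have hKi : ∀ j, Function.Injective (fun k : K j => k.1.1) := by
    intro j k k' hkk
    have hkk' : k.1.1 = k'.1.1 := hkk
    have a1 := k.2
    have a2 := k'.2
    rw [← hkk'] at a2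
    rw [a1] at a2
    have a3 : k.1.2 = k'.1.2 := by
      have := (Sigma.mk.inj a2).2
      exact eq_of_heq this
    exact Subtype.ext (Prod.ext hkk' a3)
  have hKc : ∀ j, Countable (K j) := fun j => (hKi j).countable
  let PK : ∀ j, K j → Type := fun j k => P1 k.1.1.1
  let xK : ∀ j, ∀ k : K j, PK j k := fun j k => x1 k.1.1.1
  let eK : ∀ j, K j → P2 j := fun j k => k.1.2
  let hK : ∀ j, ∀ k : K j, PK j k → Y × L := fun j k => h1 k.1.1.1
  have hglue := fun j => t32_glue (xK j) (eK j) (x2 j) (h2 j) (hK j) (hi2 j)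
    (fun k => hi1 k.1.1.1)
    (by
      intro k k' hkk p q hp hq
      exact hd1 k.1.1.1 k'.1.1.1 (fun h => hkk (hKi j (Subtype.ext h))) p q hp hq)
    (by
      intro k p q hp hq heq
      have a1 := hs1 k.1.1.1 p hp
      have a2 := hs2 j q hq
      have heq' : h1 k.1.1.1 p = h2 j q := heq
      rw [← heq'] at a2
      exact disjoint_left.1 hdis a1 a2)
  choose t0 ht0 hti htr using hglue
  have hTb : Tile (T2 ∪ ⋃ i : {i : ι1 // (h1 i (x1 i)).1 ∉ R}, h1 i.1 '' {x1 i.1}ᶜ) R := by
    refine ⟨ι2, hι2, fun j => Glue (xK j) (eK j), fun j => inferInstance, t0,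
      fun j => glueMap (xK j) (eK j) (h2 j) (hK j), ?_, ?_, ?_, hti, ?_, ?_, ?_⟩
    · intro j
      exact t31_glue (K j) (P2 j) (PK j) (xK j) (eK j) (hP2 j) (fun k => hP1 k.1.1.1)
    · intro j
      refine t31_cont (xK j) (eK j) (fun k => hP1 k.1.1.1) (h2 j) (hK j) (hc2 j)
        (fun k => hc1 k.1.1.1) ?_ ?_
      · intro k
        have a1 := hs1' k.1.1.1 k.1.1.2
        rw [k.2] at a1
        exact a1.symm
      · intro ε hε
        have a1 := (hn1 ε hε).preimage
          (f := fun k : K j => k.1.1.1) (Set.injOn_of_injective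
            (fun k k' hkk => hKi j (Subtype.ext hkk)))
        exact a1
    · intro j
      show (glueMap (xK j) (eK j) (h2 j) (hK j) (t0 j)).1 ∈ R
      rw [ht0 j]
      exact hr2 j
    · -- disjointness
      have key : ∀ j (t : Glue (xK j) (eK j)), t ≠ t0 j →
          (∃ q, q ≠ x2 j ∧ glueMap (xK j) (eK j) (h2 j) (hK j) t = h2 j q) ∨
          (∃ k : K j, ∃ p, p ≠ x1 k.1.1.1 ∧
            glueMap (xK j) (eK j) (h2 j) (hK j) t = h1 k.1.1.1 p) := by
        intro j t ht
        have a1 : glueMap (xK j) (eK j) (h2 j) (hK j) t ∈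
            glueMap (xK j) (eK j) (h2 j) (hK j) '' {t0 j}ᶜ := ⟨t, ht, rfl⟩
        rw [htr j] at a1
        rcases a1 with ⟨q, hq, hq'⟩ | a1
        · exact Or.inl ⟨q, hq, hq'.symm⟩
        · obtain ⟨k, p, hp, hp'⟩ := mem_iUnion.1 a1
          exact Or.inr ⟨k, p, hp, hp'.symm⟩
      intro j j' hjj t t' ht ht' heq
      have heq' : glueMap (xK j) (eK j) (h2 j) (hK j) t =
          glueMap (xK j') (eK j') (h2 j') (hK j') t' := heq
      rcases key j t ht with ⟨q, hq, hq'⟩ | ⟨k, p, hp, hp'⟩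
      · rcases key j' t' ht' with ⟨r, hr, hr'⟩ | ⟨k, p, hp, hp'⟩
        · rw [hq', hr'] at heq'
          exact hd2 j j' hjj q r hq hr heq'
        · rw [hq', hp'] at heq'
          have a1 := hs1 k.1.1.1 p hp
          have a2 := hs2 j q hq
          rw [heq'] at a2
          exact disjoint_left.1 hdis a1 a2
      · rcases key j' t' ht' with ⟨r, hr, hr'⟩ | ⟨k', p', hpp, hpp'⟩
        · rw [hp', hr'] at heq'
          have a1 := hs1 k.1.1.1 p hp
          have a2 := hs2 j' r hr
          rw [← heq'] at a2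
          exact disjoint_left.1 hdis a1 a2
        · rw [hp', hpp'] at heq'
          have hkk : k.1.1.1 ≠ k'.1.1.1 := by
            intro hcon
            have b1 : k.1.1 = k'.1.1 := Subtype.ext hcon
            have b2 := k.2
            have b3 := k'.2
            rw [← b1, b2] at b3
            exact hjj (Sigma.mk.inj b3).1
          exact hd1 k.1.1.1 k'.1.1.1 hkk p p' hp hpp heq'
    · -- the union
      have e1 : (⋃ j, glueMap (xK j) (eK j) (h2 j) (hK j) '' {t0 j}ᶜ) =
          ⋃ j, (h2 j '' {x2 j}ᶜ ∪ ⋃ k : K j, h1 k.1.1.1 '' {x1 k.1.1.1}ᶜ) := by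
        congr 1
        funext j
        exact htr j
      rw [e1, iUnion_union_distrib, hU2]
      congr 1
      ext z
      constructor
      · intro hz
        obtain ⟨j, hj⟩ := mem_iUnion.1 hz
        obtain ⟨k, hk⟩ := mem_iUnion.1 hj
        exact mem_iUnion.2 ⟨k.1.1, hk⟩
      · intro hz
        obtain ⟨i, hi⟩ := mem_iUnion.1 hz
        refine mem_iUnion.2 ⟨(s i.1 i.2).1, mem_iUnion.2 ⟨⟨(i, (s i.1 i.2).2), rfl⟩, hi⟩⟩
    · -- null
      intro ε hε
      have hε2 : 0 < ε / 2 := by linarith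
      refine ((hn2 (ε / 2) hε2).union
        ((((hn1 (ε / 2) hε2).preimage (f := fun i : {i : ι1 // (h1 i (x1 i)).1 ∉ R} => i.1)
          (Subtype.val_injective.injOn))).image (fun i => (s i.1 i.2).1))).subset ?_
      rintro j ⟨t, ht⟩
      have ht' : ε ≤ dist (glueMap (xK j) (eK j) (h2 j) (hK j) t).1
        (glueMap (xK j) (eK j) (h2 j) (hK j) (t0 j)).1 := ht
      rw [ht0 j] at ht'
      by_contra hcon
      rw [mem_union, not_or] at hcon
      obtain ⟨hcon1, hcon2⟩ := hcon
      have a1 : ∀ q : P2 j, dist (h2 j q).1 (h2 j (x2 j)).1 < ε / 2 := by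
        intro q
        by_contra hq
        exact hcon1 ⟨q, not_lt.1 hq⟩
      by_cases H : ∃ k, t.1.2 k ≠ xK j k
      · obtain ⟨k, hk⟩ := H
        rw [GPSI.val1 (xK j) (eK j) (h2 j) (hK j) t k hk] at ht'
        have a2 : dist (h1 k.1.1.1 (t.1.2 k)).1 (h1 k.1.1.1 (x1 k.1.1.1)).1 < ε / 2 := by
          by_contra hq
          apply hcon2
          refine ⟨k.1.1, ⟨t.1.2 k, not_lt.1 hq⟩, ?_⟩
          have := k.2
          show (s k.1.1.1 k.1.1.2).1 = j
          rw [this]
        have a3 := hs1' k.1.1.1 k.1.1.2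
        rw [k.2] at a3
        have a3' : (h2 j k.1.2).1 = (h1 k.1.1.1 (x1 k.1.1.1)).1 := a3
        have a4 := a1 k.1.2
        have a5 := dist_triangle (h1 k.1.1.1 (t.1.2 k)).1 (h2 j k.1.2).1 (h2 j (x2 j)).1
        rw [a3'] at a4 a5
        have a6 : ε ≤ dist (h1 k.1.1.1 (t.1.2 k)).1 (h2 j (x2 j)).1 := ht'
        linarith
      · push Not at H
        rw [GPSI.val0 (xK j) (eK j) (h2 j) (hK j) t H] at ht'
        have := a1 t.1.1
        linarith
  have hfin := t32_union (R := R) ?_ hTa hTb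
  · have e : (⋃ i : {i : ι1 // (h1 i (x1 i)).1 ∈ R}, h1 i.1 '' {x1 i.1}ᶜ) ∪
        (T2 ∪ ⋃ i : {i : ι1 // (h1 i (x1 i)).1 ∉ R}, h1 i.1 '' {x1 i.1}ᶜ) = T1 ∪ T2 := by
      rw [← hU1]
      ext z
      simp only [mem_union, mem_iUnion, Subtype.exists]
      constructor
      · rintro (⟨i, _, hi⟩ | h | ⟨i, _, hi⟩)
        · exact Or.inl ⟨i, hi⟩
        · exact Or.inr h
        · exact Or.inl ⟨i, hi⟩
      · rintro (⟨i, hi⟩ | h)
        · by_cases hR : (h1 i (x1 i)).1 ∈ R
          · exact Or.inl ⟨i, hR, hi⟩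
          · exact Or.inr (Or.inr ⟨i, hR, hi⟩)
        · exact Or.inr (Or.inl h)
    rw [e] at hfin
    exact hfin
  · rw [disjoint_left]
    intro z hz hz'
    obtain ⟨i, p, hp, rfl⟩ := mem_iUnion.1 hz
    rcases hz' with hz' | hz'
    · exact disjoint_left.1 hdis (hs1 i.1 p hp) hz'
    · obtain ⟨i', p', hp', heq⟩ := mem_iUnion.1 hz'
      have hne : i'.1 ≠ i.1 := by
        intro hcon
        exact i'.2 (hcon ▸ i.2)
      exact hd1 i'.1 i.1 hne p' p hp' hp heq

end Pool.Agent.H405
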