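import Pool.Agent.H405.Asm7
import Pool.Agent.R638.DD.COMP

set_option autoImplicit false

/-! Project H405: (3.4), tilings of dendrites, from (1.1), (2.7) and (3.2). -/

namespace Pool.Agent.H405

open Set Topology Filter Metric
open Pool.Agent.R638.DD

/-- a tiling by subsets of `Y` with labels -/
theorem t34_tile {Y L ι : Type} [MetricSpace Y] [Countable ι] (C : ι → Set Y) (x : ι → Y)
    (l : ι → L) (T : Set (Y × L)) (R : Set Y) (hC : ∀ i, IsDen ↥(C i)) (hx : ∀ i, x i ∈ C i)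
    (hR : ∀ i, x i ∈ R)
    (hd : ∀ i j, i ≠ j → l i = l j → ∀ y ∈ C i, y ∈ C j → y = x i ∨ y = x j)
    (hT : ∀ y k, (y, k) ∈ T ↔ ∃ i, y ∈ C i ∧ y ≠ x i ∧ l i = k)
    (hn : ∀ ε : ℝ, 0 < ε → {i | ∃ p ∈ C i, ε ≤ dist p (x i)}.Finite) : Tile T R := by
  refine ⟨ι, inferInstance, fun i => ↥(C i), fun _ => inferInstance, fun i => ⟨x i, hx i⟩,
    fun i p => (p.1, l i), hC, fun _ => continuous_subtype_val, hR, ?_, ?_, ?_, ?_⟩
  · intro i p _ q _ h
    exact Subtype.ext (congrArg Prod.fst h)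
  · intro i j hij p q hp hq h
    have h1 : p.1 = q.1 := congrArg Prod.fst h
    have h2 : l i = l j := congrArg Prod.snd h
    rcases hd i j hij h2 p.1 p.2 (h1 ▸ q.2) with h3 | h3
    · exact hp (Subtype.ext h3)
    · exact hq (Subtype.ext (h1.symm.trans h3))
  · ext ⟨y, k⟩
    rw [hT]
    simp only [mem_iUnion, mem_image, mem_compl_iff, mem_singleton_iff, Prod.mk.injEq]
    constructor
    · rintro ⟨i, p, hp, rfl, rfl⟩
      exact ⟨i, p.2, fun h => hp (Subtype.ext h), rfl⟩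
    · rintro ⟨i, h1, h2, rfl⟩
      exact ⟨i, ⟨y, h1⟩, fun h => h2 (congrArg Subtype.val h), rfl, rfl⟩
  · intro ε hε
    refine (hn ε hε).subset ?_
    rintro i ⟨p, hp⟩
    exact ⟨p.1, p.2, hp⟩

/-- a dendrite has the property `TP` -/
theorem t34_tp {Y : Type} [MetricSpace Y] {D : Set Y} (hD : IsDen ↥D) : TP D := by
  intro u hu v hv huv
  obtain ⟨r, A, B, hA, hB, hAB, hun, huA, hvB⟩ :=
    hD.third ⟨u, hu⟩ ⟨v, hv⟩ (fun h => huv (congrArg Subtype.val h))
  obtain ⟨A', hA', rfl⟩ := isOpen_induced_iff.mp hA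
  obtain ⟨B', hB', rfl⟩ := isOpen_induced_iff.mp hB
  refine ⟨A', B', hA', hB', huA, hvB, ?_, ?_⟩
  · rw [eq_empty_iff_forall_notMem]
    rintro y ⟨⟨h1, h2⟩, h3⟩
    exact Set.disjoint_left.mp hAB (show (⟨y, h3⟩ : ↥D) ∈ Subtype.val ⁻¹' A' from h1) h2
  · have key : ∀ y, y ∈ D \ (A' ∪ B') → y = r.1 := by
      rintro y ⟨h1, h2⟩
      by_contra hne
      have : (⟨y, h1⟩ : ↥D) ∈ ({r}ᶜ : Set ↥D) := fun h => hne (congrArg Subtype.val h)
      rw [← hun] at this
      exact h2 this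
    intro y hy z hz
    rw [key y hy, key z hz]

/-- closed connected subsets of dendrites are dendrites -/
theorem t34_sub (h11 : Stm11) {Y : Type} [MetricSpace Y] {D C : Set Y} (hD : IsDen ↥D)
    (hCD : C ⊆ D) (hC : IsClosed C) (hconn : IsPreconnected C) (hne : C.Nonempty) :
    IsDen ↥C := by
  have hcD : IsCompact D := isCompact_iff_compactSpace.mpr hD.compact
  exact h11 Y C (hcD.of_isClosed_subset hC hCD) hconn hne ((t34_tp hD).mono hCD)

/-- a gadget in a subset `D` -/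
structure T34Gad {Y : Type} [MetricSpace Y] (D : Set Y) (a b : Y) (Pa Pb : Set Y)
    (S : ℕ → Set Y) (s : ℕ → Y) : Prop where
  ca : IsClosed Pa
  pa : IsPreconnected Pa
  ma : a ∈ Pa
  cb : IsClosed Pb
  pb : IsPreconnected Pb
  mb : b ∈ Pb
  cs : ∀ n, IsClosed (S n)
  ps : ∀ n, IsPreconnected (S n)
  ms : ∀ n, s n ∈ S n
  ab : ∀ y, y ∈ Pa → y ∈ Pb → False
  as : ∀ n y, y ∈ S n → y ∈ Pa → y = s n
  bs : ∀ n y, y ∈ S n → y ∈ Pb → y = s n
  ss : ∀ i j, i ≠ j → ∀ y, y ∈ S i → y ∈ S j → y = s i ∨ y = s j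
  suba : Pa ⊆ D
  subb : Pb ⊆ D
  subs : ∀ n, S n ⊆ D
  cov : ∀ y ∈ D, y ∈ Pa ∨ y ∈ Pb ∨ ∃ n, y ∈ S n ∧ y ≠ s n
  null : ∀ ε : ℝ, 0 < ε → {n | ∃ x ∈ S n, ε ≤ dist x (s n)}.Finite

theorem t34_gad (h27 : Stm27) {Y : Type} [MetricSpace Y] {D : Set Y} (hD : IsDen ↥D) {a b : Y}
    (ha : a ∈ D) (hb : b ∈ D) (hab : a ≠ b) : ∃ Pa Pb S s, T34Gad D a b Pa Pb S s := by
  have hcD : IsCompact D := isCompact_iff_compactSpace.mpr hD.compact
  obtain ⟨Pa, Pb, S, s, h1, h2, h3, h4, h5, h6, h7, h8, h9, h10, h11, h12⟩ :=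
    h27 ↥D hD ⟨a, ha⟩ ⟨b, hb⟩ (fun h => hab (congrArg Subtype.val h))
  have hcl : ∀ C : Set ↥D, IsClosed C → IsClosed (Subtype.val '' C) := fun C hC =>
    hcD.isClosed.isClosedEmbedding_subtypeVal.isClosedMap C hC
  have hpc : ∀ C : Set ↥D, IsPreconnected C → IsPreconnected (Subtype.val '' C) := fun C hC =>
    hC.image _ continuous_subtype_val.continuousOn
  have hsub : ∀ C : Set ↥D, Subtype.val '' C ⊆ D := by
    rintro C _ ⟨y, -, rfl⟩
    exact y.2
  refine ⟨Subtype.val '' Pa, Subtype.val '' Pb, fun n => Subtype.val '' S n, fun n => (s n).1,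
    ⟨hcl _ h1, hpc _ h2, ⟨_, h3, rfl⟩, hcl _ h4, hpc _ h5, ⟨_, h6, rfl⟩, fun n => hcl _ (h7 n).1,
    fun n => hpc _ (h7 n).2.1, fun n => ⟨_, (h7 n).2.2, rfl⟩, ?_, ?_, ?_, ?_, hsub _, hsub _,
    fun n => hsub _, ?_, ?_⟩⟩
  · rintro _ ⟨y, hy, rfl⟩ ⟨z, hz, hyz⟩
    rw [Subtype.ext hyz] at hz
    exact Set.disjoint_left.mp h8 hy hz
  · rintro n _ ⟨y, hy, rfl⟩ ⟨z, hz, hyz⟩
    rw [Subtype.ext hyz] at hz
    by_contra hne
    exact Set.disjoint_left.mp (h9 n) (Or.inl hz) ⟨hy, fun h => hne (congrArg Subtype.val h)⟩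
  · rintro n _ ⟨y, hy, rfl⟩ ⟨z, hz, hyz⟩
    rw [Subtype.ext hyz] at hz
    by_contra hne
    exact Set.disjoint_left.mp (h9 n) (Or.inr hz) ⟨hy, fun h => hne (congrArg Subtype.val h)⟩
  · rintro i j hij _ ⟨y, hy, rfl⟩ ⟨z, hz, hyz⟩
    rw [Subtype.ext hyz] at hz
    by_contra hne
    push Not at hne
    exact Set.disjoint_left.mp (h10 hij) ⟨hy, fun h => hne.1 (congrArg Subtype.val h)⟩
      ⟨hz, fun h => hne.2 (congrArg Subtype.val h)⟩
  · intro y hy
    have : (⟨y, hy⟩ : ↥D) ∈ Pa ∪ Pb ∪ (⋃ n, S n \ {s n}) := by rw [h11]; trivial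
    rcases this with (h | h) | h
    · exact Or.inl ⟨_, h, rfl⟩
    · exact Or.inr (Or.inl ⟨_, h, rfl⟩)
    · obtain ⟨n, hn⟩ := mem_iUnion.mp h
      exact Or.inr (Or.inr ⟨n, ⟨_, hn.1, rfl⟩, fun h => hn.2 (Subtype.ext h)⟩)
  · intro ε hε
    refine (h12 ε hε).subset ?_
    rintro n ⟨_, ⟨y, hy, rfl⟩, h⟩
    exact ⟨y, hy, h⟩

/-- the point `t` cuts the dendrite `D` in two parts -/
theorem t34_split {Y : Type} [MetricSpace Y] {D : Set Y} (hD : IsDen ↥D) {a b : Y}
    (ha : a ∈ D) (hb : b ∈ D) (hab : a ≠ b) : ∃ (t : Y) (D1 D2 : Set Y), IsClosed D1 ∧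
    IsClosed D2 ∧ IsPreconnected D1 ∧ IsPreconnected D2 ∧ D1 ∪ D2 = D ∧ D1 ∩ D2 = {t} ∧
    a ∈ D1 ∧ b ∈ D2 ∧ a ≠ t ∧ b ≠ t := by
  have hcD : IsCompact D := isCompact_iff_compactSpace.mpr hD.compact
  obtain ⟨r, A, B, hA, hB, hAB, hun, huA, hvB⟩ :=
    hD.third ⟨a, ha⟩ ⟨b, hb⟩ (fun h => hab (congrArg Subtype.val h))
  have hra : (⟨a, ha⟩ : ↥D) ≠ r := by
    have : (⟨a, ha⟩ : ↥D) ∈ ({r}ᶜ : Set ↥D) := hun ▸ Or.inl huA
    exact this
  have hrb : (⟨b, hb⟩ : ↥D) ≠ r := by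
    have : (⟨b, hb⟩ : ↥D) ∈ ({r}ᶜ : Set ↥D) := hun ▸ Or.inr hvB
    exact this
  obtain ⟨h1, h2, h3, h4⟩ := t_Comp ↥D hD.toIsPeano r ⟨b, hb⟩ hrb
  set W := connectedComponentIn ({r}ᶜ : Set ↥D) ⟨b, hb⟩ with hW
  have haW : (⟨a, ha⟩ : ↥D) ∉ W := by
    intro h
    have hWc : IsPreconnected W := isPreconnected_connectedComponentIn
    have hWs : W ⊆ A ∪ B := by rw [hun]; exact connectedComponentIn_subset _ _
    have hbW : (⟨b, hb⟩ : ↥D) ∈ W := mem_connectedComponentIn hrb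
    obtain ⟨z, -, hz1, hz2⟩ := hWc A B hA hB hWs ⟨_, h, huA⟩ ⟨_, hbW, hvB⟩
    exact Set.disjoint_left.mp hAB hz1 hz2
  have hcl : ∀ C : Set ↥D, IsClosed C → IsClosed (Subtype.val '' C) := fun C hC =>
    hcD.isClosed.isClosedEmbedding_subtypeVal.isClosedMap C hC
  have hpc : ∀ C : Set ↥D, IsPreconnected C → IsPreconnected (Subtype.val '' C) := fun C hC =>
    hC.image _ continuous_subtype_val.continuousOn
  refine ⟨r.1, Subtype.val '' Wᶜ, Subtype.val '' (W ∪ {r}), hcl _ h2.clA, hcl _ h2.clB,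
    hpc _ h3, hpc _ h4, ?_, ?_, ⟨_, haW, rfl⟩, ⟨_, Or.inl (mem_connectedComponentIn hrb), rfl⟩,
    fun h => hra (Subtype.ext h), fun h => hrb (Subtype.ext h)⟩
  · rw [← image_union, h2.un, image_univ, Subtype.range_coe]
  · rw [← image_inter Subtype.val_injective, h2.inter, image_singleton]

/-- (3.4) -/
theorem t34 (h11 : Stm11) (h27 : Stm27) (h32 : Stm32) : Stm34 := by
  intro Y _ m hm D a b hD ha hb hab
  obtain ⟨t, D1, D2, c1, c2, p1, p2, hun, hint, ha1, hb2, hat, hbt⟩ := t34_split hD ha hb hab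
  have s1 : D1 ⊆ D := hun ▸ subset_union_left
  have s2 : D2 ⊆ D := hun ▸ subset_union_right
  have ht : t ∈ D1 ∩ D2 := by rw [hint]; rfl
  have hint' : ∀ y, y ∈ D1 → y ∈ D2 → y = t := by
    intro y h1 h2
    have : y ∈ D1 ∩ D2 := ⟨h1, h2⟩
    rw [hint] at this
    exact this
  have d1 : IsDen ↥D1 := t34_sub h11 hD s1 c1 p1 ⟨a, ha1⟩
  have d2 : IsDen ↥D2 := t34_sub h11 hD s2 c2 p2 ⟨b, hb2⟩
  obtain ⟨Pa, Pt, S, s, G⟩ := t34_gad h27 d1 ha1 ht.1 hat
  obtain ⟨Qt, Qb, S', s', G'⟩ := t34_gad h27 d2 ht.2 hb2 hbt.symm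
  let i0 : Fin m := ⟨0, by omega⟩
  let i1 : Fin m := ⟨1, by omega⟩
  have hi1 : i1 ≠ i0 := fun h => by have := congrArg Fin.val h; simp [i0, i1] at this
  -- the first tiling
  let C2 : Fin m × Bool → Set Y := fun o =>
    if o.1 = i0 then (if o.2 then Qb else D1 ∪ Qt) else (if o.2 then Pt ∪ D2 else Pa)
  let x2 : Fin m × Bool → Y := fun o => if o.2 then b else a
  let T2 : Set (Y × Fin m) := {p | ∃ o, p.1 ∈ C2 o ∧ p.1 ≠ x2 o ∧ o.1 = p.2}
  have hC0t : C2 (i0, true) = Qb := by simp [C2]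
  have hC0f : C2 (i0, false) = D1 ∪ Qt := by simp [C2]
  have hCt : ∀ i, i ≠ i0 → C2 (i, true) = Pt ∪ D2 := by intro i hi; simp [C2, hi]
  have hCf : ∀ i, i ≠ i0 → C2 (i, false) = Pa := by intro i hi; simp [C2, hi]
  have hxt : ∀ i, x2 (i, true) = b := by intro i; simp [x2]
  have hxf : ∀ i, x2 (i, false) = a := by intro i; simp [x2]
  have t2 : Tile T2 {a, b} := by
    refine t34_tile C2 x2 Prod.fst T2 {a, b} ?_ ?_ ?_ ?_ (fun y k => Iff.rfl)
      (fun ε _ => Set.toFinite _)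
    · rintro ⟨i, _ | _⟩
      · by_cases h : i = i0
        · rw [h, hC0f]
          exact t34_sub h11 hD (union_subset s1 (G'.suba.trans s2)) (c1.union G'.ca)
            (p1.union t ht.1 G'.ma G'.pa) ⟨a, Or.inl ha1⟩
        · rw [hCf i h]
          exact t34_sub h11 hD (G.suba.trans s1) G.ca G.pa ⟨a, G.ma⟩
      · by_cases h : i = i0
        · rw [h, hC0t]
          exact t34_sub h11 hD (G'.subb.trans s2) G'.cb G'.pb ⟨b, G'.mb⟩
        · rw [hCt i h]
          exact t34_sub h11 hD (union_subset (G.subb.trans s1) s2) (G.cb.union c2)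
            (G.pb.union t G.mb ht.2 p2) ⟨b, Or.inr hb2⟩
    · rintro ⟨i, _ | _⟩
      · by_cases h : i = i0
        · rw [h, hC0f, hxf]; exact Or.inl ha1
        · rw [hCf i h, hxf]; exact G.ma
      · by_cases h : i = i0
        · rw [h, hC0t, hxt]; exact G'.mb
        · rw [hCt i h, hxt]; exact Or.inr hb2
    · rintro ⟨i, _ | _⟩
      · rw [hxf]; exact Or.inl rfl
      · rw [hxt]; exact Or.inr rfl
    · have key : ∀ i y, y ∈ C2 (i, false) → y ∈ C2 (i, true) → False := by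
        intro i y
        by_cases h : i = i0
        · rw [h, hC0f, hC0t]
          rintro (h1 | h1) h2
          · have := hint' y h1 (G'.subb h2)
            rw [this] at h2
            exact G'.ab _ G'.ma h2
          · exact G'.ab _ h1 h2
        · rw [hCf i h, hCt i h]
          rintro h1 (h2 | h2)
          · exact G.ab _ h1 h2
          · have := hint' y (G.suba h1) h2
            rw [this] at h1
            exact G.ab _ h1 G.mb
      rintro ⟨i, _ | _⟩ ⟨j, _ | _⟩ hij (rfl : i = j) y h1 h2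
      · exact absurd rfl hij
      · exact (key i y h1 h2).elim
      · exact (key i y h2 h1).elim
      · exact absurd rfl hij
  -- the second tiling
  let C1 : Fin m × ℕ → Set Y := fun o => if o.1 = i0 then S' o.2 else S o.2
  let x1 : Fin m × ℕ → Y := fun o => if o.1 = i0 then s' o.2 else s o.2
  let T1 : Set (Y × Fin m) := {p | ∃ o, p.1 ∈ C1 o ∧ p.1 ≠ x1 o ∧ o.1 = p.2}
  have eC0 : ∀ n, C1 (i0, n) = S' n := by intro n; simp [C1]
  have ex0 : ∀ n, x1 (i0, n) = s' n := by intro n; simp [x1]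
  have eC : ∀ i n, i ≠ i0 → C1 (i, n) = S n := by intro i n h; simp [C1, h]
  have ex : ∀ i n, i ≠ i0 → x1 (i, n) = s n := by intro i n h; simp [x1, h]
  have hcover : ∀ y ∈ D, y ∈ ({a, b} : Set Y) ∪ Prod.fst '' T2 := by
    intro y hy
    by_cases hya : y = a
    · exact Or.inl (Or.inl hya)
    by_cases hyb : y = b
    · exact Or.inl (Or.inr hyb)
    rw [← hun] at hy
    rcases hy with h | h
    · refine Or.inr ⟨(y, i0), ⟨(i0, false), ?_, ?_, rfl⟩, rfl⟩
      · rw [hC0f]; exact Or.inl h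
      · rw [hxf]; exact hya
    · refine Or.inr ⟨(y, i1), ⟨(i1, true), ?_, ?_, rfl⟩, rfl⟩
      · rw [hCt i1 hi1]; exact Or.inr h
      · rw [hxt]; exact hyb
  have t1 : Tile T1 ({a, b} ∪ Prod.fst '' T2) := by
    refine t34_tile C1 x1 Prod.fst T1 _ ?_ ?_ ?_ ?_ (fun y k => Iff.rfl) ?_
    · rintro ⟨i, n⟩
      by_cases h : i = i0
      · rw [h, eC0]
        exact t34_sub h11 hD ((G'.subs n).trans s2) (G'.cs n) (G'.ps n) ⟨_, G'.ms n⟩
      · rw [eC i n h]
        exact t34_sub h11 hD ((G.subs n).trans s1) (G.cs n) (G.ps n) ⟨_, G.ms n⟩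
    · rintro ⟨i, n⟩
      by_cases h : i = i0
      · rw [h, eC0, ex0]; exact G'.ms n
      · rw [eC i n h, ex i n h]; exact G.ms n
    · rintro ⟨i, n⟩
      by_cases h : i = i0
      · rw [h, ex0]; exact hcover _ (s2 (G'.subs n (G'.ms n)))
      · rw [ex i n h]; exact hcover _ (s1 (G.subs n (G.ms n)))
    · rintro ⟨i, n⟩ ⟨j, k⟩ hij (rfl : i = j) y h1 h2
      have hnk : n ≠ k := by rintro rfl; exact hij rfl
      by_cases h : i = i0
      · subst h
        rw [eC0] at h1 h2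
        rw [ex0, ex0]
        exact G'.ss n k hnk y h1 h2
      · rw [eC i _ h] at h1 h2
        rw [ex i n h, ex i k h]
        exact G.ss n k hnk y h1 h2
    · intro ε hε
      refine (((Set.finite_univ (α := Fin m)).prod ((G.null ε hε).union (G'.null ε hε)))).subset ?_
      rintro ⟨i, n⟩ ⟨p, hp, hd⟩
      refine ⟨trivial, ?_⟩
      by_cases h : i = i0
      · rw [h, eC0] at hp
        rw [h, ex0] at hd
        exact Or.inr ⟨p, hp, hd⟩
      · rw [eC i n h] at hp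
        rw [ex i n h] at hd
        exact Or.inl ⟨p, hp, hd⟩
  have hdis : Disjoint T1 T2 := by
    rw [Set.disjoint_left]
    rintro ⟨y, k⟩ ⟨⟨i, n⟩, h1, h2, h3⟩ ⟨⟨j, o⟩, h4, h5, h6⟩
    simp only at h1 h2 h3 h4 h5 h6
    subst h3 h6
    by_cases h : j = i0
    · subst h
      rw [eC0] at h1
      rw [ex0] at h2
      cases o
      · rw [hC0f] at h4
        rcases h4 with h4 | h4
        · have := hint' y h4 (G'.subs n h1)
          subst this
          exact h2 (G'.as n _ h1 G'.ma)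
        · exact h2 (G'.as n _ h1 h4)
      · rw [hC0t] at h4
        exact h2 (G'.bs n _ h1 h4)
    · rw [eC j n h] at h1
      rw [ex j n h] at h2
      cases o
      · rw [hCf j h] at h4
        exact h2 (G.as n _ h1 h4)
      · rw [hCt j h] at h4
        rcases h4 with h4 | h4
        · exact h2 (G.bs n _ h1 h4)
        · have := hint' y (G.subs n h1) h4
          subst this
          exact h2 (G.bs n _ h1 G.mb)
  have h := h32 Y (Fin m) T1 T2 {a, b} hdis t2 t1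
  convert h using 1
  have hbD1 : b ∉ D1 := fun h => hbt (hint' b h hb2)
  have haD2 : a ∉ D2 := fun h => hat (hint' a ha1 h)
  ext ⟨y, k⟩
  simp only [mem_union, mem_prod, Set.mem_sdiff, mem_insert_iff, mem_singleton_iff, not_or,
    mem_univ, and_true, mem_ofPred_eq, T1, T2]
  constructor
  · rintro ⟨hy, hya, hyb⟩
    by_cases hk : k = i0
    · subst hk
      by_cases hy1 : y ∈ D1
      · refine Or.inr ⟨(i0, false), ?_, ?_, rfl⟩
        · rw [hC0f]; exact Or.inl hy1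
        · rw [hxf]; exact hya
      · have hy2 : y ∈ D2 := by
          rw [← hun] at hy
          exact hy.resolve_left hy1
        rcases G'.cov y hy2 with h | h | ⟨n, h, h'⟩
        · refine Or.inr ⟨(i0, false), ?_, ?_, rfl⟩
          · rw [hC0f]; exact Or.inr h
          · rw [hxf]; exact hya
        · refine Or.inr ⟨(i0, true), ?_, ?_, rfl⟩
          · rw [hC0t]; exact h
          · rw [hxt]; exact hyb
        · refine Or.inl ⟨(i0, n), ?_, ?_, rfl⟩
          · rw [eC0]; exact h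
          · rw [ex0]; exact h'
    · by_cases hy2 : y ∈ D2
      · refine Or.inr ⟨(k, true), ?_, ?_, rfl⟩
        · rw [hCt k hk]; exact Or.inr hy2
        · rw [hxt]; exact hyb
      · have hy1 : y ∈ D1 := by
          rw [← hun] at hy
          exact hy.resolve_right hy2
        rcases G.cov y hy1 with h | h | ⟨n, h, h'⟩
        · refine Or.inr ⟨(k, false), ?_, ?_, rfl⟩
          · rw [hCf k hk]; exact h
          · rw [hxf]; exact hya
        · refine Or.inr ⟨(k, true), ?_, ?_, rfl⟩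
          · rw [hCt k hk]; exact Or.inl h
          · rw [hxt]; exact hyb
        · refine Or.inl ⟨(k, n), ?_, ?_, rfl⟩
          · rw [eC k n hk]; exact h
          · rw [ex k n hk]; exact h'
  · rintro (⟨⟨i, n⟩, h1, h2, rfl⟩ | ⟨⟨i, o⟩, h1, h2, rfl⟩)
    · by_cases h : i = i0
      · subst h
        rw [eC0] at h1
        rw [ex0] at h2
        refine ⟨s2 (G'.subs n h1), ?_, ?_⟩
        · rintro rfl; exact haD2 (G'.subs n h1)
        · rintro rfl; exact h2 (G'.bs n _ h1 G'.mb)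
      · rw [eC i n h] at h1
        rw [ex i n h] at h2
        refine ⟨s1 (G.subs n h1), ?_, ?_⟩
        · rintro rfl; exact h2 (G.as n _ h1 G.ma)
        · rintro rfl; exact hbD1 (G.subs n h1)
    · by_cases h : i = i0
      · subst h
        cases o
        · rw [hC0f] at h1
          rw [hxf] at h2
          rcases h1 with h1 | h1
          · exact ⟨s1 h1, h2, fun h => hbD1 (h ▸ h1)⟩
          · refine ⟨s2 (G'.suba h1), h2, ?_⟩
            rintro rfl; exact G'.ab _ h1 G'.mb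
        · rw [hC0t] at h1
          rw [hxt] at h2
          refine ⟨s2 (G'.subb h1), ?_, h2⟩
          rintro rfl; exact haD2 (G'.subb h1)
      · cases o
        · rw [hCf i h] at h1
          rw [hxf] at h2
          refine ⟨s1 (G.suba h1), h2, ?_⟩
          rintro rfl; exact hbD1 (G.suba h1)
        · rw [hCt i h] at h1
          rw [hxt] at h2
          rcases h1 with h1 | h1
          · refine ⟨s1 (G.subb h1), ?_, h2⟩
            rintro rfl; exact G.ab _ G.ma h1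
          · exact ⟨s2 h1, fun h => haD2 (h ▸ h1), h2⟩

end Pool.Agent.H405
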