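import Pool.Agent.H405.T34

set_option autoImplicit false

/-! Project H405: (3.5), tilings of dendrites, from (1.1), (2.7) and (3.2). -/

namespace Pool.Agent.H405

open Set Topology Filter Metric
open Pool.Agent.R638.DD

/-- (3.5) -/
theorem t35 (h11 : Stm11) (h27 : Stm27) (h32 : Stm32) : Stm35 := by
  intro Y _ m hm D a b hD ha hb hab i0
  obtain ⟨Pa, Pb, S, s, G⟩ := t34_gad h27 hD ha hb hab
  obtain ⟨i1, hi1⟩ : ∃ i1 : Fin m, i1 ≠ i0 := by
    rcases Nat.eq_zero_or_pos i0.1 with h | h
    · exact ⟨⟨1, by omega⟩, fun h' => by have := congrArg Fin.val h'; simp at this; omega⟩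
    · exact ⟨⟨0, by omega⟩, fun h' => by have := congrArg Fin.val h'; simp at this; omega⟩
  have hcD : IsCompact D := isCompact_iff_compactSpace.mpr hD.compact
  -- the first tiling
  let C2 : Option (Fin m) → Set Y := fun o => match o with
    | none => Pa
    | some i => if i = i0 then Pb else D
  let x2 : Option (Fin m) → Y := fun o => match o with
    | none => a
    | some _ => b
  let l2 : Option (Fin m) → Fin m := fun o => match o with
    | none => i0
    | some i => i
  let T2 : Set (Y × Fin m) := {p | ∃ o, p.1 ∈ C2 o ∧ p.1 ≠ x2 o ∧ l2 o = p.2}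
  have t2 : Tile T2 {a, b} := by
    refine t34_tile C2 x2 l2 T2 {a, b} ?_ ?_ ?_ ?_ (fun y k => Iff.rfl) (fun ε _ => Set.toFinite _)
    · rintro (_ | i)
      · exact t34_sub h11 hD G.suba G.ca G.pa ⟨a, G.ma⟩
      · by_cases h : i = i0
        · have e : C2 (some i) = Pb := if_pos h
          rw [e]
          exact t34_sub h11 hD G.subb G.cb G.pb ⟨b, G.mb⟩
        · have e : C2 (some i) = D := if_neg h
          rw [e]
          exact hD
    · rintro (_ | i)
      · exact G.ma
      · by_cases h : i = i0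
        · simp only [C2, x2, h, if_true]; exact G.mb
        · simp only [C2, x2, h, if_false]; exact hb
    · rintro (_ | i)
      · exact Or.inl rfl
      · exact Or.inr rfl
    · rintro (_ | i) (_ | j) hij hl y h1 h2
      · exact absurd rfl hij
      · simp only [l2] at hl
        simp only [C2, hl.symm, if_true] at h1 h2
        exact (G.ab y h1 h2).elim
      · simp only [l2] at hl
        simp only [C2, hl, if_true] at h1 h2
        exact (G.ab y h2 h1).elim
      · simp only [l2] at hl
        exact absurd (congrArg some hl) hij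
  -- the second tiling
  let T1 : Set (Y × Fin m) := {p | ∃ n, p.1 ∈ S n ∧ p.1 ≠ s n ∧ i0 = p.2}
  have t1 : Tile T1 ({a, b} ∪ Prod.fst '' T2) := by
    refine t34_tile S s (fun _ => i0) T1 _ ?_ G.ms ?_ ?_ (fun y k => Iff.rfl) G.null
    · intro n
      exact t34_sub h11 hD (G.subs n) (G.cs n) (G.ps n) ⟨s n, G.ms n⟩
    · intro n
      by_cases h : s n = b
      · exact Or.inl (Or.inr h)
      · refine Or.inr ⟨(s n, i1), ⟨some i1, ?_, h, rfl⟩, rfl⟩
        simp only [C2, hi1, if_false]
        exact G.subs n (G.ms n)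
    · intro i j hij _ y h1 h2
      exact G.ss i j hij y h1 h2
  have hdis : Disjoint T1 T2 := by
    rw [Set.disjoint_left]
    rintro ⟨y, k⟩ ⟨n, h1, h2, h3⟩ ⟨o, h4, h5, h6⟩
    simp only at h1 h2 h3 h4 h5 h6
    subst h3
    rcases o with _ | i
    · exact h2 (G.as n y h1 h4)
    · simp only [l2] at h6
      subst h6
      simp only [C2, if_true] at h4
      exact h2 (G.bs n y h1 h4)
  have h := h32 Y (Fin m) T1 T2 {a, b} hdis t2 t1
  convert h using 1
  ext ⟨y, k⟩
  simp only [mem_union, mem_prod, Set.mem_sdiff, mem_insert_iff, mem_singleton_iff, not_or,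
    mem_univ, and_true, mem_ofPred_eq, T1, T2]
  constructor
  · rintro (⟨h1, h2, h3⟩ | ⟨rfl, h2⟩)
    · by_cases hk : k = i0
      · subst hk
        rcases G.cov y h1 with h | h | ⟨n, h, h'⟩
        · exact Or.inr ⟨none, h, h2, rfl⟩
        · refine Or.inr ⟨some k, ?_, h3, rfl⟩
          simp only [C2, if_true]; exact h
        · exact Or.inl ⟨n, h, h', rfl⟩
      · refine Or.inr ⟨some k, ?_, h3, rfl⟩
        simp only [C2, hk, if_false]; exact h1
    · refine Or.inr ⟨some k, ?_, hab, rfl⟩
      simp only [C2, h2, if_false]; exact ha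
  · rintro (⟨n, h1, h2, rfl⟩ | ⟨_ | i, h1, h2, h3⟩)
    · refine Or.inl ⟨G.subs n h1, ?_, ?_⟩
      · rintro rfl; exact h2 (G.as n _ h1 G.ma)
      · rintro rfl; exact h2 (G.bs n _ h1 G.mb)
    · simp only [l2] at h3
      subst h3
      refine Or.inl ⟨G.suba h1, h2, ?_⟩
      rintro rfl; exact G.ab _ h1 G.mb
    · simp only [l2] at h3
      subst h3
      by_cases hk : i = i0
      · simp only [C2, hk, if_true] at h1
        refine Or.inl ⟨G.subb h1, ?_, h2⟩
        rintro rfl; exact G.ab _ G.ma h1
      · simp only [C2, hk, if_false] at h1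
        by_cases hy : y = a
        · exact Or.inr ⟨hy, hk⟩
        · exact Or.inl ⟨h1, hy, h2⟩

end Pool.Agent.H405
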