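import Pool.Agent.H405.Asm7

set_option autoImplicit false

/-! Project H405: (4.1) composition of reductions. -/

namespace Pool.Agent.H405

open Set Topology Filter Metric
open Pool.Agent.R638.DD

theorem t41 (h32 : Stm32) : Stm41 := by
  intro Y _ m A A' A'' U h1 h2
  obtain ⟨ρ1, c1, m1, i1, u1⟩ := h1.retr
  obtain ⟨ρ2, c2, m2, i2, u2⟩ := h2.retr
  have hdec : A \ A'' = (A \ A') ∪ (A' \ A'') := by
    ext x
    simp only [Set.mem_sdiff, mem_union]
    constructor
    · rintro ⟨h, h'⟩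
      by_cases hx : x ∈ A'
      · exact Or.inr ⟨hx, h'⟩
      · exact Or.inl ⟨h, hx⟩
    · rintro (⟨h, h'⟩ | ⟨h, h'⟩)
      · exact ⟨h, fun hx => h' (h2.sub hx)⟩
      · exact ⟨h1.sub h, h'⟩
  refine ⟨h2.sub.trans h1.sub, h2.closed, ?_, ?_, fun x => ρ2 (ρ1 x), ?_, ?_, ?_, ?_⟩
  · rw [hdec]
    exact union_subset h1.rem h2.rem
  · have h := h32 Y (Fin m) ((A \ A') ×ˢ univ) ((A' \ A'') ×ˢ univ) (A'' ∩ U) (by
      rw [Set.disjoint_left]
      rintro ⟨y, i⟩ ⟨⟨_, h⟩, _⟩ ⟨⟨h', _⟩, _⟩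
      exact h h') h2.tile (by
      rcases Nat.eq_zero_or_pos m with hm | hm
      · -- no labels: the tiles are empty
        subst hm
        have e1 : (A \ A') ×ˢ (univ : Set (Fin 0)) = ∅ := by
          ext ⟨y, i⟩
          exact i.elim0
        rw [e1]
        exact ⟨Empty, inferInstance, fun _ => Unit, fun _ => inferInstance, fun _ => (),
          fun i => i.elim, fun i => i.elim, fun i => i.elim, fun i => i.elim, fun i => i.elim,
          fun i => i.elim, by simp, fun ε _ => Set.toFinite _⟩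
      · refine h1.tile.mono ?_
        rintro y ⟨hy, hyU⟩
        by_cases hy' : y ∈ A''
        · exact Or.inl ⟨hy', hyU⟩
        · exact Or.inr ⟨(y, ⟨0, hm⟩), ⟨⟨hy, hy'⟩, trivial⟩, rfl⟩)
    rw [hdec, union_prod]
    exact h
  · exact c2.comp c1 m1
  · intro x hx
    exact m2 (m1 hx)
  · intro x hx
    show ρ2 (ρ1 x) = x
    rw [i1 x (h2.sub hx), i2 x hx]
  · rintro x ⟨hx, hx'⟩
    by_cases h : x ∈ A'
    · show ρ2 (ρ1 x) ∈ U
      rw [i1 x h]
      exact u2 x ⟨h, hx'⟩
    · have hU := u1 x ⟨hx, h⟩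
      by_cases h' : ρ1 x ∈ A''
      · show ρ2 (ρ1 x) ∈ U
        rw [i2 _ h']
        exact hU
      · exact u2 _ ⟨m1 hx, h'⟩

theorem Red.refl {Y : Type} [MetricSpace Y] (m : ℕ) {A : Set Y} (hA : IsClosed A) (U : Set Y) :
    Red m A A U := by
  refine ⟨Subset.rfl, hA, by simp, ?_, id, continuousOn_id, fun x hx => hx, fun _ _ => rfl,
    by simp⟩
  have e1 : (A \ A) ×ˢ (univ : Set (Fin m)) = ∅ := by simp
  rw [e1]
  exact ⟨Empty, inferInstance, fun _ => Unit, fun _ => inferInstance, fun _ => (),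
    fun i => i.elim, fun i => i.elim, fun i => i.elim, fun i => i.elim, fun i => i.elim,
    fun i => i.elim, by simp, fun ε _ => Set.toFinite _⟩

theorem PP.isCompact {Y : Type} [MetricSpace Y] {A : Set Y} (h : PP A) : IsCompact A := by
  obtain ⟨X, _, g, hX, hg, rfl⟩ := h
  have := hX.compact
  exact isCompact_range hg

theorem Good.anti {Y : Type} [MetricSpace Y] {m : ℕ} {V V' : Set Y} (h : Good m V)
    (hV : V' ⊆ V) : Good m V' :=
  fun A hA K W hK hW hKW hWV => h A hA K W hK hW hKW (hWV.trans hV)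

end Pool.Agent.H405
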