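import Pool.Agent.H405.T41

set_option autoImplicit false

/-! Project H405: (4.2) disjoint unions of reductions. -/

namespace Pool.Agent.H405

open Set Topology Filter Metric
open Pool.Agent.R638.DD

theorem NullFam.mono {Y J : Type} [MetricSpace Y] {U V : J → Set Y} (h : NullFam V)
    (hUV : ∀ j, U j ⊆ V j) : NullFam U := by
  intro ε hε
  refine (h ε hε).subset ?_
  rintro j ⟨u, hu, v, hv, huv⟩
  exact ⟨u, hUV j hu, v, hUV j hv, huv⟩

theorem t42 (h17 : Stm17) (h33 : Stm33) : Stm42 := by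
  classical
  intro Y J _ _ m A A' U hA hU hUd hUn hR
  choose ρ c mm ii uu using fun j => (hR j).retr
  have hRj : ∀ j, A' j ∩ U j ⊆ (A ∩ ⋂ j, A' j) ∩ ⋃ j, U j := by
    rintro j x ⟨hx, hxU⟩
    refine ⟨⟨(hR j).sub hx, mem_iInter.2 fun l => ?_⟩, mem_iUnion.2 ⟨j, hxU⟩⟩
    by_contra hl
    have h1 : x ∈ U l := (hR l).rem ⟨(hR j).sub hx, hl⟩
    have h2 : l ≠ j := fun h => hl (h ▸ hx)
    exact Set.disjoint_left.1 (hUd h2) h1 hxU
  have hdec : A \ (A ∩ ⋂ j, A' j) = ⋃ j, A \ A' j := by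
    ext x
    simp only [Set.mem_sdiff, mem_inter_iff, mem_iInter, mem_iUnion, not_and, not_forall]
    constructor
    · rintro ⟨h, h'⟩
      obtain ⟨j, hj⟩ := h' h
      exact ⟨j, h, hj⟩
    · rintro ⟨j, h, hj⟩
      exact ⟨h, fun _ => ⟨j, hj⟩⟩
  refine ⟨inter_subset_left, hA.inter (isClosed_iInter fun j => (hR j).closed), ?_, ?_, ?_⟩
  · rw [hdec]
    exact iUnion_mono fun j => (hR j).rem
  · have h := h33 Y (Fin m) J (fun j => (A \ A' j) ×ˢ (univ : Set (Fin m)))
      (fun j => A' j ∩ U j) ((A ∩ ⋂ j, A' j) ∩ ⋃ j, U j) ?_ (fun j => (hR j).tile) hRj ?_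
    · rw [hdec, iUnion_prod_const]
      exact h
    · intro i j hij
      rw [Set.disjoint_left]
      rintro ⟨y, l⟩ ⟨h, _⟩ ⟨h', _⟩
      exact Set.disjoint_left.1 (hUd hij) ((hR i).rem h) ((hR j).rem h')
    · refine hUn.mono fun j => union_subset ?_ inter_subset_right
      rintro _ ⟨⟨y, l⟩, ⟨h, _⟩, rfl⟩
      exact (hR j).rem h
  · obtain ⟨σ, hσc, hσe, hσi⟩ := h17 Y J A (fun j => A \ A' j) ρ hA
      (fun j => ⟨(A' j)ᶜ, (hR j).closed.isOpen_compl, rfl⟩) (fun i j hij => by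
        show Disjoint (A \ A' i) (A \ A' j)
        rw [Set.disjoint_left]
        intro y h h'
        exact Set.disjoint_left.1 (hUd hij) ((hR i).rem h) ((hR j).rem h'))
      (fun j => (c j).mono (closure_minimal Set.sdiff_subset hA))
      (fun j x hx => by
        have hxA : x ∈ A := closure_minimal Set.sdiff_subset hA hx.1
        have : x ∈ A' j := by
          by_contra h
          exact hx.2 ⟨hxA, h⟩
        exact ii j x this)
      (fun ε hε => (hUn ε hε).subset (by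
        rintro j ⟨x, hx, hxd⟩
        exact ⟨ρ j x, uu j x hx, x, (hR j).rem hx, hxd⟩))
    refine ⟨σ, hσc, ?_, ?_, ?_⟩
    · intro x hx
      by_cases h : ∃ j, x ∈ A \ A' j
      · obtain ⟨j, hj⟩ := h
        rw [hσe j x hj]
        exact (hRj j ⟨mm j hx, uu j x hj⟩).1
      · rw [hσi x ⟨hx, fun h' => h (mem_iUnion.1 h')⟩]
        refine ⟨hx, mem_iInter.2 fun j => ?_⟩
        by_contra hj
        exact h ⟨j, hx, hj⟩
    · intro x hx
      refine hσi x ⟨hx.1, fun h => ?_⟩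
      obtain ⟨j, hj⟩ := mem_iUnion.1 h
      exact hj.2 (mem_iInter.1 hx.2 j)
    · intro x hx
      rw [hdec] at hx
      obtain ⟨j, hj⟩ := mem_iUnion.1 hx
      rw [hσe j x hj]
      exact mem_iUnion.2 ⟨j, uu j x hj⟩

end Pool.Agent.H405
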