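import Pool.Agent.H405.T41
import Pool.Agent.H405.T11

set_option autoImplicit false

/-! Project H405: (4.3), (4.4). -/

namespace Pool.Agent.H405

open Set Topology Filter Metric
open Pool.Agent.R638.DD

theorem t43 (h16 : Stm16) : Stm43 := by
  refine ⟨?_, ?_⟩
  · rintro Y _ m A A' U ⟨X, iX, g, hX, hg, rfl⟩ hred
    obtain ⟨ρ, c, mm, ii, -⟩ := hred.retr
    refine ⟨X, iX, fun x => ρ (g x), hX, c.comp_continuous hg (fun x => ⟨x, rfl⟩), ?_⟩
    apply Subset.antisymm
    · rintro _ ⟨x, rfl⟩
      exact mm ⟨x, rfl⟩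
    · intro y hy
      obtain ⟨x, hx⟩ := hred.sub hy
      exact ⟨x, by show ρ (g x) = y; rw [hx, ii y hy]⟩
  · rintro Y _ A ⟨X, iX, g, hX, hg, rfl⟩
    exact h16.1 X Y g hX.toIsPeano hg

/-- closed connected subsets of dendrites -/
theorem t44_sub {X : Type} [TopologicalSpace X] (hX : IsDen X) {C : Set X} (hC : IsClosed C)
    (hCc : IsPreconnected C) (hne : C.Nonempty) : IsDen ↥C := by
  have := hX.compact
  have := hX.metrizable
  have := hX.connected
  have h1 : CompactSpace ↥C := isCompact_iff_compactSpace.1 hC.isCompact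
  have h2 : ConnectedSpace ↥C := isConnected_iff_connectedSpace.1 ⟨hne, hCc⟩
  refine t11_den ?_
  intro u v huv
  obtain ⟨r, A, B, hA, hB, hd, hAB, huA, hvB⟩ := hX.third u.1 v.1 (fun h => huv (Subtype.ext h))
  obtain ⟨c, hcS, hc⟩ := TP.exc_mem (S := univ) hA hB (by rw [inter_univ]; exact hd.inter_eq)
    hCc (subset_univ _) u.2 v.2 huA hvB
  have hcr : c = r := by
    have h3 : c ∉ A ∪ B := hc.2
    rw [hAB] at h3
    simpa using h3
  refine ⟨⟨c, hcS⟩, Subtype.val ⁻¹' A, Subtype.val ⁻¹' B, hA.preimage continuous_subtype_val,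
    hB.preimage continuous_subtype_val, hd.preimage _, ?_, huA, hvB⟩
  rw [← preimage_union, hAB, preimage_compl]
  congr 1
  ext z
  simp only [mem_preimage, mem_singleton_iff, Subtype.ext_iff, hcr]

theorem t44 (h16 : Stm16) : Stm44 := by
  classical
  rintro Y _ A ⟨X, iX, g, hX, hg, rfl⟩ p hp W hW hpW
  have := hX.compact
  have := hX.metrizable
  have := hX.connected
  have := hX.locConn
  have hfib : IsCompact (g ⁻¹' {p}) := (isClosed_singleton.preimage hg).isCompact
  have hGW : IsOpen (g ⁻¹' W) := hW.preimage hg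
  -- small connected open neighbourhoods with closure in `g ⁻¹' W`
  have hI : ∀ x : X, x ∈ g ⁻¹' {p} → ∃ V : Set X, IsOpen V ∧ IsPreconnected V ∧ x ∈ V ∧
      closure V ⊆ g ⁻¹' W := by
    intro x hx
    have hxW : x ∈ g ⁻¹' W := by
      have : g x = p := hx
      show g x ∈ W
      rw [this]; exact hpW
    obtain ⟨U, hU, hUc, hUW⟩ := exists_mem_nhds_isClosed_subset (hGW.mem_nhds hxW)
    refine ⟨connectedComponentIn (interior U) x, isOpen_interior.connectedComponentIn,
      isPreconnected_connectedComponentIn,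
      mem_connectedComponentIn (mem_interior_iff_mem_nhds.2 hU), ?_⟩
    refine (closure_mono (connectedComponentIn_subset _ _)).trans ?_
    exact (closure_minimal interior_subset hUc).trans hUW
  choose! V hV hVc hxV hVW using hI
  obtain ⟨t, ht, htfin, htc⟩ := hfib.elim_finite_subcover_image (b := g ⁻¹' {p}) (c := V)
    (fun x hx => hV x hx) (fun x hx => mem_biUnion hx (hxV x hx))
  lift t to Finset X using htfin
  have hPe : ∀ x ∈ t, IsPeano ↥(g '' closure (V x)) := by
    intro x hx
    have hden : IsDen ↥(closure (V x)) := t44_sub hX isClosed_closure (hVc x (ht hx)).closure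
      ⟨x, subset_closure (hxV x (ht hx))⟩
    have := h16.1 ↥(closure (V x)) Y (fun z => g z.1) hden.toIsPeano
      (hg.comp continuous_subtype_val)
    have e1 : range (fun z : ↥(closure (V x)) => g z.1) = g '' closure (V x) := by
      ext y
      simp
    rw [e1] at this
    exact this
  have hpIm : ∀ x ∈ t, p ∈ g '' closure (V x) := fun x hx =>
    ⟨x, subset_closure (hxV x (ht hx)), ht hx⟩
  obtain ⟨x0, hx0⟩ := hp
  have htne : t.Nonempty := by
    obtain ⟨x, hx, -⟩ := mem_iUnion₂.1 (htc (show x0 ∈ g ⁻¹' {p} from hx0))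
    exact ⟨x, hx⟩
  have hPeU : ∀ s : Finset X, s.Nonempty → s ⊆ t → IsPeano ↥(⋃ x ∈ s, g '' closure (V x)) := by
    intro s hs
    induction hs using Finset.Nonempty.cons_induction with
    | singleton a =>
      intro h
      have h1 := hPe a (h (Finset.mem_singleton_self a))
      have e1 : (⋃ x ∈ ({a} : Finset X), g '' closure (V x)) = g '' closure (V a) := by
        ext y
        simp
      rw [e1]
      exact h1
    | cons a s ha hs ih =>
      intro h
      have h1 := ih (fun x hx => h (Finset.mem_cons_of_mem hx))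
      have h2 := hPe a (h (Finset.mem_cons_self a s))
      rw [Finset.cons_eq_insert, Finset.set_biUnion_insert]
      obtain ⟨b, hb⟩ := hs
      exact h16.2.2 Y _ _ h2 h1 ⟨p, hpIm a (h (Finset.mem_cons_self a s)),
        mem_biUnion (show b ∈ (s : Set X) from hb) (hpIm b (h (Finset.mem_cons_of_mem hb)))⟩
  have hcl : IsClosed (g '' (⋃ x ∈ t, V x)ᶜ) :=
    ((isOpen_biUnion fun x hx => hV x (ht hx)).isClosed_compl.isCompact.image hg).isClosed
  refine ⟨⋃ x ∈ t, g '' closure (V x), (g '' (⋃ x ∈ t, V x)ᶜ)ᶜ, hPeU t htne Subset.rfl, ?_,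
    hcl.isOpen_compl, ?_, ?_⟩
  · refine iUnion₂_subset fun x hx => ?_
    rintro _ ⟨z, hz, rfl⟩
    exact ⟨⟨z, rfl⟩, hVW x (ht hx) hz⟩
  · rintro ⟨z, hz, hzp⟩
    exact hz (htc hzp)
  · rintro _ ⟨hy, z, rfl⟩
    by_contra h
    apply hy
    refine ⟨z, fun hz => h ?_, rfl⟩
    obtain ⟨x, hx, hzx⟩ := mem_iUnion₂.1 hz
    exact mem_biUnion (show x ∈ (t : Set X) from hx) ⟨z, subset_closure hzx, rfl⟩

end Pool.Agent.H405
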