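import Pool.Agent.H405.Asm7

set_option autoImplicit false

/-! Project H405: (5.0) small dendrite neighbourhoods. -/

namespace Pool.Agent.H405

open Set Topology Filter Metric
open Pool.Agent.R638.DD

theorem t50 : Stm50 := by
  intro Y _ B F hctx p hp U hU hpU
  obtain ⟨r, hr, hTP⟩ := hctx.ltp p hp
  have := hctx.peano.compact
  have := hctx.peano.locConn
  set W : Set Y := (U ∩ Fᶜ) ∩ ball p r with hW
  have hWo : IsOpen W := (hU.inter hctx.closed.isOpen_compl).inter isOpen_ball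
  have hpW : p ∈ W := ⟨⟨hpU, hp.2⟩, mem_ball_self hr⟩
  let q : ↥B := ⟨p, hp.1⟩
  have hV : (Subtype.val ⁻¹' W : Set ↥B) ∈ 𝓝 q := (hWo.preimage continuous_subtype_val).mem_nhds hpW
  obtain ⟨V, hVn, hVc, hVW⟩ := exists_mem_nhds_isClosed_subset hV
  obtain ⟨C, hC, hCo, hqC, hCc⟩ := (locallyConnectedSpace_iff_subsets_isOpen_isConnected.1
    inferInstance) q V hVn
  have hclC : closure C ⊆ V := closure_minimal hC hVc
  refine ⟨Subtype.val '' closure C, ?_, ?_, ?_, ?_, ?_, ?_, ?_⟩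
  · rintro _ ⟨x, hx, rfl⟩
    exact ⟨x.2, (hVW (hclC hx)).1.1⟩
  · rw [Set.disjoint_left]
    rintro _ ⟨x, hx, rfl⟩
    exact (hVW (hclC hx)).1.2
  · exact isClosed_closure.isCompact.image continuous_subtype_val
  · exact hCc.isPreconnected.closure.image _ continuous_subtype_val.continuousOn
  · refine hTP.mono ?_
    rintro _ ⟨x, hx, rfl⟩
    exact ⟨x.2, ball_subset_closedBall (hVW (hclC hx)).2⟩
  · exact ⟨q, subset_closure hqC, rfl⟩
  · obtain ⟨O, hO, hOC⟩ := isOpen_induced_iff.1 hCo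
    refine ⟨O, hO, ?_, ?_⟩
    · have : q ∈ (Subtype.val ⁻¹' O : Set ↥B) := by rw [hOC]; exact hqC
      exact this
    · rintro x ⟨hxO, hxB⟩
      have h1 : (⟨x, hxB⟩ : ↥B) ∈ (Subtype.val ⁻¹' O : Set ↥B) := hxO
      rw [hOC] at h1
      exact ⟨_, subset_closure h1, rfl⟩

end Pool.Agent.H405
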