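import Pool.Agent.H405.T59

set_option autoImplicit false

/-! Project H405: (5.1) families of slabs are null and countable. -/

namespace Pool.Agent.H405

open Set Topology Filter Metric
open Pool.Agent.R638.DD

section

variable {Y : Type} [MetricSpace Y]

/-- a slab contains a point far from both ends. -/
theorem t51_mid {B F e : Set Y} {a b : Y} (h : Slab B F e a b) {ε : ℝ} (hε : 0 < ε)
    (he : ∃ u ∈ e, ∃ v ∈ e, ε ≤ dist u v) : ∃ x ∈ e, ε / 8 ≤ dist x a ∧ ε / 8 ≤ dist x b := by
  by_contra hcon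
  push Not at hcon
  have hcov : e ⊆ ball a (ε / 8) ∪ ball b (ε / 8) := by
    intro x hx
    by_cases hxa : dist x a < ε / 8
    · exact Or.inl hxa
    · exact Or.inr (hcon x hx (not_lt.1 hxa))
  obtain ⟨u, hu, v, hv, huv⟩ := he
  by_cases hA : (e ∩ ball a (ε / 8)).Nonempty
  · by_cases hB : (e ∩ ball b (ε / 8)).Nonempty
    · obtain ⟨w, hw, hwa, hwb⟩ := h.conn _ _ isOpen_ball isOpen_ball hcov hA hB
      rw [mem_ball] at hwa hwb
      have hab : dist a b < ε / 4 := by
        have := dist_triangle a w b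
        rw [dist_comm a w] at this
        linarith
      have hd : ∀ x ∈ e, dist x a < 3 * ε / 8 := by
        intro x hx
        rcases hcov hx with h1 | h1
        · rw [mem_ball] at h1; linarith
        · rw [mem_ball] at h1
          have := dist_triangle x b a
          rw [dist_comm b a] at this
          linarith
      have h1 := hd u hu
      have h2 := hd v hv
      have := dist_triangle u a v
      rw [dist_comm a v] at this
      linarith
    · have hd : ∀ x ∈ e, dist x a < ε / 8 := by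
        intro x hx
        rcases hcov hx with h1 | h1
        · exact h1
        · exact absurd ⟨x, hx, h1⟩ hB
      have h1 := hd u hu
      have h2 := hd v hv
      have := dist_triangle u a v
      rw [dist_comm a v] at this
      linarith
  · have hd : ∀ x ∈ e, dist x b < ε / 8 := by
      intro x hx
      rcases hcov hx with h1 | h1
      · exact absurd ⟨x, hx, h1⟩ hA
      · exact h1
    have h1 := hd u hu
    have h2 := hd v hv
    have := dist_triangle u b v
    rw [dist_comm b v] at this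
    linarith

/-- a connected subset of `B` which meets a slab but not its ends is inside the slab. -/
theorem t51_inside {B F e C : Set Y} {a b : Y} (h : Slab B F e a b) (hC : IsPreconnected C)
    (hCB : C ⊆ B) (hm : (C ∩ e).Nonempty) (ha : a ∉ C) (hb : b ∉ C) : C ⊆ e := by
  obtain ⟨O, hO, hO'⟩ := h.rel
  by_contra hn
  obtain ⟨x, hxC, hxe⟩ := not_subset.1 hn
  obtain ⟨y, hyC, hye⟩ := hm
  have hcl : ∀ z ∈ C, z ∈ closure e → z ∈ e := by
    intro z hz hz'
    rw [h.cl] at hz'
    rcases hz' with h1 | h1 | h1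
    · exact h1
    · exact absurd (h1 ▸ hz) ha
    · exact absurd ((mem_singleton_iff.1 h1) ▸ hz) hb
  have hcov : C ⊆ O ∪ (closure e)ᶜ := by
    intro z hz
    by_cases hze : z ∈ closure e
    · have := hcl z hz hze
      rw [hO'] at this
      exact Or.inl this.2
    · exact Or.inr hze
  have h1 : (C ∩ O).Nonempty := by
    refine ⟨y, hyC, ?_⟩
    rw [hO'] at hye
    exact hye.2
  have h2 : (C ∩ (closure e)ᶜ).Nonempty := ⟨x, hxC, fun hc => hxe (hcl x hxC hc)⟩
  obtain ⟨z, hz, hzO, hzc⟩ := hC _ _ hO isClosed_closure.isOpen_compl hcov h1 h2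
  apply hzc
  apply subset_closure
  rw [hO']
  exact ⟨hCB hz, hzO⟩

theorem t51_null {B F : Set Y} {E : Set (Set Y)} (hctx : Ctx B F) (hE : Fam B F E) {ε : ℝ}
    (hε : 0 < ε) : {e ∈ E | ∃ u ∈ e, ∃ v ∈ e, ε ≤ dist u v}.Finite := by
  by_contra hinf
  have hinf : {e ∈ E | ∃ u ∈ e, ∃ v ∈ e, ε ≤ dist u v}.Infinite := hinf
  let f := hinf.natEmbedding
  have hfE : ∀ n, (f n).1 ∈ E := fun n => (f n).2.1
  have hsl : ∀ n, ∃ a b, Slab B F (f n).1 a b := fun n => hE.slab _ (hfE n)
  choose a b hs using hsl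
  have hx : ∀ n, ∃ x ∈ (f n).1, ε / 8 ≤ dist x (a n) ∧ ε / 8 ≤ dist x (b n) := fun n =>
    t51_mid (hs n) hε (f n).2.2
  choose x hxe hxa hxb using hx
  have hxB : ∀ n, x n ∈ B := fun n => (hs n).sub (hxe n)
  obtain ⟨y, hy, φ, hφ, hlim⟩ := hctx.compact.tendsto_subseq hxB
  -- a small connected relatively open neighbourhood of y
  have := hctx.peano.locConn
  let q : ↥B := ⟨y, hy⟩
  have hV : (Subtype.val ⁻¹' (ball y (ε / 16)) : Set ↥B) ∈ 𝓝 q :=
    (isOpen_ball.preimage continuous_subtype_val).mem_nhds (mem_ball_self (by linarith))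
  obtain ⟨C, hC, hCo, hqC, hCc⟩ := (locallyConnectedSpace_iff_subsets_isOpen_isConnected.1
    inferInstance) q _ hV
  obtain ⟨O, hO, hOC⟩ := isOpen_induced_iff.1 hCo
  have hyO : y ∈ O := by
    have : q ∈ (Subtype.val ⁻¹' O : Set ↥B) := by rw [hOC]; exact hqC
    exact this
  set D : Set Y := Subtype.val '' C with hD
  have hDc : IsPreconnected D := hCc.isPreconnected.image _ continuous_subtype_val.continuousOn
  have hDB : D ⊆ B := by
    rintro _ ⟨z, _, rfl⟩
    exact z.2
  have hDy : ∀ z ∈ D, dist z y < ε / 16 := by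
    rintro _ ⟨z, hz, rfl⟩
    exact hC hz
  have hev : ∀ᶠ n in atTop, x (φ n) ∈ O := hlim.eventually (hO.mem_nhds hyO)
  have hin : ∀ n, x (φ n) ∈ O → D ⊆ (f (φ n)).1 := by
    intro n hn
    have hxD : x (φ n) ∈ D := by
      have h1 : (⟨x (φ n), hxB _⟩ : ↥B) ∈ (Subtype.val ⁻¹' O : Set ↥B) := hn
      rw [hOC] at h1
      exact ⟨_, h1, rfl⟩
    have hfar : ∀ z ∈ D, dist (x (φ n)) z < ε / 8 := by
      intro z hz
      have h1 := hDy z hz
      have h2 := hDy _ hxD
      have := dist_triangle (x (φ n)) y z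
      rw [dist_comm y z] at this
      linarith
    refine t51_inside (hs (φ n)) hDc hDB ⟨_, hxD, hxe _⟩ ?_ ?_
    · intro h
      exact absurd (hfar _ h) (not_lt.2 (hxa _))
    · intro h
      exact absurd (hfar _ h) (not_lt.2 (hxb _))
  obtain ⟨N, hN⟩ := eventually_atTop.1 hev
  have h1 := hin N (hN N le_rfl)
  have h2 := hin (N + 1) (hN (N + 1) (Nat.le_succ N))
  have hne : (f (φ N)).1 ≠ (f (φ (N + 1))).1 := by
    intro h
    have h3 := f.injective (Subtype.ext h)
    exact absurd h3 (hφ (Nat.lt_succ_self N)).ne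
  have hyD : y ∈ D := ⟨q, hqC, rfl⟩
  exact Set.disjoint_left.1 (hE.disj (hfE _) (hfE _) hne) (h1 hyD) (h2 hyD)

theorem t51_two {B F e : Set Y} {a b : Y} (h : Slab B F e a b) :
    ∃ u ∈ e, ∃ v ∈ e, u ≠ v := by
  by_contra hcon
  push Not at hcon
  have hsub : e.Subsingleton := fun u hu v hv => hcon u hu v hv
  have h1 : closure e = e := hsub.isClosed.closure_eq
  have h2 := h.a_mem
  rw [h1] at h2
  exact h.ha h2

end

theorem t51 : Stm51 := by
  intro Y _ B F E hctx hE
  refine ⟨fun ε hε => t51_null hctx hE hε, ?_⟩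
  have hsub : E ⊆ ⋃ n : ℕ, {e ∈ E | ∃ u ∈ e, ∃ v ∈ e, 1 / ((n : ℝ) + 1) ≤ dist u v} := by
    intro e he
    obtain ⟨a, b, hs⟩ := hE.slab e he
    obtain ⟨u, hu, v, hv, huv⟩ := t51_two hs
    obtain ⟨n, hn⟩ := exists_nat_one_div_lt (dist_pos.2 huv)
    exact mem_iUnion.2 ⟨n, he, u, hu, v, hv, hn.le⟩
  refine Countable.mono hsub (countable_iUnion fun n => ?_)
  exact (t51_null hctx hE (by positivity)).countable

end Pool.Agent.H405
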