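import Pool.Agent.H405.T59

set_option autoImplicit false

/-! Project H405: (5.10) the local step. -/

namespace Pool.Agent.H405

open Set Topology Filter Metric
open Pool.Agent.R638.DD

theorem t510_ltp (h51 : Stm51) {Y : Type} [MetricSpace Y] {B F : Set Y} {E : Set (Set Y)}
    (hctx : Ctx B F) (hE : Fam B F E) (hMTP : TP (B \ ⋃₀ E)) {A O : Set Y} (hO : IsOpen O)
    (hOB : O ∩ A ⊆ B) {p : Y} (hpO : p ∈ O) (hpF : p ∈ F) :
    LTP (A \ ⋃₀ {e ∈ E | closure e ⊆ O}) p := by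
  obtain ⟨R, hR, hRO⟩ := Metric.isOpen_iff.1 hO p hpO
  have hfin := (h51 Y B F E hctx hE).1 (R / 4) (by linarith)
  -- a ball missing the closures of the big members
  have hbig : ∃ r' : ℝ, 0 < r' ∧ ∀ e ∈ {e ∈ E | ∃ u ∈ e, ∃ v ∈ e, R / 4 ≤ dist u v},
      Disjoint (ball p r') (closure e) := by
    have hopen : IsOpen (⋂ e ∈ {e ∈ E | ∃ u ∈ e, ∃ v ∈ e, R / 4 ≤ dist u v}, (closure e)ᶜ) :=
      hfin.isOpen_biInter fun e _ => isClosed_closure.isOpen_compl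
    have hmem : p ∈ ⋂ e ∈ {e ∈ E | ∃ u ∈ e, ∃ v ∈ e, R / 4 ≤ dist u v}, (closure e)ᶜ := by
      refine mem_iInter₂.2 fun e he h => ?_
      obtain ⟨a, b, hs⟩ := hE.slab e he.1
      exact Set.disjoint_left.1 hs.clF h hpF
    obtain ⟨r', hr', hr''⟩ := Metric.isOpen_iff.1 hopen p hmem
    refine ⟨r', hr', fun e he => ?_⟩
    rw [Set.disjoint_left]
    intro x hx hxe
    exact mem_iInter₂.1 (hr'' hx) e he hxe
  obtain ⟨r', hr', hr''⟩ := hbig
  refine ⟨min (r' / 2) (R / 4), by positivity, hMTP.mono ?_⟩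
  rintro x ⟨⟨hxA, hxJ⟩, hxp⟩
  rw [mem_closedBall] at hxp
  have h1 : dist x p ≤ r' / 2 := hxp.trans (min_le_left _ _)
  have h2 : dist x p ≤ R / 4 := hxp.trans (min_le_right _ _)
  have hxB : x ∈ B := hOB ⟨hRO (by rw [mem_ball]; linarith), hxA⟩
  refine ⟨hxB, ?_⟩
  rintro ⟨e, he, hxe⟩
  have hnb : e ∉ {e ∈ E | ∃ u ∈ e, ∃ v ∈ e, R / 4 ≤ dist u v} := by
    intro h
    exact Set.disjoint_left.1 (hr'' e h) (by rw [mem_ball]; linarith) (subset_closure hxe)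
  have hsm : ∀ u ∈ e, dist u x < R / 4 := by
    intro u hu
    by_contra h
    exact hnb ⟨he, u, hu, x, hxe, not_lt.1 h⟩
  refine hxJ ⟨e, ⟨he, ?_⟩, hxe⟩
  have hcl : closure e ⊆ closedBall x (R / 4) :=
    closure_minimal (fun u hu => by rw [mem_closedBall]; exact (hsm u hu).le) isClosed_closedBall
  intro u hu
  have := hcl hu
  rw [mem_closedBall] at this
  refine hRO ?_
  rw [mem_ball]
  have := dist_triangle u x p
  linarith

theorem t510 (h51 : Stm51) (h57 : Stm57) (h59 : Stm59) : Stm510 := by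
  intro Y _ _ m hm A W Fs B O K hA hW hFs hLTP hB hBAW hTP hO hOB hK hKO
  have hBc : IsCompact B := isCompact_iff_compactSpace.2 hB.compact
  have hctx : Ctx B (Fs ∩ B) := by
    refine ⟨hB, hFs.inter hBc.isClosed, inter_subset_right, ?_⟩
    rintro p ⟨hp, hp'⟩
    exact (hLTP p ⟨hBAW hp, fun h => hp' ⟨h, hp⟩⟩).mono (fun x hx => (hBAW hx).1)
  obtain ⟨E, hE, hMTP, hden⟩ := h57 Y B (Fs ∩ B) hctx hTP
  let J : Set (Set Y) := {e ∈ E | closure e ⊆ O}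
  have hred := h59 Y m hm B (Fs ∩ B) E hctx hE hden A hA (fun x hx => (hBAW hx).1) W hW
    (fun x hx => (hBAW hx).2) J (fun e he => he.1) (fun e he => ⟨O, hO, he.2, hOB⟩)
  refine ⟨A \ ⋃₀ J, hred, ?_⟩
  rintro p ⟨hpK, hpA, hpJ⟩
  have hpO : p ∈ O := hKO hpK
  have hpB : p ∈ B := hOB ⟨hpO, hpA⟩
  by_cases hpF : p ∈ Fs
  · exact t510_ltp h51 hctx hE hMTP hO hOB hpO ⟨hpF, hpB⟩
  · exact (hLTP p ⟨hBAW hpB, hpF⟩).mono hred.sub

end Pool.Agent.H405
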