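import Pool.Agent.H405.T50
import Pool.Agent.H405.T51

set_option autoImplicit false

/-! Project H405: (5.2) families of slabs with connected complement are locally finite. -/

namespace Pool.Agent.H405

open Set Topology Filter Metric
open Pool.Agent.R638.DD

section

variable {Y : Type} [MetricSpace Y]

/-- a connected subset of `T \ e` does not contain both ends of the slab `e`. -/
theorem t52_sep {B F e T C : Set Y} {a b : Y} (h : Slab B F e a b) (hT : TP T)
    (heT : closure e ⊆ T) (hCT : C ⊆ T) (hC : IsPreconnected C) (hCe : Disjoint C e)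
    (ha : a ∈ C) (hb : b ∈ C) : False := by
  obtain ⟨A, A', hA, hA', haA, hbA, hdis, hsub⟩ := hT a (heT h.a_mem) b (heT h.b_mem) h.hab
  have key : ∀ D : Set Y, D ⊆ T → IsPreconnected D → a ∈ D → b ∈ D → ∃ c ∈ D, c ∉ A ∪ A' := by
    intro D hDT hD haD hbD
    by_contra hcon
    push Not at hcon
    obtain ⟨z, hz, hz1, hz2⟩ := hD A A' hA hA' hcon ⟨a, haD, haA⟩ ⟨b, hbD, hbA⟩
    have : z ∈ A ∩ A' ∩ T := ⟨⟨hz1, hz2⟩, hDT hz⟩
    rw [hdis] at this
    exact this
  obtain ⟨c, hc, hcn⟩ := key (closure e) heT h.conn.closure h.a_mem h.b_mem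
  obtain ⟨c', hc', hcn'⟩ := key C hCT hC ha hb
  have hcc : c = c' := hsub ⟨heT hc, hcn⟩ ⟨hCT hc', hcn'⟩
  have hce : c ∈ e := by
    rw [h.cl] at hc
    rcases hc with h1 | h1 | h1
    · exact h1
    · exact absurd (Or.inl (h1 ▸ haA)) hcn
    · exact absurd (Or.inr ((mem_singleton_iff.1 h1) ▸ hbA)) hcn
  exact Set.disjoint_left.1 hCe hc' (hcc ▸ hce)

/-- removing a part of the family from `B`. -/
theorem t52_conn {B F : Set Y} {E I : Set (Set Y)} (hctx : Ctx B F) (hE : Fam B F E)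
    (hI : I ⊆ E) (hconn : IsPreconnected (B \ ⋃₀ E)) : IsPreconnected (B \ ⋃₀ I) := by
  have hBcl := hctx.compact.isClosed
  rcases (E \ I).eq_empty_or_nonempty with hemp | ⟨e0, he0⟩
  · have : E = I := (sdiff_eq_empty.1 hemp).antisymm hI
    rw [← this]
    exact hconn
  obtain ⟨a0, b0, hs0⟩ := hE.slab e0 he0.1
  have hmem : ∀ e ∈ E, ∀ a b, Slab B F e a b → a ∈ B \ ⋃₀ E := fun e he a b hs =>
    ⟨hs.cl_sub hBcl hs.a_mem, hE.end_not_mem hBcl he hs.a_mem hs.ha⟩
  have ha0 := hmem e0 he0.1 a0 b0 hs0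
  have heq : B \ ⋃₀ I = ⋃ j : Option ↥(E \ I),
      (match j with
        | none => B \ ⋃₀ E
        | some e => (B \ ⋃₀ E) ∪ closure e.1) := by
    ext x
    simp only [mem_iUnion]
    constructor
    · rintro ⟨hxB, hxI⟩
      by_cases hx : x ∈ ⋃₀ E
      · obtain ⟨e, he, hxe⟩ := hx
        have heI : e ∉ I := fun h => hxI ⟨e, h, hxe⟩
        exact ⟨some ⟨e, he, heI⟩, Or.inr (subset_closure hxe)⟩
      · exact ⟨none, hxB, hx⟩
    · rintro ⟨j, hj⟩
      rcases j with _ | e
      · exact ⟨hj.1, fun h => hj.2 (sUnion_mono hI h)⟩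
      · rcases hj with hj | hj
        · exact ⟨hj.1, fun h => hj.2 (sUnion_mono hI h)⟩
        · obtain ⟨a, b, hs⟩ := hE.slab e.1 e.2.1
          refine ⟨hs.cl_sub hBcl hj, ?_⟩
          by_cases hxe : x ∈ e.1
          · rintro ⟨e', he', hxe'⟩
            have hne : e.1 ≠ e' := fun h => e.2.2 (h ▸ he')
            exact Set.disjoint_left.1 (hE.disj e.2.1 (hI he') hne) hxe hxe'
          · exact fun h => hE.end_not_mem hBcl e.2.1 hj hxe (sUnion_mono hI h)
  rw [heq]
  refine isPreconnected_iUnion ⟨a0, mem_iInter.2 fun j => ?_⟩ fun j => ?_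
  · rcases j with _ | e
    · exact ha0
    · exact Or.inl ha0
  · rcases j with _ | e
    · exact hconn
    · obtain ⟨a, b, hs⟩ := hE.slab e.1 e.2.1
      exact IsPreconnected.union a (hmem e.1 e.2.1 a b hs) hs.a_mem hconn hs.conn.closure

theorem t52_closed {B F : Set Y} {E I : Set (Set Y)} (hctx : Ctx B F) (hE : Fam B F E)
    (hI : I ⊆ E) : IsCompact (B \ ⋃₀ I) := by
  have h1 : ∀ e ∈ I, ∃ O : Set Y, IsOpen O ∧ e = B ∩ O := fun e he => by
    obtain ⟨a, b, hs⟩ := hE.slab e (hI he)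
    exact hs.rel
  choose! O hO hO' using h1
  have heq : B \ ⋃₀ I = B \ ⋃ e ∈ I, O e := by
    ext x
    constructor
    · rintro ⟨hx, hxn⟩
      refine ⟨hx, fun h => hxn ?_⟩
      simp only [mem_iUnion] at h
      obtain ⟨e, he, hxe⟩ := h
      refine ⟨e, he, ?_⟩
      rw [hO' e he]
      exact ⟨hx, hxe⟩
    · rintro ⟨hx, hxn⟩
      refine ⟨hx, fun h => hxn ?_⟩
      obtain ⟨e, he, hxe⟩ := h
      rw [hO' e he] at hxe
      exact mem_biUnion he hxe.2
  rw [heq]
  exact hctx.compact.diff (isOpen_biUnion fun e he => hO e he)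

end

theorem t52 (h12 : Stm12) (h13 : Stm13) : Stm52 := by
  classical
  intro Y _ B F E hctx hE hconn p hp
  have hBcl := hctx.compact.isClosed
  rcases E.eq_empty_or_nonempty with hemp | ⟨e0, he0⟩
  · refine ⟨univ, isOpen_univ, mem_univ _, ?_⟩
    rw [hemp]
    simp
  -- a point of `B` different from `p`
  obtain ⟨y0, hy0B, hy0p⟩ : ∃ y0 ∈ B, y0 ≠ p := by
    obtain ⟨a, b, hs⟩ := hE.slab e0 he0
    obtain ⟨u, hu, v, hv, huv⟩ := t51_two hs
    by_cases h : u = p
    · exact ⟨v, hs.sub hv, fun h' => huv (h.trans h'.symm)⟩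
    · exact ⟨u, hs.sub hu, h⟩
  obtain ⟨T, hTB, hTF, hTc, hTcon, hTTP, hpT, O, hO, hpO, hOT⟩ :=
    t50 Y B F hctx p hp univ isOpen_univ (mem_univ _)
  obtain ⟨r1, hr1, hr1O⟩ := Metric.isOpen_iff.1 hO p hpO
  set r : ℝ := min r1 (dist y0 p) / 5 with hr
  have hd0 : 0 < dist y0 p := dist_pos.2 hy0p
  have hr0 : 0 < r := by
    have : 0 < min r1 (dist y0 p) := lt_min hr1 hd0
    positivity
  have hr4 : 4 * r < r1 := by
    have := min_le_left r1 (dist y0 p)
    have : 5 * r ≤ r1 := by rw [hr]; linarith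
    linarith
  have hr5 : 4 * r < dist y0 p := by
    have := min_le_right r1 (dist y0 p)
    have : 5 * r ≤ dist y0 p := by rw [hr]; linarith
    linarith
  have hballT : closedBall p (4 * r) ∩ B ⊆ T := by
    rintro x ⟨hx, hxB⟩
    refine hOT ⟨hr1O ?_, hxB⟩
    rw [mem_closedBall] at hx
    rw [mem_ball]
    linarith
  refine ⟨ball p r, isOpen_ball, mem_ball_self hr0, ?_⟩
  by_contra hinf
  have hinf : {e ∈ E | (e ∩ ball p r).Nonempty}.Infinite := hinf
  -- the small members
  set I : Set (Set Y) := {e ∈ E | closure e ⊆ ball p (3 * r)} with hI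
  have hIE : I ⊆ E := fun e he => he.1
  have hIinf : I.Infinite := by
    refine (hinf.sdiff (t51_null hctx hE hr0)).mono ?_
    rintro e ⟨⟨he, x, hxe, hxp⟩, hsmall⟩
    refine ⟨he, fun z hz => ?_⟩
    have hsm : ∀ u ∈ e, ∀ v ∈ e, dist u v < r := by
      intro u hu v hv
      by_contra hc
      exact hsmall ⟨he, u, hu, v, hv, not_lt.1 hc⟩
    obtain ⟨z', hz', hzz'⟩ := Metric.mem_closure_iff.1 hz (r / 2) (by linarith)
    have h1 := hsm z' hz' x hxe
    rw [mem_ball] at hxp ⊢
    have h2 := dist_triangle z z' p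
    have h3 := dist_triangle z' x p
    linarith
  -- the remaining part of B
  set M : Set Y := B \ ⋃₀ I with hM
  have hMconn : IsPreconnected M := t52_conn hctx hE hIE hconn
  have hMc : IsCompact M := t52_closed hctx hE hIE
  have hy0M : y0 ∈ M := by
    refine ⟨hy0B, ?_⟩
    rintro ⟨e, he, hye⟩
    have := he.2 (subset_closure hye)
    rw [mem_ball] at this
    linarith
  set ρ : ℝ := 7 * r / 2 with hρ
  -- the components
  set K : Y → Set Y := fun x => connectedComponentIn (M ∩ closedBall p ρ) x with hK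
  have hKsub : ∀ x, K x ⊆ M ∩ closedBall p ρ := fun x => connectedComponentIn_subset _ _
  have hMT : M ∩ closedBall p ρ ⊆ T := by
    rintro x ⟨hx1, hx2⟩
    refine hballT ⟨?_, hx1.1⟩
    rw [mem_closedBall] at hx2 ⊢
    linarith
  set 𝒦 : Set (Set Y) := K '' (M ∩ ball p (3 * r)) with h𝒦
  have hmemK : ∀ x ∈ M ∩ ball p (3 * r), x ∈ K x := by
    rintro x ⟨hx1, hx2⟩
    refine mem_connectedComponentIn ⟨hx1, ?_⟩
    rw [mem_ball] at hx2
    rw [mem_closedBall]
    linarith
  have h𝒦fin : 𝒦.Finite := by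
    by_contra hKinf
    have hKinf : 𝒦.Infinite := hKinf
    let f := hKinf.natEmbedding
    refine h13 Y T hTc hTTP (r / 2) (by linarith) (fun n => (f n).1) ?_ ?_ ?_ ?_
    · intro n
      obtain ⟨x, hx, hxK⟩ := (f n).2
      rw [← hxK]
      exact (hKsub x).trans hMT
    · intro n
      obtain ⟨x, hx, hxK⟩ := (f n).2
      rw [← hxK]
      exact isPreconnected_connectedComponentIn
    · intro n
      obtain ⟨x, hx, hxK⟩ := (f n).2
      have hxp : dist x p < 3 * r := hx.2
      obtain ⟨y, hy, hyd⟩ := h12 Y M hMc hMconn p x ρ hx.1 (by linarith)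
        ⟨y0, hy0M, by linarith⟩
      refine ⟨x, ?_, y, ?_, ?_⟩
      · rw [← hxK]
        exact hmemK x hx
      · rw [← hxK]
        exact hy
      · have := dist_triangle y x p
        rw [dist_comm y x] at this
        linarith
    · intro i j hij
      obtain ⟨x, hx, hxK⟩ := (f i).2
      obtain ⟨x', hx', hxK'⟩ := (f j).2
      have hne : K x ≠ K x' := by
        intro h
        rw [hxK, hxK'] at h
        exact hij (f.injective (Subtype.ext h))
      show Disjoint (f i).1 (f j).1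
      rw [← hxK, ← hxK', Set.disjoint_left]
      intro z hz hz'
      exact hne ((connectedComponentIn_eq hz).trans (connectedComponentIn_eq hz').symm)
  -- ends of the members of I
  have : Nonempty Y := ⟨p⟩
  choose! a b hs using hE.slab
  have hend : ∀ e ∈ I, ∀ x ∈ closure e, x ∉ e → x ∈ M ∩ ball p (3 * r) := by
    intro e he x hx hxe
    refine ⟨⟨(hs e (hIE he)).cl_sub hBcl hx, fun h => ?_⟩, he.2 hx⟩
    exact hE.end_not_mem hBcl (hIE he) hx hxe (sUnion_mono hIE h)
  have haM : ∀ e ∈ I, a e ∈ M ∩ ball p (3 * r) := fun e he =>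
    hend e he _ (hs e (hIE he)).a_mem (hs e (hIE he)).ha
  have hbM : ∀ e ∈ I, b e ∈ M ∩ ball p (3 * r) := fun e he =>
    hend e he _ (hs e (hIE he)).b_mem (hs e (hIE he)).hb
  -- pigeonhole
  have hmaps : MapsTo (fun e => (K (a e), K (b e))) I (𝒦 ×ˢ 𝒦) := fun e he =>
    ⟨mem_image_of_mem K (haM e he), mem_image_of_mem K (hbM e he)⟩
  obtain ⟨e, he, e', he', hne, heq⟩ := hIinf.exists_ne_map_eq_of_mapsTo hmaps
    (h𝒦fin.prod h𝒦fin)
  simp only [Prod.mk.injEq] at heq
  obtain ⟨hKa, hKb⟩ := heq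
  have hse := hs e (hIE he)
  have hse' := hs e' (hIE he')
  have hMe : ∀ x ∈ M, x ∉ e := fun x hx hxe => hx.2 ⟨e, he, hxe⟩
  -- the connected set
  have hc1 : IsPreconnected (K (a e) ∪ closure e') := by
    refine IsPreconnected.union (a e') ?_ hse'.a_mem isPreconnected_connectedComponentIn
      hse'.conn.closure
    rw [hKa]
    exact hmemK _ (haM e' he')
  have hc2 : IsPreconnected ((K (a e) ∪ closure e') ∪ K (b e)) := by
    refine IsPreconnected.union (b e') (Or.inr hse'.b_mem) ?_ hc1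
      isPreconnected_connectedComponentIn
    rw [hKb]
    exact hmemK _ (hbM e' he')
  have hIT : ∀ e ∈ I, closure e ⊆ T := by
    intro e he x hx
    refine hballT ⟨?_, (hs e (hIE he)).cl_sub hBcl hx⟩
    have := he.2 hx
    rw [mem_ball] at this
    rw [mem_closedBall]
    linarith
  refine t52_sep hse hTTP (hIT e he) (C := (K (a e) ∪ closure e') ∪ K (b e)) ?_ hc2 ?_ ?_ ?_
  · refine union_subset (union_subset ?_ (hIT e' he')) ?_
    · exact (hKsub _).trans hMT
    · exact (hKsub _).trans hMT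
  · rw [Set.disjoint_left]
    rintro x ((hx | hx) | hx) hxe
    · exact hMe x (hKsub _ hx).1 hxe
    · by_cases hxe' : x ∈ e'
      · exact Set.disjoint_left.1 (hE.disj (hIE he) (hIE he') hne) hxe hxe'
      · exact hMe x (hend e' he' x hx hxe').1 hxe
    · exact hMe x (hKsub _ hx).1 hxe
  · exact Or.inl (Or.inl (hmemK _ (haM e he)))
  · exact Or.inr (hmemK _ (hbM e he))

end Pool.Agent.H405
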