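import Pool.Agent.H405.Asm7

set_option autoImplicit false

/-! Project H405: (5.3) simple points of small dendrite neighbourhoods are nice. -/

namespace Pool.Agent.H405

open Set Topology Filter Metric
open Pool.Agent.R638.DD

section

variable {Y : Type} [MetricSpace Y]

theorem t53_closure {T : Set Y} (hT : IsCompact T) (s : Set ↥T) :
    closure (Subtype.val '' s) = Subtype.val '' closure s :=
  hT.isClosed.isClosedEmbedding_subtypeVal.closure_image_eq s

/-- relatively open subsets of `T` inside an open set where `B` and `T` agree -/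
theorem t53_open {B T O : Set Y} (hTB : T ⊆ B) (hO : IsOpen O) (hOT : O ∩ B ⊆ T) {s : Set ↥T}
    (hs : IsOpen s) (hsO : s ⊆ Subtype.val ⁻¹' O) :
    ∃ G : Set Y, IsOpen G ∧ Subtype.val '' s = B ∩ G := by
  obtain ⟨G, hG, rfl⟩ := isOpen_induced_iff.1 hs
  refine ⟨G ∩ O, hG.inter hO, ?_⟩
  ext y
  constructor
  · rintro ⟨⟨y, hy⟩, h1, rfl⟩
    exact ⟨hTB hy, h1, hsO h1⟩
  · rintro ⟨h1, h2, h3⟩
    exact ⟨⟨y, hOT ⟨h3, h1⟩⟩, h2, rfl⟩

end

theorem t53 (h11 : Stm11) (h24 : Stm24) (h25 : Stm25) (h26 : Stm26) : Stm53 := by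
  intro Y _ B F hctx T hTB hTF hTc hTp hTP z hz hO hsim U hU hzU
  obtain ⟨O, hO, hzO, hOT⟩ := hO
  have hden : IsDen ↥T := h11 Y T hTc hTp ⟨z, hz⟩ hTP
  have hTcl := hTc.isClosed
  set z' : ↥T := ⟨z, hz⟩ with hz'
  obtain ⟨a, b, hsep, hab⟩ := h26 ↥T hden z' hsim (Subtype.val ⁻¹' (U ∩ O))
    ((hU.inter hO).preimage continuous_subtype_val |>.mem_nhds ⟨hzU, hzO⟩)
  have hne : a ≠ b := by
    rintro rfl
    refine hsep.2.2 (mem_connectedComponentIn ?_)
    exact fun h => hsep.1 (mem_singleton_iff.1 h).symm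
  obtain ⟨hs1, hs2, hs3, hs4, hs5, hs6⟩ := h24 ↥T hden a b hne
  obtain ⟨hα1, hα2, -, hα4, hα5, hα6⟩ := h24 ↥T hden a z' (fun h => hsep.1 h.symm)
  obtain ⟨hβ1, hβ2, -, hβ4, hβ5, hβ6⟩ := h24 ↥T hden z' b (fun h => hsep.2.1 h)
  obtain ⟨hr1, hr2, hr3⟩ := h25 ↥T hden a b z' hsim hsep
  have hsubO : slab a b ⊆ Subtype.val ⁻¹' O := fun x hx => (hab (Or.inl hx)).2
  have hαs : slab a z' ⊆ slab a b := by
    have : slab a z' ⊆ slab a b \ {z'} := by rw [hr2]; exact subset_union_left
    exact this.trans Set.sdiff_subset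
  have hβs : slab z' b ⊆ slab a b := by
    have : slab z' b ⊆ slab a b \ {z'} := by rw [hr2]; exact subset_union_right
    exact this.trans Set.sdiff_subset
  have hval : ∀ {s : Set ↥T} {x : ↥T}, x ∉ s → (x : Y) ∉ Subtype.val '' s := by
    rintro s x hx ⟨x', hx', h⟩
    exact hx (Subtype.ext h ▸ hx')
  have hcle : closure (Subtype.val '' slab a b) = Subtype.val '' slab a b ∪ {(a : Y), (b : Y)} := by
    rw [t53_closure hTc, hs4, image_union, image_pair]
  refine ⟨Subtype.val '' slab a b, Subtype.val '' slab a z', Subtype.val '' slab z' b, a, b,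
    ?_, ?_⟩
  · refine ⟨⟨?_, hs3.image _, hs2.image _ continuous_subtype_val.continuousOn,
      fun h => hne (Subtype.ext h), hval hs5, hval hs6, hcle, ?_, ?_⟩, ?_, ?_, hval hα6, hval hβ5,
      ?_, ?_, hα2.image _ continuous_subtype_val.continuousOn,
      hβ2.image _ continuous_subtype_val.continuousOn, ?_, ?_⟩
    · exact t53_open hTB hO hOT hs1 hsubO
    · rw [t53_closure hTc]
      refine hTF.mono_left ?_
      rintro _ ⟨x, -, rfl⟩
      exact x.2
    · rw [t53_closure hTc]
      refine hTP.mono ?_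
      rintro _ ⟨x, -, rfl⟩
      exact x.2
    · have : slab a b = slab a z' ∪ {z'} ∪ slab z' b := by
        rw [union_right_comm, ← hr2]
        ext x
        simp only [mem_union, Set.mem_sdiff, mem_singleton_iff]
        constructor
        · intro h
          by_cases hx : x = z'
          · exact Or.inr hx
          · exact Or.inl ⟨h, hx⟩
        · rintro (h | rfl)
          · exact h.1
          · exact hr1
      conv_lhs => rw [this]
      rw [image_union, image_union, image_singleton]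
    · exact (disjoint_image_iff Subtype.val_injective).2 hr3
    · exact t53_open hTB hO hOT hα1 (hαs.trans hsubO)
    · exact t53_open hTB hO hOT hβ1 (hβs.trans hsubO)
    · rw [t53_closure hTc, hα4, image_union, image_pair]
    · rw [t53_closure hTc, hβ4, image_union, image_pair, pair_comm]
  · rw [t53_closure hTc, hs4]
    rintro _ ⟨x, hx, rfl⟩
    exact (hab hx).1

end Pool.Agent.H405
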