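import Pool.Agent.H405.T53

set_option autoImplicit false

/-! Project H405: (5.4) small neighbourhoods with finite boundary consisting of nice points. -/

namespace Pool.Agent.H405

open Set Topology Filter Metric
open Pool.Agent.R638.DD

theorem t54 (h11 : Stm11) (h23 : Stm23) (h50 : Stm50) (h53 : Stm53) : Stm54 := by
  intro Y _ B F hctx x hx U hU hxU S hS
  obtain ⟨T, hTBU, hTF, hTc, hTp, hTP, hxT, O1, hO1, hxO1, hO1T⟩ := h50 Y B F hctx x hx U hU hxU
  have hTB : T ⊆ B := hTBU.trans inter_subset_left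
  have hden : IsDen ↥T := h11 Y T hTc hTp ⟨x, hxT⟩ hTP
  obtain ⟨O, hO, hxO, hOO1, hfin, hz⟩ := h23 ↥T hden ⟨x, hxT⟩ (Subtype.val ⁻¹' O1)
    (hO1.preimage continuous_subtype_val) hxO1 (Subtype.val ⁻¹' S)
    (hS.preimage Subtype.val_injective)
  obtain ⟨G, hG, hOG⟩ := t53_open hTB hO1 hO1T hO (subset_closure.trans hOO1)
  have hcl := t53_closure hTc O
  have hclT : closure (Subtype.val '' O) ⊆ T := by
    rw [hcl]
    rintro _ ⟨y, -, rfl⟩
    exact y.2
  have hdiff : closure (Subtype.val '' O) \ (Subtype.val '' O) =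
      Subtype.val '' (closure O \ O) := by
    rw [hcl, image_sdiff Subtype.val_injective]
  refine ⟨Subtype.val '' O, G, hG, hOG, ⟨⟨x, hxT⟩, hxO, rfl⟩, ?_, hTF.mono_left hclT, ?_, ?_⟩
  · exact hclT.trans (hTBU.trans inter_subset_right)
  · rw [hdiff]
    exact hfin.image _
  · rw [hdiff]
    rintro _ ⟨z, hz', rfl⟩
    obtain ⟨h1, h2⟩ := hz z hz'
    exact ⟨h53 Y B F hctx T hTB hTF hTc hTp hTP z z.2 ⟨O1, hO1, hOO1 hz'.1, hO1T⟩ h1, h2⟩

end Pool.Agent.H405
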