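import Pool.Agent.H405.T53

set_option autoImplicit false

/-! Project H405: (5.4') nice points in continua. -/

namespace Pool.Agent.H405

open Set Topology Filter Metric
open Pool.Agent.R638.DD

theorem t54b (h11 : Stm11) (h12 : Stm12) (h21b : Stm21b) (h50 : Stm50) (h53 : Stm53) :
    Stm54b := by
  intro Y _ B F hctx K hKc hKp hKn hKB S hS
  obtain ⟨p, hp, q, hq, hpq⟩ := hKn
  obtain ⟨T, hTBU, hTF, hTc, hTp, hTP, hpT, O1, hO1, hpO1, hO1T⟩ :=
    h50 Y B F hctx p (hKB hp) univ isOpen_univ (mem_univ _)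
  have hTB : T ⊆ B := hTBU.trans inter_subset_left
  have hden : IsDen ↥T := h11 Y T hTc hTp ⟨p, hpT⟩ hTP
  obtain ⟨r0, hr0, hr0'⟩ := Metric.nhds_basis_closedBall.mem_iff.1 (hO1.mem_nhds hpO1)
  have hd : 0 < dist q p := dist_pos.2 hpq.symm
  set r := min r0 (dist q p) with hr
  have hrpos : 0 < r := lt_min hr0 hd
  obtain ⟨y, hy, hyr⟩ := h12 Y K hKc hKp p p r hp (by rw [dist_self]; exact hrpos.le)
    ⟨q, hq, min_le_right _ _⟩
  set K' := connectedComponentIn (K ∩ closedBall p r) p with hK'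
  have hK'sub : K' ⊆ K ∩ closedBall p r := connectedComponentIn_subset _ _
  have hpK' : p ∈ K' := mem_connectedComponentIn ⟨hp, mem_closedBall_self hrpos.le⟩
  have hK'O : K' ⊆ O1 := fun w hw =>
    hr0' (closedBall_subset_closedBall (min_le_left _ _) (hK'sub hw).2)
  have hK'T : K' ⊆ T := fun w hw => hO1T ⟨hK'O hw, (hKB (hK'sub hw).1).1⟩
  have hK'p : IsPreconnected K' := isPreconnected_connectedComponentIn
  have hne : (⟨p, hpT⟩ : ↥T) ≠ ⟨y, hK'T hy⟩ := by
    intro h
    have : p = y := congrArg Subtype.val h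
    rw [← this, dist_self] at hyr
    exact hrpos.ne hyr
  obtain ⟨a, hsep, hsim, haS⟩ := h21b ↥T hden _ _ hne (Subtype.val ⁻¹' S)
    (hS.preimage Subtype.val_injective)
  have hC : IsPreconnected ((↑) ⁻¹' K' : Set ↥T) := by
    rw [← IsInducing.subtypeVal.isPreconnected_image, Subtype.image_preimage_coe,
      inter_eq_right.2 hK'T]
    exact hK'p
  have haK' : (a : Y) ∈ K' := by
    by_contra ha
    refine hsep.2.2 ?_
    refine hC.subset_connectedComponentIn (F := {a}ᶜ) hpK' ?_ hy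
    intro w hw hwa
    rw [mem_singleton_iff] at hwa
    exact ha (hwa ▸ hw)
  exact ⟨a, (hK'sub haK').1, h53 Y B F hctx T hTB hTF hTc hTp hTP a a.2
    ⟨O1, hO1, hK'O haK', hO1T⟩ hsim, haS⟩

end Pool.Agent.H405
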