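import Pool.Agent.H405.Stm

set_option autoImplicit false

namespace Pool.Agent.H405

open Set Topology Filter Metric
open Pool.Agent.R638.DD

theorem t55_compact {Y : Type} [MetricSpace Y] {B : Set Y} (h : IsPeano ↥B) : IsCompact B :=
  isCompact_iff_compactSpace.2 h.compact

/-- the complement of a family of slabs is compact -/
theorem t55_N {Y : Type} [MetricSpace Y] {B F : Set Y} {E : Set (Set Y)} (hc : Ctx B F)
    (hf : Fam B F E) : IsCompact (B \ ⋃₀ E) := by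
  have hW : IsOpen (⋃₀ {O : Set Y | IsOpen O ∧ B ∩ O ∈ E}) := isOpen_sUnion (fun O hO => hO.1)
  have he : B \ ⋃₀ E = B \ ⋃₀ {O : Set Y | IsOpen O ∧ B ∩ O ∈ E} := by
    ext x
    constructor
    · rintro ⟨h1, h2⟩
      refine ⟨h1, ?_⟩
      rintro ⟨O, ⟨-, hO⟩, hx⟩
      exact h2 ⟨B ∩ O, hO, h1, hx⟩
    · rintro ⟨h1, h2⟩
      refine ⟨h1, ?_⟩
      rintro ⟨e, hE, hx⟩
      obtain ⟨a, b, hs⟩ := hf.slab e hE
      obtain ⟨O, hO, rfl⟩ := hs.rel
      exact h2 ⟨O, ⟨hO, hE⟩, hx.2⟩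
  rw [he]
  exact (t55_compact hc.peano).diff hW

/-- covers which are locally finite away from a point -/
theorem t55_cover {Y : Type} [MetricSpace Y] {N : Set Y} (hN : IsCompact N) (c : Y) {Sg : Set Y}
    (h1 : Sg ⊆ N) (h2 : c ∉ Sg) (h3 : IsClosed (Sg ∪ {c})) (G Q : Y → Set Y)
    (hG : ∀ x ∈ Sg, IsOpen (G x)) (hx : ∀ x ∈ Sg, x ∈ G x)
    (hQ : ∀ x ∈ Sg, Q x ⊆ ball x (dist x c / 4)) :
    ∃ I : Set Y, I ⊆ Sg ∧ Sg ⊆ (⋃ x ∈ I, G x) ∧
      ∀ y, y ≠ c → ∃ δ : ℝ, 0 < δ ∧ {x ∈ I | (Q x ∩ ball y δ).Nonempty}.Finite := by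
  obtain ⟨R0, hR0⟩ := hN.isBounded.subset_closedBall c
  set R : ℝ := max R0 1 with hR
  have hRpos : 0 < R := lt_of_lt_of_le one_pos (le_max_right _ _)
  have hNR : ∀ x ∈ N, dist x c ≤ R := fun x hx => (mem_closedBall.1 (hR0 hx)).trans (le_max_left _ _)
  set S : ℕ → Set Y := fun n => {x ∈ Sg | R / 2 ^ (n + 1) ≤ dist x c ∧ dist x c ≤ R / 2 ^ n} with hS
  have hSc : ∀ n, IsCompact (S n) := by
    intro n
    have he : S n = N ∩ ((Sg ∪ {c}) ∩ {x | R / 2 ^ (n + 1) ≤ dist x c ∧ dist x c ≤ R / 2 ^ n}) := by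
      ext x
      constructor
      · rintro ⟨a1, a2⟩
        exact ⟨h1 a1, Or.inl a1, a2⟩
      · rintro ⟨-, a1, a2⟩
        refine ⟨?_, a2⟩
        rcases a1 with a1 | a1
        · exact a1
        · rw [mem_singleton_iff] at a1
          have a3 := a2.1
          rw [a1, dist_self] at a3
          have : 0 < R / 2 ^ (n + 1) := by positivity
          linarith
    rw [he]
    refine hN.inter_right (h3.inter ?_)
    exact (isClosed_le continuous_const (continuous_id.dist continuous_const)).inter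
      (isClosed_le (continuous_id.dist continuous_const) continuous_const)
  have hfin : ∀ n, ∃ b' ⊆ S n, b'.Finite ∧ S n ⊆ ⋃ x ∈ b', G x := by
    intro n
    refine (hSc n).elim_finite_subcover_image (fun x hx' => hG x hx'.1) ?_
    intro x hx'
    exact mem_biUnion hx' (hx x hx'.1)
  choose b' hb1 hb2 hb3 using hfin
  refine ⟨⋃ n, b' n, ?_, ?_, ?_⟩
  · exact iUnion_subset (fun n x hx' => (hb1 n hx').1)
  · intro x hxS
    have hpos : 0 < dist x c := dist_pos.2 (fun h => h2 (h ▸ hxS))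
    obtain ⟨n, hn1, hn2⟩ : ∃ n : ℕ, R / 2 ^ (n + 1) ≤ dist x c ∧ dist x c ≤ R / 2 ^ n := by
      have hex : ∃ n : ℕ, R / 2 ^ (n + 1) ≤ dist x c := by
        obtain ⟨n, hn⟩ := exists_pow_lt_of_lt_one (div_pos hpos hRpos) (by norm_num : (1 / 2 : ℝ) < 1)
        refine ⟨n, ?_⟩
        have h5 : (1 / 2 : ℝ) ^ n * R < dist x c := by
          rwa [lt_div_iff₀ hRpos] at hn
        have h6 : R / 2 ^ (n + 1) ≤ (1 / 2 : ℝ) ^ n * R := by
          rw [pow_succ, one_div, inv_pow, div_le_iff₀ (by positivity)]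
          have : (2 ^ n : ℝ)⁻¹ * R * (2 ^ n * 2) = 2 * R := by
            field_simp
          rw [this]
          linarith
        linarith
      classical
      refine ⟨Nat.find hex, Nat.find_spec hex, ?_⟩
      rcases Nat.eq_zero_or_pos (Nat.find hex) with h0 | h0
      · rw [h0, pow_zero, div_one]
        exact hNR x (h1 hxS)
      · have h5 := Nat.find_min hex (Nat.sub_lt h0 one_pos)
        have h7 : Nat.find hex - 1 + 1 = Nat.find hex := Nat.sub_add_cancel h0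
        rw [h7, not_le] at h5
        exact h5.le
    have := hb3 n ⟨hxS, hn1, hn2⟩
    rw [mem_iUnion₂] at this ⊢
    obtain ⟨i, hi, hi2⟩ := this
    exact ⟨i, mem_iUnion.2 ⟨n, hi⟩, hi2⟩
  · intro y hy
    have hpos : 0 < dist y c := dist_pos.2 hy
    refine ⟨dist y c / 2, by positivity, ?_⟩
    obtain ⟨n0, hn0⟩ : ∃ n0 : ℕ, R / 2 ^ n0 < 2 / 5 * dist y c := by
      obtain ⟨n, hn⟩ := exists_pow_lt_of_lt_one
        (div_pos (mul_pos (by norm_num : (0 : ℝ) < 2 / 5) hpos) hRpos)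
        (by norm_num : (1 / 2 : ℝ) < 1)
      refine ⟨n, ?_⟩
      rw [lt_div_iff₀ hRpos] at hn
      have h6 : R / 2 ^ n = (1 / 2 : ℝ) ^ n * R := by
        rw [one_div, inv_pow]
        ring
      rw [h6]
      exact hn
    refine (Set.Finite.biUnion (finite_lt_nat n0) (fun n _ => hb2 n)).subset ?_
    rintro x ⟨hxI, z, hz1, hz2⟩
    rw [mem_iUnion] at hxI
    obtain ⟨n, hn⟩ := hxI
    have hxS := hb1 n hn
    have k1 := hQ x hxS.1 hz1
    rw [mem_ball] at k1 hz2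
    have k2 := dist_triangle z x c
    have k3 := dist_triangle y z c
    rw [dist_comm y z] at k3
    have k4 := hxS.2.2
    have hlt : n < n0 := by
      by_contra hcon
      rw [not_lt] at hcon
      have : R / 2 ^ n ≤ R / 2 ^ n0 :=
        div_le_div_of_nonneg_left hRpos.le (by positivity) (pow_le_pow_right₀ (by norm_num) hcon)
      linarith
    exact mem_biUnion hlt hn

theorem t55 (h51 : Stm51) (h52 : Stm52) (h54 : Stm54) : Stm55 := by
  intro Y _ B F E hc hf hNc c FA FB hcut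
  obtain ⟨-, hEc⟩ := h51 Y B F E hc hf
  have hNcomp := t55_N hc hf
  set N : Set Y := B \ ⋃₀ E with hNd
  have hBc := t55_compact hc.peano
  have hcF : c ∈ F := hcut.mem
  have hcB : c ∈ B := hc.sub hcF
  set S : Set Y := ⋃ e ∈ E, closure e \ e with hSd
  have hSc : S.Countable := by
    refine hEc.biUnion (fun e he => ?_)
    obtain ⟨a, b, hs⟩ := hf.slab e he
    refine ((Set.toFinite {a, b}).subset ?_).countable
    rintro z ⟨hz1, hz2⟩
    rw [hs.cl] at hz1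
    rcases hz1 with h | h
    · exact absurd h hz2
    · exact h
  have hAne : (FA ∪ {c}).Nonempty := ⟨c, Or.inr rfl⟩
  have hBne : (FB ∪ {c}).Nonempty := ⟨c, Or.inr rfl⟩
  set φ : Y → ℝ := fun x => infDist x (FA ∪ {c}) with hφ
  set ψ : Y → ℝ := fun x => infDist x (FB ∪ {c}) with hψ
  have hφc : Continuous φ := continuous_infDist_pt _
  have hψc : Continuous ψ := continuous_infDist_pt _
  have hφ0 : ∀ x, x ∈ FA ∪ {c} ↔ φ x = 0 := fun x => hcut.clA.mem_iff_infDist_zero hAne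
  have hψ0 : ∀ x, x ∈ FB ∪ {c} ↔ ψ x = 0 := fun x => hcut.clB.mem_iff_infDist_zero hBne
  have hφn : ∀ x, 0 ≤ φ x := fun x => infDist_nonneg
  have hψn : ∀ x, 0 ≤ ψ x := fun x => infDist_nonneg
  have hcφ : φ c = 0 := (hφ0 c).1 (Or.inr rfl)
  have hcψ : ψ c = 0 := (hψ0 c).1 (Or.inr rfl)
  have hFA : ∀ x ∈ FA, φ x = 0 ∧ 0 < ψ x := by
    intro x hx
    refine ⟨(hφ0 x).1 (Or.inl hx), lt_of_le_of_ne (hψn x) (fun h => ?_)⟩
    rcases (hψ0 x).2 h.symm with h | h
    · exact disjoint_left.1 hcut.disj hx h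
    · rw [mem_singleton_iff] at h
      exact hcut.cA (h ▸ hx)
  have hFB : ∀ x ∈ FB, ψ x = 0 ∧ 0 < φ x := by
    intro x hx
    refine ⟨(hψ0 x).1 (Or.inl hx), lt_of_le_of_ne (hφn x) (fun h => ?_)⟩
    rcases (hφ0 x).2 h.symm with h | h
    · exact disjoint_left.1 hcut.disj h hx
    · rw [mem_singleton_iff] at h
      exact hcut.cB (h ▸ hx)
  set Sg : Set Y := {x ∈ N | φ x = ψ x ∧ x ≠ c} with hSg
  have hSgF : ∀ x ∈ Sg, x ∈ B \ F := by
    rintro x ⟨hx1, hx2, hx3⟩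
    refine ⟨hx1.1, fun hxF => ?_⟩
    rw [hcut.eq] at hxF
    rcases hxF with (h | h) | h
    · have := hFA x h
      linarith
    · have := hFB x h
      linarith
    · exact hx3 h
  have key : ∀ x, x ∈ Sg → ∃ G : Set Y, IsOpen G ∧ x ∈ G ∧
      closure (B ∩ G) ⊆ ball x (dist x c / 4) ∧ Disjoint (closure (B ∩ G)) F ∧
      (closure (B ∩ G) \ (B ∩ G)).Finite ∧
      ∀ z ∈ closure (B ∩ G) \ (B ∩ G), Nice B F z ∧ z ∉ S := by
    intro x hx
    have hpos : 0 < dist x c := dist_pos.2 hx.2.2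
    obtain ⟨O, G, hG, rfl, hxO, h1, h2, h3, h4⟩ := h54 Y B F hc x (hSgF x hx)
      (ball x (dist x c / 4)) isOpen_ball (mem_ball_self (by positivity)) S hSc
    exact ⟨G, hG, hxO.2, h1, h2, h3, h4⟩
  choose! G hG1 hG2 hG3 hG4 hG5 hG6 using key
  obtain ⟨I, hI1, hI2, hI3⟩ := t55_cover hNcomp c (Sg := Sg) (fun x hx => hx.1)
    (fun h => h.2.2 rfl) (by
      have : Sg ∪ {c} = (N ∩ {x | φ x = ψ x}) ∪ {c} := by
        ext x
        constructor
        · rintro (h | h)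
          · exact Or.inl ⟨h.1, h.2.1⟩
          · exact Or.inr h
        · rintro (h | h)
          · by_cases hx : x = c
            · exact Or.inr hx
            · exact Or.inl ⟨h.1, h.2, hx⟩
          · exact Or.inr h
      rw [this]
      exact (hNcomp.isClosed.inter (isClosed_eq hφc hψc)).union isClosed_singleton)
    G (fun x => closure (B ∩ G x)) hG1 hG2 hG3
  set OA : Set Y := {x | φ x < ψ x} ∪ ⋃ x ∈ I, G x with hOA
  have hOAo : IsOpen OA := (isOpen_lt hφc hψc).union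
    (isOpen_biUnion (fun x hx => hG1 x (hI1 hx)))
  have hcOA : c ∉ OA := by
    rintro (h | h)
    · change φ c < ψ c at h
      rw [hcφ, hcψ] at h
      exact lt_irrefl _ h
    · rw [mem_iUnion₂] at h
      obtain ⟨x, hx, hcx⟩ := h
      have h1 := hG3 x (hI1 hx) (subset_closure ⟨hcB, hcx⟩)
      rw [mem_ball, dist_comm] at h1
      have : 0 ≤ dist x c := dist_nonneg
      linarith
  have hclos : ∀ y, y ≠ c → y ∈ closure (OA ∩ N) →
      φ y ≤ ψ y ∨ ∃ i ∈ I, y ∈ closure (B ∩ G i) := by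
    intro y hy hyc
    obtain ⟨δ, hδ, hfin⟩ := hI3 y hy
    have h1 : y ∈ closure (OA ∩ N ∩ ball y δ) := by
      rw [_root_.mem_closure_iff] at hyc ⊢
      intro o ho hyo
      obtain ⟨z, hz1, hz2⟩ := hyc (o ∩ ball y δ) (ho.inter isOpen_ball) ⟨hyo, mem_ball_self hδ⟩
      exact ⟨z, hz1.1, hz2, hz1.2⟩
    have h2 : OA ∩ N ∩ ball y δ ⊆ {x | φ x < ψ x} ∪
        ⋃ i ∈ {x ∈ I | (closure (B ∩ G x) ∩ ball y δ).Nonempty}, (B ∩ G i) := by
      rintro z ⟨⟨hz1, hz2⟩, hz3⟩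
      rcases hz1 with h | h
      · exact Or.inl h
      · rw [mem_iUnion₂] at h
        obtain ⟨i, hi, hzi⟩ := h
        right
        have : z ∈ B ∩ G i := ⟨hz2.1, hzi⟩
        exact mem_biUnion (show i ∈ {x ∈ I | (closure (B ∩ G x) ∩ ball y δ).Nonempty} from
          ⟨hi, z, subset_closure this, hz3⟩) this
    have h3 := closure_mono h2 h1
    rw [closure_union, hfin.closure_biUnion] at h3
    rcases h3 with h | h
    · left
      exact closure_minimal (fun z (hz : φ z < ψ z) => hz.le) (isClosed_le hφc hψc) h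
    · right
      rw [mem_iUnion₂] at h
      obtain ⟨i, hi, h⟩ := h
      exact ⟨i, hi.1, h⟩
  set OB : Set Y := (closure (OA ∩ N))ᶜ ∩ {c}ᶜ with hOB
  have hZ : ∀ z ∈ N \ (OA ∪ OB ∪ {c}), z ≠ c ∧ ∃ i ∈ I, z ∈ closure (B ∩ G i) \ (B ∩ G i) := by
    rintro z ⟨hz1, hz2⟩
    have hzA : z ∉ OA := fun h => hz2 (Or.inl (Or.inl h))
    have hzB : z ∉ OB := fun h => hz2 (Or.inl (Or.inr h))
    have hzc : z ≠ c := fun h => hz2 (Or.inr h)
    refine ⟨hzc, ?_⟩
    have hzcl : z ∈ closure (OA ∩ N) := by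
      by_contra h
      exact hzB ⟨h, hzc⟩
    rcases hclos z hzc hzcl with h | ⟨i, hi, h⟩
    · exfalso
      have h1 : ¬ φ z < ψ z := fun h1 => hzA (Or.inl h1)
      have h2 : z ∈ Sg := ⟨hz1, le_antisymm h (not_lt.1 h1), hzc⟩
      exact hzA (Or.inr (hI2 h2))
    · exact ⟨i, hi, h, fun h1 => hzA (Or.inr (mem_biUnion hi h1.2))⟩
  refine ⟨OA, OB, hOAo, isClosed_closure.isOpen_compl.inter isOpen_compl_singleton, hcOA,
    fun h => h.2 rfl, ?_, ?_, ?_, ?_⟩
  · rw [eq_empty_iff_forall_notMem]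
    rintro z ⟨⟨hz1, hz2⟩, hz3⟩
    exact hz2.1 (subset_closure ⟨hz1, hz3⟩)
  · intro x hx
    left
    have := hFA x hx
    change φ x < ψ x
    rw [this.1]
    exact this.2
  · intro x hx
    have hxc : x ≠ c := fun h => hcut.cB (h ▸ hx)
    refine ⟨fun h => ?_, hxc⟩
    have h0 := hFB x hx
    rcases hclos x hxc h with h | ⟨i, hi, h⟩
    · linarith
    · have hxF : x ∈ F := by
        rw [hcut.eq]
        exact Or.inl (Or.inr hx)
      exact disjoint_left.1 (hG4 i (hI1 hi)) h hxF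
  · intro z hz
    obtain ⟨hzc, i, hi, hzi⟩ := hZ z hz
    obtain ⟨hN1, hN2⟩ := hG6 i (hI1 hi) z hzi
    have hzF : z ∉ F := fun h => disjoint_left.1 (hG4 i (hI1 hi)) hzi.1 h
    refine ⟨hzF, ?_, hN1, ?_⟩
    · intro hcl
      obtain ⟨O, hO, hzO, hfin⟩ := h52 Y B F E hc hf hNc z ⟨hz.1.1, hzF⟩
      have h1 : z ∈ closure (⋃₀ E ∩ O) := by
        rw [_root_.mem_closure_iff] at hcl ⊢
        intro o ho hyo
        obtain ⟨w, hw1, hw2⟩ := hcl (o ∩ O) (ho.inter hO) ⟨hyo, hzO⟩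
        exact ⟨w, hw1.1, hw2, hw1.2⟩
      have h2 : ⋃₀ E ∩ O ⊆ ⋃ e ∈ {e ∈ E | (e ∩ O).Nonempty}, e := by
        rintro w ⟨⟨e, he, hwe⟩, hwO⟩
        exact mem_biUnion (show e ∈ {e ∈ E | (e ∩ O).Nonempty} from ⟨he, w, hwe, hwO⟩) hwe
      have h3 := closure_mono h2 h1
      rw [hfin.closure_biUnion, mem_iUnion₂] at h3
      obtain ⟨e, he, hze⟩ := h3
      refine hN2 (mem_biUnion he.1 ⟨hze, fun h => hz.1.2 ⟨e, he.1, h⟩⟩)
    · obtain ⟨δ, hδ, hfin⟩ := hI3 z hzc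
      set T : Set Y := ⋃ i ∈ {x ∈ I | (closure (B ∩ G x) ∩ ball z δ).Nonempty},
        (closure (B ∩ G i) \ (B ∩ G i)) with hT
      have hTf : T.Finite := hfin.biUnion (fun i hi => hG5 i (hI1 hi.1))
      refine ⟨ball z δ \ (T \ {z}), isOpen_ball.sdiff (hTf.subset sdiff_subset).isClosed, ?_⟩
      ext w
      constructor
      · rintro ⟨⟨hw1, hw2⟩, hw3⟩
        obtain ⟨-, j, hj, hwj⟩ := hZ w hw3
        by_contra hne
        refine hw2 ⟨?_, hne⟩
        exact mem_biUnion (show j ∈ {x ∈ I | (closure (B ∩ G x) ∩ ball z δ).Nonempty} from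
          ⟨hj, w, hwj.1, hw1⟩) hwj
      · intro hw
        rw [mem_singleton_iff] at hw
        rw [hw]
        exact ⟨⟨mem_ball_self hδ, fun h => h.2 rfl⟩, hz⟩

end Pool.Agent.H405
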