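import Pool.Agent.H405.Stm

set_option autoImplicit false

namespace Pool.Agent.H405

open Set Topology Filter Metric
open Pool.Agent.R638.DD

theorem t56_meet {Y : Type} [TopologicalSpace Y] {D P Q : Set Y} {c : Y} (hD : IsPreconnected D)
    (hP : IsClosed P) (hQ : IsClosed Q) (hcov : D ⊆ P ∪ Q) (hc : c ∈ D) (hcP : c ∈ P)
    (hi : ∀ x ∈ D, x ∈ P → x ∈ Q → x = c) : IsPreconnected (D ∩ P) := by
  rw [isPreconnected_closed_iff] at hD ⊢
  have key : ∀ t t' : Set Y, IsClosed t → IsClosed t' → D ∩ P ⊆ t ∪ t' → c ∈ t →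
      ((D ∩ P) ∩ t').Nonempty → ((D ∩ P) ∩ (t ∩ t')).Nonempty := by
    intro t t' ht ht' hsub hct hne
    obtain ⟨y, ⟨hyD, hyP⟩, hyt⟩ := hne
    obtain ⟨x, hxD, hx1, hx2, hx3⟩ := hD (t ∪ Q) (t' ∩ P) (ht.union hQ) (ht'.inter hP) (by
      intro x hx
      rcases hcov hx with h | h
      · rcases hsub ⟨hx, h⟩ with h1 | h1
        · exact Or.inl (Or.inl h1)
        · exact Or.inr ⟨h1, h⟩
      · exact Or.inl (Or.inr h)) ⟨c, hc, Or.inl hct⟩ ⟨y, hyD, hyt, hyP⟩
    rcases hx1 with h | h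
    · exact ⟨x, ⟨hxD, hx3⟩, h, hx2⟩
    · have := hi x hxD hx3 h
      rw [this] at hx2
      exact ⟨c, ⟨hc, hcP⟩, hct, hx2⟩
  intro t t' ht ht' hsub hne hne'
  rcases hsub ⟨hc, hcP⟩ with h | h
  · exact key t t' ht ht' hsub h hne'
  · obtain ⟨x, hx1, hx2, hx3⟩ := key t' t ht' ht (by rwa [union_comm]) h hne
    exact ⟨x, hx1, hx3, hx2⟩

/-- the components of an open subset of a locally connected set which meet `M` -/
def t56_U {Y : Type} [TopologicalSpace Y] (N W M : Set Y) : Set Y :=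
  {x | x ∈ W ∩ N ∧ (connectedComponentIn (W ∩ N) x ∩ M).Nonempty}

theorem t56_U3 {Y : Type} [TopologicalSpace Y] {N W M C : Set Y} (hC : IsPreconnected C)
    (hCW : C ⊆ W ∩ N) (hne : (C ∩ t56_U N W M).Nonempty) : C ⊆ t56_U N W M := by
  obtain ⟨x, hxC, hx1, hx2⟩ := hne
  intro y hy
  refine ⟨hCW hy, ?_⟩
  have h1 : C ⊆ connectedComponentIn (W ∩ N) x := hC.subset_connectedComponentIn hxC hCW
  rw [← connectedComponentIn_eq (h1 hy)]
  exact hx2

theorem t56_nbhd {Y : Type} [MetricSpace Y] {N W : Set Y} (hN : ∀ x ∈ N, Cik N x) (hW : IsOpen W)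
    {x : Y} (hx : x ∈ W ∩ N) :
    ∃ O : Set Y, IsOpen O ∧ x ∈ O ∧ O ∩ N ⊆ connectedComponentIn (W ∩ N) x := by
  obtain ⟨C, hC1, hC2, O, hO, hxO, hO2⟩ := hN x hx.2 W hW hx.1
  refine ⟨O, hO, hxO, hO2.trans ?_⟩
  refine hC2.subset_connectedComponentIn (hO2 ⟨hxO, hx.2⟩) ?_
  intro y hy
  exact ⟨(hC1 hy).2, (hC1 hy).1⟩

theorem t56_U1 {Y : Type} [MetricSpace Y] {N W : Set Y} (hN : ∀ x ∈ N, Cik N x) (hW : IsOpen W)
    (M : Set Y) : ∃ O : Set Y, IsOpen O ∧ O ∩ N = t56_U N W M := by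
  have h : ∀ x, x ∈ t56_U N W M → ∃ O : Set Y, IsOpen O ∧ x ∈ O ∧ O ∩ N ⊆ t56_U N W M := by
    intro x hx
    obtain ⟨O, hO, hxO, hO2⟩ := t56_nbhd hN hW hx.1
    refine ⟨O, hO, hxO, hO2.trans ?_⟩
    exact t56_U3 isPreconnected_connectedComponentIn (connectedComponentIn_subset _ _)
      ⟨x, mem_connectedComponentIn hx.1, hx⟩
  choose! O h1 h2 h3 using h
  refine ⟨⋃ x ∈ t56_U N W M, O x, isOpen_biUnion h1, ?_⟩
  ext y
  constructor
  · rintro ⟨hy1, hy2⟩
    rw [mem_iUnion₂] at hy1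
    obtain ⟨x, hx, hy⟩ := hy1
    exact h3 x hx ⟨hy, hy2⟩
  · intro hy
    exact ⟨mem_biUnion hy (h2 y hy), hy.1.2⟩

theorem t56_U2 {Y : Type} [MetricSpace Y] {N W : Set Y} (hN : ∀ x ∈ N, Cik N x) (hW : IsOpen W)
    (M : Set Y) {x : Y} (hx : x ∈ W ∩ N) (hxU : x ∉ t56_U N W M) : x ∉ closure (t56_U N W M) := by
  intro hcl
  obtain ⟨O, hO, hxO, hO2⟩ := t56_nbhd hN hW hx
  obtain ⟨y, hy1, hy2⟩ := _root_.mem_closure_iff.1 hcl O hO hxO
  refine hxU ?_
  have h := t56_U3 (C := connectedComponentIn (W ∩ N) x) (M := M)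
    isPreconnected_connectedComponentIn (connectedComponentIn_subset _ _)
    ⟨y, hO2 ⟨hy1, hy2.1.2⟩, hy2⟩
  exact h (mem_connectedComponentIn hx)

theorem t56_collapse (h16 : Stm16) (h17 : Stm17) {Y : Type} [MetricSpace Y] {S : Set Y}
    (hS : IsPeano ↥S) (hSc : IsClosed S) {J : Type} (e O : J → Set Y) (a : J → Y)
    (hO : ∀ j, IsOpen (O j)) (he : ∀ j, S ∩ e j = S ∩ O j)
    (hd : Pairwise fun i j => Disjoint (e i) (e j))
    (hcl : ∀ j, closure (S ∩ e j) \ (S ∩ e j) ⊆ {a j}) (haS : ∀ j, a j ∈ S)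
    (hae : ∀ i j, a i ∉ e j)
    (hnull : ∀ ε : ℝ, 0 < ε → {j | ∃ x ∈ e j, ε ≤ dist (a j) x}.Finite) :
    IsPeano ↥(S \ ⋃ j, e j) := by
  obtain ⟨σ, hσ1, hσ2, hσ3⟩ := h17 Y J S (fun j => S ∩ e j) (fun j _ => a j) hSc
    (fun j => ⟨O j, hO j, he j⟩)
    (fun i j hij => (hd hij).mono inter_subset_right inter_subset_right)
    (fun j => continuousOn_const)
    (fun j x hx => (mem_singleton_iff.1 (hcl j hx)).symm)
    (fun ε hε => (hnull ε hε).subset (by
      rintro j ⟨x, hx, hd⟩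
      exact ⟨x, hx.2, hd⟩))
  have himg : σ '' S = S \ ⋃ j, e j := by
    ext y
    constructor
    · rintro ⟨x, hx, rfl⟩
      by_cases h : ∃ j, x ∈ e j
      · obtain ⟨j, hj⟩ := h
        rw [hσ2 j x ⟨hx, hj⟩]
        refine ⟨haS j, ?_⟩
        rw [mem_iUnion]
        rintro ⟨i, hi⟩
        exact hae j i hi
      · have h1 : x ∈ S \ ⋃ j, S ∩ e j := by
          refine ⟨hx, ?_⟩
          rw [mem_iUnion]
          rintro ⟨i, hi⟩
          exact h ⟨i, hi.2⟩
        rw [hσ3 x h1]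
        refine ⟨hx, ?_⟩
        rw [mem_iUnion]
        exact h
    · rintro ⟨hy, hy2⟩
      refine ⟨y, hy, hσ3 y ⟨hy, ?_⟩⟩
      rw [mem_iUnion] at hy2 ⊢
      rintro ⟨i, hi⟩
      exact hy2 ⟨i, hi.2⟩
  rw [← himg]
  exact h16.2.1 Y S σ hS hσ1

theorem t56_swap {Y : Type} [MetricSpace Y] {B F e α β : Set Y} {a b z : Y}
    (h : NSlab B F e α β a b z) : NSlab B F e β α b a z where
  slab := ⟨h.slab.rel, h.slab.ne, h.slab.conn, h.slab.hab.symm, h.slab.hb, h.slab.ha,
    by rw [h.slab.cl, pair_comm], h.slab.clF, h.slab.tp⟩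
  eq := by rw [h.eq, union_assoc, union_comm, union_comm {z} β]
  disj := h.disj.symm
  zα := h.zβ
  zβ := h.zα
  αo := h.βo
  βo := h.αo
  αc := h.βc
  βc := h.αc
  clα := h.clβ
  clβ := h.clα

/-- from orientation to all data on both sides -/
theorem t56_side {Y : Type} [MetricSpace Y] {B F e α β P : Set Y} {a b z : Y}
    (h : NSlab B F e α β a b z) (hz : z ∈ P) (hα : α ⊆ P) (hβ : ∀ x ∈ β, x ∉ P) :
    P ∩ e = α ∪ {z} := by
  ext x
  constructor
  · rintro ⟨hx1, hx2⟩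
    rw [h.eq] at hx2
    rcases hx2 with hx2 | hx2
    · exact hx2
    · exact absurd hx1 (hβ x hx2)
  · rintro (hx | hx)
    · refine ⟨hα hx, ?_⟩
      rw [h.eq]
      exact Or.inl (Or.inl hx)
    · rw [mem_singleton_iff] at hx
      rw [hx]
      refine ⟨hz, ?_⟩
      rw [h.eq]
      exact Or.inl (Or.inr rfl)

theorem t56_conn {Y : Type} [MetricSpace Y] {B F e α β : Set Y} {a b z : Y}
    (h : NSlab B F e α β a b z) : IsPreconnected (α ∪ {z}) := by
  refine h.αc.subset_closure subset_union_left ?_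
  rw [h.clα]
  rintro x (hx | hx)
  · exact Or.inl hx
  · exact Or.inr (Or.inr hx)

theorem t56_Uc {Y : Type} [TopologicalSpace Y] {N W M K : Set Y} {c : Y} (hK : IsPreconnected K)
    (hcK : c ∈ K) (hMK : M ⊆ K) (hKU : K ⊆ t56_U N W M ∪ {c}) :
    IsPreconnected (t56_U N W M ∪ {c}) := by
  refine isPreconnected_of_forall c (fun y hy => ?_)
  rcases hy with hy | hy
  · obtain ⟨u, hu1, hu2⟩ := hy.2
    have h1 : connectedComponentIn (W ∩ N) y ⊆ t56_U N W M :=
      t56_U3 isPreconnected_connectedComponentIn (connectedComponentIn_subset _ _)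
        ⟨y, mem_connectedComponentIn hy.1, hy⟩
    refine ⟨connectedComponentIn (W ∩ N) y ∪ K, ?_, Or.inr hcK,
      Or.inl (mem_connectedComponentIn hy.1),
      IsPreconnected.union u hu1 (hMK hu2) isPreconnected_connectedComponentIn hK⟩
    exact union_subset (h1.trans subset_union_left) hKU
  · rw [mem_singleton_iff] at hy
    rw [hy]
    exact ⟨K, hKU, hcK, hcK, hK⟩

theorem t56_acc {Y : Type} [TopologicalSpace Y] [T1Space Y] {K : Set Y} {c u : Y}
    (hK : IsPreconnected K) (hc : c ∈ K) (hu : u ∈ K) (huc : u ≠ c) : c ∈ closure (K \ {c}) := by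
  rw [_root_.mem_closure_iff]
  intro O hO hcO
  obtain ⟨x, hxK, hx1, hx2⟩ := hK O {c}ᶜ hO isOpen_compl_singleton (by
    intro x _
    by_cases h : x = c
    · exact Or.inl (h ▸ hcO)
    · exact Or.inr h) ⟨c, hc, hcO⟩ ⟨u, hu, huc⟩
  exact ⟨x, hx1, hxK, hx2⟩

theorem t56 (h15 : Stm15) (h15b : Stm15b) (h16 : Stm16) (h17 : Stm17) (h51 : Stm51)
    (h55 : Stm55) : Stm56 := by
  intro Y _ B F E hc hf hN c FA FB hcut
  obtain ⟨hNc, hNp, hNne, hNk⟩ := (h15b Y (B \ ⋃₀ E)).2 hN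
  obtain ⟨OA, OB, hOA, hOB, hcA, hcB, hdis, hFA, hFB, hZ⟩ := h55 Y B F E hc hf hNp c FA FB hcut
  set N : Set Y := B \ ⋃₀ E with hNd
  have hNcl : IsClosed N := hNc.isClosed
  have hFN : F ⊆ N := by
    intro x hx
    refine ⟨hc.sub hx, ?_⟩
    rintro ⟨e, he, hxe⟩
    obtain ⟨a, b, hs⟩ := hf.slab e he
    exact disjoint_left.1 hs.clF (subset_closure hxe) hx
  have hcF : c ∈ F := hcut.mem
  have hcN : c ∈ N := hFN hcF
  have hFAF : FA ⊆ F := by
    rw [hcut.eq]
    exact subset_union_left.trans subset_union_left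
  have hFBF : FB ⊆ F := by
    rw [hcut.eq]
    exact subset_union_right.trans subset_union_left
  set D : Set Y := connectedComponentIn F c with hDd
  have hD : IsPreconnected D := isPreconnected_connectedComponentIn
  have hDF : D ⊆ F := connectedComponentIn_subset _ _
  have hcD : c ∈ D := mem_connectedComponentIn hcF
  by_cases hA : (D ∩ FA).Nonempty
  swap
  · refine ⟨E, Subset.rfl, hf, hN, {c}, N, isClosed_singleton, hNcl, ?_, ?_, ?_, ?_⟩
    · exact union_eq_self_of_subset_left (singleton_subset_iff.2 hcN)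
    · exact inter_eq_self_of_subset_left (singleton_subset_iff.2 hcN)
    · rw [not_nonempty_iff_eq_empty.1 hA]
      exact empty_subset _
    · exact inter_subset_right.trans (hFBF.trans hFN)
  by_cases hB : (D ∩ FB).Nonempty
  swap
  · refine ⟨E, Subset.rfl, hf, hN, N, {c}, hNcl, isClosed_singleton, ?_, ?_, ?_, ?_⟩
    · exact union_eq_self_of_subset_right (singleton_subset_iff.2 hcN)
    · exact inter_eq_self_of_subset_right (singleton_subset_iff.2 hcN)
    · exact inter_subset_right.trans (hFAF.trans hFN)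
    · rw [not_nonempty_iff_eq_empty.1 hB]
      exact empty_subset _
  -- the sets GA and BS
  set GA : Set Y := t56_U N OA (D ∩ FA) with hGA
  obtain ⟨GO, hGO, hGO2⟩ := t56_U1 hNk hOA (D ∩ FA)
  rw [← hGA] at hGO2
  set W2 : Set Y := (closure GA)ᶜ with hW2
  have hW2o : IsOpen W2 := isClosed_closure.isOpen_compl
  set BS : Set Y := t56_U N W2 (D ∩ FB) with hBS
  obtain ⟨BO, hBO, hBO2⟩ := t56_U1 hNk hW2o (D ∩ FB)
  rw [← hBS] at hBO2
  have hGAN : GA ⊆ N := fun x hx => hx.1.2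
  have hBSN : BS ⊆ N := fun x hx => hx.1.2
  have hBSW : ∀ x ∈ BS, x ∉ closure GA := fun x hx => hx.1.1
  have hDA : D ∩ FA ⊆ GA := by
    intro x hx
    have h1 : x ∈ OA ∩ N := ⟨hFA hx.2, hFN (hDF hx.1)⟩
    exact ⟨h1, x, mem_connectedComponentIn h1, hx⟩
  have hGAOB : ∀ x ∈ closure GA, x ∉ OB := by
    intro x hx hxO
    obtain ⟨y, hy1, hy2⟩ := _root_.mem_closure_iff.1 hx OB hOB hxO
    have : y ∈ OA ∩ OB ∩ N := ⟨⟨hy2.1.1, hy1⟩, hy2.1.2⟩
    rw [hdis] at this
    exact this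
  have hDB : D ∩ FB ⊆ BS := by
    intro x hx
    have h1 : x ∈ W2 ∩ N := ⟨fun h => hGAOB x h (hFB hx.2), hFN (hDF hx.1)⟩
    exact ⟨h1, x, mem_connectedComponentIn h1, hx⟩
  have hcov : F ⊆ (FA ∪ {c}) ∪ (FB ∪ {c}) := by
    intro x hx
    rw [hcut.eq] at hx
    rcases hx with (h | h) | h
    · exact Or.inl (Or.inl h)
    · exact Or.inr (Or.inl h)
    · exact Or.inl (Or.inr h)
  have hinter : ∀ x, x ∈ FA ∪ {c} → x ∈ FB ∪ {c} → x = c := by
    rintro x (h1 | h1) (h2 | h2)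
    · exact absurd h2 (disjoint_left.1 hcut.disj h1)
    · exact h2
    · exact h1
    · exact h1
  have hKA : IsPreconnected (D ∩ (FA ∪ {c})) :=
    t56_meet hD hcut.clA hcut.clB (hDF.trans hcov) hcD (Or.inr rfl) (fun x _ h1 h2 => hinter x h1 h2)
  have hKB : IsPreconnected (D ∩ (FB ∪ {c})) :=
    t56_meet hD hcut.clB hcut.clA ((hDF.trans hcov).trans (union_comm _ _).subset) hcD (Or.inr rfl)
      (fun x _ h1 h2 => hinter x h2 h1)
  have hKAs : ∀ x ∈ D ∩ (FA ∪ {c}), x ≠ c → x ∈ D ∩ FA := by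
    rintro x ⟨h1, h2 | h2⟩ hne
    · exact ⟨h1, h2⟩
    · exact absurd h2 hne
  have hKBs : ∀ x ∈ D ∩ (FB ∪ {c}), x ≠ c → x ∈ D ∩ FB := by
    rintro x ⟨h1, h2 | h2⟩ hne
    · exact ⟨h1, h2⟩
    · exact absurd h2 hne
  have hcGA : c ∈ closure GA := by
    obtain ⟨u, hu1, hu2⟩ := hA
    have huc : u ≠ c := fun h => hcut.cA (h ▸ hu2)
    refine closure_mono ?_ (t56_acc hKA ⟨hcD, Or.inr rfl⟩ ⟨hu1, Or.inl hu2⟩ huc)
    exact fun x hx => hDA (hKAs x hx.1 hx.2)
  have hcBS : c ∈ closure BS := by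
    obtain ⟨u, hu1, hu2⟩ := hB
    have huc : u ≠ c := fun h => hcut.cB (h ▸ hu2)
    refine closure_mono ?_ (t56_acc hKB ⟨hcD, Or.inr rfl⟩ ⟨hu1, Or.inl hu2⟩ huc)
    exact fun x hx => hDB (hKBs x hx.1 hx.2)
  have hclGA : IsPreconnected (closure GA) := by
    have h1 : IsPreconnected (GA ∪ {c}) := by
      refine t56_Uc hKA ⟨hcD, Or.inr rfl⟩ (fun x hx => ⟨hx.1, Or.inl hx.2⟩) ?_
      intro x hx
      by_cases h : x = c
      · exact Or.inr h
      · exact Or.inl (hDA (hKAs x hx h))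
    exact h1.subset_closure (union_subset subset_closure (singleton_subset_iff.2 hcGA))
      (closure_mono subset_union_left)
  set Q : Set Y := closure BS with hQd
  have hQp : IsPreconnected Q := by
    have h1 : IsPreconnected (BS ∪ {c}) := by
      refine t56_Uc hKB ⟨hcD, Or.inr rfl⟩ (fun x hx => ⟨hx.1, Or.inl hx.2⟩) ?_
      intro x hx
      by_cases h : x = c
      · exact Or.inr h
      · exact Or.inl (hDB (hKBs x hx h))
    exact h1.subset_closure (union_subset subset_closure (singleton_subset_iff.2 hcBS))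
      (closure_mono subset_union_left)
  have hQN : Q ⊆ N := closure_minimal hBSN hNcl
  have hclGAN : closure GA ⊆ N := closure_minimal hGAN hNcl
  set P : Set Y := N \ BS with hPd
  have hPc : IsCompact P := by
    have : P = N \ BO := by
      ext x
      constructor
      · rintro ⟨h1, h2⟩
        exact ⟨h1, fun h => h2 (hBO2 ▸ ⟨h, h1⟩)⟩
      · rintro ⟨h1, h2⟩
        refine ⟨h1, fun h => h2 ?_⟩
        rw [← hBO2] at h
        exact h.1
    rw [this]
    exact hNc.diff hBO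
  have hcP : c ∈ P := ⟨hcN, fun h => hBSW c h hcGA⟩
  have hGAP : closure GA ⊆ P := fun x hx => ⟨hclGAN hx, fun h => hBSW x h hx⟩
  have hPp : IsPreconnected P := by
    refine isPreconnected_of_forall c (fun x hx => ?_)
    by_cases hxG : x ∈ closure GA
    · exact ⟨closure GA, hGAP, hcGA, hxG, hclGA⟩
    · have hxW : x ∈ W2 ∩ N := ⟨hxG, hx.1⟩
      set H : Set Y := connectedComponentIn (W2 ∩ N) x with hH
      have hHp : IsPreconnected H := isPreconnected_connectedComponentIn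
      have hHW : H ⊆ W2 ∩ N := connectedComponentIn_subset _ _
      have hxH : x ∈ H := mem_connectedComponentIn hxW
      have hHB : ∀ y ∈ H, y ∉ BS := by
        intro y hy hyB
        exact hx.2 (t56_U3 hHp hHW ⟨y, hy, hyB⟩ hxH)
      have hclP : closure H ⊆ P := by
        intro y hy
        refine ⟨closure_minimal (fun w hw => (hHW hw).2) hNcl hy, fun hyB => ?_⟩
        rw [← hBO2] at hyB
        obtain ⟨w, hw1, hw2⟩ := _root_.mem_closure_iff.1 hy BO hBO hyB.1
        refine hHB w hw2 ?_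
        rw [← hBO2]
        exact ⟨hw1, (hHW hw2).2⟩
      have hmeet : (closure H ∩ closure GA).Nonempty := by
        by_contra hcon
        have hsub : closure H ⊆ W2 ∩ N := fun y hy =>
          ⟨fun h => hcon ⟨y, hy, h⟩, (hclP hy).1⟩
        have hcl : closure H ⊆ H :=
          hHp.closure.subset_connectedComponentIn (subset_closure hxH) hsub
        obtain ⟨O, hO, hO2⟩ := t56_U1 hNk hW2o {x}
        have hHO : O ∩ N ⊆ H := by
          rw [hO2]
          rintro y ⟨hy1, w, hw1, hw2⟩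
          rw [mem_singleton_iff] at hw2
          rw [hw2] at hw1
          rw [hH, ← connectedComponentIn_eq hw1]
          exact mem_connectedComponentIn hy1
        have hxO : x ∈ O := by
          have : x ∈ t56_U N W2 {x} := ⟨hxW, x, mem_connectedComponentIn hxW, rfl⟩
          rw [← hO2] at this
          exact this.1
        obtain ⟨w, hwN, hw1, hw2⟩ := hNp O (closure H)ᶜ hO isClosed_closure.isOpen_compl (by
          intro y hy
          by_cases h : y ∈ closure H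
          · left
            have hyH := hcl h
            have : y ∈ t56_U N W2 {x} := by
              refine ⟨hHW hyH, x, ?_, rfl⟩
              rw [← connectedComponentIn_eq hyH]
              exact hxH
            rw [← hO2] at this
            exact this.1
          · exact Or.inr h) ⟨x, hx.1, hxO⟩ ⟨c, hcN, fun h => (hsub h).1 hcGA⟩
        exact hw2 (subset_closure (hHO ⟨hw1, hwN⟩))
      obtain ⟨w, hw1, hw2⟩ := hmeet
      exact ⟨closure H ∪ closure GA, union_subset hclP hGAP, Or.inr hcGA,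
        Or.inl (subset_closure hxH), IsPreconnected.union w hw1 hw2 hHp.closure hclGA⟩
  -- the boundary
  have hGAQ : ∀ x ∈ GA, x ∉ Q := by
    intro x hx hxQ
    have h1 := hx
    rw [← hGO2] at h1
    obtain ⟨y, hy1, hy2⟩ := _root_.mem_closure_iff.1 hxQ GO hGO h1.1
    refine hBSW y hy2 (subset_closure ?_)
    rw [← hGO2]
    exact ⟨hy1, hBSN hy2⟩
  have hbd : ∀ x ∈ P, x ∈ Q → x ∈ closure GA ∧ x ∉ OA ∧ x ∉ OB := by
    intro x hxP hxQ
    have h1 : x ∈ closure GA := by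
      by_contra h
      exact t56_U2 hNk hW2o (D ∩ FB) (x := x) ⟨h, hxP.1⟩ hxP.2 hxQ
    refine ⟨h1, fun hxA => ?_, hGAOB x h1⟩
    have h2 : x ∉ GA := fun h => hGAQ x h hxQ
    exact t56_U2 hNk hOA (D ∩ FA) (x := x) ⟨hxA, hxP.1⟩ h2 h1
  set Zs : Set Y := (P ∩ Q) \ {c} with hZs
  have hZsZ : ∀ z ∈ Zs, z ∈ N \ (OA ∪ OB ∪ {c}) := by
    rintro z ⟨⟨h1, h2⟩, h3⟩
    obtain ⟨-, h4, h5⟩ := hbd z h1 h2
    refine ⟨h1.1, ?_⟩
    rintro ((h | h) | h)
    · exact h4 h
    · exact h5 h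
    · exact h3 h
  have hstr : ∀ z, z ∈ Zs → ∃ r : ℝ, 0 < r ∧ (∀ w ∈ N \ (OA ∪ OB ∪ {c}), w ≠ z → w ∉ ball z r) ∧
      c ∉ ball z r ∧ (∀ w ∈ ball z r, w ∉ ⋃₀ E) ∧
      ∀ U : Set Y, IsOpen U → z ∈ U → U ⊆ ball z r → ∃ (e α β : Set Y) (a b : Y),
        NSlab B F e α β a b z ∧ closure e ⊆ U ∧ α ⊆ GA ∧ β ⊆ BS := by
    intro z hz
    obtain ⟨hzF, hzE, hnice, O, hO, hO2⟩ := hZ z (hZsZ z hz)
    have hzO : z ∈ O := by
      have : z ∈ ({z} : Set Y) := rfl
      rw [← hO2] at this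
      exact this.1
    have hVo : IsOpen (O ∩ (closure (⋃₀ E))ᶜ ∩ {c}ᶜ) :=
      (hO.inter isClosed_closure.isOpen_compl).inter isOpen_compl_singleton
    obtain ⟨r, hr, hball⟩ := Metric.isOpen_iff.1 hVo z ⟨⟨hzO, hzE⟩, hz.2⟩
    refine ⟨r, hr, ?_, ?_, ?_, ?_⟩
    · intro w hw hwz hwb
      have : w ∈ O ∩ (N \ (OA ∪ OB ∪ {c})) := ⟨(hball hwb).1.1, hw⟩
      rw [hO2] at this
      exact hwz this
    · exact fun h => (hball h).2 rfl
    · exact fun w hw h => (hball hw).1.2 (subset_closure h)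
    · intro U hU hzU hUr
      obtain ⟨e, α, β, a, b, hns, hcl⟩ := hnice U hU hzU
      have heB : ∀ w ∈ e, w ∈ N := by
        intro w hw
        obtain ⟨o, ho, ho2⟩ := hns.slab.rel
        have hwB : w ∈ B := by
          rw [ho2] at hw
          exact hw.1
        exact ⟨hwB, fun h => (hball (hUr (hcl (subset_closure hw)))).1.2 (subset_closure h)⟩
      have hsep : ∀ w ∈ e, w ≠ z → w ∈ OA ∨ w ∈ OB := by
        intro w hw hwz
        by_contra hcon
        push Not at hcon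
        have hwb := hball (hUr (hcl (subset_closure hw)))
        have : w ∈ O ∩ (N \ (OA ∪ OB ∪ {c})) := by
          refine ⟨hwb.1.1, heB w hw, ?_⟩
          rintro ((h | h) | h)
          · exact hcon.1 h
          · exact hcon.2 h
          · exact hwb.2 h
        rw [hO2] at this
        exact hwz this
      -- the two alternatives for a connected relatively open part
      have halt : ∀ γ : Set Y, γ ⊆ e → z ∉ γ → IsPreconnected γ →
          (∃ o : Set Y, IsOpen o ∧ γ = B ∩ o) →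
          ((γ ∩ GA).Nonempty → γ ⊆ GA) ∧ ((γ ∩ BS).Nonempty → γ ⊆ BS) := by
        intro γ hγe hzγ hγp hγo
        have hAalt : (γ ∩ GA).Nonempty → γ ⊆ GA := by
          intro hne
          refine t56_U3 hγp ?_ hne
          obtain ⟨u, hu1, hu2⟩ := hne
          have hcv : ∀ w ∈ γ, w ∈ OA ∨ w ∈ OB := fun w hw =>
            hsep w (hγe hw) (fun h => hzγ (h ▸ hw))
          have h1 : γ ⊆ OA := by
            intro w hw
            by_contra hwA
            have hwB : w ∈ OB := (hcv w hw).resolve_left hwA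
            obtain ⟨y, hyγ, hy⟩ := hγp OA OB hOA hOB hcv ⟨u, hu1, hu2.1.1⟩ ⟨w, hw, hwB⟩
            have : y ∈ OA ∩ OB ∩ N := ⟨hy, heB y (hγe hyγ)⟩
            rw [hdis] at this
            exact this
          exact fun w hw => ⟨h1 hw, heB w (hγe hw)⟩
        refine ⟨hAalt, fun hne => ?_⟩
        refine t56_U3 hγp ?_ hne
        intro w hw
        refine ⟨fun hwG => ?_, heB w (hγe hw)⟩
        obtain ⟨o, ho, ho2⟩ := hγo
        have hwo : w ∈ o := by
          rw [ho2] at hw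
          exact hw.2
        obtain ⟨y, hy1, hy2⟩ := _root_.mem_closure_iff.1 hwG o ho hwo
        have hyγ : y ∈ γ := by
          rw [ho2]
          exact ⟨(hGAN hy2).1, hy1⟩
        have h5 := hAalt ⟨y, hyγ, hy2⟩
        obtain ⟨u, hu1, hu2⟩ := hne
        exact hBSW u hu2 (subset_closure (h5 hu1))
      obtain ⟨hz1, hz2, hz3⟩ := hbd z hz.1.1 hz.1.2
      have hαe : α ⊆ e := by
        rw [hns.eq]
        exact subset_union_left.trans subset_union_left
      have hβe : β ⊆ e := by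
        rw [hns.eq]
        exact subset_union_right
      have hze : z ∈ e := by
        rw [hns.eq]
        exact Or.inl (Or.inr rfl)
      obtain ⟨hα1, hα2⟩ := halt α hαe hns.zα hns.αc hns.αo
      obtain ⟨hβ1, hβ2⟩ := halt β hβe hns.zβ hns.βc hns.βo
      have hmeet : ∀ G : Set Y, G ⊆ N → z ∈ closure G → z ∉ G →
          (α ∩ G).Nonempty ∨ (β ∩ G).Nonempty := by
        intro G hG hzG hzG2
        obtain ⟨o, ho, ho2⟩ := hns.slab.rel
        have hzo : z ∈ o := by
          rw [ho2] at hze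
          exact hze.2
        obtain ⟨y, hy1, hy2⟩ := _root_.mem_closure_iff.1 hzG o ho hzo
        have hye : y ∈ e := by
          rw [ho2]
          exact ⟨(hG hy2).1, hy1⟩
        rw [hns.eq] at hye
        rcases hye with (h | h) | h
        · exact Or.inl ⟨y, h, hy2⟩
        · rw [mem_singleton_iff] at h
          exact absurd (h ▸ hy2) hzG2
        · exact Or.inr ⟨y, h, hy2⟩
      have hdisj : ∀ γ : Set Y, γ.Nonempty → γ ⊆ GA → ¬ (γ ∩ BS).Nonempty := by
        rintro γ - h1 ⟨u, hu1, hu2⟩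
        exact hBSW u hu2 (subset_closure (h1 hu1))
      rcases hmeet GA hGAN hz1 (fun h => hz2 h.1.1) with h | h
      · have hαG := hα1 h
        rcases hmeet BS hBSN hz.1.2 hz.1.1.2 with h' | h'
        · exact absurd h' (hdisj α (h.mono inter_subset_left) hαG)
        · exact ⟨e, α, β, a, b, hns, hcl, hαG, hβ2 h'⟩
      · have hβG := hβ1 h
        rcases hmeet BS hBSN hz.1.2 hz.1.1.2 with h' | h'
        · exact ⟨e, β, α, b, a, t56_swap hns, hcl, hβG, hα2 h'⟩
        · exact absurd h' (hdisj β (h.mono inter_subset_left) hβG)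
  choose! r hr0 hr1 hr2 hr3 hr4 using hstr
  have hGAP' : GA ⊆ P := subset_closure.trans hGAP
  have hBSQ : BS ⊆ Q := subset_closure
  have hPk : ∀ x ∈ P, x ≠ c → Cik P x := by
    intro x hx hxc
    by_cases hxQ : x ∈ Q
    · have hz : x ∈ Zs := ⟨⟨hx, hxQ⟩, hxc⟩
      intro U hU hxU
      obtain ⟨e, α, β, a, b, hns, hcl, hα, hβ⟩ := hr4 x hz (U ∩ ball x (r x))
        (hU.inter isOpen_ball) ⟨hxU, mem_ball_self (hr0 x hz)⟩ inter_subset_right
      have hPe : P ∩ e = α ∪ {x} :=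
        t56_side hns hx (hα.trans hGAP') (fun w hw hwP => hwP.2 (hβ hw))
      have hxe : x ∈ e := by
        rw [hns.eq]
        exact Or.inl (Or.inr rfl)
      obtain ⟨o, ho, ho2⟩ := hns.slab.rel
      refine ⟨α ∪ {x}, ?_, t56_conn hns, o, ho, ?_, ?_⟩
      · rw [← hPe]
        exact fun w hw => ⟨hw.1, (hcl (subset_closure hw.2)).1⟩
      · rw [ho2] at hxe
        exact hxe.2
      · rintro w ⟨hw1, hw2⟩
        rw [← hPe]
        refine ⟨hw2, ?_⟩
        rw [ho2]
        exact ⟨hw2.1.1, hw1⟩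
    · intro U hU hxU
      obtain ⟨C, hC1, hC2, O, hO, hxO, hO2⟩ := hNk x hx.1 (U ∩ Qᶜ)
        (hU.inter isClosed_closure.isOpen_compl) ⟨hxU, hxQ⟩
      exact ⟨C, fun w hw => ⟨⟨(hC1 hw).1, fun h => (hC1 hw).2.2 (subset_closure h)⟩,
        (hC1 hw).2.1⟩, hC2, O, hO, hxO, fun w hw => hO2 ⟨hw.1, hw.2.1⟩⟩
  have hQk : ∀ x ∈ Q, x ≠ c → Cik Q x := by
    intro x hx hxc
    by_cases hxB : x ∈ BS
    · intro U hU hxU
      have hxBO : x ∈ BO := by
        rw [← hBO2] at hxB
        exact hxB.1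
      obtain ⟨C, hC1, hC2, O, hO, hxO, hO2⟩ := hNk x (hBSN hxB) (U ∩ BO) (hU.inter hBO)
        ⟨hxU, hxBO⟩
      refine ⟨C, fun w hw => ⟨hBSQ ?_, (hC1 hw).2.1⟩, hC2, O, hO, hxO,
        fun w hw => hO2 ⟨hw.1, hQN hw.2⟩⟩
      rw [← hBO2]
      exact ⟨(hC1 hw).2.2, (hC1 hw).1⟩
    · have hxP : x ∈ P := ⟨hQN hx, hxB⟩
      have hz : x ∈ Zs := ⟨⟨hxP, hx⟩, hxc⟩
      intro U hU hxU
      obtain ⟨e, α, β, a, b, hns, hcl, hα, hβ⟩ := hr4 x hz (U ∩ ball x (r x))
        (hU.inter isOpen_ball) ⟨hxU, mem_ball_self (hr0 x hz)⟩ inter_subset_right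
      have hQe : Q ∩ e = β ∪ {x} :=
        t56_side (t56_swap hns) hx (hβ.trans hBSQ) (fun w hw => hGAQ w (hα hw))
      have hxe : x ∈ e := by
        rw [hns.eq]
        exact Or.inl (Or.inr rfl)
      obtain ⟨o, ho, ho2⟩ := hns.slab.rel
      refine ⟨β ∪ {x}, ?_, t56_conn (t56_swap hns), o, ho, ?_, ?_⟩
      · rw [← hQe]
        exact fun w hw => ⟨hw.1, (hcl (subset_closure hw.2)).1⟩
      · rw [ho2] at hxe
        exact hxe.2
      · rintro w ⟨hw1, hw2⟩
        rw [← hQe]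
        refine ⟨hw2, ?_⟩
        rw [ho2]
        exact ⟨(hQN hw2).1, hw1⟩
  have hcQ : c ∈ Q := hcBS
  have hQc : IsCompact Q := hNc.of_isClosed_subset isClosed_closure hQN
  have hPP : IsPeano ↥P := by
    refine (h15b Y P).1 hPc hPp ⟨c, hcP⟩ (fun x hx => ?_)
    by_cases hxc : x = c
    · rw [hxc]
      exact h15 Y P hPc hPp c hcP hPk
    · exact hPk x hx hxc
  have hQP : IsPeano ↥Q := by
    refine (h15b Y Q).1 hQc hQp ⟨c, hcQ⟩ (fun x hx => ?_)
    by_cases hxc : x = c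
    · rw [hxc]
      exact h15 Y Q hQc hQp c hcQ hQk
    · exact hQk x hx hxc
  -- the slabs
  have hdat : ∀ j : ↥Zs, ∃ (e α β : Set Y) (a b : Y), NSlab B F e α β a b (j : Y) ∧
      closure e ⊆ ball (j : Y) (r j / 3) ∧ α ⊆ GA ∧ β ⊆ BS := by
    intro j
    have := hr0 j j.2
    exact hr4 j j.2 (ball (j : Y) (r j / 3)) isOpen_ball (mem_ball_self (by linarith))
      (ball_subset_ball (by linarith))
  choose e α β a b hns hcl hα hβ using hdat
  have hje : ∀ j : ↥Zs, (j : Y) ∈ e j := by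
    intro j
    rw [(hns j).eq]
    exact Or.inl (Or.inr rfl)
  have hee : ∀ i j : ↥Zs, i ≠ j → Disjoint (closure (e i)) (closure (e j)) := by
    intro i j hij
    rw [disjoint_left]
    intro w hw1 hw2
    have h1 := hcl i hw1
    have h2 := hcl j hw2
    rw [mem_ball] at h1 h2
    have hne : (j : Y) ≠ i := fun h => hij (Subtype.ext h.symm)
    have h3 := hr1 i i.2 j (hZsZ j j.2) hne
    have h4 := hr1 j j.2 i (hZsZ i i.2) hne.symm
    rw [mem_ball, not_lt] at h3 h4
    rw [dist_comm (i : Y) j] at h4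
    have h5 := dist_triangle (j : Y) w i
    rw [dist_comm (j : Y) w] at h5
    have h6 := hr0 i i.2
    linarith
  have hball : ∀ (j : ↥Zs), ∀ w ∈ closure (e j), w ∈ ball (j : Y) (r j) := by
    intro j w hw
    have := hr0 j j.2
    exact ball_subset_ball (by linarith) (hcl j hw)
  have hje2 : ∀ i j : ↥Zs, e i = e j → i = j := by
    intro i j h
    by_contra hij
    have h1 := disjoint_left.1 (hee i j hij) (subset_closure (hje i))
    have h2 : (i : Y) ∈ closure (e i) := subset_closure (hje i)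
    rw [h] at h2
    exact h1 h2
  set E' : Set (Set Y) := E ∪ range e with hE'
  have hf' : Fam B F E' := by
    constructor
    · rintro s (hs | ⟨j, rfl⟩)
      · exact hf.slab s hs
      · exact ⟨a j, b j, (hns j).slab⟩
    · rintro s (hs | ⟨j, rfl⟩) t (ht | ⟨i, rfl⟩) hst
      · exact hf.disj hs ht hst
      · change Disjoint s (e i)
        rw [disjoint_left]
        intro w hw1 hw2
        exact hr3 i i.2 w (hball i w (subset_closure hw2)) ⟨s, hs, hw1⟩
      · change Disjoint (e j) t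
        rw [disjoint_left]
        intro w hw1 hw2
        exact hr3 j j.2 w (hball j w (subset_closure hw1)) ⟨t, ht, hw2⟩
      · change Disjoint (e j) (e i)
        have : j ≠ i := fun h => hst (by rw [h])
        exact (hee j i this).mono subset_closure subset_closure
  have hnull : ∀ a' : ↥Zs → Y, (∀ j, a' j ∈ closure (e j)) → ∀ ε : ℝ, 0 < ε →
      {j | ∃ x ∈ e j, ε ≤ dist (a' j) x}.Finite := by
    intro a' ha' ε hε
    have h1 := (h51 Y B F E' hc hf').1 (ε / 2) (by positivity)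
    have h2 := Set.Finite.preimage (f := e) (fun i _ j _ h => hje2 i j h) h1
    refine h2.subset ?_
    rintro j ⟨x, hx, hd⟩
    obtain ⟨u, hu, hu2⟩ := Metric.mem_closure_iff.1 (ha' j) (ε / 2) (by positivity)
    refine ⟨Or.inr ⟨j, rfl⟩, u, hu, x, hx, ?_⟩
    have := dist_triangle (a' j) u x
    linarith
  choose O hO hO2 using fun j : ↥Zs => (hns j).slab.rel
  have hPe : ∀ j : ↥Zs, P ∩ e j = α j ∪ {(j : Y)} := fun j =>
    t56_side (hns j) j.2.1.1 ((hα j).trans hGAP') (fun w hw hwP => hwP.2 (hβ j hw))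
  have hQe : ∀ j : ↥Zs, Q ∩ e j = β j ∪ {(j : Y)} := fun j =>
    t56_side (t56_swap (hns j)) j.2.1.2 ((hβ j).trans hBSQ) (fun w hw => hGAQ w (hα j hw))
  have hacl : ∀ j : ↥Zs, a j ∈ closure (e j) := by
    intro j
    rw [(hns j).slab.cl]
    exact Or.inr (Or.inl rfl)
  have hbcl : ∀ j : ↥Zs, b j ∈ closure (e j) := by
    intro j
    rw [(hns j).slab.cl]
    exact Or.inr (Or.inr rfl)
  have hP' : IsPeano ↥(P \ ⋃ j, e j) := by
    refine t56_collapse h16 h17 hPP hPc.isClosed e O a hO ?_ ?_ ?_ ?_ ?_ (hnull a hacl)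
    · intro j
      ext w
      constructor
      · rintro ⟨h1, h2⟩
        rw [hO2 j] at h2
        exact ⟨h1, h2.2⟩
      · rintro ⟨h1, h2⟩
        refine ⟨h1, ?_⟩
        rw [hO2 j]
        exact ⟨h1.1.1, h2⟩
    · exact fun i j hij => (hee i j hij).mono subset_closure subset_closure
    · intro j
      rw [hPe j, closure_union, closure_singleton, (hns j).clα]
      rintro w ⟨(h1 | h1) | h1, h2⟩
      · exact absurd (Or.inl h1) h2
      · rcases h1 with h1 | h1
        · exact h1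
        · exact absurd (Or.inr h1) h2
      · exact absurd (Or.inr h1) h2
    · intro j
      refine hGAP (closure_mono (hα j) ?_)
      rw [(hns j).clα]
      exact Or.inr (Or.inl rfl)
    · intro i j
      by_cases hij : i = j
      · rw [hij]
        exact (hns j).slab.ha
      · exact fun h => disjoint_left.1 (hee i j hij) (hacl i) (subset_closure h)
  have hQ' : IsPeano ↥(Q \ ⋃ j, e j) := by
    refine t56_collapse h16 h17 hQP isClosed_closure e O b hO ?_ ?_ ?_ ?_ ?_ (hnull b hbcl)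
    · intro j
      ext w
      constructor
      · rintro ⟨h1, h2⟩
        rw [hO2 j] at h2
        exact ⟨h1, h2.2⟩
      · rintro ⟨h1, h2⟩
        refine ⟨h1, ?_⟩
        rw [hO2 j]
        exact ⟨(hQN h1).1, h2⟩
    · exact fun i j hij => (hee i j hij).mono subset_closure subset_closure
    · intro j
      rw [hQe j, closure_union, closure_singleton, (hns j).clβ]
      rintro w ⟨(h1 | h1) | h1, h2⟩
      · exact absurd (Or.inl h1) h2
      · rcases h1 with h1 | h1
        · exact h1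
        · exact absurd (Or.inr h1) h2
      · exact absurd (Or.inr h1) h2
    · intro j
      refine closure_mono (hβ j) ?_
      rw [(hns j).clβ]
      exact Or.inr (Or.inl rfl)
    · intro i j
      by_cases hij : i = j
      · rw [hij]
        exact (hns j).slab.hb
      · exact fun h => disjoint_left.1 (hee i j hij) (hbcl i) (subset_closure h)
  have hce : c ∉ ⋃ j, e j := by
    rw [mem_iUnion]
    rintro ⟨j, hj⟩
    exact hr2 j j.2 (hball j c (subset_closure hj))
  have hFe : ∀ w ∈ F, w ∉ ⋃ j, e j := by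
    intro w hw
    rw [mem_iUnion]
    rintro ⟨j, hj⟩
    exact disjoint_left.1 (hns j).slab.clF (subset_closure hj) hw
  have hNE : (P \ ⋃ j, e j) ∪ (Q \ ⋃ j, e j) = B \ ⋃₀ E' := by
    rw [hE', sUnion_union, sUnion_range]
    ext w
    constructor
    · rintro (⟨h1, h2⟩ | ⟨h1, h2⟩)
      · exact ⟨h1.1.1, fun h => h.elim h1.1.2 h2⟩
      · exact ⟨(hQN h1).1, fun h => h.elim (hQN h1).2 h2⟩
    · rintro ⟨h1, h2⟩
      have hwN : w ∈ N := ⟨h1, fun h => h2 (Or.inl h)⟩
      have hwe : w ∉ ⋃ j, e j := fun h => h2 (Or.inr h)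
      by_cases hwB : w ∈ BS
      · exact Or.inr ⟨hBSQ hwB, hwe⟩
      · exact Or.inl ⟨⟨hwN, hwB⟩, hwe⟩
  have heo : IsOpen (⋃ j, O j) := isOpen_iUnion hO
  have hPO : P \ ⋃ j, e j = P \ ⋃ j, O j := by
    ext w
    refine and_congr_right (fun hw => not_congr ?_)
    rw [mem_iUnion, mem_iUnion]
    refine exists_congr (fun j => ?_)
    constructor
    · intro h
      rw [hO2 j] at h
      exact h.2
    · intro h
      rw [hO2 j]
      exact ⟨hw.1.1, h⟩
  have hQO : Q \ ⋃ j, e j = Q \ ⋃ j, O j := by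
    ext w
    refine and_congr_right (fun hw => not_congr ?_)
    rw [mem_iUnion, mem_iUnion]
    refine exists_congr (fun j => ?_)
    constructor
    · intro h
      rw [hO2 j] at h
      exact h.2
    · intro h
      rw [hO2 j]
      exact ⟨(hQN hw).1, h⟩
  refine ⟨E', subset_union_left, hf', ?_, P \ ⋃ j, e j, Q \ ⋃ j, e j, ?_, ?_, hNE, ?_, ?_, ?_⟩
  · rw [← hNE]
    exact h16.2.2 Y _ _ hP' hQ' ⟨c, ⟨hcP, hce⟩, ⟨hcQ, hce⟩⟩
  · rw [hPO]
    exact (hPc.diff heo).isClosed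
  · rw [hQO]
    exact (hQc.diff heo).isClosed
  · ext w
    constructor
    · rintro ⟨⟨h1, h2⟩, ⟨h3, -⟩⟩
      by_contra hwc
      exact h2 (mem_iUnion.2 ⟨⟨w, ⟨h1, h3⟩, hwc⟩, hje ⟨w, ⟨h1, h3⟩, hwc⟩⟩)
    · intro hw
      rw [mem_singleton_iff] at hw
      rw [hw]
      exact ⟨⟨hcP, hce⟩, ⟨hcQ, hce⟩⟩
  · intro w hw
    exact ⟨hGAP' (hDA hw), hFe w (hDF hw.1)⟩
  · intro w hw
    exact ⟨hBSQ (hDB hw), hFe w (hDF hw.1)⟩

end Pool.Agent.H405
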