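import Pool.Agent.H405.T59
import Pool.Agent.R638.DD.CUT

set_option autoImplicit false

/-! Project H405: (5.7) the spanning dendrite. -/

namespace Pool.Agent.H405

open Set Topology Filter Metric
open Pool.Agent.R638.DD

/-- directed intersections of compact preconnected sets are preconnected. -/
theorem t57_dir {Y : Type} [MetricSpace Y] {ι : Type} [Nonempty ι] (K : ι → Set Y)
    (hdir : Directed (· ⊇ ·) K) (hc : ∀ i, IsCompact (K i)) (hp : ∀ i, IsPreconnected (K i)) :
    IsPreconnected (⋂ i, K i) := by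
  rw [isPreconnected_closed_iff]
  intro t t' ht ht' hsub h1 h2
  by_contra hne
  have hcomp : IsCompact (⋂ i, K i) :=
    (hc (Classical.arbitrary ι)).of_isClosed_subset (isClosed_iInter fun i => (hc i).isClosed)
      (iInter_subset _ _)
  have hd : Disjoint ((⋂ i, K i) ∩ t) ((⋂ i, K i) ∩ t') := by
    rw [Set.disjoint_left]
    rintro x ⟨hx, hxt⟩ ⟨_, hxt'⟩
    exact hne ⟨x, hx, hxt, hxt'⟩
  obtain ⟨U, V, hU, hV, hUt, hVt, hUV⟩ :=
    SeparatedNhds.of_isCompact_isCompact (hcomp.inter_right ht) (hcomp.inter_right ht') hd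
  obtain ⟨i, hi⟩ := exists_subset_nhds_of_isCompact' hdir hc (fun i => (hc i).isClosed)
    (U := U ∪ V) (by
      intro x hx
      refine (hU.union hV).mem_nhds ?_
      rcases hsub hx with h | h
      · exact Or.inl (hUt ⟨hx, h⟩)
      · exact Or.inr (hVt ⟨hx, h⟩))
  obtain ⟨x, hx, hxt⟩ := h1
  obtain ⟨y, hy, hyt⟩ := h2
  obtain ⟨z, _, hzU, hzV⟩ := hp i U V hU hV hi ⟨x, mem_iInter.1 hx i, hUt ⟨hx, hxt⟩⟩
    ⟨y, mem_iInter.1 hy i, hVt ⟨hy, hyt⟩⟩
  exact Set.disjoint_left.1 hUV hzU hzV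

/-- `u` and `v` are separated in `M` up to one point. -/
def t57_S {Y : Type} [MetricSpace Y] (M : Set Y) (u v : Y) : Prop :=
  ∃ A B : Set Y, IsOpen A ∧ IsOpen B ∧ u ∈ A ∧ v ∈ B ∧
    A ∩ B ∩ M = ∅ ∧ (M \ (A ∪ B)).Subsingleton

theorem t57_sep {Y : Type} [MetricSpace Y] {M P Q : Set Y} {u v : Y} (hP : IsClosed P)
    (hQ : IsClosed Q) (hM : M ⊆ P ∪ Q) (hs : (M ∩ (P ∩ Q)).Subsingleton) (hu : u ∉ Q)
    (hv : v ∉ P) : t57_S M u v := by
  refine ⟨Qᶜ, Pᶜ, hQ.isOpen_compl, hP.isOpen_compl, hu, hv, ?_, ?_⟩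
  · rw [eq_empty_iff_forall_notMem]
    rintro x ⟨⟨h1, h2⟩, h3⟩
    rcases hM h3 with h | h
    · exact h2 h
    · exact h1 h
  · refine hs.anti ?_
    rintro x ⟨hx, hx'⟩
    rw [mem_union, not_or] at hx'
    exact ⟨hx, not_not.1 hx'.2, not_not.1 hx'.1⟩

/-- a set in which `P` and `Q` are the sides of a cut. -/
theorem t57_meet {Y : Type} [MetricSpace Y] {M P Q : Set Y} {c : Y} (hP : IsClosed P)
    (hQ : IsClosed Q) (hM : M = P ∪ Q) (hc : P ∩ Q = {c}) {C : Set Y} (hC : IsPreconnected C)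
    (hCM : C ⊆ M) : IsPreconnected (C ∩ P) := by
  have hcM : c ∈ M := by
    have : c ∈ P ∩ Q := by rw [hc]; rfl
    rw [hM]
    exact Or.inl this.1
  have hcut : Cut (X := ↥M) (Subtype.val ⁻¹' P) (Subtype.val ⁻¹' Q) ⟨c, hcM⟩ := by
    refine ⟨hP.preimage continuous_subtype_val, hQ.preimage continuous_subtype_val, ?_, ?_⟩
    · refine eq_univ_of_forall fun x => ?_
      have h1 : x.1 ∈ P ∪ Q := hM ▸ x.2
      exact h1
    · ext x
      have : x.1 ∈ P ∩ Q ↔ x.1 ∈ ({c} : Set Y) := by rw [hc]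
      rw [mem_inter_iff, mem_preimage, mem_preimage, mem_singleton_iff, Subtype.ext_iff]
      exact this
  have h1 : IsPreconnected (Subtype.val ⁻¹' C : Set ↥M) := by
    rw [← Topology.IsInducing.subtypeVal.isPreconnected_image, Subtype.image_preimage_coe,
      inter_eq_right.2 hCM]
    exact hC
  have h2 := t_Meet ↥M _ _ _ hcut _ h1
  rw [← Topology.IsInducing.subtypeVal.isPreconnected_image, ← preimage_inter,
    Subtype.image_preimage_coe] at h2
  have e1 : M ∩ (C ∩ P) = C ∩ P := inter_eq_right.2 (inter_subset_left.trans hCM)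
  rwa [e1] at h2

/-- `P` is one side of a cut of `M`. -/
def t57_C {Y : Type} [MetricSpace Y] (M P : Set Y) : Prop :=
  ∃ Q : Set Y, ∃ c : Y, IsClosed P ∧ IsClosed Q ∧ M = P ∪ Q ∧ P ∩ Q = {c}

theorem t57_coreA {Y : Type} [MetricSpace Y] {M e P Q : Set Y} {a b u v : Y} (hP : IsClosed P)
    (hQ : IsClosed Q) (hPQ : P ∪ Q = M \ e) (hd : Disjoint P Q)
    (hcl : closure e = e ∪ {a, b}) (ha : a ∈ P) (hb : b ∈ Q) (hab : a ≠ b)
    (htp : TP (closure e)) (hu : u ∈ P) (hv : v ∈ Q) : t57_S M u v := by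
  have hPe : ∀ x ∈ P, x ∉ e := fun x hx => by
    have : x ∈ M \ e := hPQ ▸ Or.inl hx
    exact this.2
  have hQe : ∀ x ∈ Q, x ∉ e := fun x hx => by
    have : x ∈ M \ e := hPQ ▸ Or.inr hx
    exact this.2
  have hPQ' : ∀ x ∈ P, x ∉ Q := fun x hx hx' => Set.disjoint_left.1 hd hx hx'
  have hMc : ∀ x ∈ M, x ∈ P ∨ x ∈ Q ∨ x ∈ e := by
    intro x hx
    by_cases hxe : x ∈ e
    · exact Or.inr (Or.inr hxe)
    · have : x ∈ P ∪ Q := by rw [hPQ]; exact ⟨hx, hxe⟩
      rcases this with h | h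
      · exact Or.inl h
      · exact Or.inr (Or.inl h)
  have hclm : ∀ x, x ∈ closure e ↔ x ∈ e ∨ x = a ∨ x = b := by
    intro x
    rw [hcl]
    simp only [mem_union, mem_insert_iff, mem_singleton_iff]
  have hPcl : ∀ x ∈ P, x ∈ closure e → x = a := by
    intro x hx hxc
    rcases (hclm x).1 hxc with h | h | h
    · exact (hPe x hx h).elim
    · exact h
    · exact (hPQ' x hx (h ▸ hb)).elim
  have hQcl : ∀ x ∈ Q, x ∈ closure e → x = b := by
    intro x hx hxc
    rcases (hclm x).1 hxc with h | h | h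
    · exact (hQe x hx h).elim
    · exact (hPQ' a ha (h ▸ hx)).elim
    · exact h
  by_cases hua : u = a
  · by_cases hvb : v = b
    · subst hua hvb
      obtain ⟨A', B', hA', hB', huA, hvB, hAB, hss⟩ := htp u ((hclm u).2 (by simp)) v
        ((hclm v).2 (by simp)) hab
      refine t57_sep (P := P ∪ (closure e \ B')) (Q := Q ∪ (closure e \ A'))
        (hP.union (isClosed_closure.sdiff hB')) (hQ.union (isClosed_closure.sdiff hA')) ?_ ?_ ?_ ?_
      · intro x hx
        rcases hMc x hx with h | h | h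
        · exact Or.inl (Or.inl h)
        · exact Or.inr (Or.inl h)
        · have hxc : x ∈ closure e := subset_closure h
          by_cases hxA : x ∈ A'
          · left; right
            refine ⟨hxc, fun hxB => ?_⟩
            have : x ∈ A' ∩ B' ∩ closure e := ⟨⟨hxA, hxB⟩, hxc⟩
            rw [hAB] at this
            exact this
          · right; right
            exact ⟨hxc, hxA⟩
      · refine hss.anti ?_
        rintro x ⟨_, h1, h2⟩
        rcases h1 with h1 | h1
        · rcases h2 with h2 | h2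
          · exact (hPQ' x h1 h2).elim
          · have := hPcl x h1 h2.1
            exact (h2.2 (this ▸ huA)).elim
        · rcases h2 with h2 | h2
          · have := hQcl x h2 h1.1
            exact (h1.2 (this ▸ hvB)).elim
          · exact ⟨h1.1, fun h => h.elim h2.2 h1.2⟩
      · rintro (h | h)
        · exact hPQ' u ha h
        · exact h.2 huA
      · rintro (h | h)
        · exact hPQ' v h hb
        · exact h.2 hvB
    · refine t57_sep (P := P ∪ closure e) (Q := Q) (hP.union isClosed_closure) hQ ?_ ?_ ?_ ?_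
      · intro x hx
        rcases hMc x hx with h | h | h
        · exact Or.inl (Or.inl h)
        · exact Or.inr h
        · exact Or.inl (Or.inr (subset_closure h))
      · have : M ∩ ((P ∪ closure e) ∩ Q) ⊆ {b} := by
          rintro x ⟨_, h | h, h'⟩
          · exact (hPQ' x h h').elim
          · exact hQcl x h' h
        exact subsingleton_singleton.anti this
      · exact hPQ' u hu
      · rintro (h | h)
        · exact hPQ' v h hv
        · exact hvb (hQcl v hv h)
  · refine t57_sep (P := P) (Q := Q ∪ closure e) hP (hQ.union isClosed_closure) ?_ ?_ ?_ ?_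
    · intro x hx
      rcases hMc x hx with h | h | h
      · exact Or.inl h
      · exact Or.inr (Or.inl h)
      · exact Or.inr (Or.inr (subset_closure h))
    · have : M ∩ (P ∩ (Q ∪ closure e)) ⊆ {a} := by
        rintro x ⟨_, h, h' | h'⟩
        · exact (hPQ' x h h').elim
        · exact hPcl x h h'
      exact subsingleton_singleton.anti this
    · rintro (h | h)
      · exact hPQ' u hu h
      · exact hua (hPcl u hu h)
    · intro h
      exact hPQ' v h hv

theorem t57_coreC {Y : Type} [MetricSpace Y] {M e P Q : Set Y} {a b : Y} (hP : IsClosed P)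
    (hQ : IsClosed Q) (hM : IsClosed M) (hPQ : P ∪ Q = M \ e) (hd : Disjoint P Q) (heM : e ⊆ M)
    (hcl : closure e = e ∪ {a, b}) (ha : a ∈ P) (hb : b ∈ Q) : t57_C M P ∧ Disjoint P e := by
  have hPe : ∀ x ∈ P, x ∈ M ∧ x ∉ e := fun x hx => by
    have : x ∈ M \ e := hPQ ▸ Or.inl hx
    exact this
  have hQe : ∀ x ∈ Q, x ∈ M ∧ x ∉ e := fun x hx => by
    have : x ∈ M \ e := hPQ ▸ Or.inr hx
    exact this
  have hPQ' : ∀ x ∈ P, x ∉ Q := fun x hx hx' => Set.disjoint_left.1 hd hx hx'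
  have hclm : ∀ x, x ∈ closure e ↔ x ∈ e ∨ x = a ∨ x = b := by
    intro x
    rw [hcl]
    simp only [mem_union, mem_insert_iff, mem_singleton_iff]
  refine ⟨⟨Q ∪ closure e, a, hP, hQ.union isClosed_closure, ?_, ?_⟩, ?_⟩
  · refine Subset.antisymm ?_ ?_
    · intro x hx
      by_cases hxe : x ∈ e
      · exact Or.inr (Or.inr (subset_closure hxe))
      · have : x ∈ P ∪ Q := by rw [hPQ]; exact ⟨hx, hxe⟩
        rcases this with h | h
        · exact Or.inl h
        · exact Or.inr (Or.inl h)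
    · rintro x (h | h | h)
      · exact (hPe x h).1
      · exact (hQe x h).1
      · exact closure_minimal heM hM h
  · refine Subset.antisymm ?_ ?_
    · rintro x ⟨h, h' | h'⟩
      · exact (hPQ' x h h').elim
      · rcases (hclm x).1 h' with h1 | h1 | h1
        · exact ((hPe x h).2 h1).elim
        · exact h1
        · exact (hPQ' x h (h1 ▸ hb)).elim
    · rintro x rfl
      exact ⟨ha, Or.inr ((hclm x).2 (by simp))⟩
  · rw [Set.disjoint_left]
    exact fun x hx => (hPe x hx).2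

theorem t57_core {Y : Type} [MetricSpace Y] {M e P Q : Set Y} {a b u v : Y} (hP : IsClosed P)
    (hQ : IsClosed Q) (hM : IsClosed M) (hPQ : P ∪ Q = M \ e) (hd : Disjoint P Q) (heM : e ⊆ M)
    (hcl : closure e = e ∪ {a, b}) (ha : a ∈ P) (hb : b ∈ Q) (hab : a ≠ b)
    (htp : TP (closure e)) (hu : u ∈ M \ e) (hv : v ∈ M \ e) :
    t57_S M u v ∨ ∃ P', t57_C M P' ∧ u ∈ P' ∧ v ∈ P' ∧ Disjoint P' e := by
  have hPQ' : Q ∪ P = M \ e := by rw [union_comm]; exact hPQ
  have hcl' : closure e = e ∪ {b, a} := by rw [pair_comm b a]; exact hcl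
  have hu' : u ∈ P ∪ Q := hPQ ▸ hu
  have hv' : v ∈ P ∪ Q := hPQ ▸ hv
  rcases hu' with hu' | hu'
  · rcases hv' with hv' | hv'
    · right
      obtain ⟨h1, h2⟩ := t57_coreC hP hQ hM hPQ hd heM hcl ha hb
      exact ⟨P, h1, hu', hv', h2⟩
    · left
      exact t57_coreA hP hQ hPQ hd hcl ha hb hab htp hu' hv'
  · rcases hv' with hv' | hv'
    · left
      exact t57_coreA hQ hP hPQ' hd.symm hcl' hb ha hab.symm htp hu' hv'
    · right
      obtain ⟨h1, h2⟩ := t57_coreC hQ hP hM hPQ' hd.symm heM hcl' hb ha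
      exact ⟨Q, h1, hu', hv', h2⟩

theorem t57_closed {Y : Type} [MetricSpace Y] {B F : Set Y} {E : Set (Set Y)} (hB : IsClosed B)
    (hE : Fam B F E) : IsClosed (B \ ⋃₀ E) := by
  have h : ∀ e : Set Y, ∃ O : Set Y, e ∈ E → IsOpen O ∧ e = B ∩ O := by
    intro e
    by_cases he : e ∈ E
    · obtain ⟨a, b, hs⟩ := hE.slab e he
      obtain ⟨O, hO⟩ := hs.rel
      exact ⟨O, fun _ => hO⟩
    · exact ⟨∅, fun h => (he h).elim⟩
  choose O hO using h
  have h1 : B \ ⋃₀ E = B \ ⋃ e ∈ E, O e := by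
    ext x
    simp only [Set.mem_sdiff, mem_sUnion, mem_iUnion, not_exists, not_and]
    constructor
    · rintro ⟨h1, h2⟩
      refine ⟨h1, fun e he hx => h2 e he ?_⟩
      rw [(hO e he).2]
      exact ⟨h1, hx⟩
    · rintro ⟨h1, h2⟩
      refine ⟨h1, fun e he hx => h2 e he ?_⟩
      rw [(hO e he).2] at hx
      exact hx.2
  rw [h1]
  exact hB.sdiff (isOpen_biUnion fun e he => (hO e he).1)

theorem t57_step {Y : Type} [MetricSpace Y] {B F : Set Y} {E : Set (Set Y)} (hB : IsClosed B)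
    (hE : Fam B F E) (hMp : IsPreconnected (B \ ⋃₀ E)) {e : Set Y} {a b : Y}
    (he : Slab B F e a b) (heM : e ⊆ B \ ⋃₀ E) (hnot : ¬ IsPreconnected ((B \ ⋃₀ E) \ e))
    {u v : Y} (hu : u ∈ (B \ ⋃₀ E) \ e) (hv : v ∈ (B \ ⋃₀ E) \ e) :
    t57_S (B \ ⋃₀ E) u v ∨
      ∃ P', t57_C (B \ ⋃₀ E) P' ∧ u ∈ P' ∧ v ∈ P' ∧ Disjoint P' e := by
  set M := B \ ⋃₀ E with hMdef
  have hM : IsClosed M := t57_closed hB hE
  have hMe : IsClosed (M \ e) := by
    obtain ⟨O, hO, hO'⟩ := he.rel
    have : M \ e = M \ O := by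
      ext x
      rw [hO']
      simp only [Set.mem_sdiff, mem_inter_iff, not_and]
      constructor
      · rintro ⟨h1, h2⟩
        exact ⟨h1, h2 h1.1⟩
      · rintro ⟨h1, h2⟩
        exact ⟨h1, fun _ => h2⟩
    rw [this]
    exact hM.sdiff hO
  rw [isPreconnected_closed_iff] at hnot
  push Not at hnot
  obtain ⟨t, t', ht, ht', hsub, h1, h2, h3⟩ := hnot
  have hP : IsClosed ((M \ e) ∩ t) := hMe.inter ht
  have hQ : IsClosed ((M \ e) ∩ t') := hMe.inter ht'
  have hPQ : (M \ e) ∩ t ∪ (M \ e) ∩ t' = M \ e := by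
    rw [← inter_union_distrib_left, inter_eq_left]
    exact hsub
  have hd : Disjoint ((M \ e) ∩ t) ((M \ e) ∩ t') := by
    rw [Set.disjoint_left]
    rintro x ⟨hx, hx1⟩ ⟨_, hx2⟩
    have : x ∈ (M \ e) ∩ (t ∩ t') := ⟨hx, hx1, hx2⟩
    rw [h3] at this
    exact this
  have hclM : closure e ⊆ M := closure_minimal heM hM
  have haM : a ∈ M \ e := ⟨hclM he.a_mem, he.ha⟩
  have hbM : b ∈ M \ e := ⟨hclM he.b_mem, he.hb⟩
  have key : ∀ P Q : Set Y, IsClosed P → IsClosed Q → P ∪ Q = M \ e → Disjoint P Q →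
      P.Nonempty → Q.Nonempty → a ∈ P → b ∈ Q := by
    intro P Q hP hQ hPQ hd _ hQn ha
    have hb : b ∈ P ∪ Q := hPQ ▸ hbM
    refine hb.resolve_left fun hb => ?_
    rw [isPreconnected_closed_iff] at hMp
    obtain ⟨x, hx, hx1, hx2⟩ := hMp (P ∪ closure e) Q (hP.union isClosed_closure) hQ (by
        intro x hx
        by_cases hxe : x ∈ e
        · exact Or.inl (Or.inr (subset_closure hxe))
        · have : x ∈ P ∪ Q := by rw [hPQ]; exact ⟨hx, hxe⟩
          rcases this with h | h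
          · exact Or.inl (Or.inl h)
          · exact Or.inr h) ⟨a, haM.1, Or.inl ha⟩ (by
        obtain ⟨q, hq⟩ := hQn
        have : q ∈ M \ e := hPQ ▸ Or.inr hq
        exact ⟨q, this.1, hq⟩)
    rcases hx1 with hx1 | hx1
    · exact Set.disjoint_left.1 hd hx1 hx2
    · rw [he.cl] at hx1
      rcases hx1 with hx1 | hx1 | hx1
      · have : x ∈ M \ e := hPQ ▸ Or.inr hx2
        exact this.2 hx1
      · exact Set.disjoint_left.1 hd (hx1 ▸ ha) hx2
      · rw [mem_singleton_iff] at hx1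
        exact Set.disjoint_left.1 hd (hx1 ▸ hb) hx2
  have ha : a ∈ (M \ e) ∩ t ∪ (M \ e) ∩ t' := by rw [hPQ]; exact haM
  rcases ha with ha | ha
  · have hb := key _ _ hP hQ hPQ hd h1 h2 ha
    exact t57_core hP hQ hM hPQ hd heM he.cl ha hb he.hab he.tp hu hv
  · have hPQ' : (M \ e) ∩ t' ∪ (M \ e) ∩ t = M \ e := by rw [union_comm]; exact hPQ
    have hb := key _ _ hQ hP hPQ' hd.symm h2 h1 ha
    exact t57_core hQ hP hM hPQ' hd.symm heM he.cl ha hb he.hab he.tp hu hv

theorem t57_insert {Y : Type} [MetricSpace Y] {B F : Set Y} {E : Set (Set Y)}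
    (hE : Fam B F E) {e : Set Y} {a b : Y} (he : Slab B F e a b) (heM : e ⊆ B \ ⋃₀ E) :
    Fam B F (insert e E) := by
  refine ⟨?_, ?_⟩
  · rintro e' (rfl | he')
    · exact ⟨a, b, he⟩
    · exact hE.slab e' he'
  · have hdis : ∀ e' ∈ E, Disjoint e e' := by
      intro e' he'
      rw [Set.disjoint_left]
      intro x hx hx'
      exact (heM hx).2 ⟨e', he', hx'⟩
    rintro e1 (rfl | h1) e2 (rfl | h2) hne
    · exact (hne rfl).elim
    · exact hdis e2 h2
    · exact (hdis e1 h1).symm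
    · exact hE.disj h1 h2 hne

theorem t57_sUnion {Y : Type} [MetricSpace Y] {B F : Set Y} (c : Set (Set (Set Y)))
    (hc : IsChain (· ⊆ ·) c) (h : ∀ E ∈ c, Fam B F E) : Fam B F (⋃₀ c) := by
  refine ⟨?_, ?_⟩
  · rintro e ⟨E, hE, he⟩
    exact (h E hE).slab e he
  · rintro e1 ⟨E1, hE1, h1⟩ e2 ⟨E2, hE2, h2⟩ hne
    rcases hc.total hE1 hE2 with h12 | h12
    · exact (h E2 hE2).disj (h12 h1) h2 hne
    · exact (h E1 hE1).disj h1 (h12 h2) hne

theorem t57_sUnion_conn {Y : Type} [MetricSpace Y] {B F : Set Y} (hB : IsCompact B)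
    (c : Set (Set (Set Y))) (hne : c.Nonempty)
    (hc : IsChain (· ⊆ ·) c) (h : ∀ E ∈ c, Fam B F E) (hp : ∀ E ∈ c, IsPreconnected (B \ ⋃₀ E)) :
    IsPreconnected (B \ ⋃₀ (⋃₀ c)) := by
  have e1 : B \ ⋃₀ (⋃₀ c) = ⋂ E : ↥c, B \ ⋃₀ E.1 := by
    obtain ⟨E0, hE0⟩ := hne
    ext x
    simp only [Set.mem_sdiff, mem_sUnion, mem_iInter, not_exists, not_and]
    constructor
    · rintro ⟨h1, h2⟩ E
      exact ⟨h1, fun e he => h2 e ⟨E.1, E.2, he⟩⟩
    · intro h'
      refine ⟨(h' ⟨E0, hE0⟩).1, ?_⟩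
      rintro e ⟨E, hE, he⟩
      exact (h' ⟨E, hE⟩).2 e he
  rw [e1]
  have : Nonempty ↥c := hne.to_subtype
  refine t57_dir _ ?_ ?_ ?_
  · rintro ⟨E1, h1⟩ ⟨E2, h2⟩
    rcases hc.total h1 h2 with h12 | h12
    · exact ⟨⟨E2, h2⟩, sdiff_subset_sdiff_right (sUnion_mono h12), Subset.rfl⟩
    · exact ⟨⟨E1, h1⟩, Subset.rfl, sdiff_subset_sdiff_right (sUnion_mono h12)⟩
  · intro E
    exact hB.of_isClosed_subset (t57_closed hB.isClosed (h E.1 E.2)) sdiff_subset
  · intro E
    exact hp E.1 E.2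

/-- the family of the treatments -/
theorem t57_treat (h56 : Stm56) {Y : Type} [MetricSpace Y] {B F : Set Y} (hctx : Ctx B F)
    (A B' : ℕ → Set Y)
    (hAB : ∀ n, IsOpen (A n) ∧ IsOpen (B' n) ∧ A n ∩ B' n ∩ F = ∅ ∧
      (F \ (A n ∪ B' n)).Subsingleton) :
    ∃ Ew : Set (Set Y), Fam B F Ew ∧ IsPreconnected (B \ ⋃₀ Ew) ∧
      ∀ n, ∀ c ∈ F, c ∉ A n → c ∉ B' n → ∃ P Q : Set Y, IsClosed P ∧ IsClosed Q ∧
        B \ ⋃₀ Ew ⊆ P ∪ Q ∧ P ∩ Q = {c} ∧ connectedComponentIn F c ∩ A n ⊆ P ∧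
        connectedComponentIn F c ∩ B' n ⊆ Q := by
  classical
  have hBc := hctx.compact
  let St : Type := {E : Set (Set Y) // Fam B F E ∧ IsPeano ↥(B \ ⋃₀ E)}
  have step : ∀ (n : ℕ) (E : St), ∃ E' : St, E.1 ⊆ E'.1 ∧
      ∀ c ∈ F, c ∉ A n → c ∉ B' n → ∃ P Q : Set Y, IsClosed P ∧ IsClosed Q ∧
        P ∪ Q = B \ ⋃₀ E'.1 ∧ P ∩ Q = {c} ∧
        connectedComponentIn F c ∩ A n ⊆ P ∧ connectedComponentIn F c ∩ B' n ⊆ Q := by
    rintro n ⟨E, hE, hP⟩
    by_cases h : ∃ c ∈ F, c ∉ A n ∧ c ∉ B' n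
    · obtain ⟨c, hcF, hcA, hcB⟩ := h
      obtain ⟨hA1, hB1, hd, hs⟩ := hAB n
      have huniq : ∀ x ∈ F, x ∉ A n → x ∉ B' n → x = c := fun x hx h1 h2 =>
        hs ⟨hx, fun h => h.elim h1 h2⟩ ⟨hcF, fun h => h.elim hcA hcB⟩
      have hdAB : ∀ x ∈ F, x ∈ A n → x ∉ B' n := by
        intro x hx h1 h2
        have : x ∈ A n ∩ B' n ∩ F := ⟨⟨h1, h2⟩, hx⟩
        rw [hd] at this
        exact this
      have hcut : FCut F c (F ∩ A n) (F ∩ B' n) := by
        refine ⟨hcF, ?_, ?_, fun h => hcA h.2, fun h => hcB h.2, ?_, ?_⟩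
        · refine Subset.antisymm ?_ ?_
          · intro x hx
            by_cases h1 : x ∈ A n
            · exact Or.inl (Or.inl ⟨hx, h1⟩)
            · by_cases h2 : x ∈ B' n
              · exact Or.inl (Or.inr ⟨hx, h2⟩)
              · exact Or.inr (huniq x hx h1 h2)
          · rintro x ((h | h) | h)
            · exact h.1
            · exact h.1
            · rw [mem_singleton_iff] at h
              exact h ▸ hcF
        · rw [Set.disjoint_left]
          rintro x ⟨hx, h1⟩ ⟨_, h2⟩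
          exact hdAB x hx h1 h2
        · have : F ∩ A n ∪ {c} = F \ B' n := by
            refine Subset.antisymm ?_ ?_
            · rintro x (h | h)
              · exact ⟨h.1, hdAB x h.1 h.2⟩
              · rw [mem_singleton_iff] at h
                exact ⟨h ▸ hcF, h ▸ hcB⟩
            · rintro x ⟨hx, h2⟩
              by_cases h1 : x ∈ A n
              · exact Or.inl ⟨hx, h1⟩
              · exact Or.inr (huniq x hx h1 h2)
          rw [this]
          exact hctx.closed.sdiff hB1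
        · have : F ∩ B' n ∪ {c} = F \ A n := by
            refine Subset.antisymm ?_ ?_
            · rintro x (h | h)
              · exact ⟨h.1, fun h1 => hdAB x h.1 h1 h.2⟩
              · rw [mem_singleton_iff] at h
                exact ⟨h ▸ hcF, h ▸ hcA⟩
            · rintro x ⟨hx, h1⟩
              by_cases h2 : x ∈ B' n
              · exact Or.inl ⟨hx, h2⟩
              · exact Or.inr (huniq x hx h1 h2)
          rw [this]
          exact hctx.closed.sdiff hA1
      obtain ⟨E', hEE', hE', hP', P, Q, h1, h2, h3, h4, h5, h6⟩ := h56 Y B F E hctx hE hP c _ _ hcut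
      refine ⟨⟨E', hE', hP'⟩, hEE', ?_⟩
      intro c' hc'F hc'A hc'B
      have hcc : c' = c := huniq c' hc'F hc'A hc'B
      subst hcc
      refine ⟨P, Q, h1, h2, h3, h4, ?_, ?_⟩
      · rintro x ⟨hx, hxA⟩
        exact h5 ⟨hx, connectedComponentIn_subset _ _ hx, hxA⟩
      · rintro x ⟨hx, hxB⟩
        exact h6 ⟨hx, connectedComponentIn_subset _ _ hx, hxB⟩
    · refine ⟨⟨E, hE, hP⟩, Subset.rfl, ?_⟩
      intro c hc h1 h2
      exact (h ⟨c, hc, h1, h2⟩).elim
  choose f hf hf2 using step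
  have h0 : Fam B F ∅ ∧ IsPeano ↥(B \ ⋃₀ (∅ : Set (Set Y))) := by
    refine ⟨⟨by simp, by simp⟩, ?_⟩
    rw [sUnion_empty, sdiff_empty]
    exact hctx.peano
  let E : ℕ → St := fun n => Nat.rec ⟨∅, h0⟩ (fun n E => f n E) n
  have hmono : Monotone (fun n => (E n).1) := monotone_nat_of_le_succ fun n => hf n (E n)
  have hchain : IsChain (· ⊆ ·) (range fun n => (E n).1) := hmono.isChain_range
  have hF : ∀ E' ∈ range (fun n => (E n).1), Fam B F E' := by
    rintro _ ⟨n, rfl⟩
    exact (E n).2.1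
  have hPre : ∀ E' ∈ range (fun n => (E n).1), IsPreconnected (B \ ⋃₀ E') := by
    rintro _ ⟨n, rfl⟩
    have := (E n).2.2.connected
    exact isPreconnected_iff_preconnectedSpace.2 this.toPreconnectedSpace
  refine ⟨⋃₀ (range fun n => (E n).1), t57_sUnion _ hchain hF,
    t57_sUnion_conn hBc _ (range_nonempty _) hchain hF hPre, ?_⟩
  intro n c hc hcA hcB
  obtain ⟨P, Q, h1, h2, h3, h4, h5, h6⟩ := hf2 n (E n) c hc hcA hcB
  refine ⟨P, Q, h1, h2, ?_, h4, h5, h6⟩
  rw [h3]
  exact sdiff_subset_sdiff_right (sUnion_mono (subset_sUnion_of_mem ⟨n + 1, rfl⟩))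

theorem t57 (h11 : Stm11) (h12 : Stm12) (h14 : Stm14) (h51 : Stm51) (h52 : Stm52)
    (h54b : Stm54b) (h56 : Stm56) : Stm57 := by
  classical
  intro Y _ _ B F hctx hTPF
  have hBc := hctx.compact
  have hBcl := hBc.isClosed
  obtain ⟨A, B', hAB, hABsep⟩ := h14 Y F hTPF
  obtain ⟨Ew, hEwF, hEwC, hEw⟩ := t57_treat h56 hctx A B' hAB
  -- a maximal family
  obtain ⟨E, hEwE, hmax⟩ := zorn_subset_nonempty
    {E : Set (Set Y) | Fam B F E ∧ IsPreconnected (B \ ⋃₀ E)}
    (fun c hcS hc hne => ⟨⋃₀ c, ⟨t57_sUnion c hc fun E hE => (hcS hE).1,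
      t57_sUnion_conn hBc c hne hc (fun E hE => (hcS hE).1) fun E hE => (hcS hE).2⟩,
      fun s hs => subset_sUnion_of_mem hs⟩) Ew ⟨hEwF, hEwC⟩
  obtain ⟨hE, hMp⟩ := hmax.1
  have hMcl : IsClosed (B \ ⋃₀ E) := t57_closed hBcl hE
  have hMc : IsCompact (B \ ⋃₀ E) := hBc.of_isClosed_subset hMcl sdiff_subset
  have hMne : (B \ ⋃₀ E).Nonempty := by
    by_cases h : E.Nonempty
    · obtain ⟨e, he⟩ := h
      obtain ⟨a, b, hs⟩ := hE.slab e he
      exact ⟨a, hs.cl_sub hBcl hs.a_mem, hE.end_not_mem hBcl he hs.a_mem hs.ha⟩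
    · rw [not_nonempty_iff_eq_empty] at h
      rw [h, sUnion_empty, sdiff_empty]
      have := hctx.peano.connected.toNonempty
      exact nonempty_coe_sort.1 this
  have hTP : TP (B \ ⋃₀ E) := by
    intro u hu v hv huv
    by_contra hno
    have hno' : ¬ t57_S (B \ ⋃₀ E) u v := hno
    -- the set K
    let Pf : Set (Set Y) := {P | t57_C (B \ ⋃₀ E) P ∧ u ∈ P ∧ v ∈ P}
    let Kt : Finset ↥Pf → Set Y := fun t => (B \ ⋃₀ E) ∩ ⋂ P ∈ t, P.1
    have hKtcl : ∀ t, IsClosed (Kt t) := fun t =>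
      hMcl.inter (isClosed_biInter fun P _ => by
        obtain ⟨Q, c, h, _⟩ := P.2.1
        exact h)
    have hKtc : ∀ t, IsCompact (Kt t) := fun t =>
      hMc.of_isClosed_subset (hKtcl t) inter_subset_left
    have hKtp : ∀ t, IsPreconnected (Kt t) := by
      intro t
      induction t using Finset.induction_on with
      | empty =>
        have : Kt ∅ = B \ ⋃₀ E := by simp [Kt]
        rw [this]
        exact hMp
      | insert P0 t _ ih =>
        have : Kt (insert P0 t) = Kt t ∩ P0.1 := by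
          ext x
          simp only [Kt, mem_inter_iff, Finset.mem_insert, mem_iInter]
          constructor
          · rintro ⟨h1, h2⟩
            exact ⟨⟨h1, fun P hP => h2 P (Or.inr hP)⟩, h2 P0 (Or.inl rfl)⟩
          · rintro ⟨⟨h1, h2⟩, h3⟩
            refine ⟨h1, fun P hP => ?_⟩
            rcases hP with rfl | hP
            · exact h3
            · exact h2 P hP
        rw [this]
        obtain ⟨Q, c, hP, hQ, hM, hc⟩ := P0.2.1
        exact t57_meet hP hQ hM hc ih inter_subset_left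
    have hKdir : Directed (· ⊇ ·) Kt := by
      intro s t
      refine ⟨s ∪ t, ?_, ?_⟩
      · rintro x ⟨hx, hx'⟩
        refine ⟨hx, ?_⟩
        rw [mem_iInter₂] at hx' ⊢
        exact fun P hP => hx' P (Finset.mem_union_left _ hP)
      · rintro x ⟨hx, hx'⟩
        refine ⟨hx, ?_⟩
        rw [mem_iInter₂] at hx' ⊢
        exact fun P hP => hx' P (Finset.mem_union_right _ hP)
    set K := ⋂ t, Kt t with hK
    have hKp : IsPreconnected K := t57_dir Kt hKdir hKtc hKtp
    have hKM : K ⊆ B \ ⋃₀ E := (iInter_subset Kt ∅).trans inter_subset_left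
    have hKP : ∀ P ∈ Pf, K ⊆ P := by
      intro P hP x hx
      have h1 := mem_iInter.1 hx {⟨P, hP⟩}
      have h2 := mem_iInter₂.1 h1.2 ⟨P, hP⟩ (Finset.mem_singleton_self _)
      exact h2
    have hKcl : IsClosed K := isClosed_iInter hKtcl
    have hKc : IsCompact K := hMc.of_isClosed_subset hKcl hKM
    have huK : u ∈ K := mem_iInter.2 fun t => ⟨hu, mem_iInter₂.2 fun P _ => P.2.2.1⟩
    have hvK : v ∈ K := mem_iInter.2 fun t => ⟨hv, mem_iInter₂.2 fun P _ => P.2.2.2⟩
    -- slabs in M miss K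
    have hslab : ∀ (e : Set Y) (a b : Y), Slab B F e a b → e ⊆ B \ ⋃₀ E → u ∉ e → v ∉ e →
        ∀ x ∈ K, x ∉ e := by
      intro e a b he heM hue hve x hx hxe
      have hnot : ¬ IsPreconnected ((B \ ⋃₀ E) \ e) := by
        intro hpre
        have hins : insert e E ∈ {E : Set (Set Y) | Fam B F E ∧ IsPreconnected (B \ ⋃₀ E)} := by
          refine ⟨t57_insert hE he heM, ?_⟩
          rw [sUnion_insert, union_comm, ← sdiff_sdiff]
          exact hpre
        have h1 := hmax.2 hins (subset_insert _ _)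
        have h2 : e ∈ E := h1 (mem_insert _ _)
        obtain ⟨y, hy⟩ := he.ne
        exact (heM hy).2 ⟨e, h2, hy⟩
      rcases t57_step hBcl hE hMp he heM hnot ⟨hu, hue⟩ ⟨hv, hve⟩ with h | ⟨P, h1, h2, h3, h4⟩
      · exact hno' h
      · exact Set.disjoint_left.1 h4 (hKP P ⟨h1, h2, h3⟩ hx) hxe
    -- K is contained in F
    have hKF : K ⊆ F := by
      intro x hx
      by_contra hxF
      obtain ⟨r0, hr0, hr0'⟩ := Metric.isOpen_iff.1 hctx.closed.isOpen_compl x hxF
      obtain ⟨w, hwK, hwx⟩ : ∃ w ∈ K, w ≠ x := by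
        by_cases h : u = x
        · exact ⟨v, hvK, fun h' => huv (h.trans h'.symm)⟩
        · exact ⟨u, huK, h⟩
      have hdw : 0 < dist w x := dist_pos.2 hwx
      set r := min (r0 / 2) (dist w x) with hr
      have hrpos : 0 < r := lt_min (by linarith) hdw
      obtain ⟨y, hy, hyr⟩ := h12 Y K hKc hKp x x r hx (by rw [dist_self]; exact hrpos.le)
        ⟨w, hwK, min_le_right _ _⟩
      set K' := connectedComponentIn (K ∩ closedBall x r) x with hK'
      have hxK' : x ∈ K' := mem_connectedComponentIn ⟨hx, mem_closedBall_self hrpos.le⟩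
      have hK'sub : K' ⊆ K ∩ closedBall x r := connectedComponentIn_subset _ _
      have hK'cl : IsClosed K' := by
        refine isClosed_of_closure_subset ?_
        exact isPreconnected_connectedComponentIn.closure.subset_connectedComponentIn
          (subset_closure hxK') (closure_minimal hK'sub (hKcl.inter isClosed_closedBall))
      have hK'c : IsCompact K' := hKc.of_isClosed_subset hK'cl (hK'sub.trans inter_subset_left)
      have hK'nt : K'.Nontrivial := by
        refine ⟨y, hy, x, hxK', ?_⟩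
        rintro rfl
        rw [dist_self] at hyr
        linarith
      have hK'F : K' ⊆ B \ F := by
        intro z hz
        refine ⟨(hKM (hK'sub hz).1).1, ?_⟩
        have h1 : z ∈ closedBall x r := (hK'sub hz).2
        have h2 : z ∈ ball x r0 := by
          rw [mem_closedBall] at h1
          rw [mem_ball]
          have := min_le_left (r0 / 2) (dist w x)
          linarith
        exact hr0' h2
      -- the countable set
      obtain ⟨-, hcount⟩ := h51 Y B F E hctx hE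
      have : Nonempty Y := ⟨u⟩
      choose! a b hab using hE.slab
      obtain ⟨z, hzK', hznice, hzS⟩ := h54b Y B F hctx K' hK'c
        isPreconnected_connectedComponentIn hK'nt hK'F (a '' E ∪ b '' E ∪ {u, v})
        (((hcount.image a).union (hcount.image b)).union
          ((countable_singleton v).insert u))
      have hzM : z ∈ B \ ⋃₀ E := hKM (hK'sub hzK').1
      obtain ⟨O, hO, hzO, hfin⟩ := h52 Y B F E hctx hE hMp z (hK'F hzK')
      have hzcl : ∀ e ∈ E, z ∉ closure e := by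
        intro e he hze
        rw [(hab e he).cl] at hze
        rcases hze with h | h | h
        · exact hzM.2 ⟨e, he, h⟩
        · exact hzS (Or.inl (Or.inl ⟨e, he, h.symm⟩))
        · exact hzS (Or.inl (Or.inr ⟨e, he, (mem_singleton_iff.1 h).symm⟩))
      set O' := (O ∩ ⋂ e ∈ {e ∈ E | (e ∩ O).Nonempty}, (closure e)ᶜ) ∩ ({u, v} : Set Y)ᶜ with hO'
      have hO'o : IsOpen O' :=
        (hO.inter (hfin.isOpen_biInter fun e _ => isClosed_closure.isOpen_compl)).inter
          (((finite_singleton v).insert u).isClosed.isOpen_compl)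
      have hzO' : z ∈ O' := by
        refine ⟨⟨hzO, ?_⟩, fun h => hzS (Or.inr h)⟩
        rw [mem_iInter₂]
        exact fun e he => hzcl e he.1
      obtain ⟨e, α, β, a', b', hn, hcle⟩ := hznice O' hO'o hzO'
      have heO' : e ⊆ O' := subset_closure.trans hcle
      have heM : e ⊆ B \ ⋃₀ E := by
        intro y hy
        refine ⟨hn.slab.sub hy, ?_⟩
        rintro ⟨e', he', hye'⟩
        have h1 := heO' hy
        have h2 := mem_iInter₂.1 h1.1.2 e' ⟨he', ⟨y, hye', h1.1.1⟩⟩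
        exact h2 (subset_closure hye')
      have hue : u ∉ e := fun h => (heO' h).2 (by simp)
      have hve : v ∉ e := fun h => (heO' h).2 (by simp)
      refine hslab e a' b' hn.slab heM hue hve z (hK'sub hzK').1 ?_
      rw [hn.eq]
      exact Or.inl (Or.inr rfl)
    -- the cut of F
    obtain ⟨n, hun, hvn⟩ := hABsep u (hKF huK) v (hKF hvK) huv
    obtain ⟨hA1, hB1, hd, hs⟩ := hAB n
    obtain ⟨c, hcK, hcA, hcB⟩ : ∃ c ∈ K, c ∉ A n ∧ c ∉ B' n := by
      by_contra hcon
      push Not at hcon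
      obtain ⟨x, hx, hxA, hxB⟩ := hKp (A n) (B' n) hA1 hB1 (by
        intro x hx
        by_cases h : x ∈ A n
        · exact Or.inl h
        · exact Or.inr (hcon x hx h)) ⟨u, huK, hun⟩ ⟨v, hvK, hvn⟩
      have : x ∈ A n ∩ B' n ∩ F := ⟨⟨hxA, hxB⟩, hKF hx⟩
      rw [hd] at this
      exact this
    obtain ⟨P, Q, hP, hQ, hPQ, hPQc, hAP, hBQ⟩ := hEw n c (hKF hcK) hcA hcB
    have hKcomp : K ⊆ connectedComponentIn F c := hKp.subset_connectedComponentIn hcK hKF
    have huP : u ∈ P := hAP ⟨hKcomp huK, hun⟩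
    have hvQ : v ∈ Q := hBQ ⟨hKcomp hvK, hvn⟩
    refine hno' (t57_sep hP hQ ?_ ?_ ?_ ?_)
    · exact (sdiff_subset_sdiff_right (sUnion_mono hEwE)).trans hPQ
    · rw [hPQc]
      exact subsingleton_singleton.anti inter_subset_right
    · intro h
      have : u ∈ P ∩ Q := ⟨huP, h⟩
      rw [hPQc, mem_singleton_iff] at this
      exact hcA (this ▸ hun)
    · intro h
      have : v ∈ P ∩ Q := ⟨h, hvQ⟩
      rw [hPQc, mem_singleton_iff] at this
      exact hcB (this ▸ hvn)
  exact ⟨E, hE, hTP, h11 Y _ hMc hMp hMne hTP⟩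

end Pool.Agent.H405
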