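import Pool.Agent.H405.T59
import Pool.Agent.R638.DD.Path

set_option autoImplicit false

/-! Project H405: piece 58 (retraction of `B` onto the dendrite left by the slabs). -/

namespace Pool.Agent.H405

open Set Topology Filter Metric
open Pool.Agent.R638.DD

/-- Peano continua in a metric space are uniformly locally path connected. -/
theorem t58_ulpc {Y : Type} [MetricSpace Y] {M : Set Y} (hM : IsPeano ↥M) {ε : ℝ} (hε : 0 < ε) :
    ∃ δ > 0, ∀ x y : ↥M, dist x y < δ → ∃ γ : Path x y, ∀ t, dist (γ t) x < ε := by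
  have := hM.compact
  have hloc : LocallyPathConnectedSpace ↥M := t_Path _ hM
  have hV : ∀ z : ↥M, ∃ V : Set ↥M, V ∈ 𝓝 z ∧ IsPathConnected V ∧ V ⊆ ball z (ε / 2) := by
    intro z
    obtain ⟨V, ⟨h1, h2⟩, h3⟩ := (path_connected_basis z).mem_iff.1 (ball_mem_nhds z (half_pos hε))
    exact ⟨V, h1, h2, h3⟩
  choose V hV1 hV2 hV3 using hV
  obtain ⟨δ, hδ, hL⟩ := lebesgue_number_lemma_of_metric (s := (univ : Set ↥M))
    (c := fun z => interior (V z)) isCompact_univ (fun z => isOpen_interior)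
    (fun z _ => mem_iUnion.2 ⟨z, mem_interior_iff_mem_nhds.2 (hV1 z)⟩)
  refine ⟨δ, hδ, fun x y hxy => ?_⟩
  obtain ⟨z, hz⟩ := hL x (mem_univ x)
  have hx : x ∈ V z := interior_subset (hz (mem_ball_self hδ))
  have hy : y ∈ V z := interior_subset (hz (by rw [mem_ball, dist_comm]; exact hxy))
  have hj := (hV2 z).joinedIn x hx y hy
  refine ⟨hj.somePath, fun t => ?_⟩
  have h1 := hV3 z (hj.somePath_mem t)
  have h2 := hV3 z hx
  rw [mem_ball] at h1 h2
  have h3 := dist_triangle_right (hj.somePath t) x z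
  linarith

/-- a path between two distinct points which is shortest up to a factor two. -/
theorem t58_path {Y : Type} [MetricSpace Y] {M : Set Y} (hM : IsPeano ↥M) (a b : ↥M)
    (hab : a ≠ b) : ∃ γ : Path a b, ∀ R : ℝ, ∀ γ' : Path a b, (∀ t, dist (γ' t) a < R) →
      ∀ t, dist (γ t) a < 2 * R := by
  have := hM.compact
  have := hM.connected
  have hloc : LocallyPathConnectedSpace ↥M := t_Path _ hM
  have hpc : PathConnectedSpace ↥M := pathConnectedSpace_iff_connectedSpace.2 inferInstance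
  let I : Set ℝ := {R | ∃ γ : Path a b, ∀ t, dist (γ t) a < R}
  have hlb : ∀ R ∈ I, dist a b ≤ R := by
    rintro R ⟨γ, hγ⟩
    have := hγ 1
    rw [γ.target, dist_comm] at this
    exact this.le
  have hne : I.Nonempty := by
    obtain ⟨γ⟩ := PathConnectedSpace.joined a b
    have hcomp : IsCompact (range γ) := isCompact_range γ.continuous
    obtain ⟨R, hR⟩ := hcomp.isBounded.subset_ball a
    exact ⟨R, γ, fun t => hR ⟨t, rfl⟩⟩
  have hbdd : BddBelow I := ⟨dist a b, hlb⟩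
  have hpos : 0 < sInf I := lt_of_lt_of_le (dist_pos.2 hab) (le_csInf hne hlb)
  obtain ⟨R1, ⟨γ, hγ⟩, hR1⟩ := exists_lt_of_csInf_lt hne (show sInf I < 2 * sInf I by linarith)
  refine ⟨γ, fun R γ' hγ' t => ?_⟩
  have h1 : sInf I ≤ R := csInf_le hbdd ⟨γ', hγ'⟩
  have h2 := hγ t
  linarith

theorem t58 (h17 : Stm17) (h51 : Stm51) : Stm58 := by
  intro Y _ B F E hctx hE hden
  have hM : IsPeano ↥(B \ ⋃₀ E) := hden.toIsPeano
  have hBc := hctx.compact
  have hBcl := hBc.isClosed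
  obtain ⟨hnull, -⟩ := h51 Y B F E hctx hE
  have hslab : ∀ e : ↥E, ∃ a b, Slab B F e.1 a b := fun e => hE.slab e.1 e.2
  choose a b hs using hslab
  have hend : ∀ j : ↥E, ∀ x ∈ closure j.1 \ j.1, x ∈ B \ ⋃₀ E := fun j x hx =>
    ⟨(hs j).cl_sub hBcl hx.1, hE.end_not_mem hBcl j.2 hx.1 hx.2⟩
  have haM : ∀ j, a j ∈ B \ ⋃₀ E := fun j => hend j _ ⟨(hs j).a_mem, (hs j).ha⟩
  have hbM : ∀ j, b j ∈ B \ ⋃₀ E := fun j => hend j _ ⟨(hs j).b_mem, (hs j).hb⟩
  have hpath := fun j : ↥E => t58_path hM ⟨a j, haM j⟩ ⟨b j, hbM j⟩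
    (fun h => (hs j).hab (congrArg Subtype.val h))
  choose γ hγ using hpath
  let ρ : ↥E → Y → Y := fun j x =>
    ((γ j).extend (dist x (a j) / (dist x (a j) + dist x (b j))) : ↥(B \ ⋃₀ E))
  have hden0 : ∀ j x, 0 < dist x (a j) + dist x (b j) := by
    intro j x
    have h1 := dist_pos.2 (hs j).hab
    have h2 := dist_triangle_left (a j) (b j) x
    linarith
  have hρc : ∀ j, Continuous (ρ j) := by
    intro j
    refine continuous_subtype_val.comp ((γ j).continuous_extend.comp ?_)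
    exact Continuous.div (by fun_prop) (by fun_prop) (fun x => (hden0 j x).ne')
  have hρM : ∀ j x, ρ j x ∈ B \ ⋃₀ E := fun j x => ((γ j).extend _).2
  have hρa : ∀ j, ρ j (a j) = a j := by
    intro j
    simp only [ρ, dist_self, zero_div, zero_add, Path.extend_zero]
  have hρb : ∀ j, ρ j (b j) = b j := by
    intro j
    have h : dist (b j) (a j) ≠ 0 := fun h => (hs j).hab (dist_eq_zero.1 h).symm
    simp only [ρ, dist_self, add_zero, div_self h, Path.extend_one]
  have hρd : ∀ j R, (∀ t, dist (γ j t) (⟨a j, haM j⟩ : ↥(B \ ⋃₀ E)) < R) →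
      ∀ x, dist (ρ j x) (a j) < R := by
    intro j R h x
    obtain ⟨t, ht⟩ : (γ j).extend (dist x (a j) / (dist x (a j) + dist x (b j))) ∈
        range (γ j) := by
      rw [← Path.extend_range]
      exact mem_range_self _
    have := h t
    rw [ht] at this
    exact this
  have hid : ∀ j : ↥E, ∀ x ∈ closure j.1 \ j.1, ρ j x = x := by
    rintro j x ⟨hx1, hx2⟩
    rw [(hs j).cl] at hx1
    rcases hx1 with h | h | h
    · exact absurd h hx2
    · rw [h]; exact hρa j
    · rw [mem_singleton_iff] at h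
      rw [h]; exact hρb j
  have hfin : ∀ ε : ℝ, 0 < ε → {j : ↥E | ∃ x ∈ j.1, ε ≤ dist (ρ j x) x}.Finite := by
    intro ε hε
    obtain ⟨δ, hδ, hδ'⟩ := t58_ulpc hM (show 0 < ε / 4 by linarith)
    have hm : 0 < min δ (ε / 2) := lt_min hδ (by linarith)
    refine ((hnull (min δ (ε / 2) / 2) (half_pos hm)).preimage (f := fun j : ↥E => j.1)
      (Subtype.val_injective.injOn)).subset ?_
    rintro j ⟨x, hx, hd⟩
    refine ⟨j.2, ?_⟩
    by_contra hcon
    have hsmall : ∀ u ∈ closure j.1, ∀ v ∈ closure j.1, dist u v < min δ (ε / 2) := by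
      intro u hu v hv
      by_contra h
      rw [not_lt] at h
      exact hcon (exists_dist_closure hm hu hv h)
    have h1 := hsmall _ (hs j).a_mem _ (hs j).b_mem
    obtain ⟨γ', hγ'⟩ := hδ' ⟨a j, haM j⟩ ⟨b j, hbM j⟩ (lt_of_lt_of_le h1 (min_le_left _ _))
    have h2 := hρd j _ (hγ j _ γ' hγ') x
    have h3 := lt_of_lt_of_le (hsmall _ (hs j).a_mem _ (subset_closure hx)) (min_le_right _ _)
    have h4 := dist_triangle (ρ j x) (a j) x
    linarith
  obtain ⟨σ, hσ1, hσ2, hσ3⟩ := h17 Y ↥E B (fun j => j.1) ρ hBcl (fun j => (hs j).rel)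
    (fun i j hij => hE.disj i.2 j.2 (fun h => hij (Subtype.ext h)))
    (fun j => (hρc j).continuousOn) hid hfin
  have hsU : ⋃₀ E = ⋃ j : ↥E, j.1 := sUnion_eq_iUnion
  refine ⟨σ, hσ1, ?_, ?_⟩
  · intro x hx
    by_cases h : x ∈ ⋃₀ E
    · obtain ⟨e, he, hxe⟩ := h
      rw [hσ2 ⟨e, he⟩ x hxe]
      exact hρM _ _
    · rw [hσ3 x ⟨hx, by rw [← hsU]; exact h⟩]
      exact ⟨hx, h⟩
  · intro x hx
    exact hσ3 x (by rw [← hsU]; exact hx)

end Pool.Agent.H405
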