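import Pool.Agent.H405.T42
import Pool.Agent.H405.Asm74

set_option autoImplicit false

/-! Project H405: (5.9) removing slabs is a reduction. -/

namespace Pool.Agent.H405

open Set Topology Filter Metric
open Pool.Agent.R638.DD

section

variable {Y : Type} [MetricSpace Y]

theorem Ctx.compact {B F : Set Y} (h : Ctx B F) : IsCompact B :=
  isCompact_iff_compactSpace.2 h.peano.compact

theorem Slab.sub {B F e : Set Y} {a b : Y} (h : Slab B F e a b) : e ⊆ B := by
  obtain ⟨O, _, rfl⟩ := h.rel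
  exact inter_subset_left

theorem Slab.cl_sub {B F e : Set Y} {a b : Y} (h : Slab B F e a b) (hB : IsClosed B) :
    closure e ⊆ B := closure_minimal h.sub hB

theorem Slab.a_mem {B F e : Set Y} {a b : Y} (h : Slab B F e a b) : a ∈ closure e := by
  rw [h.cl]; simp

theorem Slab.b_mem {B F e : Set Y} {a b : Y} (h : Slab B F e a b) : b ∈ closure e := by
  rw [h.cl]; simp

/-- points of the closure of a member outside the member are in no member. -/
theorem Fam.end_not_mem {B F : Set Y} {E : Set (Set Y)} (hE : Fam B F E) (hB : IsClosed B)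
    {e : Set Y} (he : e ∈ E) {x : Y} (hx : x ∈ closure e) (hxe : x ∉ e) : x ∉ ⋃₀ E := by
  rintro ⟨e', he', hxe'⟩
  have hne : e ≠ e' := fun h => hxe (h ▸ hxe')
  obtain ⟨a, b, hs⟩ := hE.slab e he
  obtain ⟨a', b', hs'⟩ := hE.slab e' he'
  obtain ⟨O, hO, hO'⟩ := hs'.rel
  have hxO : x ∈ O := by
    rw [hO'] at hxe'
    exact hxe'.2
  obtain ⟨z, hz1, hz2⟩ := mem_closure_iff.1 hx O hO hxO
  have hz : z ∈ e' := by
    rw [hO']
    exact ⟨hs.sub hz2, hz1⟩
  exact Set.disjoint_left.1 (hE.disj he he' hne) hz2 hz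

theorem Slab.isDen {B F e : Set Y} {a b : Y} (h11 : Stm11) (h : Slab B F e a b)
    (hB : IsCompact B) : IsDen ↥(closure e) :=
  h11 Y (closure e) (hB.of_isClosed_subset isClosed_closure (h.cl_sub hB.isClosed))
    h.conn.closure (h.ne.mono subset_closure) h.tp

/-- in a set, points of the closure are approximated. -/
theorem exists_dist_closure {e : Set Y} {u v : Y} {ε : ℝ} (hε : 0 < ε) (hu : u ∈ closure e)
    (hv : v ∈ closure e) (huv : ε ≤ dist u v) : ∃ u' ∈ e, ∃ v' ∈ e, ε / 2 ≤ dist u' v' := by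
  obtain ⟨u', hu', hu''⟩ := Metric.mem_closure_iff.1 hu (ε / 4) (by linarith)
  obtain ⟨v', hv', hv''⟩ := Metric.mem_closure_iff.1 hv (ε / 4) (by linarith)
  refine ⟨u', hu', v', hv', ?_⟩
  have h1 := dist_triangle u u' v
  have h2 := dist_triangle u' v' v
  rw [dist_comm v' v] at h2
  linarith

end

theorem t59 (h11 : Stm11) (h17 : Stm17) (h33 : Stm33) (h34 : Stm34) (h51 : Stm51)
    (h58 : Stm58) : Stm59 := by
  classical
  intro Y _ m hm B F E hctx hE hden A hA hBA U hU hBU J hJE hJ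
  have hBc := hctx.compact
  have hBcl := hBc.isClosed
  obtain ⟨hnull, hcount⟩ := h51 Y B F E hctx hE
  have hJcount : J.Countable := hcount.mono hJE
  have : Countable ↥J := hJcount.to_subtype
  obtain ⟨r, hrc, hrm, hri⟩ := h58 Y B F E hctx hE hden
  obtain ⟨y0, -⟩ := hden.connected.toNonempty
  haveI : Nonempty Y := ⟨y0⟩
  choose! a b hslab using hE.slab
  have hslab' : ∀ j : ↥J, Slab B F j.1 (a j.1) (b j.1) := fun j => hslab j.1 (hJE j.2)
  have hJB : ⋃₀ J ⊆ B := sUnion_subset fun e he => (hslab e (hJE he)).sub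
  have hopen : ∀ j : ↥J, ∃ O : Set Y, IsOpen O ∧ j.1 = A ∩ O := by
    intro j
    obtain ⟨O, hO, hO1, hO2⟩ := hJ j.1 j.2
    obtain ⟨O', hO', hO''⟩ := (hslab' j).rel
    refine ⟨O ∩ O', hO.inter hO', ?_⟩
    ext x
    constructor
    · intro hx
      have h1 := hx
      rw [hO''] at h1
      exact ⟨hBA h1.1, hO1 (subset_closure hx), h1.2⟩
    · rintro ⟨h1, h2, h3⟩
      rw [hO'']
      exact ⟨hO2 ⟨h2, h1⟩, h3⟩
  have hsU : ⋃₀ J = ⋃ j : ↥J, j.1 := sUnion_eq_iUnion
  have hdec : A \ (A \ ⋃₀ J) = ⋃₀ J := by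
    rw [sdiff_sdiff_right_self]
    exact inter_eq_right.2 (hJB.trans hBA)
  have hend : ∀ j : ↥J, ∀ x ∈ closure j.1 \ j.1, x ∈ B \ ⋃₀ E := fun j x hx =>
    ⟨(hslab' j).cl_sub hBcl hx.1, hE.end_not_mem hBcl (hJE j.2) hx.1 hx.2⟩
  have hBM : B \ ⋃₀ E ⊆ A \ ⋃₀ J := fun x hx => ⟨hBA hx.1, fun h => hx.2 (sUnion_mono hJE h)⟩
  have hnullJ : ∀ ε : ℝ, 0 < ε → {j : ↥J | ∃ u ∈ j.1, ∃ v ∈ j.1, ε ≤ dist u v}.Finite := by
    intro ε hε
    refine ((hnull ε hε).preimage (f := fun j : ↥J => j.1)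
      (Subtype.val_injective.injOn)).subset ?_
    rintro j ⟨u, hu, v, hv, h⟩
    exact ⟨hJE j.2, u, hu, v, hv, h⟩
  refine ⟨Set.sdiff_subset, ?_, ?_, ?_, ?_⟩
  · choose O hO hO' using hopen
    have : A \ ⋃₀ J = A \ ⋃ j, O j := by
      rw [hsU]
      ext x
      simp only [Set.mem_sdiff, mem_iUnion, not_exists]
      constructor
      · rintro ⟨h1, h2⟩
        exact ⟨h1, fun j hj => h2 j (by rw [hO' j]; exact ⟨h1, hj⟩)⟩
      · rintro ⟨h1, h2⟩
        refine ⟨h1, fun j hj => h2 j ?_⟩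
        rw [hO' j] at hj
        exact hj.2
    rw [this]
    exact hA.sdiff (isOpen_iUnion hO)
  · rw [hdec]
    exact hJB.trans hBU
  · rw [hdec, hsU, iUnion_prod_const]
    refine h33 Y (Fin m) ↥J (fun j => j.1 ×ˢ univ) (fun j => {a j.1, b j.1}) _ ?_ ?_ ?_ ?_
    · intro i j hij
      show Disjoint (i.1 ×ˢ (univ : Set (Fin m))) (j.1 ×ˢ univ)
      rw [Set.disjoint_left]
      rintro ⟨y, l⟩ ⟨h, _⟩ ⟨h', _⟩
      exact Set.disjoint_left.1 (hE.disj (hJE i.2) (hJE j.2) fun h => hij (Subtype.ext h)) h h'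
    · intro j
      have hs := hslab' j
      have h := h34 Y m hm (closure j.1) (a j.1) (b j.1) (hs.isDen h11 hBc) hs.a_mem hs.b_mem
        hs.hab
      have e1 : closure j.1 \ {a j.1, b j.1} = j.1 := by
        rw [hs.cl]
        ext y
        simp only [Set.mem_sdiff, mem_union, mem_insert_iff, mem_singleton_iff, not_or]
        constructor
        · rintro ⟨h | h, h1, h2⟩
          · exact h
          · exact (h.elim h1 h2).elim
        · intro h
          exact ⟨Or.inl h, fun h' => hs.ha (h' ▸ h), fun h' => hs.hb (h' ▸ h)⟩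
      rw [e1] at h
      exact h
    · intro j x hx
      have hs := hslab' j
      have hx' : x ∈ closure j.1 \ j.1 := by
        rcases hx with rfl | rfl
        · exact ⟨hs.a_mem, hs.ha⟩
        · exact ⟨hs.b_mem, hs.hb⟩
      have hxM := hend j x hx'
      have hxM' := hBM hxM
      refine ⟨?_, hBU hxM.1⟩
      rw [← hsU]
      exact hxM'
    · intro ε hε
      refine (hnullJ (ε / 2) (by linarith)).subset ?_
      rintro j ⟨u, hu, v, hv, huv⟩
      have hsub : Prod.fst '' (j.1 ×ˢ (univ : Set (Fin m))) ∪ {a j.1, b j.1} ⊆ closure j.1 := by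
        refine union_subset ?_ ?_
        · rintro _ ⟨⟨y, l⟩, ⟨h, _⟩, rfl⟩
          exact subset_closure h
        · rintro y (rfl | rfl)
          · exact (hslab' j).a_mem
          · exact (hslab' j).b_mem
      exact exists_dist_closure hε (hsub hu) (hsub hv) huv
  · obtain ⟨σ, hσc, hσe, hσi⟩ := h17 Y ↥J A (fun j => j.1) (fun _ => r) hA hopen
      (fun i j hij => hE.disj (hJE i.2) (hJE j.2) fun h => hij (Subtype.ext h))
      (fun j => hrc.mono ((hslab' j).cl_sub hBcl))
      (fun j x hx => hri x (hend j x hx)) (by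
        intro ε hε
        have hunif := hBc.uniformContinuousOn_of_continuous hrc
        rw [Metric.uniformContinuousOn_iff] at hunif
        obtain ⟨δ, hδ, hδ'⟩ := hunif (ε / 2) (by linarith)
        have hδ2 : 0 < min (δ / 2) (ε / 2) / 2 := by positivity
        refine (hnullJ _ hδ2).subset ?_
        rintro j ⟨x, hx, hxd⟩
        by_contra hcon
        have hs := hslab' j
        have haM := hend j (a j.1) ⟨hs.a_mem, hs.ha⟩
        have hsmall : dist x (a j.1) < min (δ / 2) (ε / 2) := by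
          by_contra h
          obtain ⟨u', hu', v', hv', h'⟩ := exists_dist_closure (e := j.1)
            (ε := min (δ / 2) (ε / 2)) (by positivity) (subset_closure hx) hs.a_mem (not_lt.1 h)
          exact hcon ⟨u', hu', v', hv', h'⟩
        have h1 : dist x (a j.1) < δ := by
          have := min_le_left (δ / 2) (ε / 2)
          linarith
        have h2 : dist x (a j.1) < ε / 2 := lt_of_lt_of_le hsmall (min_le_right _ _)
        have h3 := hδ' x (hs.sub hx) (a j.1) haM.1 h1
        rw [hri _ haM] at h3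
        have := dist_triangle (r x) (a j.1) x
        rw [dist_comm (a j.1) x] at this
        linarith)
    refine ⟨σ, hσc, ?_, ?_, ?_⟩
    · intro x hx
      by_cases h : ∃ j : ↥J, x ∈ j.1
      · obtain ⟨j, hj⟩ := h
        rw [hσe j x hj]
        exact hBM (hrm ((hslab' j).sub hj))
      · have hx' : x ∉ ⋃ j : ↥J, j.1 := fun h' => h (mem_iUnion.1 h')
        rw [hσi x ⟨hx, hx'⟩]
        rw [← hsU] at hx'
        exact ⟨hx, hx'⟩
    · intro x hx
      refine hσi x ⟨hx.1, ?_⟩
      rw [← hsU]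
      exact hx.2
    · intro x hx
      rw [hdec, hsU] at hx
      obtain ⟨j, hj⟩ := mem_iUnion.1 hx
      rw [hσe j x hj]
      exact hBU (hrm ((hslab' j).sub hj)).1

end Pool.Agent.H405
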