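import Pool.Agent.H405.T41

set_option autoImplicit false

/-! Project H405: (6.1) unions of good open sets are good. -/

namespace Pool.Agent.H405

open Set Topology Filter Metric
open Pool.Agent.R638.DD

theorem t61 (h41 : Stm41) (h43 : Stm43) : Stm61 := by
  classical
  intro Y _ m 𝒱 h𝒱 A hA K W hK hW hKW hWV
  obtain ⟨t, ht, htfin, htc⟩ := hK.elim_finite_subcover_image (b := 𝒱) (c := fun V => V)
    (fun V hV => (h𝒱 V hV).1) (by rw [← sUnion_eq_biUnion]; exact hKW.trans hWV)
  lift t to Finset (Set Y) using htfin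
  obtain ⟨Kf, hKf1, hKf2, hKf3⟩ := hK.finite_compact_cover t (fun V => V)
    (fun V hV => (h𝒱 V (ht hV)).1) htc
  have key : ∀ s : Finset (Set Y), s ⊆ t → ∃ A', Red m A A' W ∧
      ∀ V ∈ s, ∀ p ∈ Kf V ∩ A', LTP A' p := by
    intro s
    induction s using Finset.induction_on with
    | empty =>
      intro _
      exact ⟨A, Red.refl m hA.isCompact.isClosed W, by simp⟩
    | insert V s hVs ih =>
      intro hs
      obtain ⟨A1, h1, h1'⟩ := ih (fun x hx => hs (Finset.mem_insert_of_mem hx))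
      have hVt : V ∈ t := hs (Finset.mem_insert_self V s)
      have hKV : Kf V ⊆ K := by
        rw [hKf3]
        exact subset_biUnion_of_mem (u := fun i => Kf i) (by exact_mod_cast hVt)
      obtain ⟨A2, h2, h2'⟩ := (h𝒱 V (ht hVt)).2 A1 (h43.1 Y m A A1 W hA h1) (Kf V) (W ∩ V)
        (hKf1 V) (hW.inter (h𝒱 V (ht hVt)).1) (subset_inter (hKV.trans hKW) (hKf2 V))
        inter_subset_right
      refine ⟨A2, h41 Y m A A1 A2 W h1 (h2.mono inter_subset_left), ?_⟩
      intro V' hV' p hp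
      rcases Finset.mem_insert.1 hV' with rfl | hV'
      · exact h2' p hp
      · exact (h1' V' hV' p ⟨hp.1, h2.sub hp.2⟩).mono h2.sub
  obtain ⟨A', hA', hA''⟩ := key t Subset.rfl
  refine ⟨A', hA', ?_⟩
  rintro p ⟨hp, hp'⟩
  rw [hKf3] at hp
  simp only [mem_iUnion] at hp
  obtain ⟨V, hV, hpV⟩ := hp
  exact hA'' V hV p ⟨hpV, hp'⟩

end Pool.Agent.H405
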