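import Pool.Agent.H405.Stm

set_option autoImplicit false

/-! Project H405, piece T62: a countable set meeting every nondegenerate continuum. -/

namespace Pool.Agent.H405

open Set Topology Filter Metric

theorem t62 (h12 : Stm12) (h14 : Stm14) : Stm62 := by
  intro Y _ _ ⟨T, hT, hTu⟩
  have h : ∀ n, ∃ A B : ℕ → Set Y, (∀ k, IsOpen (A k) ∧ IsOpen (B k) ∧ A k ∩ B k ∩ T n = ∅ ∧
      (T n \ (A k ∪ B k)).Subsingleton) ∧
      ∀ u ∈ T n, ∀ v ∈ T n, u ≠ v → ∃ k, u ∈ A k ∧ v ∈ B k := fun n => h14 Y (T n) (hT n).2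
  choose A B hAB hsep using h
  refine ⟨⋃ n, ⋃ k, T n \ (A n k ∪ B n k), ?_, ?_⟩
  · exact countable_iUnion fun n => countable_iUnion fun k => ((hAB n k).2.2.2).countable
  intro K hK hKc hKn
  have : CompactSpace ↥K := isCompact_iff_compactSpace.mp hK
  obtain ⟨k0, hk0⟩ := hKn.nonempty
  have : Nonempty ↥K := ⟨⟨k0, hk0⟩⟩
  obtain ⟨n, ⟨x, hxK⟩, hx⟩ := nonempty_interior_of_iUnion_of_closed
    (f := fun n => (Subtype.val ⁻¹' T n : Set ↥K))
    (fun n => (hT n).1.preimage continuous_subtype_val) (by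
      rw [← preimage_iUnion, hTu, preimage_univ])
  obtain ⟨O', hO'1, hO', hxO'⟩ := mem_interior.mp hx
  obtain ⟨O, hO, hOO'⟩ := isOpen_induced_iff.mp hO'
  have hxO : x ∈ O := by
    rw [← hOO'] at hxO'
    exact hxO'
  have hOT : O ∩ K ⊆ T n := by
    rintro z ⟨hzO, hzK⟩
    have : (⟨z, hzK⟩ : ↥K) ∈ O' := by
      rw [← hOO']
      exact hzO
    exact hO'1 this
  obtain ⟨y, hyK, hyx⟩ := hKn.exists_ne x
  obtain ⟨ε, hε, hεO⟩ := Metric.isOpen_iff.mp hO x hxO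
  have hd : 0 < dist y x := dist_pos.mpr hyx
  set r := min (ε / 2) (dist y x) with hr
  have hr0 : 0 < r := lt_min (half_pos hε) hd
  obtain ⟨z, hz, hzr⟩ := h12 Y K hK hKc x x r hxK (by rw [dist_self]; exact hr0.le)
    ⟨y, hyK, min_le_right _ _⟩
  set C := connectedComponentIn (K ∩ closedBall x r) x with hC
  have hxC : x ∈ C := mem_connectedComponentIn ⟨hxK, mem_closedBall_self hr0.le⟩
  have hCsub : C ⊆ K ∩ closedBall x r := connectedComponentIn_subset _ _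
  have hCT : C ⊆ T n := by
    intro w hw
    refine hOT ⟨hεO ?_, (hCsub hw).1⟩
    rw [mem_ball]
    have h1 := mem_closedBall.mp (hCsub hw).2
    have h2 : r ≤ ε / 2 := min_le_left _ _
    linarith
  have hzx : z ≠ x := by
    intro h
    rw [h, dist_self] at hzr
    exact absurd hzr hr0.ne
  obtain ⟨k, hkA, hkB⟩ := hsep n x (hCT hxC) z (hCT hz) hzx.symm
  obtain ⟨hA, hB, hABe, hABs⟩ := hAB n k
  by_contra hcon
  have hCAB : C ⊆ A n k ∪ B n k := by
    intro w hw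
    by_contra hw'
    exact hcon ⟨w, (hCsub hw).1, mem_iUnion.mpr ⟨n, mem_iUnion.mpr ⟨k, hCT hw, hw'⟩⟩⟩
  obtain ⟨w, hw, hwAB⟩ := isPreconnected_connectedComponentIn (A n k) (B n k) hA hB hCAB
    ⟨x, hxC, hkA⟩ ⟨z, hz, hkB⟩
  have : w ∈ A n k ∩ B n k ∩ T n := ⟨hwAB, hCT hw⟩
  rw [hABe] at this
  exact this

end Pool.Agent.H405
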