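import Pool.Agent.H405.Stm

set_option autoImplicit false

/-! Project H405, piece T63: decomposition of an open set in cells and a totally disconnected
remainder. -/

namespace Pool.Agent.H405

open Set Topology Filter Metric

/-- a 1-Lipschitz function which is positive exactly on `V` -/
theorem t63_phi {Y : Type} [MetricSpace Y] (V : Set Y) (hV : IsOpen V) :
    ∃ φ : Y → ℝ, (∀ x y, φ x ≤ φ y + dist x y) ∧ (∀ x, x ∈ V ↔ 0 < φ x) := by
  by_cases h : (Vᶜ).Nonempty
  · refine ⟨fun x => infDist x Vᶜ, fun x y => infDist_le_infDist_add_dist, fun x => ?_⟩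
    have hc : IsClosed Vᶜ := hV.isClosed_compl
    have := hc.notMem_iff_infDist_pos h (x := x)
    rw [← this]
    simp
  · refine ⟨fun _ => 1, ?_, ?_⟩
    · intro x y
      have := dist_nonneg (x := x) (y := y)
      linarith
    · intro x
      simp only [zero_lt_one, iff_true]
      by_contra hx
      exact h ⟨x, hx⟩

/-- enumeration of a countable set with a default value -/
theorem t63_enum {α : Type} (Q : Set α) (hQ : Q.Countable) (d : α) :
    ∃ f : ℕ → α, (∀ n, f n ∈ Q ∨ f n = d) ∧ Q ⊆ range f ∧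
      ∀ P : Set α, d ∉ P → (Q ∩ P).Finite → {n | f n ∈ P}.Finite := by
  classical
  obtain ⟨e, he⟩ := Set.countable_iff_exists_injOn.mp hQ
  refine ⟨fun n => if h : ∃ q ∈ Q, e q = n then h.choose else d, ?_, ?_, ?_⟩
  · intro n
    by_cases h : ∃ q ∈ Q, e q = n
    · left
      simp only [h, dite_true]
      exact h.choose_spec.1
    · right
      simp only [h, dite_false]
  · intro q hq
    refine ⟨e q, ?_⟩
    have h : ∃ q' ∈ Q, e q' = e q := ⟨q, hq, rfl⟩
    simp only [h, dite_true]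
    exact he h.choose_spec.1 hq h.choose_spec.2
  · intro P hd hfin
    refine (hfin.image e).subset ?_
    intro n hn
    simp only [mem_ofPred_eq] at hn
    by_cases h : ∃ q ∈ Q, e q = n
    · simp only [h, dite_true] at hn
      exact ⟨h.choose, ⟨h.choose_spec.1, hn⟩, h.choose_spec.2⟩
    · simp only [h, dite_false] at hn
      exact absurd hn hd

/-- the balls -/
theorem t63_balls {Y : Type} [MetricSpace Y] [CompactSpace Y] [Nonempty Y] (S : Set Y)
    (hS : S.Countable) (V : Set Y) (hV : IsOpen V) :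
    ∃ (y : ℕ → Y) (r : ℕ → ℝ), (∀ j, closedBall (y j) (r j) ⊆ V) ∧
      (∀ j, ∀ s ∈ S, dist s (y j) ≠ r j) ∧ (∀ ε : ℝ, 0 < ε → {j | ε ≤ r j}.Finite) ∧
      V ⊆ ⋃ j, ball (y j) (r j) := by
  classical
  obtain ⟨φ, hφ, hφV⟩ := t63_phi V hV
  -- radii
  have hrad : ∀ (n : ℕ) (y : Y), ∃ r : ℝ, 1 / (3 * ((n : ℝ) + 1)) < r ∧
      r < 2 / (3 * ((n : ℝ) + 1)) ∧ ∀ s ∈ S, dist s y ≠ r := by
    intro n y
    have hn : (0 : ℝ) < 3 * ((n : ℝ) + 1) := by positivity
    have hlt : 1 / (3 * ((n : ℝ) + 1)) < 2 / (3 * ((n : ℝ) + 1)) := by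
      apply div_lt_div_of_pos_right _ hn
      norm_num
    have hcount : ((fun s => dist s y) '' S).Countable := hS.image _
    have hunc : ¬ (Ioo (1 / (3 * ((n : ℝ) + 1))) (2 / (3 * ((n : ℝ) + 1)))).Countable := by
      intro hc
      have h1 := Cardinal.mk_Ioo_real hlt
      have h2 := hc.le_aleph0
      rw [h1] at h2
      exact absurd h2 (not_le.mpr Cardinal.aleph0_lt_continuum)
    have : ¬ (Ioo (1 / (3 * ((n : ℝ) + 1))) (2 / (3 * ((n : ℝ) + 1))) ⊆
        (fun s => dist s y) '' S) := fun h => hunc (hcount.mono h)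
    obtain ⟨r, hr, hr'⟩ := not_subset.mp this
    refine ⟨r, hr.1, hr.2, fun s hs h => hr' ⟨s, hs, h⟩⟩
  choose R hR1 hR2 hR3 using hrad
  have hnet : ∀ n : ℕ, ∃ t : Finset Y, (univ : Set Y) ⊆ ⋃ y ∈ t, ball y
      (1 / (3 * ((n : ℝ) + 1))) := by
    intro n
    have hn : (0 : ℝ) < 1 / (3 * ((n : ℝ) + 1)) := by positivity
    obtain ⟨t, -, ht⟩ := isCompact_univ.elim_nhds_subcover
      (fun y : Y => ball y (1 / (3 * ((n : ℝ) + 1)))) (fun y _ => ball_mem_nhds y hn)
    exact ⟨t, ht⟩
  choose t ht using hnet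
  set Q : Set (Y × ℝ) := ⋃ n : ℕ, (fun y => (y, R n y)) '' {y | y ∈ t n ∧
    1 / ((n : ℝ) + 1) < φ y} with hQdef
  have hfin : ∀ n : ℕ, ((fun y => (y, R n y)) '' {y | y ∈ t n ∧
      1 / ((n : ℝ) + 1) < φ y}).Finite := by
    intro n
    apply Set.Finite.image
    exact (t n).finite_toSet.subset (fun y hy => hy.1)
  have hQc : Q.Countable := countable_iUnion (fun n => (hfin n).countable)
  obtain ⟨f, hf1, hf2, hf3⟩ := t63_enum Q hQc (Classical.arbitrary Y, -1)
  refine ⟨fun n => (f n).1, fun n => (f n).2, ?_, ?_, ?_, ?_⟩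
  · intro j
    rcases hf1 j with h | h
    · obtain ⟨n, y, hy, hyf⟩ := mem_iUnion.mp h
      simp only at hyf
      show closedBall (f j).1 (f j).2 ⊆ V
      rw [← hyf]
      intro x hx
      rw [hφV]
      have h1 := hφ y x
      have h2 : dist y x ≤ R n y := by rw [dist_comm]; exact hx
      have h3 := hR2 n y
      have h4 := hy.2
      have h5 : 2 / (3 * ((n : ℝ) + 1)) ≤ 1 / ((n : ℝ) + 1) := by
        rw [div_le_div_iff₀ (by positivity) (by positivity)]
        nlinarith [(Nat.cast_nonneg n : (0 : ℝ) ≤ n)]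
      linarith
    · simp only [h]
      intro x hx
      have := dist_nonneg (x := x) (y := Classical.arbitrary Y)
      rw [mem_closedBall] at hx
      linarith
  · intro j s hs
    rcases hf1 j with h | h
    · obtain ⟨n, y, hy, hyf⟩ := mem_iUnion.mp h
      simp only at hyf
      show dist s (f j).1 ≠ (f j).2
      rw [← hyf]
      exact hR3 n y s hs
    · simp only [h]
      intro h'
      have := dist_nonneg (x := s) (y := Classical.arbitrary Y)
      linarith
  · intro ε hε
    have := hf3 {q | ε ≤ q.2} (by simp only [mem_ofPred_eq]; linarith) ?_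
    · exact this
    · obtain ⟨N, hN⟩ := exists_nat_gt (1 / ε)
      refine (Set.Finite.biUnion (finite_Iic N) (fun n _ => hfin n)).subset ?_
      rintro ⟨y, r⟩ ⟨hq, hr⟩
      obtain ⟨n, y', hy', hyf⟩ := mem_iUnion.mp hq
      refine mem_biUnion (x := n) ?_ ⟨y', hy', hyf⟩
      simp only [mem_ofPred_eq] at hr
      simp only [Prod.mk.injEq] at hyf
      rw [← hyf.2] at hr
      have h3 := hR2 n y'
      rw [mem_Iic]
      by_contra hcon
      push Not at hcon
      have hcon' : (N : ℝ) < n := by exact_mod_cast hcon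
      have hn0 : (0 : ℝ) < 3 * ((n : ℝ) + 1) := by positivity
      have h4 : ε < 2 / (3 * ((n : ℝ) + 1)) := lt_of_le_of_lt hr h3
      rw [lt_div_iff₀ hn0] at h4
      have h5 : 1 < N * ε := by
        rw [div_lt_iff₀ hε] at hN
        exact hN
      nlinarith
  · intro x hx
    have hx0 := (hφV x).mp hx
    obtain ⟨n, hn⟩ := exists_nat_gt (2 / φ x)
    have hx1 := ht n (mem_univ x)
    simp only [mem_iUnion] at hx1
    obtain ⟨y, hy, hxy⟩ := hx1
    have hq : (y, R n y) ∈ Q := by
      refine mem_iUnion.mpr ⟨n, y, ⟨hy, ?_⟩, rfl⟩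
      have h1 := hφ x y
      have h2 : dist x y < 1 / (3 * ((n : ℝ) + 1)) := hxy
      have h3 : 1 / (3 * ((n : ℝ) + 1)) + 1 / ((n : ℝ) + 1) < φ x := by
        have hn0 : (0 : ℝ) < ((n : ℝ) + 1) := by positivity
        have h4 : 1 / (3 * ((n : ℝ) + 1)) + 1 / ((n : ℝ) + 1) = (4 / 3) / ((n : ℝ) + 1) := by
          field_simp
          norm_num
        rw [h4, div_lt_iff₀ hn0]
        rw [div_lt_iff₀ hx0] at hn
        nlinarith
      linarith
    obtain ⟨j, hj⟩ := hf2 hq
    refine mem_iUnion.mpr ⟨j, ?_⟩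
    simp only [hj]
    rw [mem_ball]
    exact lt_trans (mem_ball.mp hxy) (hR1 n y)

/-- small compact relatively open sets -/
theorem t63_clopen {Y : Type} [MetricSpace Y] [CompactSpace Y] (S : Set Y)
    (hS : ∀ K : Set Y, IsCompact K → IsPreconnected K → K.Nontrivial → (K ∩ S).Nonempty)
    (V : Set Y) (H : Set Y) (hHS : Disjoint H S) (hcl : IsClosed (H ∪ Vᶜ))
    (x : Y) (hx : x ∈ H) (δ : ℝ) (hδ : 0 < δ) (hb : closedBall x δ ⊆ V) :
    ∃ K O : Set Y, IsCompact K ∧ IsOpen O ∧ K = H ∩ O ∧ x ∈ K ∧ K ⊆ ball x δ := by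
  set N : Set Y := (H ∪ Vᶜ) ∩ closedBall x δ with hN
  have hNc : IsCompact N := (hcl.inter isClosed_closedBall).isCompact
  have hNH : N ⊆ H := by
    rintro z ⟨hz | hz, hz'⟩
    · exact hz
    · exact absurd (hb hz') hz
  have htd : IsTotallyDisconnected N := by
    intro T hTN hT
    by_contra hne
    rw [not_subsingleton_iff] at hne
    have h1 : closure T ⊆ N := hNc.isClosed.closure_subset_iff.mpr hTN
    obtain ⟨z, hz, hzS⟩ := hS (closure T) isClosed_closure.isCompact hT.closure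
      (hne.mono subset_closure)
    exact disjoint_left.mp hHS (hNH (h1 hz)) hzS
  have : CompactSpace ↥N := isCompact_iff_compactSpace.mp hNc
  have : TotallyDisconnectedSpace ↥N := by
    rw [totallyDisconnectedSpace_subtype_iff]
    exact htd
  have hxN : x ∈ N := ⟨Or.inl hx, mem_closedBall_self hδ.le⟩
  obtain ⟨W, hW, hxW, hWU⟩ := compact_exists_isClopen_in_isOpen
    (X := ↥N) (U := Subtype.val ⁻¹' ball x δ) (isOpen_ball.preimage continuous_subtype_val)
    (x := ⟨x, hxN⟩) (mem_ball_self hδ)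
  obtain ⟨O, hO, hOW⟩ := isOpen_induced_iff.mp hW.isOpen
  refine ⟨Subtype.val '' W, O ∩ ball x δ, ?_, hO.inter isOpen_ball, ?_, ?_, ?_⟩
  · exact hW.isClosed.isCompact.image continuous_subtype_val
  · ext z
    constructor
    · rintro ⟨w, hw, rfl⟩
      refine ⟨hNH w.2, ?_, hWU hw⟩
      rw [← hOW] at hw
      exact hw
    · rintro ⟨hzH, hzO, hzb⟩
      refine ⟨⟨z, Or.inl hzH, ball_subset_closedBall hzb⟩, ?_, rfl⟩
      rw [← hOW]
      exact hzO
  · exact ⟨⟨x, hxN⟩, hxW, rfl⟩
  · rintro z ⟨w, hw, rfl⟩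
    exact hWU hw

/-- decomposition of the remainder -/
theorem t63_rem {Y : Type} [MetricSpace Y] [CompactSpace Y] (S : Set Y)
    (hS : ∀ K : Set Y, IsCompact K → IsPreconnected K → K.Nontrivial → (K ∩ S).Nonempty)
    (V : Set Y) (hV : IsOpen V) (H : Set Y) (hHV : H ⊆ V) (hHS : Disjoint H S)
    (hcl : IsClosed (H ∪ Vᶜ)) :
    ∃ G O : ℕ → Set Y, (∀ i, IsCompact (G i) ∧ IsOpen (O i) ∧ G i = H ∩ O i) ∧
      Pairwise (fun i j => Disjoint (G i) (G j)) ∧ NullFam G ∧ H = ⋃ i, G i := by
  classical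
  obtain ⟨φ, hφ, hφV⟩ := t63_phi V hV
  have hlip : LipschitzWith 1 φ := LipschitzWith.of_le_add hφ
  rcases H.eq_empty_or_nonempty with rfl | hne
  · refine ⟨fun _ => ∅, fun _ => ∅, ?_, ?_, ?_, ?_⟩
    · intro i
      exact ⟨isCompact_empty, isOpen_empty, by simp⟩
    · intro i j _
      simp
    · intro ε _
      simp
    · simp
  have hb : ∀ x ∈ H, closedBall x (φ x / 10) ⊆ V := by
    intro x hx z hz
    rw [hφV]
    have h1 := hφ x z
    have h2 : dist x z ≤ φ x / 10 := by rw [dist_comm]; exact hz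
    have h3 := (hφV x).mp (hHV hx)
    linarith
  have hK : ∀ x : Y, ∃ K O : Set Y, x ∈ H → (IsCompact K ∧ IsOpen O ∧ K = H ∩ O ∧ x ∈ K ∧
      K ⊆ ball x (φ x / 10)) := by
    intro x
    by_cases hx : x ∈ H
    · obtain ⟨K, O, h⟩ := t63_clopen S hS V H hHS hcl x hx (φ x / 10)
        (by have := (hφV x).mp (hHV hx); linarith) (hb x hx)
      exact ⟨K, O, fun _ => h⟩
    · exact ⟨∅, ∅, fun h => absurd h hx⟩
  choose K O hKO using hK
  have : SecondCountableTopology Y := UniformSpace.secondCountable_of_separable Y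
  obtain ⟨T, hTH, hTc, hTcov⟩ := TopologicalSpace.countable_cover_nhdsWithin (s := H) (f := K)
    (by
      intro x hx
      obtain ⟨_, h2, h3, h4, _⟩ := hKO x hx
      rw [h3] at h4 ⊢
      exact inter_mem_nhdsWithin H (h2.mem_nhds h4.2))
  have hTne : T.Nonempty := by
    obtain ⟨x, hx⟩ := hne
    have := hTcov hx
    simp only [mem_iUnion] at this
    obtain ⟨i, hi, _⟩ := this
    exact ⟨i, hi⟩
  obtain ⟨x, hxT⟩ := hTc.exists_eq_range hTne
  have hxH : ∀ n, x n ∈ H := fun n => hTH (hxT ▸ mem_range_self n)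
  -- the pieces
  have hcomp : ∀ n, IsCompact (disjointed (fun n => K (x n)) n) ∧
      ∃ O : Set Y, IsOpen O ∧ disjointed (fun n => K (x n)) n = H ∩ O := by
    intro n
    refine disjointedRec (f := fun n => K (x n))
      (p := fun A => IsCompact A ∧ ∃ O : Set Y, IsOpen O ∧ A = H ∩ O) ?_ ?_
    · rintro A i ⟨hA, OA, hOA, rfl⟩
      obtain ⟨h1, h2, h3, _, _⟩ := hKO (x i) (hxH i)
      refine ⟨?_, OA \ K (x i), hOA.sdiff h1.isClosed, ?_⟩
      · have : (H ∩ OA) \ K (x i) = (H ∩ OA) \ O (x i) := by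
          ext z
          simp only [Set.mem_sdiff]
          constructor
          · rintro ⟨hz, hz'⟩
            refine ⟨hz, fun hzO => hz' ?_⟩
            rw [h3]
            exact ⟨hz.1, hzO⟩
          · rintro ⟨hz, hz'⟩
            refine ⟨hz, fun hzO => hz' ?_⟩
            rw [h3] at hzO
            exact hzO.2
        show IsCompact ((H ∩ OA) \ K (x i))
        rw [this]
        exact hA.diff h2
      · show (H ∩ OA) \ K (x i) = _
        ext z
        simp only [Set.mem_sdiff, mem_inter_iff]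
        tauto
    · obtain ⟨h1, h2, h3, _, _⟩ := hKO (x n) (hxH n)
      exact ⟨h1, O (x n), h2, h3⟩
  choose hc Og hOg hGO using hcomp
  have hsub : ∀ n, disjointed (fun n => K (x n)) n ⊆ K (x n) := fun n => disjointed_subset _ n
  have hunion : H = ⋃ i, disjointed (fun n => K (x n)) i := by
    rw [iUnion_disjointed]
    apply Subset.antisymm
    · refine hTcov.trans ?_
      rw [hxT]
      simp
    · refine iUnion_subset (fun n => ?_)
      obtain ⟨_, _, h3, _, _⟩ := hKO (x n) (hxH n)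
      rw [h3]
      exact inter_subset_left
  have hdisj : Pairwise (fun i j => Disjoint (disjointed (fun n => K (x n)) i)
      (disjointed (fun n => K (x n)) j)) := disjoint_disjointed _
  refine ⟨disjointed (fun n => K (x n)), Og, fun i => ⟨hc i, hOg i, hGO i⟩, hdisj, ?_, hunion⟩
  intro ε hε
  -- compact part of `H`
  have hcpt : IsCompact ((H ∪ Vᶜ) ∩ {z | ε ≤ φ z}) :=
    (hcl.inter (isClosed_le continuous_const hlip.continuous)).isCompact
  have hcH : (H ∪ Vᶜ) ∩ {z | ε ≤ φ z} ⊆ H := by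
    rintro z ⟨hz | hz, hz'⟩
    · exact hz
    · exfalso
      apply hz
      rw [hφV]
      exact lt_of_lt_of_le hε hz'
  obtain ⟨t, ht⟩ := hcpt.elim_finite_subcover Og hOg (by
    intro z hz
    have hzH := hcH hz
    rw [hunion] at hzH
    obtain ⟨i, hi⟩ := mem_iUnion.mp hzH
    rw [hGO] at hi
    exact mem_iUnion.mpr ⟨i, hi.2⟩)
  refine t.finite_toSet.subset ?_
  rintro i ⟨u, hu, v, hv, huv⟩
  obtain ⟨_, _, _, _, h5⟩ := hKO (x i) (hxH i)
  have hu1 : dist u (x i) < φ (x i) / 10 := h5 (hsub i hu)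
  have hv1 : dist v (x i) < φ (x i) / 10 := h5 (hsub i hv)
  have h6 : dist u v ≤ dist u (x i) + dist v (x i) := dist_triangle_right u v (x i)
  have h7 := hφ (x i) u
  have h8 : dist (x i) u = dist u (x i) := dist_comm _ _
  have huG : u ∈ (H ∪ Vᶜ) ∩ {z | ε ≤ φ z} := by
    refine ⟨Or.inl ?_, ?_⟩
    · rw [hunion]
      exact mem_iUnion.mpr ⟨i, hu⟩
    · show ε ≤ φ u
      linarith
  have := ht huG
  simp only [mem_iUnion] at this
  obtain ⟨j, hj, huj⟩ := this
  by_cases hij : i = j
  · rw [hij]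
    exact hj
  · exfalso
    refine disjoint_left.mp (hdisj hij) hu ?_
    rw [hGO j]
    exact ⟨hcH huG, huj⟩

/-- disjoint neighbourhoods of the pieces -/
theorem t63_nbhd {Y : Type} [MetricSpace Y]
    (V : Set Y) (H : Set Y) (hcl : IsClosed (H ∪ Vᶜ)) (hV : IsOpen V) (hHV : H ⊆ V)
    (G O : ℕ → Set Y) (hG : ∀ i, IsCompact (G i) ∧ IsOpen (O i) ∧ G i = H ∩ O i)
    (hdisj : Pairwise (fun i j => Disjoint (G i) (G j))) (hnull : NullFam G) :
    ∃ U : ℕ → Set Y, (∀ i, G i ⊆ U i ∧ IsOpen (U i) ∧ U i ⊆ V) ∧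
      Pairwise (fun i j => Disjoint (U i) (U j)) ∧ NullFam U := by
  have h1 : ∀ i, ∃ δ : ℝ, 0 < δ ∧ Disjoint (thickening δ (G i))
      (thickening δ ((H \ G i) ∪ Vᶜ)) := by
    intro i
    obtain ⟨hc, hO, hGO⟩ := hG i
    have hclosed : IsClosed ((H \ G i) ∪ Vᶜ) := by
      have : (H \ G i) ∪ Vᶜ = (H ∪ Vᶜ) ∩ (O i ∩ V)ᶜ := by
        ext z
        rw [hGO]
        simp only [mem_union, Set.mem_sdiff, mem_inter_iff, mem_compl_iff]
        have := @hHV z
        tauto
      rw [this]
      exact hcl.inter (hO.inter hV).isClosed_compl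
    have hd : Disjoint (G i) ((H \ G i) ∪ Vᶜ) := by
      rw [disjoint_left]
      rintro z hz (hz' | hz')
      · exact hz'.2 hz
      · rw [hGO] at hz
        exact hz' (hHV hz.1)
    obtain ⟨δ, hδ, h⟩ := hd.exists_thickenings hc hclosed
    exact ⟨δ, hδ, h⟩
  choose δ hδ hδd using h1
  have hρ : ∀ i : ℕ, 0 < min (δ i) (1 / ((i : ℝ) + 1)) := by
    intro i
    exact lt_min (hδ i) (by positivity)
  have hsubi : ∀ i j, i ≠ j → G j ⊆ (H \ G i) ∪ Vᶜ := by
    intro i j hij z hz
    left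
    refine ⟨?_, fun hz' => disjoint_left.mp (hdisj hij) hz' hz⟩
    rw [(hG j).2.2] at hz
    exact hz.1
  refine ⟨fun i => thickening (min (δ i) (1 / ((i : ℝ) + 1)) / 2) (G i), ?_, ?_, ?_⟩
  · intro i
    refine ⟨self_subset_thickening (half_pos (hρ i)) _, isOpen_thickening, ?_⟩
    intro z hz
    by_contra hzV
    have hz1 : z ∈ thickening (δ i) (G i) := by
      refine thickening_mono ?_ _ hz
      have := min_le_left (δ i) (1 / ((i : ℝ) + 1))
      have := hρ i
      linarith
    refine disjoint_left.mp (hδd i) hz1 (self_subset_thickening (hδ i) _ (Or.inr hzV))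
  · intro i j hij
    rw [disjoint_left]
    intro z hzi hzj
    obtain ⟨a, ha, haz⟩ := mem_thickening_iff.mp hzi
    obtain ⟨b, hb, hbz⟩ := mem_thickening_iff.mp hzj
    rcases le_total (min (δ i) (1 / ((i : ℝ) + 1))) (min (δ j) (1 / ((j : ℝ) + 1))) with h | h
    · -- use `j`
      have ha2 : a ∈ thickening (δ j) (G j) := by
        refine mem_thickening_iff.mpr ⟨b, hb, ?_⟩
        have h3 := dist_triangle_left a b z
        have := min_le_left (δ j) (1 / ((j : ℝ) + 1))
        linarith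
      exact disjoint_left.mp (hδd j) ha2
        (self_subset_thickening (hδ j) _ (hsubi j i hij.symm ha))
    · have hb2 : b ∈ thickening (δ i) (G i) := by
        refine mem_thickening_iff.mpr ⟨a, ha, ?_⟩
        have h3 := dist_triangle_left b a z
        have := min_le_left (δ i) (1 / ((i : ℝ) + 1))
        linarith
      exact disjoint_left.mp (hδd i) hb2
        (self_subset_thickening (hδ i) _ (hsubi i j hij hb))
  · intro ε hε
    obtain ⟨N, hN⟩ := exists_nat_gt (2 / ε)
    refine ((hnull (ε / 2) (half_pos hε)).union (finite_Iic N)).subset ?_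
    rintro i ⟨u, hu, v, hv, huv⟩
    by_cases hi : i ≤ N
    · exact Or.inr hi
    · left
      push Not at hi
      obtain ⟨a, ha, hau⟩ := mem_thickening_iff.mp hu
      obtain ⟨b, hb, hbv⟩ := mem_thickening_iff.mp hv
      refine ⟨a, ha, b, hb, ?_⟩
      have h3 : dist u v ≤ dist u a + dist a b + dist b v := dist_triangle4 u a b v
      have h4 : dist b v = dist v b := dist_comm _ _
      have h5 := min_le_right (δ i) (1 / ((i : ℝ) + 1))
      have h6 : 1 / ((i : ℝ) + 1) < ε / 2 := by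
        have hi' : (N : ℝ) < i := by exact_mod_cast hi
        rw [div_lt_iff₀ hε] at hN
        rw [div_lt_iff₀ (by positivity)]
        nlinarith
      linarith

theorem t63 : Stm63 := by
  intro Y _ _ S hSc hS V hV
  classical
  rcases V.eq_empty_or_nonempty with rfl | ⟨v0, hv0⟩
  · refine ⟨fun _ => ∅, fun _ => ∅, fun _ => ∅, ?_, ?_, ?_, ?_, ?_, ?_, ?_⟩
    · intro j
      simp
    · intro i j _
      simp
    · intro ε _
      simp
    · simp
    · intro i
      simp
    · intro i j _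
      simp
    · intro ε _
      simp
  have : Nonempty Y := ⟨v0⟩
  obtain ⟨y, r, hyV, hyS, hyfin, hcov⟩ := t63_balls S hSc V hV
  set C : ℕ → Set Y := fun j => ball (y j) (r j) \ ⋃ i ∈ Finset.range j,
    closedBall (y i) (r i) with hC
  have hCo : ∀ j, IsOpen (C j) := by
    intro j
    refine isOpen_ball.sdiff ?_
    exact Set.Finite.isClosed_biUnion (Finset.finite_toSet _) (fun i _ => isClosed_closedBall)
  have hCb : ∀ j, C j ⊆ ball (y j) (r j) := fun j => sdiff_subset
  have hCcl : ∀ j, closure (C j) ⊆ closedBall (y j) (r j) := fun j =>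
    closure_minimal ((hCb j).trans ball_subset_closedBall) isClosed_closedBall
  have hCd : Pairwise (fun i j => Disjoint (C i) (C j)) := by
    have key : ∀ i j, i < j → Disjoint (C i) (C j) := by
      intro i j hij
      rw [disjoint_left]
      intro z hzi hzj
      apply hzj.2
      simp only [mem_iUnion]
      exact ⟨i, Finset.mem_range.mpr hij, ball_subset_closedBall hzi.1⟩
    intro i j hij
    rcases lt_or_gt_of_ne hij with h | h
    · exact key i j h
    · exact (key j i h).symm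
  have hCn : NullFam C := by
    intro ε hε
    refine (hyfin (ε / 2) (half_pos hε)).subset ?_
    rintro j ⟨u, hu, v, hv, huv⟩
    have h1 := mem_ball.mp (hCb j hu)
    have h2 := mem_ball.mp (hCb j hv)
    have h3 := dist_triangle_right u v (y j)
    show ε / 2 ≤ r j
    linarith
  set H : Set Y := V \ ⋃ j, C j with hH
  have hHS : Disjoint H S := by
    rw [disjoint_left]
    intro z hz hzS
    have h1 : ∃ j, z ∈ closedBall (y j) (r j) := by
      obtain ⟨j, hj⟩ := mem_iUnion.mp (hcov hz.1)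
      exact ⟨j, ball_subset_closedBall hj⟩
    have h2 := Nat.find_spec h1
    have h3 : ∀ i < Nat.find h1, z ∉ closedBall (y i) (r i) := fun i hi => Nat.find_min h1 hi
    apply hz.2
    refine mem_iUnion.mpr ⟨Nat.find h1, ?_, ?_⟩
    · rw [mem_ball]
      exact lt_of_le_of_ne (mem_closedBall.mp h2) (hyS _ z hzS)
    · simp only [mem_iUnion, not_exists]
      intro i hi
      exact h3 i (Finset.mem_range.mp hi)
  have hHcl : IsClosed (H ∪ Vᶜ) := by
    have : H ∪ Vᶜ = (⋃ j, C j)ᶜ := by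
      ext z
      constructor
      · rintro (hz | hz)
        · exact hz.2
        · intro hz'
          obtain ⟨j, hj⟩ := mem_iUnion.mp hz'
          exact hz (hyV j (hCcl j (subset_closure hj)))
      · intro hz
        by_cases hzV : z ∈ V
        · exact Or.inl ⟨hzV, hz⟩
        · exact Or.inr hzV
    rw [this]
    exact (isOpen_iUnion hCo).isClosed_compl
  have hHV : H ⊆ V := sdiff_subset
  obtain ⟨G, O, hG, hGd, hGn, hGu⟩ := t63_rem S hS V hV H hHV hHS hHcl
  obtain ⟨U, hU, hUd, hUn⟩ := t63_nbhd V H hHcl hV hHV G O hG hGd hGn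
  exact ⟨C, G, U, fun j => ⟨hCo j, (hCcl j).trans (hyV j)⟩, hCd, hCn, hGu,
    fun i => ⟨(hG i).1, (hU i).1, (hU i).2.1, (hU i).2.2⟩, hUd, hUn⟩

end Pool.Agent.H405
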