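import Pool.Agent.H405.T61
import Pool.Agent.H405.Asm74

set_option autoImplicit false

/-! Project H405: (6.4) a good open set can be reduced completely. -/

namespace Pool.Agent.H405

open Set Topology Filter Metric
open Pool.Agent.R638.DD

theorem LTP.of_not_mem {Y : Type} [MetricSpace Y] {A : Set Y} (hA : IsClosed A) {p : Y}
    (hp : p ∉ A) : LTP A p := by
  obtain ⟨r, hr, h⟩ := Metric.isOpen_iff.1 hA.isOpen_compl p hp
  refine ⟨r / 2, by linarith, ?_⟩
  intro u hu
  have : u ∈ ball p r := by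
    have := hu.2
    rw [mem_closedBall] at this
    rw [mem_ball]; linarith
  exact absurd hu.1 (h this)

theorem t64 (h41 : Stm41) (h42 : Stm42) (h43 : Stm43) (h62 : Stm62) (h63 : Stm63) : Stm64 := by
  intro Y _ _ m hSTP V hV hG A hA
  obtain ⟨S, hS, hS'⟩ := h62 Y hSTP
  obtain ⟨C, H, U, hC, hCd, hCn, hCH, hU, hUd, hUn⟩ := h63 Y S hS hS' V hV
  -- first stage
  have h1 : ∀ i, ∃ A', Red m A A' (U i) ∧ ∀ p ∈ H i ∩ A', LTP A' p := fun i =>
    hG A hA (H i) (U i) (hU i).1 (hU i).2.2.1 (hU i).2.1 (hU i).2.2.2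
  choose A1 hA1 hA1' using h1
  have hAc : IsClosed A := hA.isCompact.isClosed
  have hB := h42 Y ℕ m A A1 U hAc (fun i => (hU i).2.2.1) hUd hUn hA1
  set B := A ∩ ⋂ i, A1 i with hBdef
  have hPB : PP B := h43.1 Y m A B _ hA hB
  -- the open set where `B` is locally TP
  let O : Set Y := {p | LTP B p}
  have hO : IsOpen O := by
    rw [Metric.isOpen_iff]
    intro p hp
    obtain ⟨r, hr, h⟩ := LTP.open' hp
    exact ⟨r, hr, fun q hq => h q hq⟩
  have hHO : ∀ i, H i ⊆ O := by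
    intro i p hp
    by_cases h : p ∈ A1 i
    · exact (hA1' i p ⟨hp, h⟩).mono (inter_subset_right.trans (iInter_subset _ i))
    · exact LTP.of_not_mem hB.closed (fun h' => h (mem_iInter.1 h'.2 i))
  -- second stage
  have hK : ∀ j, closure (C j) \ O ⊆ C j := by
    rintro j x ⟨hx, hxO⟩
    have hxV : x ∈ V := (hC j).2 hx
    by_contra hxC
    by_cases hex : ∃ l, x ∈ C l
    · obtain ⟨l, hl⟩ := hex
      have hlj : l ≠ j := fun h => hxC (h ▸ hl)
      obtain ⟨z, hz1, hz2⟩ := mem_closure_iff.1 hx (C l) (hC l).1 hl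
      exact Set.disjoint_left.1 (hCd hlj) hz1 hz2
    · have : x ∈ V \ ⋃ j, C j := ⟨hxV, fun h => hex (mem_iUnion.1 h)⟩
      rw [hCH] at this
      obtain ⟨i, hi⟩ := mem_iUnion.1 this
      exact hxO (hHO i hi)
  have h2 : ∀ j, ∃ A', Red m B A' (C j) ∧ ∀ p ∈ (closure (C j) \ O) ∩ A', LTP A' p := fun j =>
    hG B hPB _ (C j) ((isClosed_closure.sdiff hO).isCompact) (hC j).1 (hK j)
      (subset_closure.trans (hC j).2)
  choose A2 hA2 hA2' using h2
  have hD := h42 Y ℕ m B A2 C hB.closed (fun i => (hC i).1) hCd hCn hA2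
  set D := B ∩ ⋂ i, A2 i with hDdef
  have hUV : (⋃ i, U i) ⊆ V := iUnion_subset fun i => (hU i).2.2.2
  have hCV : (⋃ j, C j) ⊆ V := iUnion_subset fun j => subset_closure.trans (hC j).2
  refine ⟨D, h41 Y m A B D V (hB.mono hUV) (hD.mono hCV), ?_⟩
  intro p hp
  by_cases hpD : p ∈ D
  · by_cases hpO : p ∈ O
    · exact LTP.mono hpO inter_subset_left
    · have hpC : ∃ j, p ∈ C j := by
        by_contra h
        have : p ∈ V \ ⋃ j, C j := ⟨hp, fun h' => h (mem_iUnion.1 h')⟩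
        rw [hCH] at this
        obtain ⟨i, hi⟩ := mem_iUnion.1 this
        exact hpO (hHO i hi)
      obtain ⟨j, hj⟩ := hpC
      have hpA : p ∈ A2 j := mem_iInter.1 hpD.2 j
      exact (hA2' j p ⟨⟨subset_closure hj, hpO⟩, hpA⟩).mono
        (inter_subset_right.trans (iInter_subset _ j))
  · exact LTP.of_not_mem hD.closed hpD

end Pool.Agent.H405
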