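import Pool.Agent.H405.T64

set_option autoImplicit false

/-! Project H405: (6.5), (6.6). -/

namespace Pool.Agent.H405

open Set Topology Filter Metric
open Pool.Agent.R638.DD

theorem t65 (h16 : Stm16) (h41 : Stm41) (h43 : Stm43) (h44 : Stm44) (h510 : Stm510)
    (h64 : Stm64) : Stm65 := by
  classical
  intro Y _ _ m hm hSTP U V T hU hGU hV hT hVU A hA K W hK hW hKW hWV
  obtain ⟨A1, hA1, hA1'⟩ := h64 Y m hSTP (W ∩ U) (hW.inter hU) (hGU.anti inter_subset_right) A hA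
  have hPP1 : PP A1 := h43.1 Y m A A1 _ hA hA1
  have hloc : ∀ p : Y, p ∈ K ∩ A1 → ∃ B O : Set Y, IsPeano ↥B ∧ B ⊆ A1 ∩ W ∧ IsOpen O ∧ p ∈ O ∧
      O ∩ A1 ⊆ B := fun p hp => h44 Y A1 hPP1 p hp.2 W hW (hKW hp.1)
  choose! B O hB hBW hO hpO hOB using hloc
  have hKc : IsCompact (K ∩ A1) := hK.inter_right hA1.closed
  obtain ⟨t, ht, htfin, htc⟩ := hKc.elim_finite_subcover_image (b := K ∩ A1) (c := O)
    (fun p hp => hO p hp) (fun p hp => mem_biUnion hp (hpO p hp))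
  lift t to Finset Y using htfin
  obtain ⟨Kf, hKf1, hKf2, hKf3⟩ := hKc.finite_compact_cover t O (fun p hp => hO p (ht hp)) htc
  have key : ∀ s : Finset Y, s ⊆ t → ∃ A', Red m A1 A' W ∧
      ∀ p ∈ s, ∀ q ∈ Kf p ∩ A', LTP A' q := by
    intro s
    induction s using Finset.induction_on with
    | empty =>
      intro _
      exact ⟨A1, Red.refl m hA1.closed W, by simp⟩
    | insert p s hps ih =>
      intro hs
      obtain ⟨A', h1, h1'⟩ := ih (fun x hx => hs (Finset.mem_insert_of_mem hx))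
      have hpt : p ∈ K ∩ A1 := ht (hs (Finset.mem_insert_self p s))
      obtain ⟨ρ, c, mm, ii, uu⟩ := h1.retr
      have hBp := hBW p hpt
      have hB' : IsPeano ↥(ρ '' B p) := h16.2.1 Y (B p) ρ (hB p hpt)
        (c.mono fun x hx => (hBp hx).1)
      have hB'W : ρ '' B p ⊆ A' ∩ W := by
        rintro _ ⟨x, hx, rfl⟩
        refine ⟨mm (hBp hx).1, ?_⟩
        by_cases hxA : x ∈ A'
        · rw [ii x hxA]; exact (hBp hx).2
        · exact uu x ⟨(hBp hx).1, hxA⟩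
      obtain ⟨A2, h2, h2'⟩ := h510 Y m hm A' W Uᶜ (ρ '' B p) (O p) (Kf p) h1.closed hW
        hU.isClosed_compl (by
          rintro q ⟨⟨hq1, hq2⟩, hq3⟩
          exact (hA1' q ⟨hq2, not_not.1 hq3⟩).mono h1.sub) hB' hB'W
        (hT.mono (by
          rintro q ⟨hq1, hq2⟩
          exact hVU ⟨hWV (hB'W hq2).2, hq1⟩)) (hO p hpt) (by
          rintro q ⟨hq1, hq2⟩
          exact ⟨q, hOB p hpt ⟨hq1, h1.sub hq2⟩, ii q hq2⟩) (hKf1 p) (hKf2 p)
      refine ⟨A2, h41 Y m A1 A' A2 W h1 h2, ?_⟩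
      intro p' hp' q hq
      rcases Finset.mem_insert.1 hp' with rfl | hp'
      · exact h2' q hq
      · exact (h1' p' hp' q ⟨hq.1, h2.sub hq.2⟩).mono h2.sub
  obtain ⟨A', hA', hA''⟩ := key t Subset.rfl
  refine ⟨A', h41 Y m A A1 A' W (hA1.mono inter_subset_left) hA', ?_⟩
  rintro q ⟨hq, hq'⟩
  have : q ∈ K ∩ A1 := ⟨hq, hA'.sub hq'⟩
  rw [hKf3] at this
  simp only [mem_iUnion] at this
  obtain ⟨p, hp, hpq⟩ := this
  exact hA'' p hp q ⟨hpq, hq'⟩

theorem t66 (h61 : Stm61) (h65 : Stm65) : Stm66 := by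
  intro Y _ _ m hm hSTP
  let 𝒱 : Set (Set Y) := {V | IsOpen V ∧ Good m V}
  have hU : Good m (⋃₀ 𝒱) := h61 Y m 𝒱 (fun V hV => hV)
  have hUo : IsOpen (⋃₀ 𝒱) := isOpen_sUnion fun V hV => hV.1
  have hun : ⋃₀ 𝒱 = univ := by
    by_contra hne
    obtain ⟨T, hT, hTu⟩ := hSTP
    let F : Set Y := (⋃₀ 𝒱)ᶜ
    have hF : IsClosed F := hUo.isClosed_compl
    have hFne : F.Nonempty := by
      rw [Set.nonempty_compl]
      exact hne
    have : Nonempty ↥F := hFne.to_subtype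
    have hcF : CompactSpace ↥F := isCompact_iff_compactSpace.1 hF.isCompact
    obtain ⟨n, hn⟩ := nonempty_interior_of_iUnion_of_closed
      (f := fun n => ((↑) : ↥F → Y) ⁻¹' (T n))
      (fun n => (hT n).1.preimage continuous_subtype_val) (by
        rw [← preimage_iUnion, hTu, preimage_univ])
    obtain ⟨x, hx⟩ := hn
    rw [mem_interior] at hx
    obtain ⟨O, hO, hOo, hxO⟩ := hx
    obtain ⟨V, hV, rfl⟩ := isOpen_induced_iff.1 hOo
    have hgood : Good m V := h65 Y m hm ⟨T, hT, hTu⟩ (⋃₀ 𝒱) V (T n) hUo hU hV (hT n).2 (by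
      rintro y ⟨hy, hy'⟩
      exact hO (show (⟨y, hy'⟩ : ↥F) ∈ _ from hy))
    exact x.2 (mem_sUnion.2 ⟨V, ⟨hV, hgood⟩, hxO⟩)
  rw [hun] at hU
  exact hU

end Pool.Agent.H405
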