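import Pool.Agent.H405.Stm

set_option autoImplicit false

/-! Project H405, (7.1): the image is a countable union of closed sets with the property TP. -/

namespace Pool.Agent.H405

open Set Topology Filter Metric
open Pool.Agent.R638.DD

theorem t71_fiber {X Y : Type} {f : X → Y} {k : ℕ} (hk : 1 ≤ k)
    (hfib : ∀ y, (f ⁻¹' {y}).ncard = k) {C : Fin k → Set X}
    (hC : ∀ i j, i ≠ j → Disjoint (C i) (C j)) {y : Y} (hy : ∀ j, y ∈ f '' C j)
    {x x' : X} {i : Fin k} (hx : x ∈ C i) (hx' : x' ∈ C i) (hfx : f x = y) (hfx' : f x' = y) :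
    x = x' := by
  classical
  choose p hp hpy using hy
  have hfin : (f ⁻¹' {y}).Finite := finite_of_ncard_ne_zero (by rw [hfib y]; omega)
  have hinj : Function.Injective p := by
    intro a b hab
    by_contra hne
    exact Set.disjoint_left.1 (hC a b hne) (hp a) (hab ▸ hp b)
  have hr : range p = f ⁻¹' {y} := by
    refine Set.eq_of_subset_of_ncard_le ?_ ?_ hfin
    · rintro _ ⟨j, rfl⟩
      exact hpy j
    · rw [hfib y, ← image_univ, ncard_image_of_injective _ hinj, ncard_univ, Nat.card_eq_fintype_card,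
        Fintype.card_fin]
  have key : ∀ z ∈ C i, f z = y → z = p i := by
    intro z hz hzy
    have : z ∈ range p := by rw [hr]; exact hzy
    obtain ⟨j, rfl⟩ := this
    by_contra hne
    have hij : j ≠ i := fun h => hne (by rw [h])
    exact Set.disjoint_left.1 (hC j i hij) (hp j) hz
  rw [key x hx hfx, key x' hx' hfx']

theorem t71_tp {X Y : Type} [TopologicalSpace X] [CompactSpace X] [MetricSpace Y] {f : X → Y}
    {k : ℕ} (hf : Continuous f) (h3 : ThirdPoint X) (hk : 1 ≤ k)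
    (hfib : ∀ y, (f ⁻¹' {y}).ncard = k) {C : Fin k → Set X} (hcl : ∀ j, IsClosed (C j))
    (hC : ∀ i j, i ≠ j → Disjoint (C i) (C j)) :
    IsClosed (⋂ j, f '' C j) ∧ TP (⋂ j, f '' C j) := by
  have hclo : ∀ j, IsClosed (f '' C j) := fun j => ((hcl j).isCompact.image hf).isClosed
  have hT : IsClosed (⋂ j, f '' C j) := isClosed_iInter hclo
  refine ⟨hT, fun u hu v hv huv => ?_⟩
  let i0 : Fin k := ⟨0, hk⟩
  obtain ⟨x, hx, hxu⟩ := mem_iInter.1 hu i0
  obtain ⟨x', hx', hxv⟩ := mem_iInter.1 hv i0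
  have hne : x ≠ x' := fun h => huv (by rw [← hxu, ← hxv, h])
  obtain ⟨r, A, B, hA, hB, hAB, hAB', hxA, hxB⟩ := h3 x x' hne
  have hun : ∀ y ∈ ⋂ j, f '' C j, ∀ z ∈ C i0, ∀ z' ∈ C i0, f z = y → f z' = y → z = z' :=
    fun y hy z hz z' hz' h1 h2 => t71_fiber hk hfib hC (fun j => mem_iInter.1 hy j) hz hz' h1 h2
  have hcomp : ∀ O : Set X, IsOpen O → IsClosed (f '' (C i0 \ O)) := fun O hO =>
    (((hcl i0).sdiff hO).isCompact.image hf).isClosed
  refine ⟨(f '' (C i0 \ A))ᶜ, (f '' (C i0 \ B))ᶜ, (hcomp A hA).isOpen_compl,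
    (hcomp B hB).isOpen_compl, ?_, ?_, ?_, ?_⟩
  · rintro ⟨z, ⟨hz, hzA⟩, hzu⟩
    exact hzA (hun u hu z hz x hx hzu hxu ▸ hxA)
  · rintro ⟨z, ⟨hz, hzA⟩, hzu⟩
    exact hzA (hun v hv z hz x' hx' hzu hxv ▸ hxB)
  · ext y
    simp only [mem_inter_iff, mem_compl_iff, mem_empty_iff_false, iff_false, not_and]
    rintro ⟨h1, h2⟩ hy
    obtain ⟨z, hz, hzy⟩ := mem_iInter.1 hy i0
    have h4 : z ∈ A := by
      by_contra h
      exact h1 ⟨z, ⟨hz, h⟩, hzy⟩
    have h5 : z ∈ B := by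
      by_contra h
      exact h2 ⟨z, ⟨hz, h⟩, hzy⟩
    exact Set.disjoint_left.1 hAB h4 h5
  · have key : ∀ y ∈ (⋂ j, f '' C j) \ ((f '' (C i0 \ A))ᶜ ∪ (f '' (C i0 \ B))ᶜ), y = f r := by
      rintro y ⟨hy, hn⟩
      simp only [mem_union, mem_compl_iff, not_or, not_not] at hn
      obtain ⟨⟨z, ⟨hz, hzA⟩, hzy⟩, ⟨z', ⟨hz', hzB⟩, hzy'⟩⟩ := hn
      rw [hun y hy z' hz' z hz hzy' hzy] at hzB
      have h6 : z ∉ ({r} : Set X)ᶜ := by
        rw [← hAB']
        rintro (h | h)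
        · exact hzA h
        · exact hzB h
      simp only [mem_compl_iff, mem_singleton_iff, not_not] at h6
      rw [← hzy, h6]
    intro y hy z hz
    rw [key y hy, key z hz]

theorem t71 : Stm71 := by
  classical
  intro X Y _ _ f k hX hf hk hfib
  have := hX.compact
  have := hX.metrizable
  let _ : MetricSpace X := TopologicalSpace.metrizableSpaceMetric X
  let 𝓑 := TopologicalSpace.countableBasis X
  let 𝒯 : Set (Set Y) := (fun C : Fin k → Set X => ⋂ j, f '' closure (C j)) ''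
    {C | (∀ j, C j ∈ 𝓑) ∧ ∀ i j, i ≠ j → Disjoint (closure (C i)) (closure (C j))}
  have hc : (𝒯 ∪ {∅}).Countable := by
    refine Countable.union (Countable.image ?_ _) (countable_singleton _)
    refine (Set.countable_pi (s := fun _ : Fin k => 𝓑) fun _ =>
      TopologicalSpace.countable_countableBasis X).mono fun C hC => hC.1
  obtain ⟨T, hT⟩ := hc.exists_eq_range ⟨∅, Or.inr rfl⟩
  refine ⟨T, fun n => ?_, ?_⟩
  · have h1 : T n ∈ 𝒯 ∪ {∅} := by rw [hT]; exact ⟨n, rfl⟩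
    rcases h1 with ⟨C, ⟨-, hC⟩, h1⟩ | h1
    · rw [← h1]
      exact t71_tp hf hX.third hk hfib (fun j => isClosed_closure) hC
    · have h1 : T n = ∅ := h1
      rw [h1]
      exact ⟨isClosed_empty, fun u hu => absurd hu (notMem_empty u)⟩
  · rw [eq_univ_iff_forall]
    intro y
    have hfin : (f ⁻¹' {y}).Finite := finite_of_ncard_ne_zero (by rw [hfib y]; omega)
    obtain ⟨e⟩ : Nonempty (Fin k ≃ ↥(f ⁻¹' {y})) := by
      have := hfin.fintype
      have h1 : Fintype.card ↥(f ⁻¹' {y}) = k := by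
        rw [← hfib y, ← Nat.card_coe_set_eq, Nat.card_eq_fintype_card]
      exact ⟨(Fintype.equivFinOfCardEq h1).symm⟩
    obtain ⟨U, hU, hUd⟩ := hfin.t2_separation
    have hex : ∀ j : Fin k, ∃ t ∈ 𝓑, (e j : X) ∈ t ∧ closure t ⊆ U (e j) := fun j =>
      (TopologicalSpace.isBasis_countableBasis X).exists_closure_subset
        ((hU (e j)).2.mem_nhds (hU (e j)).1)
    choose C hC1 hC2 hC3 using hex
    have hmem : (⋂ j, f '' closure (C j)) ∈ 𝒯 ∪ {∅} := by
      refine Or.inl ⟨C, ⟨hC1, fun i j hij => ?_⟩, rfl⟩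
      refine Disjoint.mono (hC3 i) (hC3 j) (hUd (e i).2 (e j).2 fun h => hij ?_)
      exact e.injective (Subtype.ext h)
    rw [hT] at hmem
    obtain ⟨n, hn⟩ := hmem
    refine mem_iUnion.2 ⟨n, ?_⟩
    rw [hn]
    refine mem_iInter.2 fun j => ⟨e j, subset_closure (hC2 j), ?_⟩
    exact (e j).2

end Pool.Agent.H405
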