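import Pool.Agent.H405.Stm

set_option autoImplicit false

/-! Project H405, (7.2): Gottschalk for dendrites. -/

namespace Pool.Agent.H405

open Set Topology Filter Metric
open Pool.Agent.R638.DD

/-- there are at least `k` independent locally constant functions on `S` -/
def t72_Pt {X : Type} [TopologicalSpace X] (k : ℕ) (S : Set X) : Prop :=
  ∃ g : Fin k → X → ZMod 2, (∀ j, ContinuousOn (g j) S) ∧
    ∀ a : Fin k → ZMod 2, (∀ x ∈ S, ∑ j, a j * g j x = 0) → a = 0

theorem t72_point {X : Type} [TopologicalSpace X] [T2Space X] {k : ℕ} {S : Set X}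
    (hk : 1 ≤ k) (hS : S.ncard = k) : t72_Pt k S := by
  classical
  have hfin : S.Finite := finite_of_ncard_ne_zero (by omega)
  obtain ⟨e⟩ : Nonempty (Fin k ≃ S) := by
    have := hfin.fintype
    have h1 : Fintype.card S = k := by
      rw [← hS, ← Nat.card_coe_set_eq, Nat.card_eq_fintype_card]
    exact ⟨(Fintype.equivFinOfCardEq h1).symm⟩
  refine ⟨fun j x => if x = (e j : X) then 1 else 0, fun j x hx => ?_, fun a ha => ?_⟩
  · have h1 : (S \ {x})ᶜ ∈ 𝓝 x :=
      (hfin.subset sdiff_subset).isClosed.isOpen_compl.mem_nhds (by simp)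
    refine ContinuousWithinAt.congr_of_eventuallyEq (f := fun _ => if x = (e j : X) then 1 else 0)
      continuousWithinAt_const ?_ rfl
    filter_upwards [mem_nhdsWithin_of_mem_nhds h1, self_mem_nhdsWithin] with y hy hyS
    have : y = x := by
      by_contra hne
      exact hy ⟨hyS, hne⟩
    rw [this]
  · funext j
    have := ha (e j) (e j).2
    rw [Finset.sum_eq_single j] at this
    · simpa using this
    · intro i _ hij
      have h2 : (e j : X) ≠ (e i : X) := fun h => hij (e.injective (Subtype.ext h)).symm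
      simp [h2]
    · simp

/-- gluing -/
theorem t72_glue {X : Type} [TopologicalSpace X] {k : ℕ} {S1 S2 : Set X}
    (h1c : IsClosed S1) (h2c : IsClosed S2) (h1 : t72_Pt k S1) (h2 : t72_Pt k S2)
    (hf : (S1 ∩ S2).Finite) (hn : (S1 ∩ S2).ncard ≤ k) : t72_Pt k (S1 ∪ S2) := by
  classical
  obtain ⟨g1, hg1, hi1⟩ := h1
  obtain ⟨g2, hg2, hi2⟩ := h2
  have := hf.fintype
  let Φ : ((Fin k → ZMod 2) × (Fin k → ZMod 2)) →ₗ[ZMod 2] (↥(S1 ∩ S2) → ZMod 2) :=
    { toFun := fun ab x => ∑ j, ab.1 j * g1 j x - ∑ j, ab.2 j * g2 j x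
      map_add' := by
        intro p q
        funext x
        simp only [Prod.fst_add, Prod.snd_add, Pi.add_apply, add_mul, Finset.sum_add_distrib]
        ring
      map_smul' := by
        intro c p
        funext x
        simp only [Prod.smul_fst, Prod.smul_snd, Pi.smul_apply, smul_eq_mul, RingHom.id_apply,
          mul_assoc, ← Finset.mul_sum]
        ring }
  have hker : k ≤ Module.finrank (ZMod 2) (LinearMap.ker Φ) := by
    have h3 := LinearMap.finrank_range_add_finrank_ker Φ
    have h4 : Module.finrank (ZMod 2) (LinearMap.range Φ) ≤ k := by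
      refine (Submodule.finrank_le _).trans ?_
      rw [Module.finrank_fintype_fun_eq_card, ← Nat.card_eq_fintype_card, Nat.card_coe_set_eq]
      exact hn
    rw [Module.finrank_prod, Module.finrank_fintype_fun_eq_card, Fintype.card_fin] at h3
    omega
  obtain ⟨u, hu⟩ := exists_linearIndependent_of_le_finrank hker
  have hS : ∀ i, ∀ x ∈ S1 ∩ S2, ∑ j, (u i).1.1 j * g1 j x = ∑ j, (u i).1.2 j * g2 j x := by
    intro i x hx
    have h5 : Φ (u i).1 = 0 := (u i).2
    have h6 := congrFun h5 ⟨x, hx⟩
    exact sub_eq_zero.1 h6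
  let h : Fin k → X → ZMod 2 := fun i x =>
    if x ∈ S1 then ∑ j, (u i).1.1 j * g1 j x else ∑ j, (u i).1.2 j * g2 j x
  have hh1 : ∀ i, ∀ x ∈ S1, h i x = ∑ j, (u i).1.1 j * g1 j x := fun i x hx => if_pos hx
  have hh2 : ∀ i, ∀ x ∈ S2, h i x = ∑ j, (u i).1.2 j * g2 j x := by
    intro i x hx
    by_cases hx1 : x ∈ S1
    · rw [hh1 i x hx1]
      exact hS i x ⟨hx1, hx⟩
    · exact if_neg hx1
  refine ⟨h, fun i => ?_, fun c hc => ?_⟩
  · refine ContinuousOn.union_of_isClosed ?_ ?_ h1c h2c
    · refine ContinuousOn.congr (f := fun x => ∑ j, (u i).1.1 j * g1 j x) ?_ (hh1 i)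
      have h7 : Continuous fun z : Fin k → ZMod 2 => ∑ j, (u i).1.1 j * z j :=
        continuous_of_discreteTopology
      exact h7.comp_continuousOn (continuousOn_pi.2 hg1)
    · refine ContinuousOn.congr (f := fun x => ∑ j, (u i).1.2 j * g2 j x) ?_ (hh2 i)
      have h7 : Continuous fun z : Fin k → ZMod 2 => ∑ j, (u i).1.2 j * z j :=
        continuous_of_discreteTopology
      exact h7.comp_continuousOn (continuousOn_pi.2 hg2)
  · have e1 : (fun j => ∑ i, c i * (u i).1.1 j) = 0 := by
      refine hi1 _ fun x hx => ?_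
      rw [← hc x (Or.inl hx)]
      simp only [Finset.sum_mul]
      rw [Finset.sum_comm]
      refine Finset.sum_congr rfl fun i _ => ?_
      rw [hh1 i x hx, Finset.mul_sum]
      exact Finset.sum_congr rfl fun j _ => by ring
    have e2 : (fun j => ∑ i, c i * (u i).1.2 j) = 0 := by
      refine hi2 _ fun x hx => ?_
      rw [← hc x (Or.inr hx)]
      simp only [Finset.sum_mul]
      rw [Finset.sum_comm]
      refine Finset.sum_congr rfl fun i _ => ?_
      rw [hh2 i x hx, Finset.mul_sum]
      exact Finset.sum_congr rfl fun j _ => by ring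
    have e3 : ∑ i, c i • u i = 0 := by
      apply Subtype.ext
      refine Prod.ext ?_ ?_
      · funext j
        have := congrFun e1 j
        simp only [Pi.zero_apply] at this
        simp [Prod.fst_sum, Finset.sum_apply, this]
      · funext j
        have := congrFun e2 j
        simp only [Pi.zero_apply] at this
        simp [Prod.snd_sum, Finset.sum_apply, this]
    funext i
    exact Fintype.linearIndependent_iff.1 hu c e3 i

/-- extension to a neighbourhood -/
theorem t72_ext {X : Type} [TopologicalSpace X] [CompactSpace X] [T2Space X] {S : Set X}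
    (hS : IsClosed S) {g : X → ZMod 2} (hg : ContinuousOn g S) :
    ∃ (O : Set X) (h : X → ZMod 2), IsOpen O ∧ S ⊆ O ∧ ContinuousOn h O ∧ ∀ x ∈ S, h x = g x := by
  classical
  have hA : IsClosed (S ∩ g ⁻¹' {0}) := hg.preimage_isClosed_of_isClosed hS (isClosed_discrete _)
  have hB : IsClosed (S ∩ g ⁻¹' {1}) := hg.preimage_isClosed_of_isClosed hS (isClosed_discrete _)
  have hd : Disjoint (S ∩ g ⁻¹' {0}) (S ∩ g ⁻¹' {1}) := by
    rw [Set.disjoint_left]
    rintro x ⟨_, h0⟩ ⟨_, h1⟩
    have h0 : g x = 0 := h0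
    have h1 : g x = 1 := h1
    rw [h0] at h1
    exact zero_ne_one h1
  obtain ⟨U, V, hU, hV, hAU, hBV, hUV⟩ := normal_separation hA hB hd
  have h2 : ∀ z : ZMod 2, z = 0 ∨ z = 1 := by decide
  refine ⟨U ∪ V, fun x => if x ∈ V then 1 else 0, hU.union hV, ?_, ?_, ?_⟩
  · intro x hx
    rcases h2 (g x) with h | h
    · exact Or.inl (hAU ⟨hx, h⟩)
    · exact Or.inr (hBV ⟨hx, h⟩)
  · intro x hx
    rcases hx with hx | hx
    · refine ContinuousAt.continuousWithinAt ?_
      refine ContinuousAt.congr (f := fun _ => 0) continuousAt_const ?_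
      filter_upwards [hU.mem_nhds hx] with y hy
      rw [if_neg fun h => Set.disjoint_left.1 hUV hy h]
    · refine ContinuousAt.continuousWithinAt ?_
      refine ContinuousAt.congr (f := fun _ => 1) continuousAt_const ?_
      filter_upwards [hV.mem_nhds hx] with y hy
      rw [if_pos hy]
  · intro x hx
    rcases h2 (g x) with h | h
    · have := hAU ⟨hx, h⟩
      simp only [h]
      exact if_neg fun h => Set.disjoint_left.1 hUV this h
    · have := hBV ⟨hx, h⟩
      simp only [h]
      exact if_pos this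

/-- extension to a neighbourhood -/
theorem t72_ext' {X : Type} [TopologicalSpace X] [CompactSpace X] [T2Space X] {S : Set X}
    {k : ℕ} (hS : IsClosed S) (h : t72_Pt k S) :
    ∃ O : Set X, IsOpen O ∧ S ⊆ O ∧ ∀ T, S ⊆ T → T ⊆ O → t72_Pt k T := by
  obtain ⟨g, hg, hi⟩ := h
  choose O h hO hSO hh hhg using fun j => t72_ext hS (hg j)
  refine ⟨⋂ j, O j, isOpen_iInter_of_finite hO, subset_iInter hSO, fun T hST hTO => ?_⟩
  refine ⟨h, fun j => (hh j).mono (hTO.trans (iInter_subset _ j)), fun a ha => hi a fun x hx => ?_⟩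
  rw [← ha x (hST hx)]
  exact Finset.sum_congr rfl fun j _ => by rw [hhg j x hx]

theorem t72 : Stm72 := by
  classical
  intro X Y _ _ _ _ _ f k hf hk hfib hTP
  have hfin : ∀ y, (f ⁻¹' {y}).Finite := fun y => finite_of_ncard_ne_zero (by rw [hfib y]; omega)
  have hsurj : Function.Surjective f := by
    intro y
    have h1 : (f ⁻¹' {y}).Nonempty := by
      rw [Set.nonempty_iff_ne_empty]
      intro h
      have := hfib y
      rw [h, ncard_empty] at this
      omega
    obtain ⟨x, hx⟩ := h1
    exact ⟨x, hx⟩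
  have : CompactSpace Y := ⟨by
    rw [← hsurj.range_eq]
    exact isCompact_range hf⟩
  by_cases hbad : ∃ K : Set Y, IsClosed K ∧ K.Nonempty ∧ ¬ t72_Pt k (f ⁻¹' K)
  · obtain ⟨K0, hK0⟩ := hbad
    obtain ⟨K, -, hK⟩ := zorn_superset_nonempty
      {K : Set Y | IsClosed K ∧ K.Nonempty ∧ ¬ t72_Pt k (f ⁻¹' K)} (by
        intro c hc hchain hne
        have : Nonempty c := hne.to_subtype
        have hdir : DirectedOn (· ⊇ ·) c := by
          intro a ha b hb
          rcases hchain.total ha hb with h | h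
          · exact ⟨a, ha, Subset.rfl, h⟩
          · exact ⟨b, hb, h, Subset.rfl⟩
        have hcl : IsClosed (⋂₀ c) := isClosed_sInter fun s hs => (hc hs).1
        refine ⟨⋂₀ c, ⟨hcl, ?_, ?_⟩, fun s hs => sInter_subset_of_mem hs⟩
        · exact IsCompact.nonempty_sInter_of_directed_nonempty_isCompact_isClosed hdir
            (fun s hs => (hc hs).2.1) (fun s hs => (hc hs).1.isCompact) (fun s hs => (hc hs).1)
        · intro hP
          obtain ⟨O, hO, hSO, hT⟩ := t72_ext' (hcl.preimage hf) hP
          have hC : IsCompact (f '' Oᶜ) := hO.isClosed_compl.isCompact.image hf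
          obtain ⟨s, hs⟩ : ∃ s : c, (f '' Oᶜ) ∩ s.1 = ∅ := by
            have := hC.elim_directed_family_closed (fun s : c => s.1)
              (fun s => (hc s.2).1) (by
                rw [← sInter_eq_iInter, ← Set.disjoint_iff_inter_eq_empty, Set.disjoint_left]
                rintro y ⟨x, hx, rfl⟩ hy
                exact hx (hSO hy)) (by
                rintro ⟨a, ha⟩ ⟨b, hb⟩
                obtain ⟨d, hd, h1, h2⟩ := hdir a ha b hb
                exact ⟨⟨d, hd⟩, h1, h2⟩)
            exact this
          refine (hc s.2).2.2 (hT _ (preimage_mono (sInter_subset_of_mem s.2)) ?_)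
          intro x hx
          by_contra hxO
          have : f x ∈ (f '' Oᶜ) ∩ s.1 := ⟨mem_image_of_mem f hxO, hx⟩
          rw [hs] at this
          exact this) K0 hK0
    obtain ⟨hKc, hKn, hKP⟩ := hK.prop
    have hmin : ∀ K' : Set Y, IsClosed K' → K'.Nonempty → K' ⊆ K → K' ≠ K →
        t72_Pt k (f ⁻¹' K') := by
      intro K' h1 h2 h3 h4
      by_contra h5
      exact h4 (h3.antisymm (hK.le_of_le ⟨h1, h2, h5⟩ h3))
    obtain ⟨u, hu⟩ := hKn
    by_cases hsub : K = {u}
    · rw [hsub] at hKP
      exact hKP (t72_point (by omega) (hfib u))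
    obtain ⟨v, hv, hvu⟩ : ∃ v ∈ K, v ≠ u := by
      by_contra hcon
      push Not at hcon
      exact hsub (Set.eq_singleton_iff_unique_mem.2 ⟨hu, hcon⟩)
    obtain ⟨A, B, hA, hB, huA, hvB, hAB, hAB'⟩ := hTP u (mem_univ u) v (mem_univ v) hvu.symm
    rw [inter_univ] at hAB
    have hdis : ∀ x ∈ A, x ∉ B := fun x hx hx' => by
      have : x ∈ A ∩ B := ⟨hx, hx'⟩
      rw [hAB] at this
      exact this
    have h1c : IsClosed (K \ B) := hKc.sdiff hB
    have h2c : IsClosed (K \ A) := hKc.sdiff hA
    have h1 := hmin (K \ B) h1c ⟨u, hu, hdis u huA⟩ sdiff_subset (by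
      intro h
      rw [← h] at hv
      exact hv.2 hvB)
    have h2 := hmin (K \ A) h2c ⟨v, hv, fun h => hdis v h hvB⟩ sdiff_subset (by
      intro h
      rw [← h] at hu
      exact hu.2 huA)
    have hU : K \ B ∪ K \ A = K := by
      ext x
      constructor
      · rintro (h | h) <;> exact h.1
      · intro h
        by_cases hx : x ∈ A
        · exact Or.inl ⟨h, hdis x hx⟩
        · exact Or.inr ⟨h, hx⟩
    have hI : ∃ y : Y, (K \ B) ∩ (K \ A) ⊆ {y} := by
      by_cases hne : ((K \ B) ∩ (K \ A)).Nonempty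
      · obtain ⟨y, hy⟩ := hne
        refine ⟨y, fun z hz => ?_⟩
        exact hAB' ⟨mem_univ z, fun h => h.elim hz.2.2 hz.1.2⟩
          ⟨mem_univ y, fun h => h.elim hy.2.2 hy.1.2⟩
      · rw [Set.not_nonempty_iff_eq_empty] at hne
        exact ⟨u, by rw [hne]; exact empty_subset _⟩
    obtain ⟨y, hy⟩ := hI
    have hsub2 : f ⁻¹' (K \ B) ∩ f ⁻¹' (K \ A) ⊆ f ⁻¹' {y} := by
      rw [← preimage_inter]
      exact preimage_mono hy
    have := t72_glue (h1c.preimage hf) (h2c.preimage hf) h1 h2 ((hfin y).subset hsub2)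
      ((ncard_le_ncard hsub2 (hfin y)).trans (hfib y).le)
    rw [← preimage_union, hU] at this
    exact hKP this
  · push Not at hbad
    obtain ⟨x0⟩ : Nonempty X := inferInstance
    obtain ⟨g, hg, hi⟩ := hbad univ isClosed_univ ⟨f x0, mem_univ _⟩
    rw [preimage_univ] at hg hi
    have hconst : ∀ j x, g j x = g j x0 := by
      intro j x
      have h1 : IsPreconnected (univ : Set X) := isPreconnected_univ
      exact h1.constant (hg j) (mem_univ x) (mem_univ x0)
    have hex : ∀ c : Fin k → ZMod 2, ∃ a : Fin k → ZMod 2, a ≠ 0 ∧ ∑ j, a j * c j = 0 := by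
      intro c
      let Ψ : (Fin k → ZMod 2) →ₗ[ZMod 2] ZMod 2 :=
        { toFun := fun a => ∑ j, a j * c j
          map_add' := by
            intro p q
            simp only [Pi.add_apply, add_mul, Finset.sum_add_distrib]
          map_smul' := by
            intro r p
            simp only [Pi.smul_apply, smul_eq_mul, RingHom.id_apply, mul_assoc, ← Finset.mul_sum] }
      have h1 := LinearMap.finrank_range_add_finrank_ker Ψ
      have h2 : Module.finrank (ZMod 2) (LinearMap.range Ψ) ≤ 1 := by
        refine (Submodule.finrank_le _).trans ?_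
        rw [Module.finrank_self]
      rw [Module.finrank_fintype_fun_eq_card, Fintype.card_fin] at h1
      have h3 : 0 < Module.finrank (ZMod 2) (LinearMap.ker Ψ) := by omega
      have := Module.nontrivial_of_finrank_pos h3
      obtain ⟨w, hw⟩ := exists_ne (0 : LinearMap.ker Ψ)
      exact ⟨w.1, fun h => hw (Subtype.ext h), w.2⟩
    obtain ⟨a, ha, ha'⟩ := hex fun j => g j x0
    refine ha (hi a fun x _ => ?_)
    rw [← ha']
    exact Finset.sum_congr rfl fun j _ => by rw [hconst j x]

end Pool.Agent.H405
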