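import Pool.Agent.H405.T510

set_option autoImplicit false

/-! Project H405: (7.3) a removable slab. -/

namespace Pool.Agent.H405

open Set Topology Filter Metric
open Pool.Agent.R638.DD

theorem t73_fin (h11 : Stm11) (h59 : Stm59) {Y : Type} [MetricSpace Y] [CompactSpace Y]
    {B F : Set Y} {E : Set (Set Y)} (hctx : Ctx B F) (hE : Fam B F E)
    (hden : IsDen ↥(B \ ⋃₀ E)) {e O : Set Y} (he : e ∈ E) (hO : IsOpen O) (heO : closure e ⊆ O)
    (hOB : O ⊆ B) (hl : ∀ x ∈ closure e, LTP (univ : Set Y) x) :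
    ∃ (e : Set Y) (a b : Y), IsOpen e ∧ a ≠ b ∧ a ∉ e ∧ b ∉ e ∧
      closure e = e ∪ {a, b} ∧ IsDen ↥(closure e) ∧ LTP (univ : Set Y) a ∧
      ∃ ρ : Y → Y, Continuous ρ ∧ range ρ = eᶜ := by
  obtain ⟨a, b, hs⟩ := hE.slab e he
  obtain ⟨O', hO', hO''⟩ := hs.rel
  have heo : e = O ∩ O' := by
    ext x
    constructor
    · intro hx
      have h1 := hx
      rw [hO''] at h1
      exact ⟨heO (subset_closure hx), h1.2⟩
    · rintro ⟨h1, h2⟩
      rw [hO'']
      exact ⟨hOB h1, h2⟩
  have hred := h59 Y 2 le_rfl B F E hctx hE hden univ isClosed_univ (subset_univ _) univ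
    isOpen_univ (subset_univ _) {e} (by simpa using he) (by
      intro e' he'
      rw [mem_singleton_iff] at he'
      subst he'
      exact ⟨O, hO, heO, by simpa using hOB⟩)
  obtain ⟨ρ, h1, h2, h3, -⟩ := hred.retr
  rw [sUnion_singleton, ← compl_eq_univ_sdiff] at h2 h3
  refine ⟨e, a, b, by rw [heo]; exact hO.inter hO', hs.hab, hs.ha, hs.hb, hs.cl,
    hs.isDen h11 hctx.compact, hl a hs.a_mem, ρ, continuousOn_univ.1 h1, ?_⟩
  apply Subset.antisymm
  · rintro _ ⟨x, rfl⟩
    exact h2 (mem_univ x)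
  · intro x hx
    exact ⟨x, h3 x hx⟩

theorem t73 (h11 : Stm11) (h43 : Stm43) (h44 : Stm44) (h51 : Stm51) (h57 : Stm57)
    (h59 : Stm59) : Stm73 := by
  intro Y _ _ hSTP hPP hnTP
  let F1 : Set Y := {y | ¬ LTP (univ : Set Y) y}
  have hF1 : IsClosed F1 := by
    rw [← isOpen_compl_iff, Metric.isOpen_iff]
    intro p hp
    obtain ⟨r, hr, h⟩ := LTP.open' (not_not.1 hp)
    exact ⟨r, hr, fun q hq h' => h' (h q hq)⟩
  by_cases hne : F1.Nonempty
  · obtain ⟨T, hT, hTu⟩ := hSTP
    have : Nonempty ↥F1 := hne.to_subtype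
    have hcF : CompactSpace ↥F1 := isCompact_iff_compactSpace.1 hF1.isCompact
    obtain ⟨n, hn⟩ := nonempty_interior_of_iUnion_of_closed
      (f := fun n => ((↑) : ↥F1 → Y) ⁻¹' (T n))
      (fun n => (hT n).1.preimage continuous_subtype_val) (by
        rw [← preimage_iUnion, hTu, preimage_univ])
    obtain ⟨x, hx⟩ := hn
    rw [mem_interior] at hx
    obtain ⟨O0, hO0, hO0o, hxO0⟩ := hx
    obtain ⟨V, hV, rfl⟩ := isOpen_induced_iff.1 hO0o
    have hpV : x.1 ∈ V := hxO0
    obtain ⟨B, O, hB, hBV, hO, hpO, hOB⟩ := h44 Y univ hPP x.1 (mem_univ _) V hV hpV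
    rw [inter_univ] at hOB
    have hBc : IsCompact B := isCompact_iff_compactSpace.2 hB.compact
    have hctx : Ctx B (F1 ∩ B) := by
      refine ⟨hB, hF1.inter hBc.isClosed, inter_subset_right, ?_⟩
      rintro p ⟨hp, hp'⟩
      have : ¬ ¬ LTP (univ : Set Y) p := fun h => hp' ⟨h, hp⟩
      exact (not_not.1 this).mono (subset_univ _)
    have hTPF : TP (F1 ∩ B) := (hT n).2.mono (by
      rintro y ⟨hy, hyB⟩
      exact hO0 (show (⟨y, hy⟩ : ↥F1) ∈ _ from (hBV hyB).2))
    obtain ⟨E, hE, hMTP, hden⟩ := h57 Y B (F1 ∩ B) hctx hTPF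
    have hex : ∃ e ∈ E, closure e ⊆ O := by
      by_contra hcon
      have hl := t510_ltp h51 hctx hE hMTP (A := univ) hO (by rw [inter_univ]; exact hOB) hpO
        ⟨x.2, hOB hpO⟩
      have he : {e ∈ E | closure e ⊆ O} = ∅ := by
        ext e
        simp only [mem_ofPred_eq, mem_empty_iff_false, iff_false]
        exact fun h => hcon ⟨e, h⟩
      rw [he, sUnion_empty, sdiff_empty] at hl
      exact x.2 hl
    obtain ⟨e, he, heO⟩ := hex
    refine t73_fin h11 h59 hctx hE hden he hO heO hOB ?_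
    intro y hy
    by_contra h
    obtain ⟨a, b, hs⟩ := hE.slab e he
    exact Set.disjoint_left.1 hs.clF hy ⟨h, hOB (heO hy)⟩
  · rw [Set.not_nonempty_iff_eq_empty] at hne
    have hall : ∀ y : Y, LTP (univ : Set Y) y := by
      intro y
      by_contra h
      have : y ∈ F1 := h
      rw [hne] at this
      exact this
    have hctx : Ctx (univ : Set Y) ∅ :=
      ⟨h43.2 Y univ hPP, isClosed_empty, empty_subset _, fun p _ => hall p⟩
    obtain ⟨E, hE, hMTP, hden⟩ := h57 Y univ ∅ hctx (by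
      intro u hu
      exact hu.elim)
    have hex : ∃ e, e ∈ E := by
      by_contra hcon
      have he : E = ∅ := by
        ext e
        simp only [mem_empty_iff_false, iff_false]
        exact fun h => hcon ⟨e, h⟩
      rw [he, sUnion_empty, sdiff_empty] at hMTP
      exact hnTP hMTP
    obtain ⟨e, he⟩ := hex
    exact t73_fin h11 h59 hctx hE hden he isOpen_univ (subset_univ _) Subset.rfl
      (fun y _ => hall y)

end Pool.Agent.H405
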